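import Mathlib
import Pool.Prelude.Def_F_458e953d

/-! Compatible triangulations of simple polygons: the definitions of the decision problem. -/

namespace Pool.Agent.Lib57.CT

open Set Topology

/-- Points of the plane. -/
abbrev Pt : Type := ℝ × ℝ

/-- Twice the signed area of the triangle `a b c`; it is positive iff `a, b, c` are the corners of
a non-degenerate triangle in counterclockwise order. -/
def orient (a b c : Pt) : ℝ := (b.1 - a.1) * (c.2 - a.2) - (b.2 - a.2) * (c.1 - a.1)

/-- The closed triangle with corners `a`, `b`, `c`. -/
def tri (a b c : Pt) : Set Pt := convexHull ℝ {a, b, c}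

/-- The cyclic successor of a vertex of an `n`-gon. -/
def nx {n : ℕ} (i : Fin n) : Fin n := ⟨(i.val + 1) % n, Nat.mod_lt _ i.pos⟩

/-- The boundary of the polygon with vertices `P 0, P 1, ...` in cyclic order. -/
def curve {n : ℕ} (P : Fin n → Pt) : Set Pt := ⋃ i, segment ℝ (P i) (P (nx i))

/-- The closed region bounded by the polygon: the boundary curve together with all points lying
in a bounded connected component of the complement of the curve. -/
def region {n : ℕ} (P : Fin n → Pt) : Set Pt :=
  curve P ∪ {z | z ∉ curve P ∧ Bornology.IsBounded (connectedComponentIn (curve P)ᶜ z)}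

/-- `P` is a simple polygon: the closed polygonal curve through its vertices has no
self-intersection (and no degenerate edge). -/
structure IsSimplePolygon {n : ℕ} (P : Fin n → Pt) : Prop where
  three_le : 3 ≤ n
  simple : ∀ (i j : Fin n) (s t : ℝ), s ∈ Ico (0 : ℝ) 1 → t ∈ Ico (0 : ℝ) 1 →
    AffineMap.lineMap (P i) (P (nx i)) s = AffineMap.lineMap (P j) (P (nx j)) t → i = j ∧ s = t

/-- The vertices of `P` are listed counterclockwise: the region lies to the left of each edge. -/
def IsCcw {n : ℕ} (P : Fin n → Pt) : Prop :=
  ∀ i, ∀ z ∈ openSegment ℝ (P i) (P (nx i)),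
    ∀ᶠ w in 𝓝 z, 0 < orient (P i) (P (nx i)) w → w ∈ region P

/-- The position of a label: the labels are the `n` vertices of the polygon and `m` Steiner
points. -/
def pos {n m : ℕ} (P : Fin n → Pt) (S : Fin m → Pt) : Fin n ⊕ Fin m → Pt := Sum.elim P S

/-- `T` is a triangulation of the simple polygon `P` with the Steiner points `S`. The relation
`T a b c` says that `a, b, c` are the labels, in counterclockwise order, of the corners of one of
the triangles. -/
structure IsTriangulation {n m : ℕ} (P : Fin n → Pt) (S : Fin m → Pt)
    (T : Fin n ⊕ Fin m → Fin n ⊕ Fin m → Fin n ⊕ Fin m → Prop) : Prop where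
  /-- the vertices have different positions -/
  inj : Function.Injective (pos P S)
  /-- the Steiner points lie in the interior of the polygon -/
  steiner : ∀ j, S j ∈ region P \ curve P
  /-- a triangle may be named starting from any of its corners -/
  rot : ∀ a b c, T a b c → T b c a
  /-- the triangles are non-degenerate and their corners are in counterclockwise order -/
  ccw : ∀ a b c, T a b c → 0 < orient (pos P S a) (pos P S b) (pos P S c)
  /-- the triangles cover exactly the closed region bounded by `P` -/
  cover : (⋃ (a) (b) (c) (_ : T a b c), tri (pos P S a) (pos P S b) (pos P S c)) = region P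
  /-- different triangles have disjoint interiors -/
  disj : ∀ a b c a' b' c', T a b c → T a' b' c' →
    (interior (tri (pos P S a) (pos P S b) (pos P S c)) ∩
      interior (tri (pos P S a') (pos P S b') (pos P S c'))).Nonempty →
    ({a, b, c} : Set (Fin n ⊕ Fin m)) = {a', b', c'}
  /-- the triangulation is edge-to-edge: no vertex lies in a triangle, except as a corner -/
  corner : ∀ a b c v, T a b c → pos P S v ∈ tri (pos P S a) (pos P S b) (pos P S c) →
    v = a ∨ v = b ∨ v = c

/-- `a` and `b` are joined by an edge of the triangulation `T`. -/
def IsEdge {α : Type} (T : α → α → α → Prop) (a b : α) : Prop := ∃ c, T a b c ∨ T b a c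

/-- Turning counterclockwise around the point `v`, one meets the directions to `b`, `c`, `d` in
this cyclic order (that is, at least two of the three counterclockwise angles from `b` to `c`,
from `c` to `d` and from `d` to `b` are smaller than `π`). -/
def CycOrder (v b c d : Pt) : Prop :=
  (0 < orient v b c ∧ 0 < orient v c d) ∨ (0 < orient v c d ∧ 0 < orient v d b) ∨
    (0 < orient v d b ∧ 0 < orient v b c)

/-- `c` is the neighbour which follows the neighbour `b` in the counterclockwise cyclic order of
the neighbours of `v`, in the triangulation `T` drawn with the vertex positions `p`. -/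
def Next {α : Type} (p : α → Pt) (T : α → α → α → Prop) (v b c : α) : Prop :=
  IsEdge T v b ∧ IsEdge T v c ∧ b ≠ c ∧
    ∀ d, IsEdge T v d → d ≠ b → d ≠ c → CycOrder (p v) (p b) (p c) (p d)

/-- The two drawn triangulations have the same rotation system: every vertex has the same
neighbours in the same (counterclockwise) cyclic order. -/
def SameRotation {α : Type} (p : α → Pt) (T : α → α → α → Prop) (q : α → Pt)
    (T' : α → α → α → Prop) : Prop :=
  (∀ a b, IsEdge T a b ↔ IsEdge T' a b) ∧ ∀ v b c, Next p T v b c ↔ Next q T' v b c

/-- `P` and `Q` have compatible triangulations with at most `k` Steiner points: there are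
triangulations of `P` and of `Q` with the same number `m ≤ k` of (labelled) Steiner points and
with the same rotation system. -/
def Compatible {n : ℕ} (k : ℕ) (P Q : Fin n → Pt) : Prop :=
  ∃ m ≤ k, ∃ (S S' : Fin m → Pt)
    (T T' : Fin n ⊕ Fin m → Fin n ⊕ Fin m → Fin n ⊕ Fin m → Prop),
    IsTriangulation P S T ∧ IsTriangulation Q S' T' ∧
      SameRotation (pos P S) T (pos Q S') T'

/-- The real points with the given rational coordinates. -/
def toPts {n : ℕ} (P : Fin n → ℚ × ℚ) : Fin n → Pt := fun i => (((P i).1 : ℝ), ((P i).2 : ℝ))

/-- The bit string encoding of the instance `(P, Q, k)`: the two lists of (rational) vertices and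
the number `k` in binary. -/
def encodeInst {n : ℕ} (P Q : Fin n → ℚ × ℚ) (k : ℕ) : List Bool :=
  N487b59b3.bitEncode (List.ofFn P, List.ofFn Q, k)

/-- `P` and `Q` are the vertices, in counterclockwise order, of two simple polygons with rational
coordinates and the same number of vertices. -/
structure ValidInst {n : ℕ} (P Q : Fin n → ℚ × ℚ) : Prop where
  simpleP : IsSimplePolygon (toPts P)
  simpleQ : IsSimplePolygon (toPts Q)
  ccwP : IsCcw (toPts P)
  ccwQ : IsCcw (toPts Q)

open Classical in
/-- The compatible triangulation problem for simple polygons. -/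
noncomputable def CompatTri : N68a2faeb.DecisionProblem := fun x =>
  decide (∃ (n : ℕ) (P Q : Fin n → ℚ × ℚ) (k : ℕ), x = encodeInst P Q k ∧ ValidInst P Q ∧
    Compatible k (toPts P) (toPts Q))

end Pool.Agent.Lib57.CT
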