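import Mathlib
import Pool.Agent.Lib_helper57.CT.Defs

/-! `x`-monotone polygons and combinatorial triangulations: definitions. -/

namespace Pool.Agent.Lib57.CT

/-- `x` lies in the closed `x`-range of the edge from `P i` to `P (nx i)` -/
def span {n : ℕ} (P : Fin n → Pt) (i : Fin n) (x : ℝ) : Prop :=
  ((P i).1 ≤ x ∧ x ≤ (P (nx i)).1) ∨ ((P (nx i)).1 ≤ x ∧ x ≤ (P i).1)

/-- `P` is an `x`-monotone polygon: the vertices `0, ..., r` form the lower chain (from left to
right), the vertices `r, ..., n - 1, 0` the upper chain (from right to left). -/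
structure Mono {n : ℕ} (P : Fin n → Pt) (r : ℕ) : Prop where
  n3 : 3 ≤ n
  r0 : 0 < r
  rn : r < n
  inc : ∀ i : Fin n, i.val < r → (P i).1 < (P (nx i)).1
  dec : ∀ i : Fin n, r ≤ i.val → (P (nx i)).1 < (P i).1
  /-- upper vertices are strictly above the lower edges -/
  low : ∀ i j : Fin n, i.val < r → r < j.val → (P i).1 ≤ (P j).1 → (P j).1 ≤ (P (nx i)).1 →
    0 < orient (P i) (P (nx i)) (P j)
  /-- lower vertices are strictly below the upper edges -/
  up : ∀ i j : Fin n, r ≤ i.val → 0 < j.val → j.val < r → (P (nx i)).1 ≤ (P j).1 →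
    (P j).1 ≤ (P i).1 → 0 < orient (P i) (P (nx i)) (P j)

/-- the region of an `x`-monotone polygon -/
def regM {n : ℕ} (P : Fin n → Pt) : Set Pt :=
  {z | (∃ i, span P i z.1) ∧ ∀ i, span P i z.1 → 0 ≤ orient (P i) (P (nx i)) z}

open Classical in
/-- signed crossing of the edge `u v` with the downward vertical ray from `z` -/
noncomputable def cr (u v z : Pt) : ℤ :=
  if u.1 < z.1 ∧ z.1 < v.1 ∧ 0 < orient u v z then 1
  else if v.1 < z.1 ∧ z.1 < u.1 ∧ 0 < orient v u z then -1 else 0

/-- combinatorial triangulations of an `n`-gon with `m` Steiner points -/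
structure Comb {n m : ℕ} (T : Fin n ⊕ Fin m → Fin n ⊕ Fin m → Fin n ⊕ Fin m → Prop) : Prop where
  rot : ∀ a b c, T a b c → T b c a
  uniq : ∀ a b c c', T a b c → T a b c' → c = c'
  /-- the edges of the polygon are edges of triangles, with the triangle on the left side -/
  bd : ∀ i : Fin n, ∃ c, T (Sum.inl i) (Sum.inl (nx i)) c
  nobd : ∀ (i : Fin n) c, ¬ T (Sum.inl (nx i)) (Sum.inl i) c
  /-- every other edge belongs to triangles on both sides -/
  edge : ∀ a b c, T a b c →
    (∃ i : Fin n, a = Sum.inl i ∧ b = Sum.inl (nx i)) ∨ ∃ d, T b a d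

/-- `P` and `Q` have a common triangulation (one set `T` of counterclockwise label triples) with
at most `k` Steiner points -/
def CompatibleT {n : ℕ} (k : ℕ) (P Q : Fin n → Pt) : Prop :=
  ∃ m ≤ k, ∃ (S S' : Fin m → Pt) (T : Fin n ⊕ Fin m → Fin n ⊕ Fin m → Fin n ⊕ Fin m → Prop),
    IsTriangulation P S T ∧ IsTriangulation Q S' T

end Pool.Agent.Lib57.CT
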