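import Mathlib
import Pool.Agent.Lib_helper57.CT.MonoDef

/-! BLOCK TGEO: elementary facts about triangles. -/

namespace Pool.Agent.Lib57.CT

open Set Topology

theorem orient_rot (a b c : Pt) : orient b c a = orient a b c := by
  unfold orient; ring

theorem orient_swap (a b c : Pt) : orient b a c = -orient a b c := by
  unfold orient; ring

theorem orient_sum (a b c z : Pt) :
    orient a b z + orient b c z + orient c a z = orient a b c := by
  unfold orient; ring

theorem cr_swap (u v z : Pt) : cr v u z = -cr u v z := by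
  unfold cr
  by_cases h1 : u.1 < z.1 ∧ z.1 < v.1 ∧ 0 < orient u v z
  · have h2 : ¬ (v.1 < z.1 ∧ z.1 < u.1 ∧ 0 < orient v u z) := fun h => by
      linarith [h1.1, h.2.1]
    rw [if_pos h1, if_neg h2, if_pos h1]
  · by_cases h2 : v.1 < z.1 ∧ z.1 < u.1 ∧ 0 < orient v u z
    · rw [if_pos h2, if_neg h1, if_pos h2]
      norm_num
    · rw [if_neg h2, if_neg h1, if_neg h1, if_neg h2]
      norm_num

theorem tgeo_orient_comb (a b x y : Pt) (s t : ℝ) (h : s + t = 1) :
    orient a b (s • x + t • y) = s * orient a b x + t * orient a b y := by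
  unfold orient
  simp only [Prod.fst_add, Prod.snd_add, Prod.smul_fst, Prod.smul_snd, smul_eq_mul]
  have ht : t = 1 - s := by linarith
  subst ht
  ring

theorem tgeo_orient_self (a b : Pt) : orient a b a = 0 := by
  unfold orient; ring

theorem tgeo_orient_self' (a b : Pt) : orient a b b = 0 := by
  unfold orient; ring

theorem tgeo_cont (a b : Pt) : Continuous (fun z : Pt => orient a b z) := by
  unfold orient
  fun_prop

theorem tgeo_convex (a b : Pt) : Convex ℝ {z : Pt | 0 ≤ orient a b z} := by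
  intro x hx y hy s t hs ht hst
  show 0 ≤ orient a b (s • x + t • y)
  rw [tgeo_orient_comb a b x y s t hst]
  exact add_nonneg (mul_nonneg hs hx) (mul_nonneg ht hy)

theorem tgeo_mem (a b c : Pt) : a ∈ tri a b c ∧ b ∈ tri a b c ∧ c ∈ tri a b c := by
  unfold tri
  refine ⟨subset_convexHull ℝ _ ?_, subset_convexHull ℝ _ ?_, subset_convexHull ℝ _ ?_⟩ <;> simp

theorem tri_eq {a b c : Pt} (h : 0 < orient a b c) :
    tri a b c = {z | 0 ≤ orient a b z ∧ 0 ≤ orient b c z ∧ 0 ≤ orient c a z} := by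
  apply Subset.antisymm
  · apply convexHull_min
    · intro x hx
      have h1 := orient_rot a b c
      have h2 := orient_rot b c a
      rcases hx with rfl | rfl | rfl
      · refine ⟨(tgeo_orient_self _ _).ge, by rw [h1]; exact h.le, (tgeo_orient_self' _ _).ge⟩
      · refine ⟨(tgeo_orient_self' _ _).ge, (tgeo_orient_self _ _).ge, by rw [h2, h1]; exact h.le⟩
      · refine ⟨h.le, (tgeo_orient_self' _ _).ge, (tgeo_orient_self _ _).ge⟩
    · exact (tgeo_convex a b).inter ((tgeo_convex b c).inter (tgeo_convex c a))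
  · rintro z ⟨h1, h2, h3⟩
    have hs := orient_sum a b c z
    obtain ⟨ma, mb, mc⟩ := tgeo_mem a b c
    have hconv : Convex ℝ (tri a b c) := convex_convexHull ℝ _
    set O := orient a b c with hO
    have hz : z = (orient b c z / O) • a + (orient c a z / O) • b + (orient a b z / O) • c := by
      have e1 : O * z.1 = orient b c z * a.1 + orient c a z * b.1 + orient a b z * c.1 := by
        rw [hO]; unfold orient; ring
      have e2 : O * z.2 = orient b c z * a.2 + orient c a z * b.2 + orient a b z * c.2 := by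
        rw [hO]; unfold orient; ring
      ext
      · simp only [Prod.fst_add, Prod.smul_fst, smul_eq_mul]
        field_simp
        linarith
      · simp only [Prod.snd_add, Prod.smul_snd, smul_eq_mul]
        field_simp
        linarith
    have hsum : ∑ i : Fin 3, (![orient b c z / O, orient c a z / O, orient a b z / O] i) •
        (![a, b, c] i) ∈ tri a b c := by
      apply hconv.sum_mem
      · intro i _
        fin_cases i
        · exact div_nonneg h2 h.le
        · exact div_nonneg h3 h.le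
        · exact div_nonneg h1 h.le
      · simp only [Fin.sum_univ_three, Matrix.cons_val_zero, Matrix.cons_val_one,
          Matrix.cons_val_two, Matrix.head_cons, Matrix.tail_cons]
        rw [← add_div, ← add_div, div_eq_one_iff_eq h.ne']
        linarith
      · intro i _
        fin_cases i
        · exact ma
        · exact mb
        · exact mc
    simp only [Fin.sum_univ_three, Matrix.cons_val_zero, Matrix.cons_val_one,
      Matrix.cons_val_two, Matrix.head_cons, Matrix.tail_cons] at hsum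
    rwa [← hz] at hsum

theorem tgeo_rot (a b c : Pt) : tri b c a = tri a b c := by
  unfold tri
  congr 1
  ext x
  simp only [mem_insert_iff, mem_singleton_iff]
  tauto

theorem tgeo_int_pos {a b c z : Pt} (h : 0 < orient a b c) (hz : z ∈ interior (tri a b c)) :
    0 < orient a b z := by
  have hc : Continuous (fun t : ℝ => (1 + t) • z + (-t) • c) := by fun_prop
  have h0 : (fun t : ℝ => (1 + t) • z + (-t) • c) 0 = z := by simp
  have hev : ∀ᶠ t : ℝ in 𝓝 0, (1 + t) • z + (-t) • c ∈ tri a b c := by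
    have h1 : tri a b c ∈ 𝓝 ((fun t : ℝ => (1 + t) • z + (-t) • c) 0) := by
      rw [h0]
      exact mem_interior_iff_mem_nhds.mp hz
    exact hc.continuousAt h1
  obtain ⟨t, ht, ht0⟩ : ∃ t : ℝ, (1 + t) • z + (-t) • c ∈ tri a b c ∧ 0 < t := by
    have h2 := (hev.filter_mono (nhdsWithin_le_nhds (s := Ioi (0 : ℝ)))).and
      (self_mem_nhdsWithin : Ioi (0 : ℝ) ∈ 𝓝[>] 0)
    obtain ⟨t, h3, h4⟩ := h2.exists
    exact ⟨t, h3, h4⟩
  rw [tri_eq h] at ht
  have h3 := ht.1
  rw [tgeo_orient_comb a b z c (1 + t) (-t) (by ring)] at h3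
  by_contra hcon
  push Not at hcon
  nlinarith [mul_pos ht0 h]

theorem interior_tri {a b c : Pt} (h : 0 < orient a b c) :
    interior (tri a b c) = {z | 0 < orient a b z ∧ 0 < orient b c z ∧ 0 < orient c a z} := by
  apply Subset.antisymm
  · intro z hz
    have h1 := orient_rot a b c
    have h2 := orient_rot b c a
    refine ⟨tgeo_int_pos h hz, ?_, ?_⟩
    · have hz' : z ∈ interior (tri b c a) := by rwa [tgeo_rot a b c]
      exact tgeo_int_pos (by rw [h1]; exact h) hz'
    · have hz' : z ∈ interior (tri c a b) := by rwa [tgeo_rot b c a, tgeo_rot a b c]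
      exact tgeo_int_pos (by rw [h2, h1]; exact h) hz'
  · apply interior_maximal
    · rw [tri_eq h]
      rintro z ⟨h1, h2, h3⟩
      exact ⟨h1.le, h2.le, h3.le⟩
    · exact (isOpen_lt continuous_const (tgeo_cont a b)).inter
        ((isOpen_lt continuous_const (tgeo_cont b c)).inter
          (isOpen_lt continuous_const (tgeo_cont c a)))

theorem isClosed_tri (a b c : Pt) : IsClosed (tri a b c) := by
  unfold tri
  exact Set.Finite.isClosed_convexHull ℝ (by simp)

theorem tri_rot (a b c : Pt) : tri b c a = tri a b c := tgeo_rot a b c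

theorem segment_subset_tri (a b c : Pt) : segment ℝ a b ⊆ tri a b c := by
  obtain ⟨ma, mb, -⟩ := tgeo_mem a b c
  have hconv : Convex ℝ (tri a b c) := convex_convexHull ℝ _
  exact hconv.segment_subset ma mb

/-- a closed triangle is the closure of its interior -/
theorem tri_subset_closure {a b c : Pt} (h : 0 < orient a b c) :
    tri a b c ⊆ closure (interior (tri a b c)) := by
  have hconv : Convex ℝ (tri a b c) := convex_convexHull ℝ _
  have hne : (interior (tri a b c)).Nonempty := by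
    rw [interior_tri h]
    refine ⟨((a.1 + b.1 + c.1) / 3, (a.2 + b.2 + c.2) / 3), ?_, ?_, ?_⟩
    · have e : orient a b ((a.1 + b.1 + c.1) / 3, (a.2 + b.2 + c.2) / 3) = orient a b c / 3 := by
        unfold orient; ring
      rw [e]; linarith
    · have e : orient b c ((a.1 + b.1 + c.1) / 3, (a.2 + b.2 + c.2) / 3) = orient a b c / 3 := by
        unfold orient; ring
      rw [e]; linarith
    · have e : orient c a ((a.1 + b.1 + c.1) / 3, (a.2 + b.2 + c.2) / 3) = orient a b c / 3 := by
        unfold orient; ring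
      rw [e]; linarith
  rw [hconv.closure_interior_eq_closure_of_nonempty_interior hne]
  exact subset_closure

theorem tgeo_sgn {x y : ℝ} (hx : x ≠ 0) (hy : y ≠ 0) :
    (0 < x ∧ ¬ x < 0 ∧ 0 < y ∧ ¬ y < 0 ∧ 0 < x * y) ∨
    (0 < x ∧ ¬ x < 0 ∧ ¬ 0 < y ∧ y < 0 ∧ x * y < 0) ∨
    (¬ 0 < x ∧ x < 0 ∧ 0 < y ∧ ¬ y < 0 ∧ x * y < 0) ∨
    (¬ 0 < x ∧ x < 0 ∧ ¬ 0 < y ∧ y < 0 ∧ 0 < x * y) := by
  rcases lt_or_gt_of_ne hx with h1 | h1 <;> rcases lt_or_gt_of_ne hy with h2 | h2
  · exact Or.inr (Or.inr (Or.inr ⟨not_lt.mpr h1.le, h1, not_lt.mpr h2.le, h2,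
      mul_pos_of_neg_of_neg h1 h2⟩))
  · exact Or.inr (Or.inr (Or.inl ⟨not_lt.mpr h1.le, h1, h2, not_lt.mpr h2.le,
      mul_neg_of_neg_of_pos h1 h2⟩))
  · exact Or.inr (Or.inl ⟨h1, not_lt.mpr h1.le, not_lt.mpr h2.le, h2,
      mul_neg_of_pos_of_neg h1 h2⟩)
  · exact Or.inl ⟨h1, not_lt.mpr h1.le, h2, not_lt.mpr h2.le, mul_pos h1 h2⟩

open Classical in
theorem tgeo_key {A B C p q r : ℝ} (hA : A ≠ 0) (hB : B ≠ 0) (hC : C ≠ 0) (hp : p ≠ 0)
    (hq : q ≠ 0) (hr : r ≠ 0) (h1 : p * A + q * B + r * C = 0) (h2 : 0 < p + q + r) :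
    (if A < 0 ∧ 0 < B ∧ 0 < r then (1 : ℤ) else if B < 0 ∧ 0 < A ∧ r < 0 then -1 else 0) +
    (if B < 0 ∧ 0 < C ∧ 0 < p then (1 : ℤ) else if C < 0 ∧ 0 < B ∧ p < 0 then -1 else 0) +
    (if C < 0 ∧ 0 < A ∧ 0 < q then (1 : ℤ) else if A < 0 ∧ 0 < C ∧ q < 0 then -1 else 0) =
    if 0 < r ∧ 0 < p ∧ 0 < q then 1 else 0 := by
  rcases tgeo_sgn hp hA with ⟨a1, a2, a3, a4, a5⟩ | ⟨a1, a2, a3, a4, a5⟩ | ⟨a1, a2, a3, a4, a5⟩ |
    ⟨a1, a2, a3, a4, a5⟩ <;>
  rcases tgeo_sgn hq hB with ⟨b1, b2, b3, b4, b5⟩ | ⟨b1, b2, b3, b4, b5⟩ | ⟨b1, b2, b3, b4, b5⟩ |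
    ⟨b1, b2, b3, b4, b5⟩ <;>
  rcases tgeo_sgn hr hC with ⟨c1, c2, c3, c4, c5⟩ | ⟨c1, c2, c3, c4, c5⟩ | ⟨c1, c2, c3, c4, c5⟩ |
    ⟨c1, c2, c3, c4, c5⟩ <;>
  first
  | (exfalso; linarith)
  | (simp only [a1, a2, a3, a4, b1, b2, b3, b4, c1, c2, c3, c4, and_true, true_and, and_false,
      false_and, if_true, if_false]; norm_num)

open Classical in
/-- the number of signed crossings of the boundary of a counterclockwise triangle -/
theorem cr_tri {a b c z : Pt} (h : 0 < orient a b c) (hab : a.1 ≠ b.1) (hbc : b.1 ≠ c.1)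
    (hca : c.1 ≠ a.1) (za : z.1 ≠ a.1) (zb : z.1 ≠ b.1) (zc : z.1 ≠ c.1)
    (z1 : orient a b z ≠ 0) (z2 : orient b c z ≠ 0) (z3 : orient c a z ≠ 0) :
    cr a b z + cr b c z + cr c a z = if z ∈ interior (tri a b c) then 1 else 0 := by
  have key := tgeo_key (A := a.1 - z.1) (B := b.1 - z.1) (C := c.1 - z.1)
    (p := orient b c z) (q := orient c a z) (r := orient a b z)
    (sub_ne_zero.mpr za.symm) (sub_ne_zero.mpr zb.symm) (sub_ne_zero.mpr zc.symm) z2 z3 z1
    (by unfold orient; ring) (by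
      have := orient_sum a b c z
      linarith)
  rw [interior_tri h]
  unfold cr
  simp only [mem_setOf_eq]
  rw [orient_swap a b z, orient_swap b c z, orient_swap c a z]
  simp only [sub_neg, sub_pos] at key
  simp only [Left.neg_pos_iff]
  exact key

end Pool.Agent.Lib57.CT
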