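import Mathlib
import Pool.Agent.Lib_helper57.CT.TriGeo

/-! BLOCK BR1: geometric triangulations are combinatorial triangulations. -/

namespace Pool.Agent.Lib57.CT

open Set Topology

theorem br1_cont (u v : Pt) : Continuous fun w : Pt => orient u v w := by
  unfold orient
  fun_prop

/-- on the line through `q` -/
theorem br1_on {a b q : Pt} (h : q ∈ openSegment ℝ a b) : orient a b q = 0 := by
  obtain ⟨s, t, hs, ht, hst, rfl⟩ := h
  have : s = 1 - t := by linarith
  subst this
  simp only [orient, Prod.fst_add, Prod.snd_add, Prod.smul_fst, Prod.smul_snd, smul_eq_mul]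
  ring

theorem br1_ne {a b : Pt} (h : a ≠ b) : 0 < (b.1 - a.1) ^ 2 + (b.2 - a.2) ^ 2 := by
  by_contra hcon
  have h1 : (b.1 - a.1) ^ 2 = 0 := by nlinarith [sq_nonneg (b.1 - a.1), sq_nonneg (b.2 - a.2)]
  have h2 : (b.2 - a.2) ^ 2 = 0 := by nlinarith [sq_nonneg (b.1 - a.1), sq_nonneg (b.2 - a.2)]
  rw [sq_eq_zero_iff] at h1 h2
  exact h (Prod.ext (by linarith) (by linarith))

/-- the points `q + ε h` -/
theorem br1_tend (q h : Pt) : Filter.Tendsto (fun ε : ℝ => (q.1 + ε * h.1, q.2 + ε * h.2))
    (𝓝[>] (0 : ℝ)) (𝓝 q) := by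
  have h1 : Continuous (fun ε : ℝ => ((q.1 + ε * h.1, q.2 + ε * h.2) : Pt)) := by fun_prop
  have h2 := h1.tendsto 0
  simp only [zero_mul, add_zero, Prod.mk.eta] at h2
  exact h2.mono_left nhdsWithin_le_nhds

/-- there are points close to `q` strictly left of a line through `q` -/
theorem br1_left {a b q : Pt} (hab : a ≠ b) (hq : orient a b q = 0) :
    ∃ᶠ w in 𝓝 q, 0 < orient a b w := by
  have h1 : ∀ᶠ ε in 𝓝[>] (0 : ℝ), 0 < orient a b
      ((q.1 + ε * (-(b.2 - a.2)), q.2 + ε * (b.1 - a.1)) : Pt) := by
    filter_upwards [self_mem_nhdsWithin] with ε hε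
    have h2 : orient a b ((q.1 + ε * (-(b.2 - a.2)), q.2 + ε * (b.1 - a.1)) : Pt) =
        orient a b q + ε * ((b.1 - a.1) ^ 2 + (b.2 - a.2) ^ 2) := by
      unfold orient; ring
    rw [h2, hq, zero_add]
    exact mul_pos hε (br1_ne hab)
  have := br1_tend q (-(b.2 - a.2), b.1 - a.1)
  exact this.frequently h1.frequently

/-- half planes -/
theorem br1_half {u v u' v' q : Pt} (huv : u ≠ v) (huv' : u' ≠ v') (hq : orient u v q = 0)
    (hq' : orient u' v' q = 0) (h : ∀ᶠ w in 𝓝 q, 0 < orient u v w → 0 ≤ orient u' v' w) :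
    ∃ l : ℝ, 0 < l ∧ v'.1 - u'.1 = l * (v.1 - u.1) ∧ v'.2 - u'.2 = l * (v.2 - u.2) := by
  have hpos := br1_ne huv
  have hpos' := br1_ne huv'
  -- the inequality in direction `J d + s d`
  have key : ∀ s : ℝ, 0 ≤ (v'.1 - u'.1) * ((v.1 - u.1) + s * (v.2 - u.2)) -
      (v'.2 - u'.2) * (-(v.2 - u.2) + s * (v.1 - u.1)) := by
    intro s
    have h1 := (br1_tend q (-(v.2 - u.2) + s * (v.1 - u.1), (v.1 - u.1) + s * (v.2 - u.2))).eventually h
    have h2 : ∀ᶠ ε in 𝓝[>] (0 : ℝ), 0 < ε := self_mem_nhdsWithin
    obtain ⟨ε, hε, hε0⟩ := (h1.and h2).exists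
    have e1 : orient u v ((q.1 + ε * (-(v.2 - u.2) + s * (v.1 - u.1)),
        q.2 + ε * ((v.1 - u.1) + s * (v.2 - u.2))) : Pt) =
        orient u v q + ε * ((v.1 - u.1) ^ 2 + (v.2 - u.2) ^ 2) := by
      unfold orient; ring
    have e2 : orient u' v' ((q.1 + ε * (-(v.2 - u.2) + s * (v.1 - u.1)),
        q.2 + ε * ((v.1 - u.1) + s * (v.2 - u.2))) : Pt) =
        orient u' v' q + ε * ((v'.1 - u'.1) * ((v.1 - u.1) + s * (v.2 - u.2)) -
      (v'.2 - u'.2) * (-(v.2 - u.2) + s * (v.1 - u.1))) := by
      unfold orient; ring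
    have h3 := hε (by simp only; rw [e1, hq, zero_add]; exact mul_pos hε0 hpos)
    simp only at h3
    rw [e2, hq', zero_add] at h3
    exact nonneg_of_mul_nonneg_right h3 hε0
  set x := v.1 - u.1 with hx
  set y := v.2 - u.2 with hy
  set x' := v'.1 - u'.1 with hx'
  set y' := v'.2 - u'.2 with hy'
  -- cross product zero
  have hc : x' * y - y' * x = 0 := by
    by_contra hne
    have h1 := key (-(x' * x + y' * y + 1) / (x' * y - y' * x))
    have h2 : x' * (x + -(x' * x + y' * y + 1) / (x' * y - y' * x) * y) -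
        y' * (-y + -(x' * x + y' * y + 1) / (x' * y - y' * x) * x) =
        (x' * x + y' * y) + (-(x' * x + y' * y + 1) / (x' * y - y' * x)) * (x' * y - y' * x) := by
      ring
    rw [h2, div_mul_cancel₀ _ hne] at h1
    linarith
  have hd := key 0
  have hd' : 0 ≤ x' * x + y' * y := by linarith
  refine ⟨(x' * x + y' * y) / (x ^ 2 + y ^ 2), ?_, ?_, ?_⟩
  · apply div_pos _ hpos
    rcases hd'.lt_or_eq with h1 | h1
    · exact h1
    · exfalso
      have h2 : (x' ^ 2 + y' ^ 2) * (x ^ 2 + y ^ 2) =
          (x' * x + y' * y) ^ 2 + (x' * y - y' * x) ^ 2 := by ring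
      rw [← h1, hc] at h2
      have h3 := mul_pos hpos' hpos
      rw [h2] at h3
      norm_num at h3
  · field_simp
    linear_combination y * hc
  · field_simp
    linear_combination (-x) * hc

/-- comparing two segments through `q` with the same direction -/
theorem br1_cmp {a b u v q : Pt} (h1 : q ∈ openSegment ℝ a b) (h2 : q ∈ openSegment ℝ u v)
    {l : ℝ} (hl : 0 < l) (hx : v.1 - u.1 = l * (b.1 - a.1)) (hy : v.2 - u.2 = l * (b.2 - a.2)) :
    (u ∈ openSegment ℝ a b ∨ a ∈ openSegment ℝ u v ∨ u = a) ∧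
    (v ∈ openSegment ℝ a b ∨ b ∈ openSegment ℝ u v ∨ v = b) := by
  obtain ⟨s', s, hs', hs, hss, hq⟩ := h1
  obtain ⟨t', t, ht', ht, htt, hq'⟩ := h2
  have es : s' = 1 - s := by linarith
  have et : t' = 1 - t := by linarith
  subst es et
  have q1 : (1 - s) * a.1 + s * b.1 = q.1 := by rw [← hq]; simp
  have q2 : (1 - s) * a.2 + s * b.2 = q.2 := by rw [← hq]; simp
  have q3 : (1 - t) * u.1 + t * v.1 = q.1 := by rw [← hq']; simp
  have q4 : (1 - t) * u.2 + t * v.2 = q.2 := by rw [← hq']; simp
  have u1 : u.1 = a.1 + (s - t * l) * (b.1 - a.1) := by linear_combination q3 - q1 - t * hx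
  have u2 : u.2 = a.2 + (s - t * l) * (b.2 - a.2) := by linear_combination q4 - q2 - t * hy
  have v1 : v.1 = a.1 + (s + (1 - t) * l) * (b.1 - a.1) := by
    linear_combination q3 - q1 + (1 - t) * hx
  have v2 : v.2 = a.2 + (s + (1 - t) * l) * (b.2 - a.2) := by
    linear_combination q4 - q2 + (1 - t) * hy
  constructor
  · rcases lt_trichotomy (t * l) s with h | h | h
    · left
      refine ⟨1 - (s - t * l), s - t * l, ?_, by linarith, by ring, ?_⟩
      · have := mul_pos ht hl
        linarith
      · ext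
        · simp only [Prod.fst_add, Prod.smul_fst, smul_eq_mul]; linarith
        · simp only [Prod.snd_add, Prod.smul_snd, smul_eq_mul]; linarith
    · right; right
      ext
      · rw [u1, h]; ring
      · rw [u2, h]; ring
    · right; left
      refine ⟨1 - (t - s / l), t - s / l, ?_, ?_, by ring, ?_⟩
      · have := div_pos hs hl
        linarith
      · rw [sub_pos, div_lt_iff₀ hl]; exact h
      · have e : (t - s / l) * l = t * l - s := by
          rw [sub_mul, div_mul_cancel₀ _ hl.ne']
        ext
        · simp only [Prod.fst_add, Prod.smul_fst, smul_eq_mul]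
          have : (t - s / l) * (v.1 - u.1) = (t * l - s) * (b.1 - a.1) := by rw [hx, ← mul_assoc, e]
          linear_combination this + u1
        · simp only [Prod.snd_add, Prod.smul_snd, smul_eq_mul]
          have : (t - s / l) * (v.2 - u.2) = (t * l - s) * (b.2 - a.2) := by rw [hy, ← mul_assoc, e]
          linear_combination this + u2
  · rcases lt_trichotomy (s + (1 - t) * l) 1 with h | h | h
    · left
      refine ⟨1 - (s + (1 - t) * l), s + (1 - t) * l, by linarith, ?_, by ring, ?_⟩
      · have := mul_pos ht' hl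
        linarith
      · ext
        · simp only [Prod.fst_add, Prod.smul_fst, smul_eq_mul]; linarith
        · simp only [Prod.snd_add, Prod.smul_snd, smul_eq_mul]; linarith
    · right; right
      ext
      · rw [v1, h]; ring
      · rw [v2, h]; ring
    · right; left
      refine ⟨1 - (t + (1 - s) / l), t + (1 - s) / l, ?_, ?_, by ring, ?_⟩
      · have : (1 - s) / l < 1 - t := by rw [div_lt_iff₀ hl]; linarith
        linarith
      · have := div_pos hs' hl
        linarith
      · have e : (t + (1 - s) / l) * l = t * l + (1 - s) := by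
          rw [add_mul, div_mul_cancel₀ _ hl.ne']
        ext
        · simp only [Prod.fst_add, Prod.smul_fst, smul_eq_mul]
          have : (t + (1 - s) / l) * (v.1 - u.1) = (t * l + (1 - s)) * (b.1 - a.1) := by
            rw [hx, ← mul_assoc, e]
          linear_combination this + u1
        · simp only [Prod.snd_add, Prod.smul_snd, smul_eq_mul]
          have : (t + (1 - s) / l) * (v.2 - u.2) = (t * l + (1 - s)) * (b.2 - a.2) := by
            rw [hy, ← mul_assoc, e]
          linear_combination this + u2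

/-- near an inner point of the edge `ab`, the triangle contains the left side -/
theorem br1_near {a b c q : Pt} (h : 0 < orient a b c) (hq : q ∈ openSegment ℝ a b) :
    ∀ᶠ w in 𝓝 q, 0 < orient a b w → w ∈ interior (tri a b c) := by
  rw [interior_tri h]
  have h1 : 0 < orient b c q := by
    obtain ⟨s, t, hs, ht, hst, rfl⟩ := hq
    have : orient b c (s • a + t • b) = s * orient a b c := by
      have : t = 1 - s := by linarith
      subst this
      simp only [orient, Prod.fst_add, Prod.snd_add, Prod.smul_fst, Prod.smul_snd, smul_eq_mul]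
      ring
    rw [this]
    exact mul_pos hs h
  have h2 : 0 < orient c a q := by
    obtain ⟨s, t, hs, ht, hst, rfl⟩ := hq
    have : orient c a (s • a + t • b) = t * orient a b c := by
      have : s = 1 - t := by linarith
      subst this
      simp only [orient, Prod.fst_add, Prod.snd_add, Prod.smul_fst, Prod.smul_snd, smul_eq_mul]
      ring
    rw [this]
    exact mul_pos ht h
  filter_upwards [((br1_cont b c).tendsto q).eventually (lt_mem_nhds h1),
    ((br1_cont c a).tendsto q).eventually (lt_mem_nhds h2)] with w hw1 hw2 hw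
  exact ⟨hw, hw1, hw2⟩

/-- a point of the edge line inside the triangle lies on the edge -/
theorem br1_edge {a b c q : Pt} (h : 0 < orient a b c) (h0 : orient a b q = 0)
    (h1 : 0 ≤ orient b c q) (h2 : 0 ≤ orient c a q) (ha : q ≠ a) (hb : q ≠ b) :
    q ∈ openSegment ℝ a b := by
  have hs := orient_sum a b c q
  rw [h0, zero_add] at hs
  set D := orient a b c with hD
  have e1 : q.1 = (orient b c q / D) * a.1 + (orient c a q / D) * b.1 := by
    field_simp
    have : orient b c q * a.1 + orient c a q * b.1 + orient a b q * c.1 = D * q.1 := by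
      rw [hD]; unfold orient; ring
    rw [h0] at this
    linarith
  have e2 : q.2 = (orient b c q / D) * a.2 + (orient c a q / D) * b.2 := by
    field_simp
    have : orient b c q * a.2 + orient c a q * b.2 + orient a b q * c.2 = D * q.2 := by
      rw [hD]; unfold orient; ring
    rw [h0] at this
    linarith
  have e3 : orient b c q / D + orient c a q / D = 1 := by
    rw [← add_div, hs, div_self h.ne']
  have p1 : 0 < orient b c q / D := by
    rcases h1.lt_or_eq with h3 | h3
    · exact div_pos h3 h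
    · exfalso
      apply hb
      rw [← h3, zero_div, zero_add] at e3
      ext
      · rw [e1, ← h3, e3]; ring
      · rw [e2, ← h3, e3]; ring
  have p2 : 0 < orient c a q / D := by
    rcases h2.lt_or_eq with h3 | h3
    · exact div_pos h3 h
    · exfalso
      apply ha
      rw [← h3, zero_div, add_zero] at e3
      ext
      · rw [e1, ← h3, e3]; ring
      · rw [e2, ← h3, e3]; ring
  exact ⟨_, _, p1, p2, e3, by
    ext
    · simp only [Prod.fst_add, Prod.smul_fst, smul_eq_mul]; exact e1.symm
    · simp only [Prod.snd_add, Prod.smul_snd, smul_eq_mul]; exact e2.symm⟩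

theorem br1_ab {a b c : Pt} (h : 0 < orient a b c) : a ≠ b := by
  rintro rfl
  have : orient a a c = 0 := by unfold orient; ring
  rw [this] at h
  exact lt_irrefl _ h

theorem br1_mid {a b : Pt} : ∃ q, q ∈ openSegment ℝ a b :=
  ⟨_, 1 / 2, 1 / 2, by norm_num, by norm_num, by norm_num, rfl⟩

section
variable {n m : ℕ} {P : Fin n → Pt} {S : Fin m → Pt}
    {T : Fin n ⊕ Fin m → Fin n ⊕ Fin m → Fin n ⊕ Fin m → Prop}

/-- no vertex lies in the open edge of a triangle -/
theorem br1_N (hT : IsTriangulation P S T) {a b c v : Fin n ⊕ Fin m} (h : T a b c)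
    (hv : pos P S v ∈ openSegment ℝ (pos P S a) (pos P S b)) : False := by
  have hc := hT.ccw _ _ _ h
  have hab := br1_ab hc
  have hin : pos P S v ∈ tri (pos P S a) (pos P S b) (pos P S c) :=
    segment_subset_tri _ _ _ (openSegment_subset_segment ℝ _ _ hv)
  have h0 := br1_on hv
  rcases hT.corner _ _ _ _ h hin with rfl | rfl | rfl
  · rw [left_mem_openSegment_iff] at hv
    exact hab hv
  · rw [right_mem_openSegment_iff] at hv
    exact hab hv
  · rw [h0] at hc
    exact lt_irrefl _ hc

theorem br1_Pne (hsim : IsSimplePolygon P) (i : Fin n) : P i ≠ P (nx i) := by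
  intro h
  have := (hsim.simple i i 0 (1 / 2) (by constructor <;> norm_num) (by constructor <;> norm_num)
    (by rw [h]; simp)).2
  norm_num at this

/-- no vertex lies in an open edge of the polygon -/
theorem br1_M (hsim : IsSimplePolygon P) (hT : IsTriangulation P S T) {i : Fin n}
    {v : Fin n ⊕ Fin m} (hv : pos P S v ∈ openSegment ℝ (P i) (P (nx i))) : False := by
  rcases v with j | j
  · simp only [pos, Sum.elim_inl] at hv
    obtain ⟨s, t, hs, ht, hst, hq⟩ := hv
    have es : s = 1 - t := by linarith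
    subst es
    have h1 := (hsim.simple i j t 0 ⟨ht.le, by linarith⟩ (by constructor <;> norm_num) (by
      rw [AffineMap.lineMap_apply_module, AffineMap.lineMap_apply_zero]
      exact hq)).2
    exact ht.ne' h1
  · simp only [pos, Sum.elim_inr] at hv
    apply (hT.steiner j).2
    exact mem_iUnion.2 ⟨i, openSegment_subset_segment ℝ _ _ hv⟩

theorem br1_tri_sub (hT : IsTriangulation P S T) {a b c : Fin n ⊕ Fin m} (h : T a b c) :
    tri (pos P S a) (pos P S b) (pos P S c) ⊆ region P := by
  rw [← hT.cover]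
  intro w hw
  simp only [mem_iUnion]
  exact ⟨a, b, c, h, hw⟩

theorem br1_region (hT : IsTriangulation P S T) {w : Pt} (h : w ∈ region P) :
    ∃ a b c, T a b c ∧ w ∈ tri (pos P S a) (pos P S b) (pos P S c) := by
  rw [← hT.cover] at h
  simp only [mem_iUnion] at h
  obtain ⟨a, b, c, h1, h2⟩ := h
  exact ⟨a, b, c, h1, h2⟩

/-- only the triangles through `q` come close to `q` -/
theorem br1_G (q : Pt) : ∀ᶠ w in 𝓝 q, ∀ a b c, T a b c →
    w ∈ tri (pos P S a) (pos P S b) (pos P S c) →
    q ∈ tri (pos P S a) (pos P S b) (pos P S c) := by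
  rw [Filter.eventually_all]; intro a
  rw [Filter.eventually_all]; intro b
  rw [Filter.eventually_all]; intro c
  by_cases hq : q ∈ tri (pos P S a) (pos P S b) (pos P S c)
  · exact Filter.Eventually.of_forall fun _ _ _ => hq
  · filter_upwards [(isClosed_tri _ _ _).isOpen_compl.mem_nhds hq] with w hw _ hw'
    exact absurd hw' hw

/-- a point of a triangle which is no vertex: inside, or inside an edge -/
theorem br1_C (hT : IsTriangulation P S T) {a b c : Fin n ⊕ Fin m} (h : T a b c) {q : Pt}
    (hq : q ∈ tri (pos P S a) (pos P S b) (pos P S c)) (hqv : ∀ v, q ≠ pos P S v) :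
    q ∈ interior (tri (pos P S a) (pos P S b) (pos P S c)) ∨
    ∃ a' b' c', T a' b' c' ∧ q ∈ openSegment ℝ (pos P S a') (pos P S b') ∧
      tri (pos P S a') (pos P S b') (pos P S c') = tri (pos P S a) (pos P S b) (pos P S c) ∧
      ({a', b', c'} : Set (Fin n ⊕ Fin m)) = {a, b, c} := by
  have hc := hT.ccw _ _ _ h
  have hrot := hT.rot _ _ _ h
  have hrot2 := hT.rot _ _ _ hrot
  have hc1 := hT.ccw _ _ _ hrot
  have hc2 := hT.ccw _ _ _ hrot2
  have hq' := hq
  rw [tri_eq hc] at hq'
  obtain ⟨h1, h2, h3⟩ := hq'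
  rcases h1.lt_or_eq with g1 | g1
  · rcases h2.lt_or_eq with g2 | g2
    · rcases h3.lt_or_eq with g3 | g3
      · left
        rw [interior_tri hc]
        exact ⟨g1, g2, g3⟩
      · right
        refine ⟨c, a, b, hrot2, br1_edge hc2 g3.symm h1 h2 (hqv _) (hqv _), ?_, ?_⟩
        · rw [tri_rot, tri_rot]
        · ext x; simp only [mem_insert_iff, mem_singleton_iff]; tauto
    · right
      refine ⟨b, c, a, hrot, br1_edge hc1 g2.symm h3 h1 (hqv _) (hqv _), ?_, ?_⟩
      · rw [tri_rot]
      · ext x; simp only [mem_insert_iff, mem_singleton_iff]; tauto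
  · right
    exact ⟨a, b, c, h, br1_edge hc g1.symm h2 h3 (hqv _) (hqv _), rfl, rfl⟩

/-- a triangle whose edge `ab` lies along the polygon edge `i` -/
theorem br1_E (hsim : IsSimplePolygon P) (hT : IsTriangulation P S T) {a b c : Fin n ⊕ Fin m}
    (h : T a b c) {i : Fin n} {q : Pt} (hq : q ∈ openSegment ℝ (pos P S a) (pos P S b))
    (hq' : q ∈ openSegment ℝ (P i) (P (nx i)))
    (hh : ∀ᶠ w in 𝓝 q, 0 < orient (pos P S a) (pos P S b) w →
      0 ≤ orient (P i) (P (nx i)) w) : a = Sum.inl i ∧ b = Sum.inl (nx i) := by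
  obtain ⟨l, hl, hx, hy⟩ := br1_half (br1_ab (hT.ccw _ _ _ h)) (br1_Pne hsim i) (br1_on hq)
    (br1_on hq') hh
  have hcmp := br1_cmp hq hq' hl hx hy
  constructor
  · rcases hcmp.1 with h1 | h1 | h1
    · exact (br1_N hT (v := Sum.inl i) h (by simpa [pos] using h1)).elim
    · exact (br1_M hsim hT h1).elim
    · exact hT.inj (by rw [← h1]; simp [pos])
  · rcases hcmp.2 with h1 | h1 | h1
    · exact (br1_N hT (v := Sum.inl (nx i)) h (by simpa [pos] using h1)).elim
    · exact (br1_M hsim hT h1).elim
    · exact hT.inj (by rw [← h1]; simp [pos])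

theorem br1_tri_image (a b c a' b' c' : Fin n ⊕ Fin m)
    (h : ({a, b, c} : Set (Fin n ⊕ Fin m)) = {a', b', c'}) :
    tri (pos P S a) (pos P S b) (pos P S c) = tri (pos P S a') (pos P S b') (pos P S c') := by
  have h1 : ({pos P S a, pos P S b, pos P S c} : Set Pt) = {pos P S a', pos P S b', pos P S c'} := by
    have := congrArg (fun s => pos P S '' s) h
    simpa [image_insert_eq] using this
  unfold tri
  rw [h1]

end

theorem bridge1 {n m : ℕ} {P : Fin n → Pt} {S : Fin m → Pt}
    {T : Fin n ⊕ Fin m → Fin n ⊕ Fin m → Fin n ⊕ Fin m → Prop}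
    (hsim : IsSimplePolygon P)
    (h4 : ∀ i, ∀ z ∈ openSegment ℝ (P i) (P (nx i)),
      ∀ᶠ w in 𝓝 z, (w ∈ region P ↔ 0 ≤ orient (P i) (P (nx i)) w))
    (h5 : ∀ z ∈ region P, z ∉ curve P → region P ∈ 𝓝 z)
    (hT : IsTriangulation P S T) : Comb T := by
  refine ⟨hT.rot, ?_, ?_, ?_, ?_⟩
  · -- uniq
    intro a b c c' h h'
    obtain ⟨q, hq⟩ := br1_mid (a := pos P S a) (b := pos P S b)
    have hc := hT.ccw _ _ _ h
    have hc' := hT.ccw _ _ _ h'
    obtain ⟨w, hw, hw1, hw2⟩ := ((br1_left (br1_ab hc) (br1_on hq)).and_eventually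
      ((br1_near hc hq).and (br1_near hc' hq))).exists
    have hset := hT.disj _ _ _ _ _ _ h h' ⟨w, hw1 hw, hw2 hw⟩
    have hmem : c ∈ ({a, b, c'} : Set (Fin n ⊕ Fin m)) := by rw [← hset]; simp
    rcases hmem with rfl | rfl | hmem
    · exact (br1_ab (hT.ccw _ _ _ (hT.rot _ _ _ (hT.rot _ _ _ h))) rfl).elim
    · exact (br1_ab (hT.ccw _ _ _ (hT.rot _ _ _ h)) rfl).elim
    · exact hmem
  · -- bd
    intro i
    obtain ⟨q, hq⟩ := br1_mid (a := P i) (b := P (nx i))
    have hqv : ∀ v, q ≠ pos P S v := by
      rintro v rfl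
      exact br1_M hsim hT hq
    have hqr : q ∈ region P := Or.inl (mem_iUnion.2 ⟨i, openSegment_subset_segment ℝ _ _ hq⟩)
    obtain ⟨a, b, c, h, hin⟩ := br1_region hT hqr
    have h4q := h4 i q hq
    rcases br1_C hT h hin hqv with hint | ⟨a', b', c', h', hq', -, -⟩
    · exfalso
      have h1 : ∀ᶠ w in 𝓝 q, w ∈ region P := by
        filter_upwards [mem_interior_iff_mem_nhds.1 hint] with w hw
        exact br1_tri_sub hT h hw
      have h2 : ∃ᶠ w in 𝓝 q, 0 < orient (P (nx i)) (P i) w :=
        br1_left (br1_Pne hsim i).symm (by rw [orient_swap, br1_on hq, neg_zero])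
      obtain ⟨w, hw, hw1, hw2⟩ := (h2.and_eventually (h1.and h4q)).exists
      have := hw2.1 hw1
      rw [orient_swap] at hw
      linarith
    · have hE := br1_E hsim hT h' hq' hq (by
        filter_upwards [br1_near (hT.ccw _ _ _ h') hq', h4q] with w hw1 hw2 hw
        exact hw2.1 (br1_tri_sub hT h' (interior_subset (hw1 hw))))
      exact ⟨c', by rw [← hE.1, ← hE.2]; exact h'⟩
  · -- nobd
    intro i c h
    obtain ⟨q, hq⟩ := br1_mid (a := P (nx i)) (b := P i)
    have hq2 : q ∈ openSegment ℝ (P i) (P (nx i)) := by rwa [openSegment_symm]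
    obtain ⟨w, hw, hw1, hw2⟩ := ((br1_left (br1_Pne hsim i).symm (br1_on hq)).and_eventually
      ((br1_near (hT.ccw _ _ _ h) (by simpa [pos] using hq)).and (h4 i q hq2))).exists
    have h3 := hw2.1 (br1_tri_sub hT h (interior_subset (hw1 (by simpa [pos] using hw))))
    rw [orient_swap] at h3
    linarith
  · -- edge
    intro a b c h
    obtain ⟨q, hq⟩ := br1_mid (a := pos P S a) (b := pos P S b)
    have hc := hT.ccw _ _ _ h
    have hqv : ∀ v, q ≠ pos P S v := by
      rintro v rfl
      exact br1_N hT h hq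
    have hqt : q ∈ tri (pos P S a) (pos P S b) (pos P S c) :=
      segment_subset_tri _ _ _ (openSegment_subset_segment ℝ _ _ hq)
    by_cases hcur : q ∈ curve P
    · left
      obtain ⟨i, hi⟩ := mem_iUnion.1 hcur
      have hqi : q ∈ openSegment ℝ (P i) (P (nx i)) := by
        refine mem_openSegment_of_ne_left_right ?_ ?_ hi
        · exact fun e => hqv (Sum.inl i) (by simp [pos, e])
        · exact fun e => hqv (Sum.inl (nx i)) (by simp [pos, e])
      exact ⟨i, br1_E hsim hT h hq hqi (by
        filter_upwards [br1_near hc hq, h4 i q hqi] with w hw1 hw2 hw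
        exact hw2.1 (br1_tri_sub hT h (interior_subset (hw1 hw))))⟩
    · right
      have hreg : region P ∈ 𝓝 q := h5 q (br1_tri_sub hT h hqt) hcur
      have hleft : ∃ᶠ w in 𝓝 q, 0 < orient (pos P S b) (pos P S a) w :=
        br1_left (br1_ab hc).symm (by rw [orient_swap, br1_on hq, neg_zero])
      obtain ⟨w, hw, hwr, hwG⟩ := (hleft.and_eventually
        (Filter.Eventually.and hreg (br1_G (T := T) (P := P) (S := S) q))).exists
      obtain ⟨a₁, b₁, c₁, h₁, hw₁⟩ := br1_region hT hwr
      have hq₁ := hwG _ _ _ h₁ hw₁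
      have hdis : ¬ (interior (tri (pos P S a) (pos P S b) (pos P S c)) ∩
          interior (tri (pos P S a₁) (pos P S b₁) (pos P S c₁))).Nonempty := by
        intro hne
        have hset := hT.disj _ _ _ _ _ _ h h₁ hne
        have := br1_tri_image (P := P) (S := S) _ _ _ _ _ _ hset
        rw [← this, tri_eq hc] at hw₁
        have h2 := hw₁.1
        rw [orient_swap] at hw
        linarith
      rcases br1_C hT h₁ hq₁ hqv with hint | ⟨a', b', c', h', hq', htri, -⟩
      · exfalso
        obtain ⟨x, hx, hx1, hx2⟩ := ((br1_left (br1_ab hc) (br1_on hq)).and_eventually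
          ((br1_near hc hq).and (isOpen_interior.mem_nhds hint))).exists
        exact hdis ⟨x, hx1 hx, hx2⟩
      · have hc' := hT.ccw _ _ _ h'
        obtain ⟨l, hl, hx, hy⟩ := br1_half (u := pos P S a) (v := pos P S b)
          (u' := pos P S b') (v' := pos P S a') (q := q) (br1_ab hc) (br1_ab hc').symm (br1_on hq)
          (by rw [orient_swap, br1_on hq', neg_zero]) (by
            filter_upwards [br1_near hc hq, br1_near hc' hq'] with x hx1 hx2 hx
            by_contra hneg
            push Not at hneg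
            rw [orient_swap] at hneg
            apply hdis
            refine ⟨x, hx1 hx, ?_⟩
            rw [← htri]
            exact hx2 (by linarith))
        have hcmp := br1_cmp hq (by rwa [openSegment_symm] : q ∈ openSegment ℝ (pos P S b') (pos P S a'))
          hl hx hy
        have e1 : b' = a := by
          rcases hcmp.1 with h2 | h2 | h2
          · exact (br1_N hT h h2).elim
          · rw [openSegment_symm] at h2
            exact (br1_N hT h' h2).elim
          · exact hT.inj h2
        have e2 : a' = b := by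
          rcases hcmp.2 with h2 | h2 | h2
          · exact (br1_N hT h h2).elim
          · rw [openSegment_symm] at h2
            exact (br1_N hT h' h2).elim
          · exact hT.inj h2
        subst e1 e2
        exact ⟨c', h'⟩

end Pool.Agent.Lib57.CT
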