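import Mathlib
import Pool.Agent.Lib_helper57.CT.TriGeo

/-! BLOCK BR2: combinatorial triangulations drawn with counterclockwise triangles are geometric
triangulations. -/

namespace Pool.Agent.Lib57.CT

open Set Topology

/-! ### generic points -/

/-- points in general position with respect to the labelled points -/
def br2_gen {L : Type} (p : L → Pt) (z : Pt) : Prop :=
  (∀ u, (p u).1 ≠ z.1) ∧ ∀ u v, u ≠ v → orient (p u) (p v) z ≠ 0

theorem br2_orient_cont (u v : Pt) : Continuous (fun z : Pt => orient u v z) := by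
  unfold orient
  fun_prop

theorem br2_dense_x (c : ℝ) : Dense {z : Pt | c ≠ z.1} := by
  have h : Dense ((Prod.fst : Pt → ℝ) ⁻¹' {c}ᶜ) :=
    (dense_compl_singleton c).preimage isOpenMap_fst
  convert h using 1
  ext z
  simp only [mem_ofPred_eq, mem_preimage, mem_compl_iff, mem_singleton_iff]
  exact ⟨fun h h' => h h'.symm, fun h h' => h h'.symm⟩

theorem br2_dense_l {u v : Pt} (h : u.1 ≠ v.1) : Dense {z : Pt | orient u v z ≠ 0} := by
  rw [dense_iff_inter_open]
  rintro U hU ⟨z, hz⟩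
  by_cases hz0 : orient u v z ≠ 0
  · exact ⟨z, hz, hz0⟩
  · push Not at hz0
    have hc : ContinuousAt (fun t : ℝ => ((z.1, z.2 + t) : Pt)) 0 := by fun_prop
    have hev : ∀ᶠ t in 𝓝 (0 : ℝ), ((z.1, z.2 + t) : Pt) ∈ U := by
      apply hc
      apply hU.mem_nhds
      simpa using hz
    have hev' : ∀ᶠ t in 𝓝[≠] (0 : ℝ), ((z.1, z.2 + t) : Pt) ∈ U ∧ t ≠ 0 :=
      (hev.filter_mono nhdsWithin_le_nhds).and self_mem_nhdsWithin
    obtain ⟨t, ht, ht0⟩ := hev'.exists
    refine ⟨_, ht, ?_⟩
    show orient u v (z.1, z.2 + t) ≠ 0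
    have e : orient u v (z.1, z.2 + t) = orient u v z + (v.1 - u.1) * t := by
      unfold orient; ring
    rw [e, hz0, zero_add]
    exact mul_ne_zero (sub_ne_zero.2 (Ne.symm h)) ht0

theorem br2_dense {L : Type} [Finite L] {p : L → Pt}
    (hx : ∀ u v, u ≠ v → (p u).1 ≠ (p v).1) : Dense {z : Pt | br2_gen p z} := by
  have h1 : Dense (⋂ u : L, {z : Pt | (p u).1 ≠ z.1}) := by
    apply dense_iInter_of_isOpen
    · intro u
      exact isOpen_ne_fun continuous_const continuous_fst
    · intro u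
      exact br2_dense_x _
  have h2 : Dense (⋂ w : {w : L × L // w.1 ≠ w.2}, {z : Pt | orient (p w.1.1) (p w.1.2) z ≠ 0}) := by
    apply dense_iInter_of_isOpen
    · intro w
      exact isOpen_ne_fun (br2_orient_cont _ _) continuous_const
    · intro w
      exact br2_dense_l (hx _ _ w.2)
  have h3 : IsOpen (⋂ u : L, {z : Pt | (p u).1 ≠ z.1}) :=
    isOpen_iInter_of_finite fun u => isOpen_ne_fun continuous_const continuous_fst
  have h4 := h1.inter_of_isOpen_left h2 h3
  convert h4 using 1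
  ext z
  simp only [br2_gen, mem_ofPred_eq, mem_inter_iff, mem_iInter, Subtype.forall, Prod.forall]

/-! ### sums over triples -/

section sums

theorem br2_rot_iff {L : Type} {T : L → L → L → Prop} (rot : ∀ a b c, T a b c → T b c a)
    (a b c : L) : T a b c ↔ T b c a := ⟨rot a b c, fun h => rot _ _ _ (rot _ _ _ h)⟩

variable {L : Type} [Fintype L]

theorem br2_rot {M : Type} [AddCommMonoid M] (g : L → L → L → M) :
    ∑ a, ∑ b, ∑ c, g b c a = ∑ a, ∑ b, ∑ c, g a b c := by
  rw [Finset.sum_comm]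
  refine Finset.sum_congr rfl fun b _ => ?_
  rw [Finset.sum_comm]

open Classical in
/-- number of triangles to the left of the directed edge `a b` -/
noncomputable def br2_d (T : L → L → L → Prop) (a b : L) : ℤ := ∑ c, if T a b c then 1 else 0

open Classical in
theorem br2_d_eq {T : L → L → L → Prop} (uniq : ∀ a b c c', T a b c → T a b c' → c = c')
    (a b : L) : br2_d T a b = if ∃ c, T a b c then 1 else 0 := by
  unfold br2_d
  split_ifs with h
  · obtain ⟨c, hc⟩ := h
    rw [Finset.sum_eq_single c]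
    · rw [if_pos hc]
    · intro c' _ hne
      rw [if_neg]
      intro h'
      exact hne (uniq _ _ _ _ h' hc)
    · intro h'
      exact absurd (Finset.mem_univ c) h'
  · apply Finset.sum_eq_zero
    intro c _
    rw [if_neg]
    intro h'
    exact h ⟨c, h'⟩

end sums

open Classical in
/-- indicator of the polygon edges -/
noncomputable def br2_e {n m : ℕ} (a b : Fin n ⊕ Fin m) : ℤ :=
  if ∃ i : Fin n, a = Sum.inl i ∧ b = Sum.inl (nx i) then 1 else 0

theorem br2_s_symm {n m : ℕ} {T : Fin n ⊕ Fin m → Fin n ⊕ Fin m → Fin n ⊕ Fin m → Prop}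
    (hT : Comb T) (a b : Fin n ⊕ Fin m) :
    br2_d T a b - br2_e a b = br2_d T b a - br2_e b a := by
  classical
  rw [br2_d_eq hT.uniq, br2_d_eq hT.uniq]
  unfold br2_e
  by_cases h1 : ∃ i : Fin n, a = Sum.inl i ∧ b = Sum.inl (nx i)
  · obtain ⟨i, rfl, rfl⟩ := h1
    have h2 : ¬ ∃ c, T (Sum.inl (nx i)) (Sum.inl i) c := by
      rintro ⟨c, hc⟩
      exact hT.nobd i c hc
    have h3 : ¬ ∃ j : Fin n, (Sum.inl (nx i) : Fin n ⊕ Fin m) = Sum.inl j ∧
        (Sum.inl i : Fin n ⊕ Fin m) = Sum.inl (nx j) := by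
      rintro ⟨j, h4, h5⟩
      apply h2
      rw [h4, h5]
      exact hT.bd j
    rw [if_pos (hT.bd i), if_pos ⟨i, rfl, rfl⟩, if_neg h2, if_neg h3]
    norm_num
  · by_cases h2 : ∃ i : Fin n, b = Sum.inl i ∧ a = Sum.inl (nx i)
    · obtain ⟨i, rfl, rfl⟩ := h2
      have h3 : ¬ ∃ c, T (Sum.inl (nx i)) (Sum.inl i) c := by
        rintro ⟨c, hc⟩
        exact hT.nobd i c hc
      rw [if_neg h3, if_neg h1, if_pos (hT.bd i), if_pos ⟨i, rfl, rfl⟩]
      norm_num
    · have h3 : (∃ c, T a b c) ↔ ∃ c, T b a c := by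
        constructor
        · rintro ⟨c, hc⟩
          rcases hT.edge a b c hc with h | h
          · exact absurd h h1
          · exact h
        · rintro ⟨c, hc⟩
          rcases hT.edge b a c hc with h | h
          · exact absurd h h2
          · exact h
      simp only [h1, h2, h3, if_false]

theorem br2_e_sum {n m : ℕ} (g : Fin n ⊕ Fin m → Fin n ⊕ Fin m → ℤ) :
    ∑ a, ∑ b, br2_e a b * g a b = ∑ i : Fin n, g (Sum.inl i) (Sum.inl (nx i)) := by
  classical
  have h1 : ∀ a : Fin n ⊕ Fin m, ∑ b, br2_e a b * g a b =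
      ∑ i : Fin n, if a = Sum.inl i then g (Sum.inl i) (Sum.inl (nx i)) else 0 := by
    intro a
    rcases a with i | j
    · have h2 : ∀ b : Fin n ⊕ Fin m, br2_e (Sum.inl i) b * g (Sum.inl i) b =
          if b = Sum.inl (nx i) then g (Sum.inl i) (Sum.inl (nx i)) else 0 := by
        intro b
        unfold br2_e
        by_cases hb : b = Sum.inl (nx i)
        · subst hb
          rw [if_pos ⟨i, rfl, rfl⟩, if_pos rfl, one_mul]
        · rw [if_neg, if_neg hb, zero_mul]
          rintro ⟨i', h3, h4⟩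
          rw [Sum.inl.injEq] at h3
          subst h3
          exact hb h4
      rw [Finset.sum_congr rfl fun b _ => h2 b]
      simp
    · have h2 : ∀ b : Fin n ⊕ Fin m, br2_e (Sum.inr j) b * g (Sum.inr j) b = 0 := by
        intro b
        unfold br2_e
        rw [if_neg, zero_mul]
        rintro ⟨i', h3, _⟩
        cases h3
      rw [Finset.sum_congr rfl fun b _ => h2 b]
      simp
  rw [Finset.sum_congr rfl fun a _ => h1 a, Finset.sum_comm]
  simp

open Classical in
/-- the sum of the crossings over the directed edges of the triangles -/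
theorem br2_main_sum {n m : ℕ} {T : Fin n ⊕ Fin m → Fin n ⊕ Fin m → Fin n ⊕ Fin m → Prop}
    (hT : Comb T) (g : Fin n ⊕ Fin m → Fin n ⊕ Fin m → ℤ) (hg : ∀ a b, g b a = - g a b) :
    ∑ a, ∑ b, ∑ c, (if T a b c then g a b else 0) =
      ∑ i : Fin n, g (Sum.inl i) (Sum.inl (nx i)) := by
  have h1 : ∀ a b, ∑ c, (if T a b c then g a b else 0) =
      (br2_d T a b - br2_e a b) * g a b + br2_e a b * g a b := by
    intro a b
    have : (br2_d T a b - br2_e a b) * g a b + br2_e a b * g a b = br2_d T a b * g a b := by ring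
    rw [this, br2_d, Finset.sum_mul]
    refine Finset.sum_congr rfl fun c _ => ?_
    split_ifs <;> simp
  rw [← br2_e_sum, Finset.sum_congr rfl fun a _ => Finset.sum_congr rfl fun b _ => h1 a b]
  have h2 : ∑ a, ∑ b, (br2_d T a b - br2_e a b) * g a b = 0 := by
    have h3 : ∑ a, ∑ b, (br2_d T a b - br2_e a b) * g a b =
        - ∑ a, ∑ b, (br2_d T a b - br2_e a b) * g a b := by
      conv_lhs => rw [Finset.sum_comm]
      rw [← Finset.sum_neg_distrib]
      refine Finset.sum_congr rfl fun a _ => ?_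
      rw [← Finset.sum_neg_distrib]
      refine Finset.sum_congr rfl fun b _ => ?_
      rw [br2_s_symm hT b a, hg a b]
      ring
    omega
  have h4 : ∑ a, ∑ b, ((br2_d T a b - br2_e a b) * g a b + br2_e a b * g a b) =
      ∑ a, ∑ b, (br2_d T a b - br2_e a b) * g a b + ∑ a, ∑ b, br2_e a b * g a b := by
    rw [← Finset.sum_add_distrib]
    exact Finset.sum_congr rfl fun a _ => Finset.sum_add_distrib
  rw [h4, h2, zero_add]

open Classical in
/-- the same at one label -/
theorem br2_local_sum {n m : ℕ} {T : Fin n ⊕ Fin m → Fin n ⊕ Fin m → Fin n ⊕ Fin m → Prop}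
    (hT : Comb T) (g : Fin n ⊕ Fin m → Fin n ⊕ Fin m → ℤ) (hg : ∀ a b, g b a = - g a b)
    (v : Fin n ⊕ Fin m) :
    ∑ b, ∑ c, (if T v b c then g v b + g b c + g c v else 0) =
      ∑ b, ∑ c, (if T v b c then g b c else 0) + ∑ b, (br2_e v b * g v b + br2_e b v * g b v) := by
  have h1 : ∑ b, ∑ c, (if T v b c then g v b + g b c + g c v else 0) =
      ∑ b, ∑ c, (if T v b c then g v b else 0) + ∑ b, ∑ c, (if T v b c then g b c else 0) +
        ∑ b, ∑ c, (if T v b c then g c v else 0) := by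
    rw [← Finset.sum_add_distrib, ← Finset.sum_add_distrib]
    refine Finset.sum_congr rfl fun b _ => ?_
    rw [← Finset.sum_add_distrib, ← Finset.sum_add_distrib]
    refine Finset.sum_congr rfl fun c _ => ?_
    split_ifs <;> simp
  have h2 : ∑ b, ∑ c, (if T v b c then g v b else 0) = ∑ b, br2_d T v b * g v b := by
    refine Finset.sum_congr rfl fun b _ => ?_
    rw [br2_d, Finset.sum_mul]
    refine Finset.sum_congr rfl fun c _ => ?_
    split_ifs <;> simp
  have h3 : ∑ b, ∑ c, (if T v b c then g c v else 0) = ∑ b, br2_d T b v * g b v := by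
    rw [Finset.sum_comm]
    refine Finset.sum_congr rfl fun c _ => ?_
    rw [br2_d, Finset.sum_mul]
    refine Finset.sum_congr rfl fun b _ => ?_
    have := br2_rot_iff hT.rot c v b
    simp only [this]
    split_ifs <;> simp
  rw [h1, h2, h3]
  have h4 : ∑ b, br2_d T v b * g v b + ∑ b, br2_d T b v * g b v =
      ∑ b, (br2_e v b * g v b + br2_e b v * g b v) := by
    rw [← Finset.sum_add_distrib]
    refine Finset.sum_congr rfl fun b _ => ?_
    have h5 := br2_s_symm hT v b
    have h6 := hg v b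
    rw [h6]
    have h7 : br2_d T v b = br2_d T b v - br2_e b v + br2_e v b := by linarith
    rw [h7]
    ring
  linarith

/-! ### local constancy of crossings -/

theorem br2_seg_orient {u v z : Pt} (h : z ∈ segment ℝ u v) : orient u v z = 0 := by
  obtain ⟨a, b, _, _, hab, rfl⟩ := h
  have ha : a = 1 - b := by linarith
  subst ha
  unfold orient
  simp only [Prod.fst_add, Prod.snd_add, Prod.smul_fst, Prod.smul_snd, smul_eq_mul]
  ring

theorem br2_on_seg {u v z : Pt} (h1 : u.1 < z.1) (h2 : z.1 < v.1) (h : orient u v z = 0) :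
    z ∈ segment ℝ u v := by
  have h3 : 0 < v.1 - u.1 := by linarith
  refine ⟨(v.1 - z.1) / (v.1 - u.1), (z.1 - u.1) / (v.1 - u.1), ?_, ?_, ?_, ?_⟩
  · apply div_nonneg <;> linarith
  · apply div_nonneg <;> linarith
  · field_simp; ring
  · unfold orient at h
    ext
    · simp only [Prod.fst_add, Prod.smul_fst, smul_eq_mul]
      field_simp
      ring
    · simp only [Prod.snd_add, Prod.smul_snd, smul_eq_mul]
      field_simp
      linarith

theorem br2_sign {f : Pt → ℝ} (hf : Continuous f) {q : Pt} (h : f q ≠ 0) :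
    ∀ᶠ z in 𝓝 q, (0 < f z ↔ 0 < f q) := by
  rcases lt_or_gt_of_ne h with h | h
  · filter_upwards [(isOpen_lt hf continuous_const).mem_nhds h] with z hz
    have hz' : f z < 0 := hz
    constructor <;> intro h' <;> linarith
  · filter_upwards [(isOpen_lt continuous_const hf).mem_nhds h] with z hz
    have hz' : 0 < f z := hz
    constructor <;> intro h'
    · exact h
    · exact hz'

theorem br2_cr_const {u w q : Pt} (hu : u.1 ≠ q.1) (hw : w.1 ≠ q.1)
    (h : (u.1 < q.1 ∧ q.1 < w.1) ∨ (w.1 < q.1 ∧ q.1 < u.1) → orient u w q ≠ 0) :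
    ∀ᶠ z in 𝓝 q, cr u w z = cr u w q := by
  have c1 : Continuous (fun z : Pt => z.1 - u.1) := by fun_prop
  have c2 : Continuous (fun z : Pt => z.1 - w.1) := by fun_prop
  have c1' : Continuous (fun z : Pt => u.1 - z.1) := by fun_prop
  have c2' : Continuous (fun z : Pt => w.1 - z.1) := by fun_prop
  have e1 := br2_sign c1 (q := q) (sub_ne_zero.2 (Ne.symm hu))
  have e2 := br2_sign c2 (q := q) (sub_ne_zero.2 (Ne.symm hw))
  have e1' := br2_sign c1' (q := q) (sub_ne_zero.2 hu)
  have e2' := br2_sign c2' (q := q) (sub_ne_zero.2 hw)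
  simp only [sub_pos] at e1 e2 e1' e2'
  by_cases hb : (u.1 < q.1 ∧ q.1 < w.1) ∨ (w.1 < q.1 ∧ q.1 < u.1)
  · have h3 := h hb
    have h4 : orient w u q ≠ 0 := by
      rw [orient_swap u w q]
      exact neg_ne_zero.2 h3
    filter_upwards [e1, e2, e1', e2', br2_sign (br2_orient_cont u w) h3,
      br2_sign (br2_orient_cont w u) h4] with z a1 a2 a3 a4 a5 a6
    unfold cr
    simp only [a1, a2, a3, a4, a5, a6]
  · push Not at hb
    filter_upwards [e1, e2, e1', e2'] with z a1 a2 a3 a4
    unfold cr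
    have n1 : ¬ (u.1 < q.1 ∧ q.1 < w.1) := fun h' => absurd h'.2 (not_lt.2 (hb.1 h'.1))
    have n2 : ¬ (w.1 < q.1 ∧ q.1 < u.1) := fun h' => absurd h'.2 (not_lt.2 (hb.2 h'.1))
    have m1 : ¬ (u.1 < z.1 ∧ z.1 < w.1) := by rw [a1, a4]; exact n1
    have m2 : ¬ (w.1 < z.1 ∧ z.1 < u.1) := by rw [a2, a3]; exact n2
    rw [if_neg (fun h' => m1 ⟨h'.1, h'.2.1⟩), if_neg (fun h' => m2 ⟨h'.1, h'.2.1⟩),
      if_neg (fun h' => n1 ⟨h'.1, h'.2.1⟩), if_neg (fun h' => n2 ⟨h'.1, h'.2.1⟩)]

theorem br2_cr_self (u z : Pt) : cr u u z = 0 := by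
  have := cr_swap u u z
  omega

/-- a vertex of a simple polygon lies on no other edge -/
theorem br2_vertex {n : ℕ} {P : Fin n → Pt} (hsim : IsSimplePolygon P)
    (hinj : Function.Injective P) {i k : Fin n} (h1 : k ≠ i) (h2 : k ≠ nx i) :
    P k ∉ segment ℝ (P i) (P (nx i)) := by
  intro h
  rw [segment_eq_image_lineMap] at h
  obtain ⟨s, hs, hsk⟩ := h
  rcases lt_or_eq_of_le hs.2 with hs1 | hs1
  · have h0 : AffineMap.lineMap (P k) (P (nx k)) (0 : ℝ) = P k := AffineMap.lineMap_apply_zero _ _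
    have := hsim.simple i k s 0 ⟨hs.1, hs1⟩ ⟨le_rfl, one_pos⟩ (by rw [hsk, h0])
    exact h1 this.1.symm
  · rw [hs1, AffineMap.lineMap_apply_one] at hsk
    exact h2 (hinj hsk).symm

section main

variable {n m : ℕ} {P : Fin n → Pt} {S : Fin m → Pt}
    {T : Fin n ⊕ Fin m → Fin n ⊕ Fin m → Fin n ⊕ Fin m → Prop}

open Classical in
/-- indicator of the open triangle -/
noncomputable def br2_ind (p : Fin n ⊕ Fin m → Pt)
    (T : Fin n ⊕ Fin m → Fin n ⊕ Fin m → Fin n ⊕ Fin m → Prop) (z : Pt)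
    (a b c : Fin n ⊕ Fin m) : ℤ :=
  if T a b c ∧ z ∈ interior (tri (p a) (p b) (p c)) then 1 else 0

theorem br2_ind_nonneg (p : Fin n ⊕ Fin m → Pt) (z : Pt) (a b c : Fin n ⊕ Fin m) :
    0 ≤ br2_ind p T z a b c := by
  unfold br2_ind
  split_ifs <;> norm_num

theorem br2_ind_rot (hT : Comb T) (p : Fin n ⊕ Fin m → Pt) (z : Pt) (a b c : Fin n ⊕ Fin m) :
    br2_ind p T z b c a = br2_ind p T z a b c := by
  unfold br2_ind
  rw [tri_rot (p a) (p b) (p c), ← br2_rot_iff hT.rot a b c]

theorem br2_ne (hccw : ∀ a b c, T a b c → 0 < orient (pos P S a) (pos P S b) (pos P S c))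
    {a b c : Fin n ⊕ Fin m} (h : T a b c) : a ≠ b ∧ b ≠ c ∧ c ≠ a := by
  have := hccw a b c h
  unfold orient at this
  refine ⟨?_, ?_, ?_⟩ <;>
  · rintro rfl
    revert this
    apply not_lt.2
    apply le_of_eq
    ring

/-- the triangle indicator as a sum of crossings -/
theorem br2_ind_cr
    (hx : ∀ u v, u ≠ v → (pos P S u).1 ≠ (pos P S v).1)
    (hccw : ∀ a b c, T a b c → 0 < orient (pos P S a) (pos P S b) (pos P S c))
    {z : Pt} (hz : br2_gen (pos P S) z) {a b c : Fin n ⊕ Fin m} (h : T a b c) :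
    cr (pos P S a) (pos P S b) z + cr (pos P S b) (pos P S c) z + cr (pos P S c) (pos P S a) z =
      br2_ind (pos P S) T z a b c := by
  obtain ⟨h1, h2, h3⟩ := br2_ne hccw h
  rw [cr_tri (hccw a b c h) (hx _ _ h1) (hx _ _ h2) (hx _ _ h3) (Ne.symm (hz.1 a))
    (Ne.symm (hz.1 b)) (Ne.symm (hz.1 c)) (hz.2 _ _ h1) (hz.2 _ _ h2) (hz.2 _ _ h3)]
  unfold br2_ind
  by_cases hz' : z ∈ interior (tri (pos P S a) (pos P S b) (pos P S c))
  · rw [if_pos hz', if_pos ⟨h, hz'⟩]
  · rw [if_neg hz', if_neg (fun h' => hz' h'.2)]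

theorem br2_gen_curve (hT : Comb T)
    (hccw : ∀ a b c, T a b c → 0 < orient (pos P S a) (pos P S b) (pos P S c))
    {z : Pt} (hz : br2_gen (pos P S) z) : z ∉ curve P := by
  unfold curve
  rw [mem_iUnion]
  rintro ⟨i, hi⟩
  obtain ⟨c, hc⟩ := hT.bd i
  exact hz.2 _ _ (br2_ne hccw hc).1 (br2_seg_orient hi)

open Classical in
/-- every generic point is in three or no (ordered) triangles -/
theorem br2_count
    (hcr : ∀ z : Pt, (∀ i, (P i).1 ≠ z.1) → z ∉ curve P →
      ∑ i, cr (P i) (P (nx i)) z = if z ∈ region P then 1 else 0)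
    (hx : ∀ u v, u ≠ v → (pos P S u).1 ≠ (pos P S v).1)
    (hT : Comb T)
    (hccw : ∀ a b c, T a b c → 0 < orient (pos P S a) (pos P S b) (pos P S c))
    {z : Pt} (hz : br2_gen (pos P S) z) :
    ∑ a, ∑ b, ∑ c, br2_ind (pos P S) T z a b c = 3 * ∑ i, cr (P i) (P (nx i)) z ∧
    ∑ a, ∑ b, ∑ c, br2_ind (pos P S) T z a b c = 3 * (if z ∈ region P then 1 else 0) := by
  set p := pos P S with hp
  have hE : ∑ a, ∑ b, ∑ c, (if T a b c then cr (p a) (p b) z else 0) =
      ∑ i, cr (P i) (P (nx i)) z :=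
    br2_main_sum hT (fun a b => cr (p a) (p b) z) (fun a b => cr_swap _ _ _)
  have hE2 : ∑ a, ∑ b, ∑ c, (if T a b c then cr (p b) (p c) z else 0) =
      ∑ i, cr (P i) (P (nx i)) z := by
    rw [← hE, ← br2_rot (fun a b c => if T a b c then cr (p a) (p b) z else 0)]
    refine Finset.sum_congr rfl fun a _ => Finset.sum_congr rfl fun b _ =>
      Finset.sum_congr rfl fun c _ => ?_
    simp only [br2_rot_iff hT.rot a b c]
  have hE3 : ∑ a, ∑ b, ∑ c, (if T a b c then cr (p c) (p a) z else 0) =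
      ∑ i, cr (P i) (P (nx i)) z := by
    rw [← hE, ← br2_rot (fun a b c => if T a b c then cr (p c) (p a) z else 0)]
    refine Finset.sum_congr rfl fun a _ => Finset.sum_congr rfl fun b _ =>
      Finset.sum_congr rfl fun c _ => ?_
    simp only [br2_rot_iff hT.rot a b c]
  have hS : ∑ a, ∑ b, ∑ c, br2_ind p T z a b c =
      ∑ a, ∑ b, ∑ c, (if T a b c then cr (p a) (p b) z else 0) +
      ∑ a, ∑ b, ∑ c, (if T a b c then cr (p b) (p c) z else 0) +
      ∑ a, ∑ b, ∑ c, (if T a b c then cr (p c) (p a) z else 0) := by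
    rw [← Finset.sum_add_distrib, ← Finset.sum_add_distrib]
    refine Finset.sum_congr rfl fun a _ => ?_
    rw [← Finset.sum_add_distrib, ← Finset.sum_add_distrib]
    refine Finset.sum_congr rfl fun b _ => ?_
    rw [← Finset.sum_add_distrib, ← Finset.sum_add_distrib]
    refine Finset.sum_congr rfl fun c _ => ?_
    by_cases h : T a b c
    · rw [if_pos h, if_pos h, if_pos h, ← br2_ind_cr hx hccw hz h]
    · simp [br2_ind, h]
  have h1 : ∑ a, ∑ b, ∑ c, br2_ind p T z a b c = 3 * ∑ i, cr (P i) (P (nx i)) z := by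
    rw [hS, hE, hE2, hE3]; ring
  refine ⟨h1, ?_⟩
  rw [h1, hcr z (fun i => hz.1 (Sum.inl i)) (br2_gen_curve hT hccw hz)]

/-- the triangles at a label are counted three times -/
theorem br2_fan (hT : Comb T)
    (hccw : ∀ a b c, T a b c → 0 < orient (pos P S a) (pos P S b) (pos P S c))
    (z : Pt) (v : Fin n ⊕ Fin m) :
    3 * ∑ b, ∑ c, br2_ind (pos P S) T z v b c ≤ ∑ a, ∑ b, ∑ c, br2_ind (pos P S) T z a b c ∧
    ∀ a₀ b₀ c₀, T a₀ b₀ c₀ → z ∈ interior (tri (pos P S a₀) (pos P S b₀) (pos P S c₀)) →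
      v ≠ a₀ → v ≠ b₀ → v ≠ c₀ →
      3 * ∑ b, ∑ c, br2_ind (pos P S) T z v b c + 1 ≤
        ∑ a, ∑ b, ∑ c, br2_ind (pos P S) T z a b c := by
  classical
  set I := br2_ind (pos P S) T z with hI
  have hrot : ∀ a b c, I b c a = I a b c := fun a b c => br2_ind_rot hT _ z a b c
  have h1 : ∑ a, ∑ b, ∑ c, (if a = v then I a b c else 0) = ∑ b, ∑ c, I v b c := by
    rw [Finset.sum_eq_single v]
    · simp
    · intro a _ ha
      simp [ha]
    · intro h
      exact absurd (Finset.mem_univ v) h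
  have h2 : ∑ a, ∑ b, ∑ c, (if b = v then I a b c else 0) = ∑ b, ∑ c, I v b c := by
    rw [← h1, ← br2_rot (fun a b c => if a = v then I a b c else 0)]
    refine Finset.sum_congr rfl fun a _ => Finset.sum_congr rfl fun b _ =>
      Finset.sum_congr rfl fun c _ => ?_
    rw [← hrot a b c]
  have h3 : ∑ a, ∑ b, ∑ c, (if c = v then I a b c else 0) = ∑ b, ∑ c, I v b c := by
    rw [← h2, ← br2_rot (fun a b c => if b = v then I a b c else 0)]
    refine Finset.sum_congr rfl fun a _ => Finset.sum_congr rfl fun b _ =>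
      Finset.sum_congr rfl fun c _ => ?_
    rw [← hrot a b c]
  set R : Fin n ⊕ Fin m → Fin n ⊕ Fin m → Fin n ⊕ Fin m → ℤ := fun a b c =>
    I a b c - ((if a = v then I a b c else 0) + (if b = v then I a b c else 0) +
      (if c = v then I a b c else 0)) with hR
  have hR0 : ∀ a b c, 0 ≤ R a b c := by
    intro a b c
    by_cases h : T a b c
    · obtain ⟨n1, n2, n3⟩ := br2_ne hccw h
      have hI0 : 0 ≤ I a b c := br2_ind_nonneg _ _ _ _ _
      simp only [hR]
      by_cases ha : a = v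
      · have hb : b ≠ v := fun h' => n1 (ha.trans h'.symm)
        have hc : c ≠ v := fun h' => n3 (h'.trans ha.symm)
        simp [ha, hb, hc]
      · by_cases hb : b = v
        · have hc : c ≠ v := fun h' => n2 (hb.trans h'.symm)
          simp [ha, hb, hc]
        · by_cases hc : c = v
          · simp [ha, hb, hc]
          · simp [ha, hb, hc, hI0]
    · have : I a b c = 0 := by
        simp [hI, br2_ind, h]
      simp [hR, this]
  have hsum : ∑ a, ∑ b, ∑ c, I a b c = 3 * ∑ b, ∑ c, I v b c + ∑ a, ∑ b, ∑ c, R a b c := by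
    have : ∑ a, ∑ b, ∑ c, R a b c = ∑ a, ∑ b, ∑ c, I a b c -
        (∑ a, ∑ b, ∑ c, (if a = v then I a b c else 0) +
        ∑ a, ∑ b, ∑ c, (if b = v then I a b c else 0) +
        ∑ a, ∑ b, ∑ c, (if c = v then I a b c else 0)) := by
      simp only [hR, Finset.sum_sub_distrib, Finset.sum_add_distrib]
    rw [this, h1, h2, h3]
    ring
  constructor
  · rw [hsum]
    have : 0 ≤ ∑ a, ∑ b, ∑ c, R a b c :=
      Finset.sum_nonneg fun a _ => Finset.sum_nonneg fun b _ => Finset.sum_nonneg fun c _ =>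
        hR0 a b c
    omega
  · intro a₀ b₀ c₀ h0 hz0 hva hvb hvc
    rw [hsum]
    have h4 : R a₀ b₀ c₀ ≤ ∑ a, ∑ b, ∑ c, R a b c := by
      calc R a₀ b₀ c₀ ≤ ∑ c, R a₀ b₀ c :=
            Finset.single_le_sum (f := fun c => R a₀ b₀ c) (fun c _ => hR0 _ _ c)
              (Finset.mem_univ c₀)
        _ ≤ ∑ b, ∑ c, R a₀ b c :=
            Finset.single_le_sum (f := fun b => ∑ c, R a₀ b c)
              (fun b _ => Finset.sum_nonneg fun c _ => hR0 _ b c) (Finset.mem_univ b₀)
        _ ≤ ∑ a, ∑ b, ∑ c, R a b c :=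
            Finset.single_le_sum (f := fun a => ∑ b, ∑ c, R a b c)
              (fun a _ => Finset.sum_nonneg fun b _ => Finset.sum_nonneg fun c _ => hR0 a b c)
              (Finset.mem_univ a₀)
    have h5 : R a₀ b₀ c₀ = 1 := by
      have : I a₀ b₀ c₀ = 1 := by simp [hI, br2_ind, h0, hz0]
      simp [hR, this, Ne.symm hva, Ne.symm hvb, Ne.symm hvc]
    omega

theorem br2_F_pos (p : Fin n ⊕ Fin m → Pt) {z : Pt} {v b₀ c₀ : Fin n ⊕ Fin m}
    (h : T v b₀ c₀) (hz : z ∈ interior (tri (p v) (p b₀) (p c₀))) :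
    1 ≤ ∑ b, ∑ c, br2_ind p T z v b c := by
  have h1 : br2_ind p T z v b₀ c₀ = 1 := by simp [br2_ind, h, hz]
  calc (1 : ℤ) = br2_ind p T z v b₀ c₀ := h1.symm
    _ ≤ ∑ c, br2_ind p T z v b₀ c :=
        Finset.single_le_sum (f := fun c => br2_ind p T z v b₀ c)
          (fun c _ => br2_ind_nonneg _ _ _ _ _) (Finset.mem_univ c₀)
    _ ≤ ∑ b, ∑ c, br2_ind p T z v b c :=
        Finset.single_le_sum (f := fun b => ∑ c, br2_ind p T z v b c)
          (fun b _ => Finset.sum_nonneg fun c _ => br2_ind_nonneg _ _ _ _ _) (Finset.mem_univ b₀)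

/-- generic points near a point of a triangle -/
theorem br2_pick (hx : ∀ u v, u ≠ v → (pos P S u).1 ≠ (pos P S v).1)
    {a b c : Pt} (hpos : 0 < orient a b c) {q : Pt} (hq : q ∈ tri a b c) {U : Set Pt}
    (hU : U ∈ 𝓝 q) : ∃ z ∈ U, br2_gen (pos P S) z ∧ z ∈ interior (tri a b c) := by
  have h1 := tri_subset_closure hpos hq
  obtain ⟨V, hVU, hV, hqV⟩ := mem_nhds_iff.1 hU
  obtain ⟨w, hw1, hw2⟩ := mem_closure_iff.1 h1 V hV hqV
  obtain ⟨z, ⟨hz1, hz2⟩, hz3⟩ := (br2_dense hx).inter_open_nonempty _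
    (hV.inter isOpen_interior) ⟨w, hw1, hw2⟩
  exact ⟨z, hVU hz1, hz3, hz2⟩

open Classical in
theorem br2_K (hx : ∀ u v, u ≠ v → (pos P S u).1 ≠ (pos P S v).1)
    (hccw : ∀ a b c, T a b c → 0 < orient (pos P S a) (pos P S b) (pos P S c))
    (v : Fin n ⊕ Fin m) :
    ∀ᶠ z in 𝓝 (pos P S v),
      ∑ b, ∑ c, (if T v b c then cr (pos P S b) (pos P S c) z else 0) =
      ∑ b, ∑ c, (if T v b c then cr (pos P S b) (pos P S c) (pos P S v) else 0) := by
  have h1 : ∀ b c, ∀ᶠ z in 𝓝 (pos P S v),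
      (if T v b c then cr (pos P S b) (pos P S c) z else 0) =
      (if T v b c then cr (pos P S b) (pos P S c) (pos P S v) else 0) := by
    intro b c
    by_cases h : T v b c
    · obtain ⟨n1, n2, n3⟩ := br2_ne hccw h
      have h2 := br2_cr_const (hx b v n1.symm) (hx c v n3)
        (u := pos P S b) (w := pos P S c) (q := pos P S v) (fun _ => by
          rw [orient_rot]
          exact (hccw v b c h).ne')
      filter_upwards [h2] with z hz
      rw [if_pos h, if_pos h, hz]
    · filter_upwards with z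
      rw [if_neg h, if_neg h]
  have h2 : ∀ᶠ z in 𝓝 (pos P S v), ∀ b c,
      (if T v b c then cr (pos P S b) (pos P S c) z else 0) =
      (if T v b c then cr (pos P S b) (pos P S c) (pos P S v) else 0) :=
    Filter.eventually_all.2 fun b => Filter.eventually_all.2 fun c => h1 b c
  filter_upwards [h2] with z hz
  exact Finset.sum_congr rfl fun b _ => Finset.sum_congr rfl fun c _ => hz b c

open Classical in
theorem br2_F (hx : ∀ u v, u ≠ v → (pos P S u).1 ≠ (pos P S v).1) (hT : Comb T)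
    (hccw : ∀ a b c, T a b c → 0 < orient (pos P S a) (pos P S b) (pos P S c))
    (v : Fin n ⊕ Fin m) {z : Pt} (hz : br2_gen (pos P S) z) :
    ∑ b, ∑ c, br2_ind (pos P S) T z v b c =
      ∑ b, ∑ c, (if T v b c then cr (pos P S b) (pos P S c) z else 0) +
      ∑ b, (br2_e v b * cr (pos P S v) (pos P S b) z +
        br2_e b v * cr (pos P S b) (pos P S v) z) := by
  rw [← br2_local_sum hT (fun a b => cr (pos P S a) (pos P S b) z) (fun a b => cr_swap _ _ _) v]
  refine Finset.sum_congr rfl fun b _ => Finset.sum_congr rfl fun c _ => ?_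
  by_cases h : T v b c
  · rw [if_pos h, br2_ind_cr hx hccw hz h]
  · simp [br2_ind, h]

open Classical in
/-- the polygon edges away from the vertex -/
theorem br2_R_split (k : Fin n) (z : Pt) :
    ∑ i, cr (P i) (P (nx i)) z =
      ∑ b, (br2_e (Sum.inl k) b * cr (pos P S (Sum.inl k)) (pos P S b) z +
        br2_e b (Sum.inl k) * cr (pos P S b) (pos P S (Sum.inl k)) z) +
      ∑ a, ∑ b, (if a = Sum.inl k ∨ b = Sum.inl k then 0 else
        br2_e a b * cr (pos P S a) (pos P S b) z) := by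
  have h0 := br2_e_sum (n := n) (m := m) (fun a b => cr (pos P S a) (pos P S b) z)
  have h0' : ∑ i, cr (P i) (P (nx i)) z =
      ∑ a : Fin n ⊕ Fin m, ∑ b, br2_e a b * cr (pos P S a) (pos P S b) z := h0.symm
  rw [h0']
  set v : Fin n ⊕ Fin m := Sum.inl k with hv
  have h1 : ∀ a b : Fin n ⊕ Fin m, br2_e a b * cr (pos P S a) (pos P S b) z =
      (if a = v then br2_e a b * cr (pos P S a) (pos P S b) z else 0) +
      (if b = v then br2_e a b * cr (pos P S a) (pos P S b) z else 0) +
      (if a = v ∨ b = v then 0 else br2_e a b * cr (pos P S a) (pos P S b) z) := by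
    intro a b
    by_cases ha : a = v
    · by_cases hb : b = v
      · subst hb
        subst ha
        simp [br2_cr_self]
      · simp [ha, hb]
    · by_cases hb : b = v
      · simp [ha, hb]
      · simp [ha, hb]
  rw [Finset.sum_congr rfl fun a _ => Finset.sum_congr rfl fun b _ => h1 a b]
  simp only [Finset.sum_add_distrib]
  congr 2
  · rw [Finset.sum_eq_single v]
    · simp
    · intro a _ ha
      simp [ha]
    · intro h
      exact absurd (Finset.mem_univ v) h
  · refine Finset.sum_congr rfl fun a _ => ?_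
    simp

open Classical in
theorem br2_R_const (hsim : IsSimplePolygon P)
    (hx : ∀ u v, u ≠ v → (pos P S u).1 ≠ (pos P S v).1) (k : Fin n) :
    ∀ᶠ z in 𝓝 (P k),
      ∑ a, ∑ b, (if a = Sum.inl k ∨ b = Sum.inl k then 0 else
        br2_e a b * cr (pos P S a) (pos P S b) z) =
      ∑ a, ∑ b, (if a = Sum.inl k ∨ b = Sum.inl k then 0 else
        br2_e a b * cr (pos P S a) (pos P S b) (P k)) := by
  have hxP : ∀ i j : Fin n, i ≠ j → (P i).1 ≠ (P j).1 := by
    intro i j hij
    exact hx (Sum.inl i) (Sum.inl j) (fun h => hij (Sum.inl.inj h))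
  have hinj : Function.Injective P := by
    intro i j hij
    by_contra h
    exact hxP i j h (by rw [hij])
  have h1 : ∀ a b : Fin n ⊕ Fin m, ∀ᶠ z in 𝓝 (P k),
      (if a = Sum.inl k ∨ b = Sum.inl k then 0 else
        br2_e a b * cr (pos P S a) (pos P S b) z) =
      (if a = Sum.inl k ∨ b = Sum.inl k then 0 else
        br2_e a b * cr (pos P S a) (pos P S b) (P k)) := by
    intro a b
    by_cases hab : a = Sum.inl k ∨ b = Sum.inl k
    · filter_upwards with z
      rw [if_pos hab, if_pos hab]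
    · by_cases he : ∃ i : Fin n, a = Sum.inl i ∧ b = Sum.inl (nx i)
      · obtain ⟨i, rfl, rfl⟩ := he
        push Not at hab
        have hk1 : k ≠ i := fun h => hab.1 (by rw [h])
        have hk2 : k ≠ nx i := fun h => hab.2 (by rw [h])
        have hns := br2_vertex hsim hinj hk1 hk2
        have h2 : ∀ᶠ z in 𝓝 (P k), cr (P i) (P (nx i)) z = cr (P i) (P (nx i)) (P k) := by
          apply br2_cr_const (hxP _ _ hk1.symm) (hxP _ _ hk2.symm)
          rintro (⟨h3, h4⟩ | ⟨h3, h4⟩) h5
          · exact hns (br2_on_seg h3 h4 h5)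
          · have h6 : orient (P (nx i)) (P i) (P k) = 0 := by
              rw [orient_swap (P i) (P (nx i)) (P k), h5, neg_zero]
            have := br2_on_seg h3 h4 h6
            rw [segment_symm] at this
            exact hns this
        filter_upwards [h2] with z hz
        have h7 : ¬ ((Sum.inl i : Fin n ⊕ Fin m) = Sum.inl k ∨
            (Sum.inl (nx i) : Fin n ⊕ Fin m) = Sum.inl k) := by
          rintro (h | h)
          · exact hab.1 h
          · exact hab.2 h
        rw [if_neg h7, if_neg h7]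
        show br2_e _ _ * cr (P i) (P (nx i)) z = br2_e _ _ * cr (P i) (P (nx i)) (P k)
        rw [hz]
      · filter_upwards with z
        have : br2_e a b = 0 := by
          unfold br2_e
          rw [if_neg he]
        rw [this, zero_mul, zero_mul]
  have h2 : ∀ᶠ z in 𝓝 (P k), ∀ a b : Fin n ⊕ Fin m,
      (if a = Sum.inl k ∨ b = Sum.inl k then 0 else
        br2_e a b * cr (pos P S a) (pos P S b) z) =
      (if a = Sum.inl k ∨ b = Sum.inl k then 0 else
        br2_e a b * cr (pos P S a) (pos P S b) (P k)) :=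
    Filter.eventually_all.2 fun a => Filter.eventually_all.2 fun b => h1 a b
  filter_upwards [h2] with z hz
  exact Finset.sum_congr rfl fun a _ => Finset.sum_congr rfl fun b _ => hz a b

open Classical in
/-- near a label only the triangles at this label contain generic points -/
theorem br2_near (hsim : IsSimplePolygon P)
    (hcr : ∀ z : Pt, (∀ i, (P i).1 ≠ z.1) → z ∉ curve P →
      ∑ i, cr (P i) (P (nx i)) z = if z ∈ region P then 1 else 0)
    (hx : ∀ u v, u ≠ v → (pos P S u).1 ≠ (pos P S v).1)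
    (hT : Comb T)
    (hccw : ∀ a b c, T a b c → 0 < orient (pos P S a) (pos P S b) (pos P S c))
    (v : Fin n ⊕ Fin m) (hv : ∃ b c, T v b c) :
    ∀ᶠ z in 𝓝 (pos P S v), br2_gen (pos P S) z →
      ∑ a, ∑ b, ∑ c, br2_ind (pos P S) T z a b c = 3 * ∑ b, ∑ c, br2_ind (pos P S) T z v b c ∧
      ((∃ j, v = Sum.inr j) → z ∈ region P) := by
  obtain ⟨b₀, c₀, h0⟩ := hv
  have hvt : pos P S v ∈ tri (pos P S v) (pos P S b₀) (pos P S c₀) :=
    segment_subset_tri _ _ _ (left_mem_segment _ _ _)
  rcases v with k | j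
  · have hK := br2_K (S := S) hx hccw (Sum.inl k)
    have hR := br2_R_const hsim hx k
    set K := ∑ b, ∑ c, (if T (Sum.inl k) b c then cr (pos P S b) (pos P S c)
      (pos P S (Sum.inl k)) else 0) with hKdef
    set K' := ∑ a, ∑ b, (if a = Sum.inl k ∨ b = Sum.inl k then 0 else
        br2_e a b * cr (pos P S a) (pos P S b) (P k)) with hK'def
    have hfor : ∀ z, br2_gen (pos P S) z →
        ∑ b, ∑ c, (if T (Sum.inl k) b c then cr (pos P S b) (pos P S c) z else 0) = K →
        ∑ a, ∑ b, (if a = Sum.inl k ∨ b = Sum.inl k then 0 else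
        br2_e a b * cr (pos P S a) (pos P S b) z) = K' →
        ∑ a, ∑ b, ∑ c, br2_ind (pos P S) T z a b c =
          3 * ∑ b, ∑ c, br2_ind (pos P S) T z (Sum.inl k) b c + 3 * (K' - K) := by
      intro z hz h1 h2
      have h3 := br2_F hx hT hccw (Sum.inl k) hz
      have h4 := (br2_count hcr hx hT hccw hz).1
      have h5 := br2_R_split (P := P) (S := S) k z
      rw [h4, h5, h3, h1, h2]
      ring
    have hKK : K' = K := by
      obtain ⟨z, ⟨hz1, hz2⟩, hz3, hz4⟩ := br2_pick hx (hccw _ _ _ h0) hvt (hK.and hR)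
      have h1 := hfor z hz3 hz1 hz2
      have h2 := br2_F_pos (pos P S) h0 hz4
      have h3 := (br2_count hcr hx hT hccw hz3).2
      have h4 := (br2_fan hT hccw z (Sum.inl k)).1
      have h5 : (if z ∈ region P then (1 : ℤ) else 0) ≤ 1 := by split_ifs <;> norm_num
      omega
    filter_upwards [hK, hR] with z h1 h2 hz
    refine ⟨?_, ?_⟩
    · rw [hfor z hz h1 h2, hKK]
      ring
    · rintro ⟨j, hj⟩
      cases hj
  · have hK := br2_K (S := S) hx hccw (Sum.inr j)
    set K := ∑ b, ∑ c, (if T (Sum.inr j) b c then cr (pos P S b) (pos P S c)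
      (pos P S (Sum.inr j)) else 0) with hKdef
    have hE : ∀ z, ∑ b, (br2_e (Sum.inr j) b * cr (pos P S (Sum.inr j)) (pos P S b) z +
        br2_e b (Sum.inr j) * cr (pos P S b) (pos P S (Sum.inr j)) z) = 0 := by
      intro z
      apply Finset.sum_eq_zero
      intro b _
      have h1 : br2_e (Sum.inr j : Fin n ⊕ Fin m) b = 0 := by
        unfold br2_e
        rw [if_neg]
        rintro ⟨i, h, _⟩
        cases h
      have h2 : br2_e b (Sum.inr j : Fin n ⊕ Fin m) = 0 := by
        unfold br2_e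
        rw [if_neg]
        rintro ⟨i, _, h⟩
        cases h
      rw [h1, h2]
      ring
    have hfor : ∀ z, br2_gen (pos P S) z →
        ∑ b, ∑ c, (if T (Sum.inr j) b c then cr (pos P S b) (pos P S c) z else 0) = K →
        ∑ b, ∑ c, br2_ind (pos P S) T z (Sum.inr j) b c = K := by
      intro z hz h1
      rw [br2_F hx hT hccw (Sum.inr j) hz, h1, hE z, add_zero]
    have hK1 : 1 ≤ K := by
      obtain ⟨z, hz1, hz3, hz4⟩ := br2_pick hx (hccw _ _ _ h0) hvt hK
      have h1 := hfor z hz3 hz1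
      have h2 := br2_F_pos (pos P S) h0 hz4
      omega
    filter_upwards [hK] with z h1 hz
    have h2 := hfor z hz h1
    have h3 := (br2_count hcr hx hT hccw hz).2
    have h4 := (br2_fan hT hccw z (Sum.inr j)).1
    by_cases hr : z ∈ region P
    · rw [if_pos hr] at h3
      exact ⟨by omega, fun _ => hr⟩
    · rw [if_neg hr] at h3
      omega

end main

open Classical in
theorem bridge2 {n m : ℕ} {P : Fin n → Pt} {S : Fin m → Pt}
    {T : Fin n ⊕ Fin m → Fin n ⊕ Fin m → Fin n ⊕ Fin m → Prop}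
    (hsim : IsSimplePolygon P)
    (hcr : ∀ z : Pt, (∀ i, (P i).1 ≠ z.1) → z ∉ curve P →
      ∑ i, cr (P i) (P (nx i)) z = if z ∈ region P then 1 else 0)
    (hcl : IsClosed (region P))
    (hint : region P ⊆ closure (interior (region P)))
    (hbd : ∀ z ∈ curve P, z ∉ interior (region P))
    (hx : ∀ u v, u ≠ v → (pos P S u).1 ≠ (pos P S v).1)
    (hT : Comb T)
    (hccw : ∀ a b c, T a b c → 0 < orient (pos P S a) (pos P S b) (pos P S c))
    (hused : ∀ j : Fin m, ∃ a b, T (Sum.inr j) a b) : IsTriangulation P S T := by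
  have hle : ∀ z, br2_gen (pos P S) z →
      ∑ a, ∑ b, ∑ c, br2_ind (pos P S) T z a b c ≤ 3 := by
    intro z hz
    have h3 := (br2_count hcr hx hT hccw hz).2
    have h5 : (if z ∈ region P then (1 : ℤ) else 0) ≤ 1 := by split_ifs <;> norm_num
    omega
  have hmem : ∀ z, br2_gen (pos P S) z → ∀ a b c, T a b c →
      z ∈ interior (tri (pos P S a) (pos P S b) (pos P S c)) → z ∈ region P := by
    intro z hz a b c h hzt
    by_contra hr
    have h3 := (br2_count hcr hx hT hccw hz).2
    rw [if_neg hr] at h3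
    have h4 := (br2_fan hT hccw z a).1
    have h5 := br2_F_pos (pos P S) h hzt
    omega
  have hshare : ∀ z, br2_gen (pos P S) z → ∀ a b c a' b' c', T a b c → T a' b' c' →
      z ∈ interior (tri (pos P S a) (pos P S b) (pos P S c)) →
      z ∈ interior (tri (pos P S a') (pos P S b') (pos P S c')) →
      a = a' ∨ a = b' ∨ a = c' := by
    intro z hz a b c a' b' c' h h' hzt hzt'
    by_contra hne
    push Not at hne
    have h4 := (br2_fan hT hccw z a).2 a' b' c' h' hzt' hne.1 hne.2.1 hne.2.2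
    have h5 := br2_F_pos (pos P S) h hzt
    have h6 := hle z hz
    omega
  have hsub : ∀ z, br2_gen (pos P S) z → ∀ a b c a' b' c', T a b c → T a' b' c' →
      z ∈ interior (tri (pos P S a) (pos P S b) (pos P S c)) →
      z ∈ interior (tri (pos P S a') (pos P S b') (pos P S c')) →
      ({a, b, c} : Set (Fin n ⊕ Fin m)) ⊆ {a', b', c'} := by
    intro z hz a b c a' b' c' h h' hzt hzt'
    have r1 : z ∈ interior (tri (pos P S b) (pos P S c) (pos P S a)) := by rwa [tri_rot]
    have r2 : z ∈ interior (tri (pos P S c) (pos P S a) (pos P S b)) := by rwa [tri_rot]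
    rintro u (rfl | rfl | rfl)
    · exact hshare z hz _ _ _ _ _ _ h h' hzt hzt'
    · exact hshare z hz _ _ _ _ _ _ (hT.rot _ _ _ h) h' r1 hzt'
    · exact hshare z hz _ _ _ _ _ _ (hT.rot _ _ _ (hT.rot _ _ _ h)) h' r2 hzt'
  have hvt : ∀ v : Fin n ⊕ Fin m, ∃ b c, T v b c := by
    rintro (k | j)
    · obtain ⟨c, hc⟩ := hT.bd k
      exact ⟨_, c, hc⟩
    · exact hused j
  refine ⟨?_, ?_, hT.rot, hccw, ?_, ?_, ?_⟩
  · intro u v huv
    by_contra h
    exact hx u v h (by rw [huv])
  · intro j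
    have hint' : S j ∈ interior (region P) := by
      have h1 := br2_near hsim hcr hx hT hccw (Sum.inr j) (hvt _)
      obtain ⟨V, hV, hVo, hjV⟩ := mem_nhds_iff.1 h1
      refine mem_interior.2 ⟨V, ?_, hVo, hjV⟩
      intro z hz
      rw [← hcl.closure_eq, mem_closure_iff]
      intro W hW hzW
      obtain ⟨z', ⟨hz1, hz2⟩, hz3⟩ := (br2_dense hx).inter_open_nonempty _ (hW.inter hVo)
        ⟨z, hzW, hz⟩
      exact ⟨z', hz1, (hV hz2 hz3).2 ⟨j, rfl⟩⟩
    exact ⟨interior_subset hint', fun h => hbd _ h hint'⟩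
  · apply Subset.antisymm
    · intro z hz
      simp only [mem_iUnion] at hz
      obtain ⟨a, b, c, h, hzt⟩ := hz
      rw [← hcl.closure_eq, mem_closure_iff_nhds]
      intro U hU
      obtain ⟨z', hz1, hz2, hz3⟩ := br2_pick hx (hccw _ _ _ h) hzt hU
      exact ⟨z', hz1, hmem z' hz2 a b c h hz3⟩
    · have hclosed : IsClosed (⋃ (a) (b) (c) (_ : T a b c),
          tri (pos P S a) (pos P S b) (pos P S c)) := by
        refine isClosed_iUnion_of_finite fun a => isClosed_iUnion_of_finite fun b =>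
          isClosed_iUnion_of_finite fun c => isClosed_iUnion_of_finite fun _ => isClosed_tri _ _ _
      intro z hz
      have h1 := hint hz
      rw [← hclosed.closure_eq, mem_closure_iff]
      intro W hW hzW
      obtain ⟨w, hw1, hw2⟩ := mem_closure_iff.1 h1 W hW hzW
      obtain ⟨z', ⟨hz1, hz2⟩, hz3⟩ := (br2_dense hx).inter_open_nonempty _
        (hW.inter isOpen_interior) ⟨w, hw1, hw2⟩
      refine ⟨z', hz1, ?_⟩
      have h3 := (br2_count hcr hx hT hccw hz3).2
      rw [if_pos (interior_subset hz2)] at h3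
      by_contra hno
      simp only [mem_iUnion] at hno
      have h4 : ∑ a, ∑ b, ∑ c, br2_ind (pos P S) T z' a b c = 0 := by
        refine Finset.sum_eq_zero fun a _ => Finset.sum_eq_zero fun b _ =>
          Finset.sum_eq_zero fun c _ => ?_
        unfold br2_ind
        rw [if_neg]
        rintro ⟨h5, h6⟩
        exact hno ⟨a, b, c, h5, interior_subset h6⟩
      omega
  · intro a b c a' b' c' h h' hne
    obtain ⟨z, hz1, hz2⟩ := (br2_dense hx).inter_open_nonempty _
      (isOpen_interior.inter isOpen_interior) hne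
    exact Subset.antisymm (hsub z hz2 _ _ _ _ _ _ h h' hz1.1 hz1.2)
      (hsub z hz2 _ _ _ _ _ _ h' h hz1.2 hz1.1)
  · intro a b c v h hvtri
    by_contra hne
    push Not at hne
    have h1 := br2_near hsim hcr hx hT hccw v (hvt v)
    obtain ⟨z, hz1, hz2, hz3⟩ := br2_pick hx (hccw _ _ _ h) hvtri h1
    have h2 := (hz1 hz2).1
    have h3 := (br2_fan hT hccw z v).2 a b c h hz3 hne.1 hne.2.1 hne.2.2
    omega

end Pool.Agent.Lib57.CT
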