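import Mathlib

/-! BLOCK CHAINP: the numerical chain of the first polygon (pure real arithmetic). -/

namespace Pool.Agent.Lib57.CT

open Finset

/-- one step of the chain: lower bound of the new slope -/
theorem chainP_step {a a' d X Y : ℝ} (ha' : 0 ≤ a') (haa : a' ≤ a) (hd : 0 ≤ d)
    (hX0 : -1 < X) (hX1 : X < 1) (hY : Y ≤ 1 - d) (hs : (X + 1) * (1 + a) < Y) :
    a' + 2 * d - 2 * (a' + d) ^ 2 < 1 - Y / (1 - X) := by
  have h1X : 0 < 1 - X := by linarith
  have hX1' : 0 < X + 1 := by linarith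
  have h1 : (X + 1) * (1 + a') < Y := by
    have : (X + 1) * (1 + a') ≤ (X + 1) * (1 + a) :=
      mul_le_mul_of_nonneg_left (by linarith) hX1'.le
    linarith
  have hY0 : 0 < Y := lt_trans (mul_pos hX1' (by linarith)) h1
  have hd1 : 0 < 1 - d := by linarith
  have hpos : 0 < 1 + 2 * a' + d := by linarith
  have h2 : Y * (1 + 2 * a' + d) < (1 - d) * (1 + a') * (1 - X) := by
    have h3 : 2 * (1 + a') - Y < (1 + a') * (1 - X) := by nlinarith
    have h4 : (1 - d) * (2 * (1 + a') - Y) < (1 - d) * ((1 + a') * (1 - X)) :=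
      mul_lt_mul_of_pos_left h3 hd1
    have h5 : Y * (2 + 2 * a') ≤ (1 - d) * (2 + 2 * a') :=
      mul_le_mul_of_nonneg_right hY (by linarith)
    nlinarith
  have h6 : Y / (1 - X) < (1 - d) * (1 + a') / (1 + 2 * a' + d) := by
    rw [div_lt_div_iff₀ h1X hpos]
    exact h2
  have h7 : (1 - d) * (1 + a') / (1 + 2 * a' + d) ≤ 1 - (a' + 2 * d - 2 * (a' + d) ^ 2) := by
    rw [div_le_iff₀ hpos]
    have : 0 ≤ (a' + d) ^ 2 * (2 * a' + d) := by positivity
    nlinarith
  linarith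

/-- the chain in the first polygon; `(X i, Y i)` are the coordinates of the `i`-th Steiner point
in the `i`-th frame; `e i = false` iff it is the apex over the `i`-th sill -/
theorem chainP {N : ℕ} (hN : 1 ≤ N) {w : ℝ} {δ X Y : ℕ → ℝ} (e : ℕ → Bool)
    (hδ : ∀ i, 0 ≤ δ i) (hδ1 : ∀ i, δ i ≤ 1 / 1000) (hX : ∀ i < N, -1 < X i ∧ X i < 1)
    (hY : ∀ i < N, Y i < 1) (he : ∀ i < N, e i = false → Y i < 1 - δ i)
    (h0 : X 0 + 1 < Y 0)
    (hl : ∀ i, i + 1 < N → (X (i + 1) + 1) * (2 * (1 - X i) - Y i) < Y (i + 1) * (1 - X i))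
    (h1 : (1 - w) * (1 - X (N - 1)) < Y (N - 1)) :
    2 * ∑ i ∈ (range N).filter (fun i => e i = false), δ i
      - 18 * N * (∑ i ∈ range N, δ i) ^ 2 < w := by
  set Δ : ℝ := ∑ i ∈ range N, δ i with hΔ
  set s : ℕ → ℝ := fun k => ∑ i ∈ (range k).filter (fun i => e i = false), δ i with hs
  have hs0 : ∀ k, 0 ≤ s k := fun k => sum_nonneg fun i _ => hδ i
  have hsΔ : ∀ k ≤ N, s k ≤ Δ := by
    intro k hk
    refine sum_le_sum_of_subset_of_nonneg ?_ (fun i _ _ => hδ i)
    intro i hi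
    simp only [mem_filter, mem_range] at hi ⊢
    omega
  have hδΔ : ∀ i < N, δ i ≤ Δ := by
    intro i hi
    exact single_le_sum (f := δ) (fun j _ => hδ j) (mem_range.2 hi)
  have hΔ0 : 0 ≤ Δ := sum_nonneg fun i _ => hδ i
  -- the effective depth
  have hdex : ∀ i < N, ∃ d : ℝ, 0 ≤ d ∧ d ≤ δ i ∧ Y i ≤ 1 - d ∧ s (i + 1) = s i + d := by
    intro i hi
    by_cases hei : e i = false
    · refine ⟨δ i, hδ i, le_refl _, (he i hi hei).le, ?_⟩
      simp only [hs]
      rw [range_add_one, filter_insert, if_pos hei, sum_insert (by simp)]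
      ring
    · refine ⟨0, le_refl _, hδ i, by linarith [hY i hi], ?_⟩
      simp only [hs]
      rw [range_add_one, filter_insert, if_neg hei]
      ring
  have key : ∀ i < N, ∀ a : ℝ, 0 ≤ a → 2 * s i - 18 * i * Δ ^ 2 ≤ a →
      (X i + 1) * (1 + a) < Y i →
      0 ≤ 1 - Y i / (1 - X i) ∧ 2 * s (i + 1) - 18 * ((i + 1 : ℕ) : ℝ) * Δ ^ 2
        ≤ 1 - Y i / (1 - X i) := by
    intro i hi a ha hL hst
    obtain ⟨d, hd0, hdδ, hYd, hsd⟩ := hdex i hi
    obtain ⟨hX0, hX1⟩ := hX i hi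
    constructor
    · have h := chainP_step (le_refl (0 : ℝ)) ha hd0 hX0 hX1 hYd hst
      have hd1 : d ≤ 1 / 1000 := hdδ.trans (hδ1 i)
      nlinarith
    · set a' : ℝ := max 0 (2 * s i - 18 * i * Δ ^ 2) with ha'
      have ha'0 : 0 ≤ a' := le_max_left _ _
      have ha'L : 2 * s i - 18 * i * Δ ^ 2 ≤ a' := le_max_right _ _
      have ha'a : a' ≤ a := max_le ha hL
      have ha'Δ : a' ≤ 2 * Δ := by
        refine max_le (by linarith) ?_
        have h2 : s i ≤ Δ := hsΔ i hi.le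
        have h3 : 0 ≤ 18 * (i : ℝ) * Δ ^ 2 := by positivity
        linarith
      have h := chainP_step ha'0 ha'a hd0 hX0 hX1 hYd hst
      have hdΔ : d ≤ Δ := hdδ.trans (hδΔ i hi)
      have hsq : (a' + d) ^ 2 ≤ (3 * Δ) ^ 2 := by
        apply pow_le_pow_left₀ (by linarith)
        linarith
      rw [hsd]
      push_cast
      nlinarith
  have main : ∀ i < N, 0 ≤ 1 - Y i / (1 - X i) ∧
      2 * s (i + 1) - 18 * ((i + 1 : ℕ) : ℝ) * Δ ^ 2 ≤ 1 - Y i / (1 - X i) := by
    intro i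
    induction i with
    | zero =>
      intro hi
      refine key 0 hi 0 (le_refl _) ?_ ?_
      · simp [hs]
      · linarith
    | succ i ih =>
      intro hi
      obtain ⟨ha, hL⟩ := ih (by omega)
      refine key (i + 1) hi _ ha hL ?_
      have h1X : 0 < 1 - X i := by linarith [(hX i (by omega)).2]
      have h2 := hl i hi
      have h3 : (X (i + 1) + 1) * (1 + (1 - Y i / (1 - X i))) * (1 - X i)
          = (X (i + 1) + 1) * (2 * (1 - X i) - Y i) := by
        field_simp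
        ring
      refine lt_of_mul_lt_mul_right ?_ h1X.le
      rw [h3]
      exact h2
  obtain ⟨_, hfin⟩ := main (N - 1) (by omega)
  have hN1 : N - 1 + 1 = N := by omega
  rw [hN1] at hfin
  have h1X : 0 < 1 - X (N - 1) := by linarith [(hX (N - 1) (by omega)).2]
  have h5 : 1 - w < Y (N - 1) / (1 - X (N - 1)) := by
    rw [lt_div_iff₀ h1X]
    exact h1
  have : (s N) = ∑ i ∈ (range N).filter (fun i => e i = false), δ i := rfl
  rw [← this]
  linarith

end Pool.Agent.Lib57.CT
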