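import Mathlib

/-! BLOCK CHAINQ: the numerical chain of the second polygon (pure real arithmetic). -/

namespace Pool.Agent.Lib57.CT

open Finset

/-- the slope exceeds the previous one (used to bound all the slopes) -/
theorem chainQ_mono {p U V : ℝ} (hp : 0 ≤ p) (hb : 7 * U - 24 < V) (hw : V < -7 * U)
    (hs : (1 + p) * (3 - U) < V + 3) : p < (V - U) / (4 - U) ∧ U < 0 := by
  have hU : U < 12 / 7 := by linarith
  have h4 : 0 < 4 - U := by linarith
  have ht : 3 * p < (-U) * (6 - p) := by nlinarith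
  have hp6 : p < 6 := by
    by_contra hcon
    push Not at hcon
    nlinarith
  have hU0 : U < 0 := by
    by_contra hcon
    push Not at hcon
    nlinarith [mul_nonneg hcon (by linarith : (0 : ℝ) ≤ 6 - p)]
  refine ⟨?_, hU0⟩
  rw [lt_div_iff₀ h4]
  have h2 : p < 2 * (-U) := by
    by_contra hcon
    push Not at hcon
    nlinarith
  nlinarith

/-- the gain of a served sill -/
theorem chainQ_gain {p q η c U V : ℝ} (hp : 0 ≤ p) (hpq : p ≤ q) (hq : q ≤ 1 / 1000)
    (hη : 0 ≤ η) (hηc : 29 * η ≤ 8 * c) (hc : 0 ≤ c) (hc1 : c ≤ 1 / 10)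
    (hU : U < 0) (hw : V < -(7 + η) * U - c)
    (hs : (1 + p) * (3 - U) < V + 3) :
    c / 12 - c * (q + c) / 40 < (V - U) / (4 - U) - p := by
  have h4 : 0 < 4 - U := by linarith
  set t : ℝ := -U with ht
  have hUt : U = -t := by rw [ht]; ring
  have ht0 : 0 < t := by linarith
  rw [hUt] at hw hs h4 ⊢
  have h1 : 3 * p + c < t * (6 + η - p) := by nlinarith
  have h6 : 0 < 6 + η - p := by linarith
  have h2 : (2 * t - p) < ((V + t) / (4 + t) - p) * (4 + t) := by
    have h4' : (4 + t) ≠ 0 := by linarith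
    have : ((V + t) / (4 + t) - p) * (4 + t) = V + t - p * (4 + t) := by
      field_simp
    rw [this]
    nlinarith
  have e1 : (V - -t) / (4 - -t) = (V + t) / (4 + t) := by
    congr 1 <;> ring
  rw [e1]
  have h44 : 0 < 4 + t := by linarith
  -- it suffices to compare with the slope bound
  set g : ℝ := c / 12 - c * (q + c) / 40 with hg
  have hqc : 0 ≤ q + c := by linarith
  have hg1 : g ≤ c / 12 := by
    have : 0 ≤ c * (q + c) / 40 := by positivity
    linarith
  have hg2 : g * (4 * (6 + η - p) + 3 * p + c) ≤ 2 * (3 * p + c) - p * (6 + η - p) := by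
    have hcc : 0 ≤ c * c := mul_nonneg hc hc
    have hcq : 0 ≤ c * q := mul_nonneg hc (by linarith)
    have hcp : c * p ≤ c * q := mul_le_mul_of_nonneg_left hpq hc
    have hcp0 : 0 ≤ c * p := mul_nonneg hc hp
    have h29 : 29 * (η * p) ≤ 8 * (c * p) := by nlinarith
    have h29c : 29 * (η * c) ≤ 8 * (c * c) := by nlinarith
    have hW0 : 24 - (1 : ℝ) / 10 ≤ 4 * (6 + η - p) + 3 * p + c := by linarith
    have hle : c * (q + c) / 40 * (24 - (1 : ℝ) / 10)
        ≤ c * (q + c) / 40 * (4 * (6 + η - p) + 3 * p + c) :=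
      mul_le_mul_of_nonneg_left hW0 (by positivity)
    have hexp : c / 12 * (4 * (6 + η - p) + 3 * p + c)
        = 2 * c + (η * c) / 3 - c * p / 12 + c * c / 12 := by ring
    have hpp : 0 ≤ p * p := mul_nonneg hp hp
    have : g * (4 * (6 + η - p) + 3 * p + c)
        = c / 12 * (4 * (6 + η - p) + 3 * p + c)
          - c * (q + c) / 40 * (4 * (6 + η - p) + 3 * p + c) := by rw [hg]; ring
    rw [this, hexp]
    nlinarith
  have hg3 : g * (4 + t) ≤ 2 * t - p := by
    have h2g : 0 < 2 - g := by linarith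
    -- (4+t) g ≤ 2t - p  iff  4 g + p ≤ (2 - g) t
    have h7 : (4 * g + p) * (6 + η - p) ≤ (2 - g) * (3 * p + c) := by nlinarith
    have h8 : (2 - g) * (3 * p + c) ≤ (2 - g) * (t * (6 + η - p)) :=
      mul_le_mul_of_nonneg_left h1.le h2g.le
    have h9 : (4 * g + p) * (6 + η - p) ≤ ((2 - g) * t) * (6 + η - p) := by nlinarith
    have h10 := le_of_mul_le_mul_right h9 h6
    linarith
  exact lt_of_mul_lt_mul_right (lt_of_le_of_lt hg3 h2) h44.le

/-- the chain in the second polygon; `(U i, V i)` are the coordinates of the `i`-th Steiner point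
in the `i`-th frame; `e i = true` iff the `(i + 1)`-st Steiner point is the apex over the `i`-th
sill -/
theorem chainQ {N : ℕ} (hN : 1 ≤ N) {b ψ : ℝ} {γ U V : ℕ → ℝ} (e : ℕ → Bool)
    (hb : 0 < b) (hb1 : b ≤ 1 / 1000) (hγ : ∀ i, 0 ≤ γ i) (hγ1 : ∀ i, γ i ≤ 1 / 1000)
    (hψ0 : 0 ≤ ψ) (hψ : ψ ≤ 1 / 1000)
    (hbase : ∀ i < N, 7 * U i - 24 < V i) (hwall : ∀ i < N, V i < -7 * U i)
    (he : ∀ i, i + 1 < N → e i = true →
      V (i + 1) < -(7 + 8 * (b + γ i)) * U (i + 1) - (29 * b + 30 * γ i))
    (h0 : -U 0 < V 0)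
    (hl : ∀ i, i + 1 < N →
      0 < (U (i + 1) - 3) * (V i - 2 * U i + 4) + (V (i + 1) + 3) * (4 - U i))
    (h1 : V (N - 1) - 2 * U (N - 1) + 4 < (1 + ψ) * (4 - U (N - 1))) :
    ∑ i ∈ (range (N - 1)).filter (fun i => e i = true),
      ((29 * b + 30 * γ i) / 12 - (29 * b + 30 * γ i) * (ψ + (29 * b + 30 * γ i)) / 40) < ψ := by
  set p : ℕ → ℝ := fun i => (V i - U i) / (4 - U i) with hp
  have h4 : ∀ i < N, 0 < 4 - U i := by
    intro i hi
    have := hbase i hi
    have := hwall i hi
    linarith
  have hpm : ∀ i < N, V i - U i = p i * (4 - U i) := by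
    intro i hi
    simp only [hp]
    have := (h4 i hi).ne'
    field_simp
  -- the local step condition
  have hstep : ∀ i, i + 1 < N → (1 + p i) * (3 - U (i + 1)) < V (i + 1) + 3 := by
    intro i hi
    have h2 := hl i hi
    have h3 := hpm i (by omega)
    have h5 : V i - 2 * U i + 4 = (4 - U i) * (1 + p i) := by
      have : V i - 2 * U i + 4 = (V i - U i) + (4 - U i) := by ring
      rw [this, h3]; ring
    rw [h5] at h2
    have h6 : 0 < ((U (i + 1) - 3) * (1 + p i) + (V (i + 1) + 3)) * (4 - U i) := by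
      calc (0 : ℝ) < (U (i + 1) - 3) * ((4 - U i) * (1 + p i)) + (V (i + 1) + 3) * (4 - U i) := h2
        _ = _ := by ring
    have h7 := pos_of_mul_pos_left h6 (h4 i (by omega)).le
    linarith
  have hmono0 : 0 < p 0 ∧ U 0 < 0 := by
    have := chainQ_mono (le_refl (0 : ℝ)) (hbase 0 (by omega)) (hwall 0 (by omega))
      (by linarith)
    exact this
  have hpos : ∀ i < N, 0 < p i ∧ U i < 0 := by
    intro i
    induction i with
    | zero => intro _; exact hmono0
    | succ i ih =>
      intro hi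
      obtain ⟨h2, _⟩ := ih (by omega)
      obtain ⟨h3, h5⟩ := chainQ_mono h2.le (hbase (i + 1) hi) (hwall (i + 1) hi) (hstep i hi)
      exact ⟨lt_trans h2 h3, h5⟩
  have hinc : ∀ i, i + 1 < N → p i < p (i + 1) := by
    intro i hi
    exact (chainQ_mono (hpos i (by omega)).1.le (hbase (i + 1) hi) (hwall (i + 1) hi)
      (hstep i hi)).1
  have hlast : p (N - 1) < ψ := by
    have h2 := hpm (N - 1) (by omega)
    have h3 := h4 (N - 1) (by omega)
    have h5 : p (N - 1) * (4 - U (N - 1)) < ψ * (4 - U (N - 1)) := by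
      rw [← h2]; linarith
    exact lt_of_mul_lt_mul_right h5 h3.le
  have hle : ∀ k, ∀ i, i + k = N - 1 → p i ≤ p (N - 1) := by
    intro k
    induction k with
    | zero => intro i hi; have : i = N - 1 := by omega
              rw [this]
    | succ k ih =>
      intro i hi
      have h2 := ih (i + 1) (by omega)
      have h3 := hinc i (by omega)
      linarith
  have hpψ : ∀ i < N, p i ≤ ψ := by
    intro i hi
    have := hle (N - 1 - i) i (by omega)
    linarith
  have main : ∀ k < N, ∑ i ∈ (range k).filter (fun i => e i = true),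
      ((29 * b + 30 * γ i) / 12 - (29 * b + 30 * γ i) * (ψ + (29 * b + 30 * γ i)) / 40) < p k := by
    intro k
    induction k with
    | zero => intro _; simpa using hmono0.1
    | succ k ih =>
      intro hk
      have h2 := ih (by omega)
      have h3 := hinc k hk
      rw [range_add_one, filter_insert]
      by_cases hek : e k = true
      · rw [if_pos hek, sum_insert (by simp)]
        have h5 := chainQ_gain (p := p k) (q := ψ) (η := 8 * (b + γ k))
          (c := 29 * b + 30 * γ k) (hpos k (by omega)).1.le (hpψ k (by omega)) hψ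
          (by have := hγ k; linarith) (by have := hγ k; linarith) (by have := hγ k; linarith)
          (by have := hγ1 k; linarith) (hpos (k + 1) hk).2 (he k hk hek) (hstep k hk)
        have h6 : p (k + 1) = (V (k + 1) - U (k + 1)) / (4 - U (k + 1)) := rfl
        rw [← h6] at h5
        linarith
      · rw [if_neg hek]
        linarith
  exact lt_trans (main (N - 1) (by omega)) hlast

end Pool.Agent.Lib57.CT
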