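import Mathlib
import Pool.Agent.Lib_helper57.CT.MonoDef

/-! BLOCK MREG: the region of an `x`-monotone polygon. -/

namespace Pool.Agent.Lib57.CT

open Set Topology

variable {n r : ℕ} {P : Fin n → Pt}

/-! ### chains -/

theorem mreg_mono (q : ℕ → Pt) (m : ℕ) (hq : ∀ i < m, (q i).1 < (q (i + 1)).1) :
    ∀ i j, i < j → j ≤ m → (q i).1 < (q j).1 := by
  intro i j hij hj
  induction j with
  | zero => omega
  | succ j ih =>
    rcases Nat.lt_succ_iff_lt_or_eq.1 hij with h | h
    · exact (ih h (by omega)).trans (hq j (by omega))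
    · subst h; exact hq _ (by omega)

theorem mreg_cover (q : ℕ → Pt) (m : ℕ) (hm : 0 < m) (x : ℝ) (h0 : (q 0).1 ≤ x)
    (h1 : x ≤ (q m).1) : ∃ i < m, (q i).1 ≤ x ∧ x ≤ (q (i + 1)).1 := by
  induction m with
  | zero => omega
  | succ m ih =>
    rcases le_total x (q m).1 with h | h
    · rcases Nat.eq_zero_or_pos m with h' | h'
      · subst h'; exact ⟨0, by omega, h0, h1⟩
      · obtain ⟨i, hi, a, b⟩ := ih h' h
        exact ⟨i, by omega, a, b⟩
    · exact ⟨m, by omega, h, h1⟩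

theorem mreg_pl (q : ℕ → Pt) (m : ℕ) (hq : ∀ i < m, (q i).1 < (q (i + 1)).1) :
    ∃ L : ℝ → ℝ, Continuous L ∧ L (q m).1 = (q m).2 ∧
      ∀ i < m, ∀ z : Pt, (q i).1 ≤ z.1 → z.1 ≤ (q (i + 1)).1 →
        orient (q i) (q (i + 1)) z = ((q (i + 1)).1 - (q i).1) * (z.2 - L z.1) := by
  induction m with
  | zero => exact ⟨fun _ => (q 0).2, continuous_const, rfl, fun i hi => by omega⟩
  | succ m ih =>
    obtain ⟨L, hc, hm, hL⟩ := ih (fun i hi => hq i (by omega))
    have hd := hq m (by omega)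
    have hd' : (q (m + 1)).1 - (q m).1 ≠ 0 := (sub_pos.2 hd).ne'
    refine ⟨fun x => if x ≤ (q m).1 then L x else
      (q m).2 + ((q (m + 1)).2 - (q m).2) / ((q (m + 1)).1 - (q m).1) * (x - (q m).1),
      ?_, ?_, ?_⟩
    · refine Continuous.if_le hc (by fun_prop) continuous_id continuous_const ?_
      intro x hx
      have hx' : x = (q m).1 := hx
      rw [hx', hm]; ring
    · simp only
      rw [if_neg (not_le.2 hd)]; field_simp; ring
    · intro i hi z h1 h2
      rcases Nat.lt_succ_iff_lt_or_eq.1 hi with h | h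
      · have h3 : (q (i + 1)).1 ≤ (q m).1 := by
          rcases Nat.lt_or_ge (i + 1) m with h4 | h4
          · exact (mreg_mono q (m + 1) hq (i + 1) m h4 (by omega)).le
          · have : i + 1 = m := by omega
            rw [this]
        simp only
        rw [if_pos (h2.trans h3)]
        exact hL i h z h1 h2
      · subst h
        simp only
        by_cases hz : z.1 ≤ (q i).1
        · have h5 : z.1 = (q i).1 := le_antisymm hz h1
          rw [if_pos hz, h5, hm]
          unfold orient; rw [h5]; ring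
        · rw [if_neg hz]; unfold orient; field_simp; ring

theorem mreg_nx_lt {i : Fin n} (h : i.val + 1 < n) : (nx i).val = i.val + 1 := by
  unfold nx; exact Nat.mod_eq_of_lt h

theorem mreg_nx_last {i : Fin n} (h : i.val + 1 = n) : (nx i).val = 0 := by
  unfold nx; simp [h]

/-- the two boundary functions of an `x`-monotone polygon -/
structure MregLU {n : ℕ} (P : Fin n → Pt) (r : ℕ) (x₀ x₁ : ℝ) (L U : ℝ → ℝ) : Prop where
  cL : Continuous L
  cU : Continuous U
  lo : ∀ i : Fin n, i.val < r → ∀ z : Pt, (P i).1 ≤ z.1 → z.1 ≤ (P (nx i)).1 →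
    orient (P i) (P (nx i)) z = ((P (nx i)).1 - (P i).1) * (z.2 - L z.1)
  hi : ∀ i : Fin n, r ≤ i.val → ∀ z : Pt, (P (nx i)).1 ≤ z.1 → z.1 ≤ (P i).1 →
    orient (P i) (P (nx i)) z = ((P i).1 - (P (nx i)).1) * (U z.1 - z.2)
  cov_lo : ∀ x, x₀ ≤ x → x ≤ x₁ → ∃ i : Fin n, i.val < r ∧ (P i).1 ≤ x ∧ x ≤ (P (nx i)).1
  cov_hi : ∀ x, x₀ ≤ x → x ≤ x₁ → ∃ i : Fin n, r ≤ i.val ∧ (P (nx i)).1 ≤ x ∧ x ≤ (P i).1
  v0 : ∀ i : Fin n, i.val = 0 → (P i).1 = x₀
  v1 : ∀ i : Fin n, i.val = r → (P i).1 = x₁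
  vr : ∀ i : Fin n, i.val ≠ 0 → i.val ≠ r → x₀ < (P i).1 ∧ (P i).1 < x₁
  lt : x₀ < x₁

theorem mreg_exists (hM : Mono P r) : ∃ x₀ x₁ L U, MregLU P r x₀ x₁ L U := by
  have h3 := hM.n3
  have hr0 := hM.r0
  have hrn := hM.rn
  -- lower chain
  let ql : ℕ → Pt := fun i => P ⟨i % n, Nat.mod_lt _ (by omega)⟩
  let qu : ℕ → Pt := fun j => P ⟨(n - j) % n, Nat.mod_lt _ (by omega)⟩
  have ql_val : ∀ i : Fin n, ql i.val = P i := by
    intro i
    have : (⟨i.val % n, Nat.mod_lt _ (by omega)⟩ : Fin n) = i :=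
      Fin.ext (Nat.mod_eq_of_lt i.isLt)
    simp only [ql, this]
  have ql_nx : ∀ i : Fin n, ql (i.val + 1) = P (nx i) := fun i => rfl
  have qu_nx : ∀ i : Fin n, qu (n - 1 - i.val) = P (nx i) := by
    intro i
    have hi := i.isLt
    have : (⟨(n - (n - 1 - i.val)) % n, Nat.mod_lt _ (by omega)⟩ : Fin n) = nx i := by
      apply Fin.ext
      unfold nx
      simp only
      congr 1; omega
    simp only [qu, this]
  have qu_val : ∀ i : Fin n, qu (n - 1 - i.val + 1) = P i := by
    intro i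
    have hi := i.isLt
    have : (⟨(n - (n - 1 - i.val + 1)) % n, Nat.mod_lt _ (by omega)⟩ : Fin n) = i := by
      apply Fin.ext
      simp only
      rw [Nat.mod_eq_of_lt (by omega)]; omega
    simp only [qu, this]
  have hql : ∀ i < r, (ql i).1 < (ql (i + 1)).1 := by
    intro i hi
    have := hM.inc ⟨i, by omega⟩ hi
    rw [← ql_val, ← ql_nx] at this
    exact this
  have hqu : ∀ j < n - r, (qu j).1 < (qu (j + 1)).1 := by
    intro j hj
    have := hM.dec ⟨n - 1 - j, by omega⟩ (by simp only; omega)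
    rw [← qu_nx, ← qu_val] at this
    simp only at this
    have e : n - 1 - (n - 1 - j) = j := by omega
    rw [e] at this
    exact this
  obtain ⟨L, cL, eL, hL⟩ := mreg_pl ql r hql
  obtain ⟨U, cU, eU, hU⟩ := mreg_pl qu (n - r) hqu
  have e0 : qu 0 = ql 0 := by
    simp only [qu, ql]
    congr 2
    simp
  have e1 : qu (n - r) = ql r := by
    simp only [qu, ql]
    congr 2
    congr 1; omega
  refine ⟨(ql 0).1, (ql r).1, L, U, ⟨cL, cU, ?_, ?_, ?_, ?_, ?_, ?_, ?_, ?_⟩⟩
  · intro i hi z h1 h2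
    have := hL i.val hi z (by rw [ql_val]; exact h1) (by rw [ql_nx]; exact h2)
    rw [ql_val, ql_nx] at this
    exact this
  · intro i hi z h1 h2
    have hin := i.isLt
    have := hU (n - 1 - i.val) (by omega) z (by rw [qu_nx]; exact h1)
      (by rw [qu_val]; exact h2)
    rw [qu_nx, qu_val] at this
    have h4 : orient (P i) (P (nx i)) z = - orient (P (nx i)) (P i) z := by
      unfold orient; ring
    rw [h4, this]; ring
  · intro x hx0 hx1
    obtain ⟨i, hi, a, b⟩ := mreg_cover ql r hr0 x hx0 hx1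
    refine ⟨⟨i, by omega⟩, hi, ?_, ?_⟩
    · rw [← ql_val]; exact a
    · rw [← ql_nx]; exact b
  · intro x hx0 hx1
    obtain ⟨j, hj, a, b⟩ := mreg_cover qu (n - r) (by omega) x (by rw [e0]; exact hx0)
      (by rw [e1]; exact hx1)
    have e : n - 1 - (n - 1 - j) = j := by omega
    refine ⟨⟨n - 1 - j, by omega⟩, by simp only; omega, ?_, ?_⟩
    · rw [← qu_nx]; simp only [e]; exact a
    · rw [← qu_val]; simp only [e]; exact b
  · intro i hi
    rw [← ql_val, hi]
  · intro i hi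
    rw [← ql_val, hi]
  · intro i hi0 hir
    have hin := i.isLt
    rcases Nat.lt_or_ge i.val r with h | h
    · rw [← ql_val]
      exact ⟨mreg_mono ql r hql 0 i.val (by omega) (by omega),
        mreg_mono ql r hql i.val r h le_rfl⟩
    · rw [← qu_val, ← e0, ← e1]
      exact ⟨mreg_mono qu (n - r) hqu 0 _ (by omega) (by omega),
        mreg_mono qu (n - r) hqu _ (n - r) (by omega) le_rfl⟩
  · exact mreg_mono ql r hql 0 r hr0 le_rfl

variable {x₀ x₁ : ℝ} {L U : ℝ → ℝ}

theorem MregLU.range (h : MregLU P r x₀ x₁ L U) (i : Fin n) : x₀ ≤ (P i).1 ∧ (P i).1 ≤ x₁ := by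
  by_cases h0 : i.val = 0
  · rw [h.v0 i h0]; exact ⟨le_rfl, h.lt.le⟩
  by_cases h1 : i.val = r
  · rw [h.v1 i h1]; exact ⟨h.lt.le, le_rfl⟩
  exact ⟨(h.vr i h0 h1).1.le, (h.vr i h0 h1).2.le⟩

theorem MregLU.span_range (h : MregLU P r x₀ x₁ L U) {i : Fin n} {x : ℝ} (hs : span P i x) :
    x₀ ≤ x ∧ x ≤ x₁ := by
  have h1 := h.range i
  have h2 := h.range (nx i)
  rcases hs with ⟨a, b⟩ | ⟨a, b⟩
  · exact ⟨h1.1.trans a, b.trans h2.2⟩
  · exact ⟨h2.1.trans a, b.trans h1.2⟩

/-- lower vertices are on the graph of `L` -/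
theorem MregLU.valL (hM : Mono P r) (h : MregLU P r x₀ x₁ L U) (i : Fin n) (hi : i.val ≤ r) :
    L (P i).1 = (P i).2 := by
  have hr0 := hM.r0
  have hrn := hM.rn
  rcases Nat.lt_or_ge i.val r with h1 | h1
  · have hd := hM.inc i h1
    have e := h.lo i h1 (P i) le_rfl hd.le
    have : orient (P i) (P (nx i)) (P i) = 0 := by unfold orient; ring
    rw [this] at e
    rcases mul_eq_zero.1 e.symm with h2 | h2
    · linarith
    · linarith
  · have h2 : i.val = r := le_antisymm hi h1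
    obtain ⟨j, hj⟩ : ∃ j : Fin n, j.val + 1 = r := ⟨⟨r - 1, by omega⟩, by simp only; omega⟩
    have hnx : nx j = i := Fin.ext (by rw [mreg_nx_lt (by omega)]; omega)
    have hd := hM.inc j (by omega)
    rw [hnx] at hd
    have e := h.lo j (by omega) (P i) hd.le (by rw [hnx])
    rw [hnx] at e
    have : orient (P j) (P i) (P i) = 0 := by unfold orient; ring
    rw [this] at e
    rcases mul_eq_zero.1 e.symm with h2 | h2
    · linarith
    · linarith

/-- upper vertices are on the graph of `U` -/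
theorem MregLU.valU (hM : Mono P r) (h : MregLU P r x₀ x₁ L U) (i : Fin n)
    (hi : r ≤ i.val ∨ i.val = 0) : U (P i).1 = (P i).2 := by
  have hr0 := hM.r0
  have hrn := hM.rn
  rcases hi with h1 | h1
  · have hd := hM.dec i h1
    have e := h.hi i h1 (P i) hd.le le_rfl
    have : orient (P i) (P (nx i)) (P i) = 0 := by unfold orient; ring
    rw [this] at e
    rcases mul_eq_zero.1 e.symm with h2 | h2
    · linarith
    · linarith
  · obtain ⟨j, hj⟩ : ∃ j : Fin n, j.val + 1 = n := ⟨⟨n - 1, by omega⟩, by simp only; omega⟩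
    have hnx : nx j = i := Fin.ext (by rw [mreg_nx_last hj]; omega)
    have hd := hM.dec j (by omega)
    rw [hnx] at hd
    have e := h.hi j (by omega) (P i) (by rw [hnx]) hd.le
    rw [hnx] at e
    have : orient (P j) (P i) (P i) = 0 := by unfold orient; ring
    rw [this] at e
    rcases mul_eq_zero.1 e.symm with h2 | h2
    · linarith
    · linarith

theorem MregLU.eq0 (hM : Mono P r) (h : MregLU P r x₀ x₁ L U) : L x₀ = U x₀ := by
  have hrn := hM.rn
  have h0 := h.v0 ⟨0, by omega⟩ rfl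
  have h1 := h.valL hM ⟨0, by omega⟩ (by simp)
  have h2 := h.valU hM ⟨0, by omega⟩ (Or.inr rfl)
  rw [h0] at h1 h2
  rw [h1, h2]

theorem MregLU.eq1 (hM : Mono P r) (h : MregLU P r x₀ x₁ L U) : L x₁ = U x₁ := by
  have hrn := hM.rn
  have h0 := h.v1 ⟨r, by omega⟩ rfl
  have h1 := h.valL hM ⟨r, by omega⟩ (by simp)
  have h2 := h.valU hM ⟨r, by omega⟩ (Or.inl le_rfl)
  rw [h0] at h1 h2
  rw [h1, h2]

theorem MregLU.vert_lt (hM : Mono P r) (h : MregLU P r x₀ x₁ L U) (i : Fin n)
    (h0 : x₀ < (P i).1) (h1 : (P i).1 < x₁) : L (P i).1 < U (P i).1 := by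
  have i0 : i.val ≠ 0 := fun e => by rw [h.v0 i e] at h0; exact lt_irrefl _ h0
  have ir : i.val ≠ r := fun e => by rw [h.v1 i e] at h1; exact lt_irrefl _ h1
  rcases Nat.lt_or_ge i.val r with hi | hi
  · obtain ⟨j, hj, a, b⟩ := h.cov_hi (P i).1 h0.le h1.le
    have e := hM.up j i hj (by omega) hi a b
    rw [h.hi j hj (P i) a b] at e
    have hd := hM.dec j hj
    rw [h.valL hM i hi.le]
    have := (pos_iff_pos_of_mul_pos e).1 (sub_pos.2 hd)
    linarith
  · obtain ⟨j, hj, a, b⟩ := h.cov_lo (P i).1 h0.le h1.le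
    have e := hM.low j i hj (by omega) a b
    rw [h.lo j hj (P i) a b] at e
    have hd := hM.inc j hj
    rw [h.valU hM i (Or.inl hi)]
    have := (pos_iff_pos_of_mul_pos e).1 (sub_pos.2 hd)
    linarith

theorem MregLU.vert_le (hM : Mono P r) (h : MregLU P r x₀ x₁ L U) (i : Fin n) :
    L (P i).1 ≤ U (P i).1 := by
  rcases (h.range i).1.eq_or_lt with h0 | h0
  · rw [← h0]; exact (h.eq0 hM).le
  rcases (h.range i).2.eq_or_lt with h1 | h1
  · rw [h1]; exact (h.eq1 hM).le
  exact (h.vert_lt hM i h0 h1).le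

/-- affine interpolation on an edge -/
theorem mreg_aff {a b : Pt} (hab : a.1 < b.1) {f : ℝ → ℝ}
    (hf : ∀ z : Pt, a.1 ≤ z.1 → z.1 ≤ b.1 → orient a b z = (b.1 - a.1) * (z.2 - f z.1))
    {s x t : ℝ} (h1 : a.1 ≤ s) (h2 : s ≤ x) (h3 : x ≤ t) (h4 : t ≤ b.1) :
    (t - s) * f x = (t - x) * f s + (x - s) * f t := by
  have e1 := hf (s, 0) h1 (by simp only; linarith)
  have e2 := hf (x, 0) (by simp only; linarith) (by simp only; linarith)
  have e3 := hf (t, 0) (by simp only; linarith) h4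
  unfold orient at e1 e2 e3
  simp only at e1 e2 e3
  have hd : b.1 - a.1 ≠ 0 := (sub_pos.2 hab).ne'
  apply mul_left_cancel₀ hd
  linear_combination (t - s) * e2 - (t - x) * e1 - (x - s) * e3

theorem MregLU.f_lt (hM : Mono P r) (h : MregLU P r x₀ x₁ L U) (x : ℝ) (hx0 : x₀ < x)
    (hx1 : x < x₁) : L x < U x := by
  have h3 := hM.n3
  obtain ⟨i, hi, a1, b1⟩ := h.cov_lo x hx0.le hx1.le
  obtain ⟨j, hj, a2, b2⟩ := h.cov_hi x hx0.le hx1.le
  have hdi := hM.inc i hi
  have hdj := hM.dec j hj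
  -- the left end
  have hs : ∃ k : Fin n, (k = i ∨ k = nx j) ∧ (P i).1 ≤ (P k).1 ∧ (P (nx j)).1 ≤ (P k).1 ∧
      (P k).1 ≤ x := by
    rcases le_total (P i).1 (P (nx j)).1 with h' | h'
    · exact ⟨nx j, Or.inr rfl, h', le_rfl, a2⟩
    · exact ⟨i, Or.inl rfl, le_rfl, h', a1⟩
  have ht : ∃ k : Fin n, (k = nx i ∨ k = j) ∧ (P k).1 ≤ (P (nx i)).1 ∧ (P k).1 ≤ (P j).1 ∧
      x ≤ (P k).1 := by
    rcases le_total (P (nx i)).1 (P j).1 with h' | h'
    · exact ⟨nx i, Or.inl rfl, le_rfl, h', b1⟩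
    · exact ⟨j, Or.inr rfl, h', le_rfl, b2⟩
  obtain ⟨k, -, k1, k2, k3⟩ := hs
  obtain ⟨l, -, l1, l2, l3⟩ := ht
  have fk := h.vert_le hM k
  have fl := h.vert_le hM l
  rcases k3.eq_or_lt with e | hkx
  · rw [← e]; exact h.vert_lt hM k (by rw [e]; exact hx0) (by rw [e]; exact hx1)
  rcases l3.eq_or_lt with e | hxl
  · rw [e]; exact h.vert_lt hM l (by rw [← e]; exact hx0) (by rw [← e]; exact hx1)
  have eL := mreg_aff hdi (h.lo i hi) k1 hkx.le hxl.le l1
  have eU := mreg_aff (a := P (nx j)) (b := P j) hdj (f := U) (by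
    intro z z1 z2
    have := h.hi j hj z z1 z2
    have h4 : orient (P (nx j)) (P j) z = - orient (P j) (P (nx j)) z := by
      unfold orient; ring
    rw [h4, this]; ring) k2 hkx.le hxl.le l2
  have key : 0 < ((P l).1 - (P k).1) * (U x - L x) := by
    have e : ((P l).1 - (P k).1) * (U x - L x) =
        ((P l).1 - x) * (U (P k).1 - L (P k).1) + (x - (P k).1) * (U (P l).1 - L (P l).1) := by
      linear_combination eU - eL
    rw [e]
    rcases (h.range k).1.eq_or_lt with e0 | e0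
    · rcases (h.range l).2.eq_or_lt with e1 | e1
      · exfalso
        have hi0 : i.val = 0 := by
          by_contra hne
          have := (h.vr i hne (by omega)).1
          linarith
        have hir : (nx i).val = r := by
          by_contra hne
          by_cases h5 : (nx i).val = 0
          · have := h.v0 _ h5
            have := (h.range i).1
            linarith
          · have := (h.vr (nx i) h5 hne).2
            linarith
        have hjr : j.val = r := by
          by_contra hne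
          have := (h.vr j (by have := hM.r0; omega) hne).2
          linarith
        have hj0 : (nx j).val = 0 := by
          by_contra hne
          by_cases h5 : (nx j).val = r
          · have := h.v1 _ h5
            have := (h.range j).2
            linarith
          · have := (h.vr (nx j) hne h5).1
            linarith
        have h6 : r = 1 := by
          rw [mreg_nx_lt (by omega)] at hir; omega
        have h7 : j.val + 1 = n := by
          by_contra hne
          rw [mreg_nx_lt (by have := j.isLt; omega)] at hj0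
          omega
        omega
      · have := h.vert_lt hM l (by linarith) e1
        have p1 : 0 < (x - (P k).1) * (U (P l).1 - L (P l).1) :=
          mul_pos (by linarith) (by linarith)
        have p2 : 0 ≤ ((P l).1 - x) * (U (P k).1 - L (P k).1) :=
          mul_nonneg (by linarith) (by linarith)
        linarith
    · have := h.vert_lt hM k e0 (by linarith)
      have p1 : 0 ≤ (x - (P k).1) * (U (P l).1 - L (P l).1) :=
        mul_nonneg (by linarith) (by linarith)
      have p2 : 0 < ((P l).1 - x) * (U (P k).1 - L (P k).1) :=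
        mul_pos (by linarith) (by linarith)
      linarith
  have := (pos_iff_pos_of_mul_pos key).1 (by linarith)
  linarith

theorem MregLU.f_le (hM : Mono P r) (h : MregLU P r x₀ x₁ L U) (x : ℝ) (hx0 : x₀ ≤ x)
    (hx1 : x ≤ x₁) : L x ≤ U x := by
  rcases hx0.eq_or_lt with h0 | h0
  · rw [← h0]; exact (h.eq0 hM).le
  rcases hx1.eq_or_lt with h1 | h1
  · rw [h1]; exact (h.eq1 hM).le
  exact (h.f_lt hM x h0 h1).le

/-- description of `regM` by the two functions -/
theorem MregLU.mem_regM (hM : Mono P r) (h : MregLU P r x₀ x₁ L U) (z : Pt) :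
    z ∈ regM P ↔ x₀ ≤ z.1 ∧ z.1 ≤ x₁ ∧ L z.1 ≤ z.2 ∧ z.2 ≤ U z.1 := by
  constructor
  · rintro ⟨⟨i, hi⟩, hz⟩
    obtain ⟨h0, h1⟩ := h.span_range hi
    refine ⟨h0, h1, ?_, ?_⟩
    · obtain ⟨j, hj, a, b⟩ := h.cov_lo z.1 h0 h1
      have e := hz j (Or.inl ⟨a, b⟩)
      rw [h.lo j hj z a b] at e
      have := nonneg_of_mul_nonneg_right e (sub_pos.2 (hM.inc j hj))
      linarith
    · obtain ⟨j, hj, a, b⟩ := h.cov_hi z.1 h0 h1
      have e := hz j (Or.inr ⟨a, b⟩)
      rw [h.hi j hj z a b] at e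
      have := nonneg_of_mul_nonneg_right e (sub_pos.2 (hM.dec j hj))
      linarith
  · rintro ⟨h0, h1, hl, hu⟩
    obtain ⟨j, hj, a, b⟩ := h.cov_lo z.1 h0 h1
    refine ⟨⟨j, Or.inl ⟨a, b⟩⟩, ?_⟩
    intro i hi
    rcases Nat.lt_or_ge i.val r with hir | hir
    · have hd := hM.inc i hir
      rcases hi with ⟨a, b⟩ | ⟨a, b⟩
      · rw [h.lo i hir z a b]
        exact mul_nonneg (by linarith) (by linarith)
      · linarith
    · have hd := hM.dec i hir
      rcases hi with ⟨a, b⟩ | ⟨a, b⟩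
      · linarith
      · rw [h.hi i hir z a b]
        exact mul_nonneg (by linarith) (by linarith)

/-- points of a non-vertical segment -/
theorem mreg_mem_segment {a b z : Pt} (hab : a.1 < b.1) :
    z ∈ segment ℝ a b ↔ a.1 ≤ z.1 ∧ z.1 ≤ b.1 ∧ orient a b z = 0 := by
  have hd : b.1 - a.1 ≠ 0 := (sub_pos.2 hab).ne'
  have hd' : 0 < b.1 - a.1 := sub_pos.2 hab
  rw [segment_eq_image']
  constructor
  · rintro ⟨t, ⟨t0, t1⟩, rfl⟩
    simp only [Prod.fst_add, Prod.smul_fst, Prod.fst_sub, smul_eq_mul]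
    refine ⟨?_, ?_, ?_⟩
    · have := mul_nonneg t0 hd'.le; linarith
    · have := mul_nonneg (sub_nonneg.2 t1) hd'.le; nlinarith
    · unfold orient
      simp only [Prod.fst_add, Prod.smul_fst, Prod.fst_sub, smul_eq_mul, Prod.snd_add,
        Prod.smul_snd, Prod.snd_sub]
      ring
  · rintro ⟨h1, h2, h3⟩
    refine ⟨(z.1 - a.1) / (b.1 - a.1), ⟨div_nonneg (by linarith) hd'.le,
      (div_le_one hd').2 (by linarith)⟩, ?_⟩
    unfold orient at h3
    apply Prod.ext
    · simp only [Prod.fst_add, Prod.smul_fst, Prod.fst_sub, smul_eq_mul]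
      field_simp; ring
    · simp only [Prod.snd_add, Prod.smul_snd, Prod.snd_sub, smul_eq_mul]
      field_simp
      linarith

/-- description of the boundary curve by the two functions -/
theorem MregLU.mem_curve (hM : Mono P r) (h : MregLU P r x₀ x₁ L U) (z : Pt) :
    z ∈ curve P ↔ x₀ ≤ z.1 ∧ z.1 ≤ x₁ ∧ (z.2 = L z.1 ∨ z.2 = U z.1) := by
  unfold curve
  rw [mem_iUnion]
  constructor
  · rintro ⟨i, hi⟩
    rcases Nat.lt_or_ge i.val r with hir | hir
    · have hd := hM.inc i hir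
      rw [mreg_mem_segment hd] at hi
      obtain ⟨a, b, c⟩ := hi
      rw [h.lo i hir z a b] at c
      have hr := h.span_range (i := i) (x := z.1) (Or.inl ⟨a, b⟩)
      refine ⟨hr.1, hr.2, Or.inl ?_⟩
      rcases mul_eq_zero.1 c with h2 | h2 <;> linarith
    · have hd := hM.dec i hir
      rw [segment_symm, mreg_mem_segment hd] at hi
      obtain ⟨a, b, c⟩ := hi
      have c' : orient (P i) (P (nx i)) z = 0 := by
        have : orient (P i) (P (nx i)) z = - orient (P (nx i)) (P i) z := by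
          unfold orient; ring
        rw [this, c]; simp
      rw [h.hi i hir z a b] at c'
      have hr := h.span_range (i := i) (x := z.1) (Or.inr ⟨a, b⟩)
      refine ⟨hr.1, hr.2, Or.inr ?_⟩
      rcases mul_eq_zero.1 c' with h2 | h2 <;> linarith
  · rintro ⟨h0, h1, h2 | h2⟩
    · obtain ⟨i, hi, a, b⟩ := h.cov_lo z.1 h0 h1
      refine ⟨i, (mreg_mem_segment (hM.inc i hi)).2 ⟨a, b, ?_⟩⟩
      rw [h.lo i hi z a b, h2]; ring
    · obtain ⟨i, hi, a, b⟩ := h.cov_hi z.1 h0 h1
      refine ⟨i, ?_⟩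
      rw [segment_symm]
      refine (mreg_mem_segment (hM.dec i hi)).2 ⟨a, b, ?_⟩
      have : orient (P (nx i)) (P i) z = - orient (P i) (P (nx i)) z := by
        unfold orient; ring
      rw [this, h.hi i hi z a b, h2]; ring

theorem MregLU.mem_diff (hM : Mono P r) (h : MregLU P r x₀ x₁ L U) (z : Pt)
    (hz : z ∈ regM P) (hc : z ∉ curve P) :
    x₀ < z.1 ∧ z.1 < x₁ ∧ L z.1 < z.2 ∧ z.2 < U z.1 := by
  rw [h.mem_regM hM] at hz
  obtain ⟨h0, h1, hl, hu⟩ := hz
  have hl' : L z.1 < z.2 := hl.lt_of_ne (fun e => hc ((h.mem_curve hM z).2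
    ⟨h0, h1, Or.inl e.symm⟩))
  have hu' : z.2 < U z.1 := hu.lt_of_ne (fun e => hc ((h.mem_curve hM z).2
    ⟨h0, h1, Or.inr e⟩))
  refine ⟨h0.lt_of_ne ?_, h1.lt_of_ne ?_, hl', hu'⟩
  · intro e
    have := h.eq0 hM
    rw [← e] at hl' hu'
    linarith
  · intro e
    have := h.eq1 hM
    rw [e] at hl' hu'
    linarith

theorem MregLU.isOpen_int (h : MregLU P r x₀ x₁ L U) :
    IsOpen {z : Pt | x₀ < z.1 ∧ z.1 < x₁ ∧ L z.1 < z.2 ∧ z.2 < U z.1} := by
  have c1 := h.cL.comp (continuous_fst (X := ℝ) (Y := ℝ))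
  have c2 := h.cU.comp (continuous_fst (X := ℝ) (Y := ℝ))
  exact (isOpen_lt continuous_const continuous_fst).inter
    ((isOpen_lt continuous_fst continuous_const).inter
      ((isOpen_lt c1 continuous_snd).inter (isOpen_lt continuous_snd c2)))

theorem MregLU.int_sub (hM : Mono P r) (h : MregLU P r x₀ x₁ L U) :
    {z : Pt | x₀ < z.1 ∧ z.1 < x₁ ∧ L z.1 < z.2 ∧ z.2 < U z.1} ⊆ regM P := by
  rintro z ⟨h0, h1, h2, h3⟩
  exact (h.mem_regM hM z).2 ⟨h0.le, h1.le, h2.le, h3.le⟩

theorem MregLU.isClosed_regM (hM : Mono P r) (h : MregLU P r x₀ x₁ L U) :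
    IsClosed (regM P) := by
  have e : regM P = {z : Pt | x₀ ≤ z.1 ∧ z.1 ≤ x₁ ∧ L z.1 ≤ z.2 ∧ z.2 ≤ U z.1} := by
    ext z; exact h.mem_regM hM z
  rw [e]
  have c1 := h.cL.comp (continuous_fst (X := ℝ) (Y := ℝ))
  have c2 := h.cU.comp (continuous_fst (X := ℝ) (Y := ℝ))
  exact (isClosed_le continuous_const continuous_fst).inter
    ((isClosed_le continuous_fst continuous_const).inter
      ((isClosed_le c1 continuous_snd).inter (isClosed_le continuous_snd c2)))

theorem MregLU.bounded_regM (hM : Mono P r) (h : MregLU P r x₀ x₁ L U) :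
    Bornology.IsBounded (regM P) := by
  obtain ⟨m, hm⟩ := (isCompact_Icc (a := x₀) (b := x₁)).bddBelow_image h.cL.continuousOn
  obtain ⟨M, hMM⟩ := (isCompact_Icc (a := x₀) (b := x₁)).bddAbove_image h.cU.continuousOn
  refine (Metric.isBounded_Icc ((x₀, m) : Pt) (x₁, M)).subset ?_
  intro z hz
  rw [h.mem_regM hM] at hz
  obtain ⟨h0, h1, h2, h3⟩ := hz
  have h4 := hm (mem_image_of_mem L (⟨h0, h1⟩ : z.1 ∈ Icc x₀ x₁))
  have h5 := hMM (mem_image_of_mem U (⟨h0, h1⟩ : z.1 ∈ Icc x₀ x₁))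
  exact ⟨⟨h0, h4.trans h2⟩, ⟨h1, h3.trans h5⟩⟩

theorem mreg_unbounded_ray (z : Pt) (s : ℝ) (hs : s = 1 ∨ s = -1) :
    ¬ Bornology.IsBounded ((fun t : ℝ => ((z.1, z.2 + s * t) : Pt)) '' Ici 0) := by
  intro hb
  obtain ⟨C, hC⟩ := hb.exists_norm_le
  have h1 := hC _ (mem_image_of_mem _ (show (|C| + |z.2| + 1) ∈ Ici (0 : ℝ) by
    rw [mem_Ici]; positivity))
  have h2 : |z.2 + s * (|C| + |z.2| + 1)| ≤ C := by
    refine le_trans ?_ h1
    rw [Prod.norm_def]
    exact le_max_right _ _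
  have h3 := le_abs_self C
  have h4 := le_abs_self z.2
  have h5 := neg_abs_le z.2
  rcases hs with rfl | rfl
  · have := le_abs_self (z.2 + 1 * (|C| + |z.2| + 1))
    linarith
  · have := neg_abs_le (z.2 + -1 * (|C| + |z.2| + 1))
    linarith

theorem MregLU.comp_unbounded (hM : Mono P r) (h : MregLU P r x₀ x₁ L U) (z : Pt)
    (hz : z ∉ regM P) : ¬ Bornology.IsBounded (connectedComponentIn (curve P)ᶜ z) := by
  have key : ∃ s : ℝ, (s = 1 ∨ s = -1) ∧ ∀ t : ℝ, 0 ≤ t → ((z.1, z.2 + s * t) : Pt) ∉ curve P := by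
    by_cases h0 : x₀ ≤ z.1 ∧ z.1 ≤ x₁
    · have hlu := h.f_le hM z.1 h0.1 h0.2
      rw [h.mem_regM hM] at hz
      rcases lt_or_ge z.2 (L z.1) with h1 | h1
      · refine ⟨-1, Or.inr rfl, fun t ht hc => ?_⟩
        rw [h.mem_curve hM] at hc
        obtain ⟨-, -, hc | hc⟩ := hc <;> simp only at hc <;> linarith
      · have h2 : U z.1 < z.2 := by
          by_contra h3
          exact hz ⟨h0.1, h0.2, h1, not_lt.1 h3⟩
        refine ⟨1, Or.inl rfl, fun t ht hc => ?_⟩
        rw [h.mem_curve hM] at hc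
        obtain ⟨-, -, hc | hc⟩ := hc <;> simp only at hc <;> linarith
    · refine ⟨1, Or.inl rfl, fun t ht hc => ?_⟩
      rw [h.mem_curve hM] at hc
      exact h0 ⟨hc.1, hc.2.1⟩
  obtain ⟨s, hs, hray⟩ := key
  intro hb
  refine mreg_unbounded_ray z s hs (hb.subset ?_)
  apply IsPreconnected.subset_connectedComponentIn
  · exact isPreconnected_Ici.image _ (by fun_prop)
  · exact ⟨0, mem_Ici.2 le_rfl, by simp⟩
  · rintro _ ⟨t, ht, rfl⟩
    exact hray t ht

theorem MregLU.comp_sub (hM : Mono P r) (h : MregLU P r x₀ x₁ L U) (z : Pt)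
    (hz : z ∈ regM P) (hc : z ∉ curve P) : connectedComponentIn (curve P)ᶜ z ⊆ regM P := by
  have h1 : connectedComponentIn (curve P)ᶜ z ⊆
      {z : Pt | x₀ < z.1 ∧ z.1 < x₁ ∧ L z.1 < z.2 ∧ z.2 < U z.1} := by
    refine IsPreconnected.subset_left_of_subset_union h.isOpen_int
      (h.isClosed_regM hM).isOpen_compl ?_ ?_ ?_ isPreconnected_connectedComponentIn
    · rw [Set.disjoint_compl_right_iff_subset]
      exact h.int_sub hM
    · intro w hw
      have hwc := connectedComponentIn_subset _ _ hw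
      by_cases hr : w ∈ regM P
      · exact Or.inl (h.mem_diff hM w hr hwc)
      · exact Or.inr hr
    · exact ⟨z, mem_connectedComponentIn hc, h.mem_diff hM z hz hc⟩
  exact h1.trans (h.int_sub hM)

theorem MregLU.curve_sub (hM : Mono P r) (h : MregLU P r x₀ x₁ L U) : curve P ⊆ regM P := by
  intro z hz
  rw [h.mem_curve hM] at hz
  obtain ⟨h0, h1, h2⟩ := hz
  have := h.f_le hM z.1 h0 h1
  refine (h.mem_regM hM z).2 ⟨h0, h1, ?_, ?_⟩ <;> rcases h2 with h2 | h2 <;> linarith

theorem Mono.region_eq (hM : Mono P r) : region P = regM P := by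
  obtain ⟨x₀, x₁, L, U, h⟩ := mreg_exists hM
  apply Subset.antisymm
  · rintro z (hz | ⟨hc, hb⟩)
    · exact h.curve_sub hM hz
    · by_contra hz
      exact h.comp_unbounded hM z hz hb
  · intro z hz
    by_cases hc : z ∈ curve P
    · exact Or.inl hc
    · exact Or.inr ⟨hc, (h.bounded_regM hM).subset (h.comp_sub hM z hz hc)⟩

theorem MregLU.mem_region (hM : Mono P r) (h : MregLU P r x₀ x₁ L U) (z : Pt) :
    z ∈ region P ↔ x₀ ≤ z.1 ∧ z.1 ≤ x₁ ∧ L z.1 ≤ z.2 ∧ z.2 ≤ U z.1 := by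
  rw [hM.region_eq]; exact h.mem_regM hM z

theorem Mono.isClosed (hM : Mono P r) : IsClosed (region P) := by
  obtain ⟨x₀, x₁, L, U, h⟩ := mreg_exists hM
  rw [hM.region_eq]
  exact h.isClosed_regM hM

/-- points on the boundary have points outside the region arbitrarily close to them -/
theorem Mono.curve_notInt (hM : Mono P r) : ∀ z ∈ curve P, z ∉ interior (region P) := by
  obtain ⟨x₀, x₁, L, U, h⟩ := mreg_exists hM
  intro z hz hi
  rw [mem_interior_iff_mem_nhds] at hi
  have hz' := (h.mem_curve hM z).1 hz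
  obtain ⟨h0, h1, h2⟩ := hz'
  have hc : Continuous fun t : ℝ => ((z.1, z.2 + t) : Pt) := by fun_prop
  have ht : ∀ᶠ t in 𝓝 (0 : ℝ), ((z.1, z.2 + t) : Pt) ∈ region P := by
    apply hc.continuousAt.eventually_mem
    simpa using hi
  obtain ⟨ε, hε, hball⟩ := Metric.eventually_nhds_iff.1 ht
  rcases h2 with h2 | h2
  · have := hball (y := -(ε / 2)) (by
      rw [Real.dist_eq, sub_zero, abs_neg, abs_of_pos (by linarith)]; linarith)
    rw [h.mem_region hM] at this
    have := this.2.2.1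
    simp only at this
    linarith
  · have := hball (y := ε / 2) (by
      rw [Real.dist_eq, sub_zero, abs_of_pos (by linarith)]; linarith)
    rw [h.mem_region hM] at this
    have := this.2.2.2
    simp only at this
    linarith

end Pool.Agent.Lib57.CT
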