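import Mathlib
import Pool.Agent.Lib_helper57.CT.MonoDef
import Pool.Agent.Lib_helper57.CT.MonoRegion

/-! BLOCK MSIM: `x`-monotone polygons are simple. -/

namespace Pool.Agent.Lib57.CT

open Set Topology

variable {n r : ℕ} {P : Fin n → Pt}

theorem msim_lineMap (a b : Pt) (s : ℝ) :
    AffineMap.lineMap a b s = ((a.1 + s * (b.1 - a.1), a.2 + s * (b.2 - a.2)) : Pt) := by
  apply Prod.ext
  · simp [AffineMap.lineMap_apply]; ring
  · simp [AffineMap.lineMap_apply]; ring

/-- the lower chain is strictly increasing -/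
theorem msim_lo (hM : Mono P r) : ∀ i j : Fin n, i.val < j.val → j.val ≤ r →
    (P (nx i)).1 ≤ (P j).1 := by
  intro i j hij hj
  have hrn := hM.rn
  obtain ⟨d, hd⟩ : ∃ d, j.val = i.val + 1 + d := ⟨j.val - i.val - 1, by omega⟩
  induction d generalizing j with
  | zero =>
    have : nx i = j := Fin.ext (by rw [mreg_nx_lt (by omega)]; omega)
    rw [this]
  | succ d ih =>
    have h1 := ih ⟨i.val + 1 + d, by omega⟩ (by simp only; omega) (by simp only; omega) rfl
    have h2 := hM.inc ⟨i.val + 1 + d, by omega⟩ (by simp only; omega)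
    have h3 : nx (⟨i.val + 1 + d, by omega⟩ : Fin n) = j :=
      Fin.ext (by rw [mreg_nx_lt (by simp only; omega)]; simp only; omega)
    rw [h3] at h2
    exact h1.trans h2.le

/-- the upper chain is strictly decreasing -/
theorem msim_hi (hM : Mono P r) : ∀ i j : Fin n, i.val < j.val → r ≤ i.val →
    (P j).1 ≤ (P (nx i)).1 := by
  intro i j hij hj
  have hrn := hM.rn
  have hjn := j.isLt
  obtain ⟨d, hd⟩ : ∃ d, j.val = i.val + 1 + d := ⟨j.val - i.val - 1, by omega⟩
  induction d generalizing j with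
  | zero =>
    have : nx i = j := Fin.ext (by rw [mreg_nx_lt (by omega)]; omega)
    rw [this]
  | succ d ih =>
    have h1 := ih ⟨i.val + 1 + d, by omega⟩ (by simp only; omega) (by simp only; omega) rfl
    have h2 := hM.dec ⟨i.val + 1 + d, by omega⟩ (by simp only; omega)
    have h3 : nx (⟨i.val + 1 + d, by omega⟩ : Fin n) = j :=
      Fin.ext (by rw [mreg_nx_lt (by simp only; omega)]; simp only; omega)
    rw [h3] at h2
    exact h2.le.trans h1

theorem msim_aux {a b c d s t : ℝ} (hab : a < b) (hbc : b ≤ c) (hcd : c < d) (hs : s < 1)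
    (ht : 0 ≤ t) : a + s * (b - a) ≠ c + t * (d - c) := by
  intro h
  have h1 : s * (b - a) < 1 * (b - a) := mul_lt_mul_of_pos_right hs (by linarith)
  have h2 : 0 ≤ t * (d - c) := mul_nonneg ht (by linarith)
  linarith

theorem Mono.isSimple (hM : Mono P r) : IsSimplePolygon P := by
  refine ⟨hM.n3, ?_⟩
  have hrn := hM.rn
  have hr0 := hM.r0
  obtain ⟨x₀, x₁, L, U, h⟩ := mreg_exists hM
  -- two lower edges
  have LL : ∀ (i j : Fin n) (s t : ℝ), s ∈ Ico (0 : ℝ) 1 → t ∈ Ico (0 : ℝ) 1 → i.val < r →
      j.val < r → (P i).1 + s * ((P (nx i)).1 - (P i).1) =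
        (P j).1 + t * ((P (nx j)).1 - (P j).1) → i = j ∧ s = t := by
    intro i j s t hs ht hi hj he
    rcases Nat.lt_trichotomy i.val j.val with hij | hij | hij
    · exact absurd he (msim_aux (hM.inc i hi) (msim_lo hM i j hij hj.le) (hM.inc j hj) hs.2 ht.1)
    · have : i = j := Fin.ext hij
      subst this
      refine ⟨rfl, ?_⟩
      have hd := hM.inc i hi
      have : (s - t) * ((P (nx i)).1 - (P i).1) = 0 := by linarith
      rcases mul_eq_zero.1 this with h1 | h1 <;> linarith
    · exact absurd he.symm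
        (msim_aux (hM.inc j hj) (msim_lo hM j i hij hi.le) (hM.inc i hi) ht.2 hs.1)
  -- two upper edges
  have UU : ∀ (i j : Fin n) (s t : ℝ), s ∈ Ico (0 : ℝ) 1 → t ∈ Ico (0 : ℝ) 1 → r ≤ i.val →
      r ≤ j.val → (P i).1 + s * ((P (nx i)).1 - (P i).1) =
        (P j).1 + t * ((P (nx j)).1 - (P j).1) → i = j ∧ s = t := by
    intro i j s t hs ht hi hj he
    rcases Nat.lt_trichotomy i.val j.val with hij | hij | hij
    · exfalso
      have h1 := hM.dec i hi
      have h2 := hM.dec j hj
      have h3 := msim_hi hM i j hij hi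
      refine msim_aux (a := -(P i).1) (b := -(P (nx i)).1) (c := -(P j).1) (d := -(P (nx j)).1)
        (by linarith) (by linarith) (by linarith) hs.2 ht.1 ?_
      linarith
    · have : i = j := Fin.ext hij
      subst this
      refine ⟨rfl, ?_⟩
      have hd := hM.dec i hi
      have : (s - t) * ((P (nx i)).1 - (P i).1) = 0 := by linarith
      rcases mul_eq_zero.1 this with h1 | h1 <;> linarith
    · exfalso
      have h1 := hM.dec i hi
      have h2 := hM.dec j hj
      have h3 := msim_hi hM j i hij hj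
      refine msim_aux (a := -(P j).1) (b := -(P (nx j)).1) (c := -(P i).1) (d := -(P (nx i)).1)
        (by linarith) (by linarith) (by linarith) ht.2 hs.1 ?_
      linarith
  -- a lower and an upper edge
  have LU : ∀ (i j : Fin n) (s t : ℝ), s ∈ Ico (0 : ℝ) 1 → t ∈ Ico (0 : ℝ) 1 → i.val < r →
      r ≤ j.val → AffineMap.lineMap (P i) (P (nx i)) s = AffineMap.lineMap (P j) (P (nx j)) t →
      False := by
    intro i j s t hs ht hi hj he
    have hdi := hM.inc i hi
    have hdj := hM.dec j hj
    set z : Pt := AffineMap.lineMap (P i) (P (nx i)) s with hz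
    have z1 : z ∈ segment ℝ (P i) (P (nx i)) := by
      rw [segment_eq_image_lineMap]; exact ⟨s, ⟨hs.1, hs.2.le⟩, rfl⟩
    have z2 : z ∈ segment ℝ (P (nx j)) (P j) := by
      rw [segment_symm, segment_eq_image_lineMap]; exact ⟨t, ⟨ht.1, ht.2.le⟩, he.symm⟩
    rw [mreg_mem_segment hdi] at z1
    rw [mreg_mem_segment hdj] at z2
    obtain ⟨a1, b1, c1⟩ := z1
    obtain ⟨a2, b2, c2⟩ := z2
    have e1 := h.lo i hi z a1 b1
    have e2 := h.hi j hj z a2 b2
    have c2' : orient (P j) (P (nx j)) z = 0 := by
      have : orient (P j) (P (nx j)) z = - orient (P (nx j)) (P j) z := by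
        unfold orient; ring
      rw [this, c2]; simp
    rw [c1] at e1
    rw [c2'] at e2
    have f1 : z.2 = L z.1 := by
      rcases mul_eq_zero.1 e1.symm with h1 | h1 <;> linarith
    have f2 : z.2 = U z.1 := by
      rcases mul_eq_zero.1 e2.symm with h1 | h1 <;> linarith
    have hlt : z.1 < (P (nx i)).1 := by
      rw [hz, msim_lineMap]
      simp only
      have := mul_lt_mul_of_pos_right hs.2 (sub_pos.2 hdi)
      linarith
    have hgt : (P (nx j)).1 < z.1 := by
      rw [he, msim_lineMap]
      simp only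
      have := mul_lt_mul_of_pos_right ht.2 (sub_pos.2 hdj)
      linarith
    have := h.f_lt hM z.1 (lt_of_le_of_lt (h.range (nx j)).1 hgt)
      (lt_of_lt_of_le hlt (h.range (nx i)).2)
    linarith
  intro i j s t hs ht he
  have he1 : (P i).1 + s * ((P (nx i)).1 - (P i).1) =
      (P j).1 + t * ((P (nx j)).1 - (P j).1) := by
    have := congrArg Prod.fst he
    rw [msim_lineMap, msim_lineMap] at this
    exact this
  rcases Nat.lt_or_ge i.val r with hi | hi <;> rcases Nat.lt_or_ge j.val r with hj | hj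
  · exact LL i j s t hs ht hi hj he1
  · exact (LU i j s t hs ht hi hj he).elim
  · exact (LU j i t s ht hs hj hi he.symm).elim
  · exact UU i j s t hs ht hi hj he1

end Pool.Agent.Lib57.CT
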