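import Mathlib
import Pool.Agent.Lib_helper57.CT.MonoRegion
import Pool.Agent.Lib_helper57.CT.MonoSimple

/-! BLOCK MCROSS: crossing number and segments for an `x`-monotone polygon. -/

namespace Pool.Agent.Lib57.CT

open Set Topology

variable {n r : ℕ} {P : Fin n → Pt}

open Classical in
theorem Mono.cross (hM : Mono P r) (z : Pt) (hz : ∀ i, (P i).1 ≠ z.1) (hc : z ∉ curve P) :
    ∑ i, cr (P i) (P (nx i)) z = if z ∈ region P then 1 else 0 := by
  obtain ⟨x₀, x₁, L, U, h⟩ := mreg_exists hM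
  have hrn := hM.rn
  by_cases h01 : x₀ < z.1 ∧ z.1 < x₁
  · obtain ⟨h0, h1⟩ := h01
    obtain ⟨i, hi, a1, b1⟩ := h.cov_lo z.1 h0.le h1.le
    obtain ⟨j, hj, a2, b2⟩ := h.cov_hi z.1 h0.le h1.le
    have a1' : (P i).1 < z.1 := a1.lt_of_ne (hz i)
    have b1' : z.1 < (P (nx i)).1 := b1.lt_of_ne (hz (nx i)).symm
    have a2' : (P (nx j)).1 < z.1 := a2.lt_of_ne (hz (nx j))
    have b2' : z.1 < (P j).1 := b2.lt_of_ne (hz j).symm
    have hij : i ≠ j := fun e => by rw [e] at hi; omega
    have hsum : ∑ i, cr (P i) (P (nx i)) z = cr (P i) (P (nx i)) z + cr (P j) (P (nx j)) z := by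
      refine Fintype.sum_eq_add i j hij ?_
      rintro k ⟨hki, hkj⟩
      unfold cr
      rcases Nat.lt_or_ge k.val r with hk | hk
      · have hd := hM.inc k hk
        have n1 : ¬ ((P k).1 < z.1 ∧ z.1 < (P (nx k)).1 ∧ 0 < orient (P k) (P (nx k)) z) := by
          rintro ⟨k1, k2, -⟩
          rcases Nat.lt_trichotomy k.val i.val with hlt | heq | hgt
          · have := msim_lo hM k i hlt hi.le
            linarith
          · exact hki (Fin.ext heq)
          · have := msim_lo hM i k hgt hk.le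
            linarith
        have n2 : ¬ ((P (nx k)).1 < z.1 ∧ z.1 < (P k).1 ∧ 0 < orient (P (nx k)) (P k) z) := by
          rintro ⟨k1, k2, -⟩
          linarith
        rw [if_neg n1, if_neg n2]
      · have hd := hM.dec k hk
        have n1 : ¬ ((P k).1 < z.1 ∧ z.1 < (P (nx k)).1 ∧ 0 < orient (P k) (P (nx k)) z) := by
          rintro ⟨k1, k2, -⟩
          linarith
        have n2 : ¬ ((P (nx k)).1 < z.1 ∧ z.1 < (P k).1 ∧ 0 < orient (P (nx k)) (P k) z) := by
          rintro ⟨k1, k2, -⟩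
          rcases Nat.lt_trichotomy k.val j.val with hlt | heq | hgt
          · have := msim_hi hM k j hlt hk
            linarith
          · exact hkj (Fin.ext heq)
          · have := msim_hi hM j k hgt hj
            linarith
        rw [if_neg n1, if_neg n2]
    rw [hsum]
    have e1 := h.lo i hi z a1 b1
    have e2 := h.hi j hj z a2 b2
    have e2' : orient (P (nx j)) (P j) z = ((P j).1 - (P (nx j)).1) * (z.2 - U z.1) := by
      have : orient (P (nx j)) (P j) z = - orient (P j) (P (nx j)) z := by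
        unfold orient; ring
      rw [this, e2]; ring
    have hdi : 0 < (P (nx i)).1 - (P i).1 := sub_pos.2 (hM.inc i hi)
    have hdj : 0 < (P j).1 - (P (nx j)).1 := sub_pos.2 (hM.dec j hj)
    have hLU := h.f_lt hM z.1 h0 h1
    have c1 : cr (P i) (P (nx i)) z = if L z.1 < z.2 then 1 else 0 := by
      unfold cr
      have n2 : ¬ ((P (nx i)).1 < z.1 ∧ z.1 < (P i).1 ∧ 0 < orient (P (nx i)) (P i) z) := by
        rintro ⟨k1, k2, -⟩
        linarith
      rw [if_neg n2]
      by_cases hl : L z.1 < z.2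
      · rw [if_pos hl, if_pos]
        refine ⟨a1', b1', ?_⟩
        rw [e1]; exact mul_pos hdi (by linarith)
      · rw [if_neg hl, if_neg]
        rintro ⟨-, -, h3⟩
        rw [e1] at h3
        have := (pos_iff_pos_of_mul_pos h3).1 hdi
        exact hl (by linarith)
    have c2 : cr (P j) (P (nx j)) z = if U z.1 < z.2 then -1 else 0 := by
      unfold cr
      have n1 : ¬ ((P j).1 < z.1 ∧ z.1 < (P (nx j)).1 ∧ 0 < orient (P j) (P (nx j)) z) := by
        rintro ⟨k1, k2, -⟩
        linarith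
      rw [if_neg n1]
      by_cases hl : U z.1 < z.2
      · rw [if_pos hl, if_pos]
        refine ⟨a2', b2', ?_⟩
        rw [e2']; exact mul_pos hdj (by linarith)
      · rw [if_neg hl, if_neg]
        rintro ⟨-, -, h3⟩
        rw [e2'] at h3
        have := (pos_iff_pos_of_mul_pos h3).1 hdj
        exact hl (by linarith)
    rw [c1, c2]
    have hzc : ¬ (z.2 = L z.1 ∨ z.2 = U z.1) := fun e =>
      hc ((h.mem_curve hM z).2 ⟨h0.le, h1.le, e⟩)
    by_cases hl : L z.1 < z.2
    · rw [if_pos hl]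
      by_cases hu : U z.1 < z.2
      · rw [if_pos hu, if_neg]
        · norm_num
        · rw [h.mem_region hM]
          rintro ⟨-, -, -, h4⟩
          linarith
      · rw [if_neg hu, if_pos]
        · norm_num
        · rw [h.mem_region hM]
          exact ⟨h0.le, h1.le, hl.le, not_lt.1 hu⟩
    · rw [if_neg hl]
      have hu : ¬ U z.1 < z.2 := fun hu => hl (by linarith)
      rw [if_neg hu, if_neg]
      · norm_num
      · rw [h.mem_region hM]
        rintro ⟨-, -, h3, -⟩
        exact hzc (Or.inl (le_antisymm (not_lt.1 hl) h3))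
  · have hreg : z ∉ region P := by
      rw [h.mem_region hM]
      rintro ⟨h0, h1, -, -⟩
      apply h01
      refine ⟨h0.lt_of_ne ?_, h1.lt_of_ne ?_⟩
      · rw [← h.v0 ⟨0, by omega⟩ rfl]; exact hz _
      · rw [← h.v1 ⟨r, by omega⟩ rfl]; exact (hz _).symm
    rw [if_neg hreg]
    apply Finset.sum_eq_zero
    intro k _
    have r1 := h.range k
    have r2 := h.range (nx k)
    unfold cr
    have n1 : ¬ ((P k).1 < z.1 ∧ z.1 < (P (nx k)).1 ∧ 0 < orient (P k) (P (nx k)) z) := by
      rintro ⟨k1, k2, -⟩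
      exact h01 ⟨by linarith, by linarith⟩
    have n2 : ¬ ((P (nx k)).1 < z.1 ∧ z.1 < (P k).1 ∧ 0 < orient (P (nx k)) (P k) z) := by
      rintro ⟨k1, k2, -⟩
      exact h01 ⟨by linarith, by linarith⟩
    rw [if_neg n1, if_neg n2]

theorem Mono.reg_edge (hM : Mono P r) {z : Pt} (hz : z ∈ region P) (i : Fin n)
    (hs : span P i z.1) : 0 ≤ orient (P i) (P (nx i)) z := by
  rw [hM.region_eq] at hz
  exact hz.2 i hs

/-- the point of a segment with a given first coordinate -/
theorem mcross_pt {a b : Pt} (hab : a.1 < b.1) {x : ℝ} (h1 : a.1 ≤ x) (h2 : x ≤ b.1) :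
    ∃ w ∈ segment ℝ a b, w.1 = x ∧ ∀ p : Pt, p.1 = x →
      orient a b p = (b.1 - a.1) * (p.2 - w.2) := by
  have hd : 0 < b.1 - a.1 := sub_pos.2 hab
  refine ⟨(x, a.2 + (x - a.1) / (b.1 - a.1) * (b.2 - a.2)), ?_, rfl, ?_⟩
  · rw [mreg_mem_segment hab]
    refine ⟨h1, h2, ?_⟩
    unfold orient
    simp only
    field_simp
    ring
  · intro p hp
    unfold orient
    rw [hp]
    simp only
    field_simp
    ring

/-- a segment in the region passes weakly above the lower vertices -/
theorem Mono.seg_low (hM : Mono P r) {a b : Pt} (hs : segment ℝ a b ⊆ region P)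
    (hab : a.1 < b.1) {j : Fin n} (hj : j.val ≤ r) (h1 : a.1 ≤ (P j).1) (h2 : (P j).1 ≤ b.1) :
    orient a b (P j) ≤ 0 := by
  obtain ⟨x₀, x₁, L, U, h⟩ := mreg_exists hM
  obtain ⟨w, hw, hw1, hw2⟩ := mcross_pt hab h1 h2
  have h3 := (h.mem_region hM w).1 (hs hw)
  have h4 := h3.2.2.1
  rw [hw1, h.valL hM j hj] at h4
  rw [hw2 (P j) rfl]
  exact mul_nonpos_of_nonneg_of_nonpos (sub_pos.2 hab).le (by linarith)

/-- a segment in the region passes weakly below the upper vertices -/
theorem Mono.seg_up (hM : Mono P r) {a b : Pt} (hs : segment ℝ a b ⊆ region P)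
    (hab : a.1 < b.1) {j : Fin n} (hj : r ≤ j.val ∨ j.val = 0) (h1 : a.1 ≤ (P j).1)
    (h2 : (P j).1 ≤ b.1) : 0 ≤ orient a b (P j) := by
  obtain ⟨x₀, x₁, L, U, h⟩ := mreg_exists hM
  obtain ⟨w, hw, hw1, hw2⟩ := mcross_pt hab h1 h2
  have h3 := (h.mem_region hM w).1 (hs hw)
  have h4 := h3.2.2.2
  rw [hw1, h.valU hM j hj] at h4
  rw [hw2 (P j) rfl]
  exact mul_nonneg (sub_pos.2 hab).le (by linarith)

end Pool.Agent.Lib57.CT
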