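import Mathlib
import Pool.Agent.Lib_helper57.CT.Defs

/-! The two polygons of the reduction: `N` rooms, `7 N + 4` vertices. -/

namespace Pool.Agent.Lib57.CT

/-- number of vertices of the polygons -/
abbrev nV (N : ℕ) : ℕ := 7 * N + 4

/-- the vertex with number `k` -/
def lb (N k : ℕ) : Fin (nV N) := ⟨k % (7 * N + 4), Nat.mod_lt _ (by omega)⟩

/-- the leftmost vertex -/
def vB (N : ℕ) : Fin (nV N) := lb N 0
/-- floor vertices, `j ≤ N` -/
def vp (N j : ℕ) : Fin (nV N) := lb N (1 + j)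
def vE (N : ℕ) : Fin (nV N) := lb N (N + 2)
/-- ceiling vertices: `vH j` for `j ≤ N`, the others for `i < N` -/
def vH (N j : ℕ) : Fin (nV N) := lb N (N + 3 + 6 * (N - j))
def vG (N i : ℕ) : Fin (nV N) := lb N (N + 4 + 6 * (N - 1 - i))
def vF (N i : ℕ) : Fin (nV N) := lb N (N + 5 + 6 * (N - 1 - i))
def vT (N i : ℕ) : Fin (nV N) := lb N (N + 6 + 6 * (N - 1 - i))
def vC (N i : ℕ) : Fin (nV N) := lb N (N + 7 + 6 * (N - 1 - i))
def vA (N i : ℕ) : Fin (nV N) := lb N (N + 8 + 6 * (N - 1 - i))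

/-- kinds of vertices -/
inductive Kd where
  | B | p (j : ℕ) | E | H (j : ℕ) | G (i : ℕ) | F (i : ℕ) | T (i : ℕ) | C (i : ℕ) | A (i : ℕ)

/-- the kind of the vertex with number `k` -/
def kd (N k : ℕ) : Kd :=
  if k = 0 then .B else if k ≤ N + 1 then .p (k - 1) else if k = N + 2 then .E else
  if (k - (N + 3)) % 6 = 0 then .H (N - (k - (N + 3)) / 6) else
  if (k - (N + 3)) % 6 = 1 then .G (N - 1 - (k - (N + 3)) / 6) else
  if (k - (N + 3)) % 6 = 2 then .F (N - 1 - (k - (N + 3)) / 6) else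
  if (k - (N + 3)) % 6 = 3 then .T (N - 1 - (k - (N + 3)) / 6) else
  if (k - (N + 3)) % 6 = 4 then .C (N - 1 - (k - (N + 3)) / 6) else
  .A (N - 1 - (k - (N + 3)) / 6)

/-- the point with coordinates `(X, Y)` in the `i`-th frame of `P` -/
def fP (D : ℝ) (i : ℕ) (X Y : ℝ) : Pt :=
  (64 * (X + 2 * i + 3), D * (Y - 3 - 2 * (i + 1) * X - 2 * (i + 1) ^ 2))

/-- the point with coordinates `(U, V)` in the `i`-th frame of `Q` -/
def fQ (D : ℝ) (i : ℕ) (U V : ℝ) : Pt :=
  (16 * (U + i + 6), D * (V + 2 * (i + 8) * U + (i + 8) ^ 2))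

/-- vertices of the first polygon -/
noncomputable def posP (N : ℕ) (D w : ℝ) (δ : ℕ → ℝ) : Kd → Pt
  | .B => fP D 0 (-2) (-1)
  | .p j => fP D j (-1) 0
  | .E => fP D N 0 (1 + w)
  | .H j => fP D j (-7 / 8) (5 / 32)
  | .G i => fP D i (1 / 32) (1 - δ i)
  | .F i => fP D i (1 / 64) (1 - δ i)
  | .T i => fP D i (-1 / 8) 2
  | .C i => fP D i (-1 / 4) 1
  | .A i => fP D i (-1 / 2) 1

/-- vertices of the second polygon -/
noncomputable def posQ (N : ℕ) (D b ψ : ℝ) (γ : ℕ → ℝ) : Kd → Pt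
  | .B => fQ D 0 (-5) 5
  | .p j => fQ D j 3 (-3)
  | .E => fQ D N (1 / 4) (-1 / 4 + 11 / 4 * ψ)
  | .H j => fQ D j (-7 / 2) (49 / 2)
  | .G i => fQ D (i + 1) (-15 / 4) (105 / 4 + b)
  | .F i => fQ D (i + 1) (-31 / 8) (217 / 8 + 2 * b + γ i)
  | .T i => fQ D i (-49 / 16) (687 / 32)
  | .C i => fQ D i (-25 / 8) (2801 / 128)
  | .A i => fQ D i (-13 / 4) (91 / 4)

/-- the first polygon -/
noncomputable def PP (N : ℕ) (D w : ℝ) (δ : ℕ → ℝ) : Fin (nV N) → Pt := fun v =>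
  posP N D w δ (kd N v)

/-- the second polygon -/
noncomputable def QQ (N : ℕ) (D b ψ : ℝ) (γ : ℕ → ℝ) : Fin (nV N) → Pt := fun v =>
  posQ N D b ψ γ (kd N v)

/-- the parameters of the first polygon are small -/
structure GP (N : ℕ) (D w : ℝ) (δ : ℕ → ℝ) : Prop where
  hN : 1 ≤ N
  hD : 0 < D
  w0 : 0 ≤ w
  w1 : w ≤ 1 / 1000
  d0 : ∀ i, 0 ≤ δ i
  d1 : ∀ i, δ i ≤ 1 / 1000

/-- the parameters of the second polygon are small -/
structure GQ (N : ℕ) (D b ψ : ℝ) (γ : ℕ → ℝ) : Prop where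
  hN : 1 ≤ N
  hD : 0 < D
  b0 : 0 < b
  b1 : b ≤ 1 / 1000
  p0 : 0 ≤ ψ
  p1 : ψ ≤ 1 / 1000
  g0 : ∀ i, 0 ≤ γ i
  g1 : ∀ i, γ i ≤ 1 / 1000

/-! ### labels -/

variable {N : ℕ}

theorem lb_val {k : ℕ} (h : k < 7 * N + 4) : (lb N k).val = k := Nat.mod_eq_of_lt h

theorem vB_val : (vB N).val = 0 := lb_val (by omega)
theorem vp_val {j : ℕ} (h : j ≤ N) : (vp N j).val = 1 + j := lb_val (by omega)
theorem vE_val : (vE N).val = N + 2 := lb_val (by omega)
theorem vH_val {j : ℕ} (_h : j ≤ N) : (vH N j).val = N + 3 + 6 * (N - j) := lb_val (by omega)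
theorem vG_val {i : ℕ} (_h : i < N) : (vG N i).val = N + 4 + 6 * (N - 1 - i) := lb_val (by omega)
theorem vF_val {i : ℕ} (_h : i < N) : (vF N i).val = N + 5 + 6 * (N - 1 - i) := lb_val (by omega)
theorem vT_val {i : ℕ} (_h : i < N) : (vT N i).val = N + 6 + 6 * (N - 1 - i) := lb_val (by omega)
theorem vC_val {i : ℕ} (_h : i < N) : (vC N i).val = N + 7 + 6 * (N - 1 - i) := lb_val (by omega)
theorem vA_val {i : ℕ} (_h : i < N) : (vA N i).val = N + 8 + 6 * (N - 1 - i) := lb_val (by omega)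

/-- every vertex has one of the nine kinds -/
theorem v_cases (v : Fin (nV N)) : v = vB N ∨ (∃ j ≤ N, v = vp N j) ∨ v = vE N ∨
    (∃ j ≤ N, v = vH N j) ∨ (∃ i < N, v = vG N i) ∨ (∃ i < N, v = vF N i) ∨
    (∃ i < N, v = vT N i) ∨ (∃ i < N, v = vC N i) ∨ (∃ i < N, v = vA N i) := by
  obtain ⟨k, hk⟩ := v
  have hk' : k < 7 * N + 4 := hk
  by_cases h0 : k = 0
  · left; apply Fin.ext; rw [vB_val]; exact h0
  by_cases h1 : k ≤ N + 1
  · right; left; refine ⟨k - 1, by omega, Fin.ext ?_⟩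
    rw [vp_val (by omega)]; show k = 1 + (k - 1); omega
  by_cases h2 : k = N + 2
  · right; right; left; apply Fin.ext; rw [vE_val]; exact h2
  obtain ⟨q, r, hr, hq⟩ : ∃ q r, r < 6 ∧ k = N + 3 + 6 * q + r :=
    ⟨(k - (N + 3)) / 6, (k - (N + 3)) % 6, Nat.mod_lt _ (by norm_num), by omega⟩
  interval_cases r
  · right; right; right; left; refine ⟨N - q, by omega, Fin.ext ?_⟩
    rw [vH_val (by omega)]; show k = _; omega
  · right; right; right; right; left; refine ⟨N - 1 - q, by omega, Fin.ext ?_⟩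
    rw [vG_val (by omega)]; show k = _; omega
  · right; right; right; right; right; left; refine ⟨N - 1 - q, by omega, Fin.ext ?_⟩
    rw [vF_val (by omega)]; show k = _; omega
  · right; right; right; right; right; right; left; refine ⟨N - 1 - q, by omega, Fin.ext ?_⟩
    rw [vT_val (by omega)]; show k = _; omega
  · right; right; right; right; right; right; right; left
    refine ⟨N - 1 - q, by omega, Fin.ext ?_⟩
    rw [vC_val (by omega)]; show k = _; omega
  · right; right; right; right; right; right; right; right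
    refine ⟨N - 1 - q, by omega, Fin.ext ?_⟩
    rw [vA_val (by omega)]; show k = _; omega

theorem nx_val {n : ℕ} (v : Fin n) (h : v.val + 1 < n) : (nx v).val = v.val + 1 :=
  Nat.mod_eq_of_lt h

theorem nxV_val (v : Fin (nV N)) (h : v.val + 1 < 7 * N + 4) : (nx v).val = v.val + 1 :=
  Nat.mod_eq_of_lt h

theorem nx_B : nx (vB N) = vp N 0 := by
  apply Fin.ext
  rw [nxV_val _ (by rw [vB_val]; omega), vB_val, vp_val (by omega)]

theorem nx_p {j : ℕ} (h : j < N) : nx (vp N j) = vp N (j + 1) := by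
  apply Fin.ext
  rw [nxV_val _ (by rw [vp_val (by omega)]; omega), vp_val (by omega), vp_val (by omega)]; omega

theorem nx_pN : nx (vp N N) = vE N := by
  apply Fin.ext
  rw [nxV_val _ (by rw [vp_val (by omega)]; omega), vp_val (by omega), vE_val]; omega

theorem nx_E : nx (vE N) = vH N N := by
  apply Fin.ext
  rw [nxV_val _ (by rw [vE_val]; omega), vH_val (by omega), vE_val]; omega

theorem nx_H {i : ℕ} (h : i < N) : nx (vH N (i + 1)) = vG N i := by
  apply Fin.ext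
  rw [nxV_val _ (by rw [vH_val (by omega)]; omega), vH_val (by omega), vG_val (by omega)]; omega

theorem nx_G {i : ℕ} (h : i < N) : nx (vG N i) = vF N i := by
  apply Fin.ext
  rw [nxV_val _ (by rw [vG_val (by omega)]; omega), vG_val (by omega), vF_val (by omega)]; omega

theorem nx_F {i : ℕ} (h : i < N) : nx (vF N i) = vT N i := by
  apply Fin.ext
  rw [nxV_val _ (by rw [vF_val (by omega)]; omega), vF_val (by omega), vT_val (by omega)]; omega

theorem nx_T {i : ℕ} (h : i < N) : nx (vT N i) = vC N i := by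
  apply Fin.ext
  rw [nxV_val _ (by rw [vT_val (by omega)]; omega), vT_val (by omega), vC_val (by omega)]; omega

theorem nx_C {i : ℕ} (h : i < N) : nx (vC N i) = vA N i := by
  apply Fin.ext
  rw [nxV_val _ (by rw [vC_val (by omega)]; omega), vC_val (by omega), vA_val (by omega)]; omega

theorem nx_A {i : ℕ} (h : i < N) : nx (vA N i) = vH N i := by
  apply Fin.ext
  rw [nxV_val _ (by rw [vA_val (by omega)]; omega), vA_val (by omega), vH_val (by omega)]; omega

theorem nx_H0 : nx (vH N 0) = vB N := by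
  apply Fin.ext
  have h : (vH N 0).val = 7 * N + 3 := by rw [vH_val (by omega)]; omega
  show ((vH N 0).val + 1) % (7 * N + 4) = _
  rw [h, vB_val]; exact Nat.mod_self _

/-! ### kinds -/

theorem kd_B : kd N (vB N).val = .B := by rw [vB_val]; rfl

theorem kd_p {j : ℕ} (h : j ≤ N) : kd N (vp N j).val = .p j := by
  rw [vp_val h]; unfold kd
  rw [if_neg (by omega), if_pos (by omega)]; congr 1; omega

theorem kd_E : kd N (vE N).val = .E := by
  rw [vE_val]; unfold kd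
  rw [if_neg (by omega), if_neg (by omega), if_pos rfl]

theorem kd_H {j : ℕ} (h : j ≤ N) : kd N (vH N j).val = .H j := by
  rw [vH_val h]; unfold kd
  rw [if_neg (by omega), if_neg (by omega), if_neg (by omega), if_pos (by omega)]
  congr 1; omega

theorem kd_G {i : ℕ} (h : i < N) : kd N (vG N i).val = .G i := by
  rw [vG_val h]; unfold kd
  rw [if_neg (by omega), if_neg (by omega), if_neg (by omega), if_neg (by omega),
    if_pos (by omega)]
  congr 1; omega

theorem kd_F {i : ℕ} (h : i < N) : kd N (vF N i).val = .F i := by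
  rw [vF_val h]; unfold kd
  rw [if_neg (by omega), if_neg (by omega), if_neg (by omega), if_neg (by omega),
    if_neg (by omega), if_pos (by omega)]
  congr 1; omega

theorem kd_T {i : ℕ} (h : i < N) : kd N (vT N i).val = .T i := by
  rw [vT_val h]; unfold kd
  rw [if_neg (by omega), if_neg (by omega), if_neg (by omega), if_neg (by omega),
    if_neg (by omega), if_neg (by omega), if_pos (by omega)]
  congr 1; omega

theorem kd_C {i : ℕ} (h : i < N) : kd N (vC N i).val = .C i := by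
  rw [vC_val h]; unfold kd
  rw [if_neg (by omega), if_neg (by omega), if_neg (by omega), if_neg (by omega),
    if_neg (by omega), if_neg (by omega), if_neg (by omega), if_pos (by omega)]
  congr 1; omega

theorem kd_A {i : ℕ} (h : i < N) : kd N (vA N i).val = .A i := by
  rw [vA_val h]; unfold kd
  rw [if_neg (by omega), if_neg (by omega), if_neg (by omega), if_neg (by omega),
    if_neg (by omega), if_neg (by omega), if_neg (by omega), if_neg (by omega)]
  congr 1; omega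

/-! ### positions -/

section
variable {D w : ℝ} {δ : ℕ → ℝ}

theorem PP_B : PP N D w δ (vB N) = fP D 0 (-2) (-1) := by unfold PP; rw [kd_B]; rfl
theorem PP_p {j : ℕ} (h : j ≤ N) : PP N D w δ (vp N j) = fP D j (-1) 0 := by
  unfold PP; rw [kd_p h]; rfl
theorem PP_E : PP N D w δ (vE N) = fP D N 0 (1 + w) := by unfold PP; rw [kd_E]; rfl
theorem PP_H {j : ℕ} (h : j ≤ N) : PP N D w δ (vH N j) = fP D j (-7 / 8) (5 / 32) := by
  unfold PP; rw [kd_H h]; rfl
theorem PP_G {i : ℕ} (h : i < N) : PP N D w δ (vG N i) = fP D i (1 / 32) (1 - δ i) := by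
  unfold PP; rw [kd_G h]; rfl
theorem PP_F {i : ℕ} (h : i < N) : PP N D w δ (vF N i) = fP D i (1 / 64) (1 - δ i) := by
  unfold PP; rw [kd_F h]; rfl
theorem PP_T {i : ℕ} (h : i < N) : PP N D w δ (vT N i) = fP D i (-1 / 8) 2 := by
  unfold PP; rw [kd_T h]; rfl
theorem PP_C {i : ℕ} (h : i < N) : PP N D w δ (vC N i) = fP D i (-1 / 4) 1 := by
  unfold PP; rw [kd_C h]; rfl
theorem PP_A {i : ℕ} (h : i < N) : PP N D w δ (vA N i) = fP D i (-1 / 2) 1 := by
  unfold PP; rw [kd_A h]; rfl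

/-- change of frames in `P` -/
theorem fP_frame (D : ℝ) (i l : ℕ) (X Y : ℝ) : fP D l X Y =
    fP D i (X + 2 * ((l : ℝ) - i)) (Y - 2 * ((l : ℝ) - i) * (X + ((l : ℝ) - i))) := by
  unfold fP; ext <;> ring

/-- the orientation can be computed in any frame of `P` -/
theorem orient_fP (D : ℝ) (i : ℕ) (X1 Y1 X2 Y2 X3 Y3 : ℝ) :
    orient (fP D i X1 Y1) (fP D i X2 Y2) (fP D i X3 Y3) =
      64 * D * ((X2 - X1) * (Y3 - Y1) - (Y2 - Y1) * (X3 - X1)) := by
  unfold orient fP; ring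

theorem fP_surj (hD : D ≠ 0) (i : ℕ) (z : Pt) : ∃ X Y, z = fP D i X Y := by
  refine ⟨z.1 / 64 - 2 * i - 3,
    z.2 / D + 3 + 2 * (i + 1) * (z.1 / 64 - 2 * i - 3) + 2 * (i + 1) ^ 2, ?_⟩
  unfold fP; ext
  · ring
  · simp only; field_simp; ring

theorem fP_lt {i : ℕ} {X Y X' Y' : ℝ} : (fP D i X Y).1 < (fP D i X' Y').1 ↔ X < X' := by
  unfold fP; constructor <;> intro h <;> simp only at h ⊢ <;> linarith

theorem fP_le {i : ℕ} {X Y X' Y' : ℝ} : (fP D i X Y).1 ≤ (fP D i X' Y').1 ↔ X ≤ X' := by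
  unfold fP; constructor <;> intro h <;> simp only at h ⊢ <;> linarith

end

section
variable {D b ψ : ℝ} {γ : ℕ → ℝ}

theorem QQ_B : QQ N D b ψ γ (vB N) = fQ D 0 (-5) 5 := by unfold QQ; rw [kd_B]; rfl
theorem QQ_p {j : ℕ} (h : j ≤ N) : QQ N D b ψ γ (vp N j) = fQ D j 3 (-3) := by
  unfold QQ; rw [kd_p h]; rfl
theorem QQ_E : QQ N D b ψ γ (vE N) = fQ D N (1 / 4) (-1 / 4 + 11 / 4 * ψ) := by
  unfold QQ; rw [kd_E]; rfl
theorem QQ_H {j : ℕ} (h : j ≤ N) : QQ N D b ψ γ (vH N j) = fQ D j (-7 / 2) (49 / 2) := by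
  unfold QQ; rw [kd_H h]; rfl
theorem QQ_G {i : ℕ} (h : i < N) :
    QQ N D b ψ γ (vG N i) = fQ D (i + 1) (-15 / 4) (105 / 4 + b) := by
  unfold QQ; rw [kd_G h]; rfl
theorem QQ_F {i : ℕ} (h : i < N) :
    QQ N D b ψ γ (vF N i) = fQ D (i + 1) (-31 / 8) (217 / 8 + 2 * b + γ i) := by
  unfold QQ; rw [kd_F h]; rfl
theorem QQ_T {i : ℕ} (h : i < N) : QQ N D b ψ γ (vT N i) = fQ D i (-49 / 16) (687 / 32) := by
  unfold QQ; rw [kd_T h]; rfl
theorem QQ_C {i : ℕ} (h : i < N) : QQ N D b ψ γ (vC N i) = fQ D i (-25 / 8) (2801 / 128) := by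
  unfold QQ; rw [kd_C h]; rfl
theorem QQ_A {i : ℕ} (h : i < N) : QQ N D b ψ γ (vA N i) = fQ D i (-13 / 4) (91 / 4) := by
  unfold QQ; rw [kd_A h]; rfl

/-- change of frames in `Q` -/
theorem fQ_frame (D : ℝ) (i l : ℕ) (U V : ℝ) : fQ D l U V =
    fQ D i (U + ((l : ℝ) - i)) (V + 2 * ((l : ℝ) - i) * U + ((l : ℝ) - i) ^ 2) := by
  unfold fQ; ext <;> ring

/-- the orientation can be computed in any frame of `Q` -/
theorem orient_fQ (D : ℝ) (i : ℕ) (U1 V1 U2 V2 U3 V3 : ℝ) :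
    orient (fQ D i U1 V1) (fQ D i U2 V2) (fQ D i U3 V3) =
      16 * D * ((U2 - U1) * (V3 - V1) - (V2 - V1) * (U3 - U1)) := by
  unfold orient fQ; ring

theorem fQ_surj (hD : D ≠ 0) (i : ℕ) (z : Pt) : ∃ U V, z = fQ D i U V := by
  refine ⟨z.1 / 16 - i - 6,
    z.2 / D - 2 * (i + 8) * (z.1 / 16 - i - 6) - (i + 8) ^ 2, ?_⟩
  unfold fQ; ext
  · ring
  · simp only; field_simp; ring

theorem fQ_lt {i : ℕ} {U V U' V' : ℝ} : (fQ D i U V).1 < (fQ D i U' V').1 ↔ U < U' := by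
  unfold fQ; constructor <;> intro h <;> simp only at h ⊢ <;> linarith

theorem fQ_le {i : ℕ} {U V U' V' : ℝ} : (fQ D i U V).1 ≤ (fQ D i U' V').1 ↔ U ≤ U' := by
  unfold fQ; constructor <;> intro h <;> simp only at h ⊢ <;> linarith

end

end Pool.Agent.Lib57.CT
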