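import Mathlib
import Pool.Agent.Lib_helper57.CT.Geo
import Pool.Agent.Lib_helper57.CT.MonoDef

/-! BLOCK PMONO: the first polygon is `x`-monotone. -/

namespace Pool.Agent.Lib57.CT

variable {N : ℕ} {D w : ℝ} {δ : ℕ → ℝ}

/-- values of the lower vertices (numbers below `N + 2`) -/
theorem pmono_low_cases (i : Fin (nV N)) (h : i.val < N + 2) :
    i = vB N ∨ ∃ j ≤ N, i = vp N j := by
  rcases v_cases i with hi | ⟨j, hj, hi⟩ | hi | ⟨j, hj, hi⟩ | ⟨j, hj, hi⟩ | ⟨j, hj, hi⟩ |
    ⟨j, hj, hi⟩ | ⟨j, hj, hi⟩ | ⟨j, hj, hi⟩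
  · exact Or.inl hi
  · exact Or.inr ⟨j, hj, hi⟩
  · rw [hi, vE_val] at h; omega
  · rw [hi, vH_val hj] at h; omega
  · rw [hi, vG_val hj] at h; omega
  · rw [hi, vF_val hj] at h; omega
  · rw [hi, vT_val hj] at h; omega
  · rw [hi, vC_val hj] at h; omega
  · rw [hi, vA_val hj] at h; omega

/-- the vertices with numbers at least `N + 2` -/
theorem pmono_up_cases (i : Fin (nV N)) (h : N + 2 ≤ i.val) :
    i = vE N ∨ (∃ j ≤ N, i = vH N j) ∨ (∃ j < N, i = vG N j) ∨ (∃ j < N, i = vF N j) ∨
    (∃ j < N, i = vT N j) ∨ (∃ j < N, i = vC N j) ∨ (∃ j < N, i = vA N j) := by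
  rcases v_cases i with hi | ⟨j, hj, hi⟩ | hi | hi | hi | hi | hi | hi | hi
  · rw [hi, vB_val] at h; omega
  · rw [hi, vp_val hj] at h; omega
  · exact Or.inl hi
  · exact Or.inr (Or.inl hi)
  · exact Or.inr (Or.inr (Or.inl hi))
  · exact Or.inr (Or.inr (Or.inr (Or.inl hi)))
  · exact Or.inr (Or.inr (Or.inr (Or.inr (Or.inl hi))))
  · exact Or.inr (Or.inr (Or.inr (Or.inr (Or.inr (Or.inl hi)))))
  · exact Or.inr (Or.inr (Or.inr (Or.inr (Or.inr (Or.inr hi)))))

theorem pmono_fst (D : ℝ) (i : ℕ) (X Y : ℝ) : (fP D i X Y).1 = 64 * (X + 2 * i + 3) := rfl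

/-- a lower bound for the vertex `(X, Y)_l` above the base edge `(p_j, p_{j+1})` forces `l = j` -/
theorem pmono_base (hD : 0 < D) {j l : ℕ} {X Y : ℝ} (hX : -1 < X) (hX' : X < 1) (hY : 0 < Y)
    (h1 : (fP D j (-1) 0).1 ≤ (fP D l X Y).1) (h2 : (fP D l X Y).1 ≤ (fP D (j + 1) (-1) 0).1) :
    0 < orient (fP D j (-1) 0) (fP D (j + 1) (-1) 0) (fP D l X Y) := by
  simp only [pmono_fst] at h1 h2
  push_cast at h2
  have hlj : l = j := by
    rcases lt_trichotomy l j with hlt | he | hlt
    · have : (l : ℝ) + 1 ≤ j := by exact_mod_cast hlt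
      linarith
    · exact he
    · have : (j : ℝ) + 1 ≤ l := by exact_mod_cast hlt
      linarith
  subst hlj
  rw [fP_frame D l (l + 1) (-1) 0]
  rw [orient_fP]
  push_cast
  have : (0 : ℝ) < D * Y := mul_pos hD hY
  nlinarith

/-- no lower edge `(p_N, E)` below ceiling points of rooms -/
theorem pmono_last {j l : ℕ} (hl : l < j) {X Y : ℝ} (hX' : X < 1)
    (h1 : (fP D j (-1) 0).1 ≤ (fP D l X Y).1) : False := by
  simp only [pmono_fst] at h1
  have : (l : ℝ) + 1 ≤ j := by exact_mod_cast hl
  linarith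

/-- the lower vertex `p_j` is in the x-range of an upper edge inside room `l`: impossible -/
theorem pmono_room {l j : ℕ} {X Y X' Y' : ℝ} (hX : -1 < X') (hX' : X < 1)
    (h1 : (fP D l X' Y').1 ≤ (fP D j (-1) 0).1) (h2 : (fP D j (-1) 0).1 ≤ (fP D l X Y).1) :
    False := by
  simp only [pmono_fst] at h1 h2
  rcases lt_or_ge j (l + 1) with hlt | hge
  · have : (j : ℝ) ≤ l := by exact_mod_cast Nat.lt_succ_iff.mp hlt
    linarith
  · have : (l : ℝ) + 1 ≤ j := by exact_mod_cast hge
    linarith

theorem PP_mono (h : GP N D w δ) : Mono (PP N D w δ) (N + 2) := by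
  have hD := h.hD
  have hN := h.hN
  have hw0 := h.w0
  have hw1 := h.w1
  refine ⟨by unfold nV; omega, by omega, by unfold nV; omega, ?_, ?_, ?_, ?_⟩
  · intro i hi
    rcases pmono_low_cases i hi with rfl | ⟨j, hj, rfl⟩
    · rw [nx_B, PP_B, PP_p (by omega)]
      simp only [pmono_fst]; norm_num
    · rcases Nat.lt_or_ge j N with hlt | hge
      · rw [nx_p hlt, PP_p (by omega), PP_p (by omega)]
        simp only [pmono_fst]; push_cast; linarith
      · have : j = N := by omega
        subst this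
        rw [nx_pN, PP_p (by omega), PP_E]
        simp only [pmono_fst]; linarith
  · intro i hi
    rcases pmono_up_cases i hi with rfl | ⟨j, hj, rfl⟩ | ⟨j, hj, rfl⟩ | ⟨j, hj, rfl⟩ |
      ⟨j, hj, rfl⟩ | ⟨j, hj, rfl⟩ | ⟨j, hj, rfl⟩
    · rw [nx_E, PP_E, PP_H (by omega)]
      simp only [pmono_fst]; linarith
    · rcases Nat.eq_zero_or_pos j with h0 | hpos
      · subst h0
        rw [nx_H0, PP_B, PP_H (by omega)]
        simp only [pmono_fst]; linarith
      · obtain ⟨k, rfl⟩ : ∃ k, j = k + 1 := ⟨j - 1, by omega⟩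
        rw [nx_H (by omega), PP_G (by omega), PP_H (by omega)]
        simp only [pmono_fst]; push_cast; linarith
    · rw [nx_G hj, PP_G hj, PP_F hj]
      simp only [pmono_fst]; linarith
    · rw [nx_F hj, PP_F hj, PP_T hj]
      simp only [pmono_fst]; linarith
    · rw [nx_T hj, PP_C hj, PP_T hj]
      simp only [pmono_fst]; linarith
    · rw [nx_C hj, PP_C hj, PP_A hj]
      simp only [pmono_fst]; linarith
    · rw [nx_A hj, PP_A hj, PP_H (by omega)]
      simp only [pmono_fst]; linarith
  · intro i v hi hv h1 h2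
    have hd0 := h.d0
    have hd1 := h.d1
    rcases pmono_low_cases i hi with rfl | ⟨j, hj, rfl⟩
    · exfalso
      rw [nx_B, PP_p (by omega)] at h2
      rcases pmono_up_cases v hv.le with rfl | ⟨l, hl, rfl⟩ | ⟨l, hl, rfl⟩ | ⟨l, hl, rfl⟩ |
        ⟨l, hl, rfl⟩ | ⟨l, hl, rfl⟩ | ⟨l, hl, rfl⟩
      · rw [vE_val] at hv; omega
      · rw [PP_H hl] at h2; simp only [pmono_fst] at h2
        have : (0 : ℝ) ≤ l := Nat.cast_nonneg l
        push_cast at h2; linarith
      · rw [PP_G hl] at h2; simp only [pmono_fst] at h2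
        have : (0 : ℝ) ≤ l := Nat.cast_nonneg l
        push_cast at h2; linarith
      · rw [PP_F hl] at h2; simp only [pmono_fst] at h2
        have : (0 : ℝ) ≤ l := Nat.cast_nonneg l
        push_cast at h2; linarith
      · rw [PP_T hl] at h2; simp only [pmono_fst] at h2
        have : (0 : ℝ) ≤ l := Nat.cast_nonneg l
        push_cast at h2; linarith
      · rw [PP_C hl] at h2; simp only [pmono_fst] at h2
        have : (0 : ℝ) ≤ l := Nat.cast_nonneg l
        push_cast at h2; linarith
      · rw [PP_A hl] at h2; simp only [pmono_fst] at h2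
        have : (0 : ℝ) ≤ l := Nat.cast_nonneg l
        push_cast at h2; linarith
    · rcases Nat.lt_or_ge j N with hlt | hge
      · rw [nx_p hlt, PP_p (by omega)] at h2 ⊢
        rw [PP_p (by omega)] at h1 ⊢
        rcases pmono_up_cases v hv.le with rfl | ⟨l, hl, rfl⟩ | ⟨l, hl, rfl⟩ | ⟨l, hl, rfl⟩ |
          ⟨l, hl, rfl⟩ | ⟨l, hl, rfl⟩ | ⟨l, hl, rfl⟩
        · rw [vE_val] at hv; omega
        · rw [PP_H hl] at h1 h2 ⊢
          exact pmono_base hD (by norm_num) (by norm_num) (by norm_num) h1 h2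
        · rw [PP_G hl] at h1 h2 ⊢
          exact pmono_base hD (by norm_num) (by norm_num) (by linarith [hd1 l]) h1 h2
        · rw [PP_F hl] at h1 h2 ⊢
          exact pmono_base hD (by norm_num) (by norm_num) (by linarith [hd1 l]) h1 h2
        · rw [PP_T hl] at h1 h2 ⊢
          exact pmono_base hD (by norm_num) (by norm_num) (by norm_num) h1 h2
        · rw [PP_C hl] at h1 h2 ⊢
          exact pmono_base hD (by norm_num) (by norm_num) (by norm_num) h1 h2
        · rw [PP_A hl] at h1 h2 ⊢
          exact pmono_base hD (by norm_num) (by norm_num) (by norm_num) h1 h2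
      · have : j = N := by omega
        subst this
        rw [PP_p (by omega)] at h1 ⊢
        rw [nx_pN, PP_E] at h2 ⊢
        rcases pmono_up_cases v hv.le with rfl | ⟨l, hl, rfl⟩ | ⟨l, hl, rfl⟩ | ⟨l, hl, rfl⟩ |
          ⟨l, hl, rfl⟩ | ⟨l, hl, rfl⟩ | ⟨l, hl, rfl⟩
        · rw [vE_val] at hv; omega
        · rw [PP_H hl] at h1 h2 ⊢
          rcases Nat.lt_or_ge l j with hlj | hlj
          · exact (pmono_last hlj (by norm_num) h1).elim
          · have : l = j := by omega
            subst this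
            rw [orient_fP]
            have : 0 ≤ D * (1 / 1000 - w) := mul_nonneg hD.le (by linarith)
            nlinarith
        · rw [PP_G hl] at h1
          exact (pmono_last hl (by norm_num) h1).elim
        · rw [PP_F hl] at h1
          exact (pmono_last hl (by norm_num) h1).elim
        · rw [PP_T hl] at h1
          exact (pmono_last hl (by norm_num) h1).elim
        · rw [PP_C hl] at h1
          exact (pmono_last hl (by norm_num) h1).elim
        · rw [PP_A hl] at h1
          exact (pmono_last hl (by norm_num) h1).elim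
  · intro i v hi hv0 hv h1 h2
    have hd0 := h.d0
    have hd1 := h.d1
    rcases pmono_low_cases v hv with rfl | ⟨l, hl, rfl⟩
    · rw [vB_val] at hv0; omega
    rw [PP_p hl] at h1 h2 ⊢
    rcases pmono_up_cases i hi with rfl | ⟨j, hj, rfl⟩ | ⟨j, hj, rfl⟩ | ⟨j, hj, rfl⟩ |
      ⟨j, hj, rfl⟩ | ⟨j, hj, rfl⟩ | ⟨j, hj, rfl⟩
    · exfalso
      rw [nx_E, PP_H (by omega)] at h1
      simp only [pmono_fst] at h1
      have : (l : ℝ) ≤ N := by exact_mod_cast hl
      linarith
    · rcases Nat.eq_zero_or_pos j with h0 | hpos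
      · subst h0
        rw [nx_H0, PP_B] at h1 ⊢
        rw [PP_H (by omega)] at h2 ⊢
        have hl0 : l = 0 := by
          rcases Nat.eq_zero_or_pos l with hh | hh
          · exact hh
          · exfalso
            simp only [pmono_fst] at h2
            have : (1 : ℝ) ≤ l := by exact_mod_cast hh
            push_cast at h2; linarith
        subst hl0
        rw [orient_fP]
        nlinarith
      · obtain ⟨k, rfl⟩ : ∃ k, j = k + 1 := ⟨j - 1, by omega⟩
        rw [nx_H (by omega), PP_G (by omega)] at h1 ⊢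
        rw [PP_H (by omega)] at h2 ⊢
        have hlk : l = k + 1 := by
          simp only [pmono_fst] at h1 h2
          push_cast at h2
          rcases lt_trichotomy l (k + 1) with hlt | he | hlt
          · have : (l : ℝ) ≤ k := by exact_mod_cast Nat.lt_succ_iff.mp hlt
            linarith
          · exact he
          · have : (k : ℝ) + 2 ≤ l := by exact_mod_cast hlt
            linarith
        subst hlk
        rw [fP_frame D k (k + 1), fP_frame D k (k + 1) (-1) 0]
        rw [orient_fP]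
        push_cast
        have h3 : 0 ≤ D * δ k := mul_nonneg hD.le (hd0 k)
        have h4 : 0 ≤ D * (1 / 1000 - δ k) := mul_nonneg hD.le (by linarith [hd1 k])
        nlinarith
    · exfalso
      rw [nx_G hj, PP_F hj] at h1
      rw [PP_G hj] at h2
      exact pmono_room (by norm_num) (by norm_num) h1 h2
    · exfalso
      rw [nx_F hj, PP_T hj] at h1
      rw [PP_F hj] at h2
      exact pmono_room (by norm_num) (by norm_num) h1 h2
    · exfalso
      rw [nx_T hj, PP_C hj] at h1
      rw [PP_T hj] at h2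
      exact pmono_room (by norm_num) (by norm_num) h1 h2
    · exfalso
      rw [nx_C hj, PP_A hj] at h1
      rw [PP_C hj] at h2
      exact pmono_room (by norm_num) (by norm_num) h1 h2
    · exfalso
      rw [nx_A hj, PP_H (by omega)] at h1
      rw [PP_A hj] at h2
      exact pmono_room (by norm_num) (by norm_num) h1 h2

end Pool.Agent.Lib57.CT
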