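import Mathlib
import Pool.Agent.Lib_helper57.CT.Geo
import Pool.Agent.Lib_helper57.CT.MonoDef

/-! BLOCK QCONV: the upper chain of the second polygon is strictly convex; its tangent lines. -/

namespace Pool.Agent.Lib57.CT

variable {N : ℕ} {D b ψ : ℝ} {γ : ℕ → ℝ}

/-- the slope of the `k`-th edge of a sequence of points -/
noncomputable def qconv_s (P : ℕ → Pt) (k : ℕ) : ℝ :=
  ((P k).2 - (P (k + 1)).2) / ((P k).1 - (P (k + 1)).1)

theorem qconv_s_mul {P : ℕ → Pt} {k : ℕ} (h : (P (k + 1)).1 < (P k).1) :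
    qconv_s P k * ((P k).1 - (P (k + 1)).1) = (P k).2 - (P (k + 1)).2 := by
  unfold qconv_s
  have : (P k).1 - (P (k + 1)).1 ≠ 0 := by linarith
  field_simp

theorem qconv_s_lt {P : ℕ → Pt} {k : ℕ} (h : (P (k + 1)).1 < (P k).1)
    (h' : (P (k + 2)).1 < (P (k + 1)).1)
    (ho : 0 < orient (P (k + 2)) (P (k + 1)) (P k)) : qconv_s P (k + 1) < qconv_s P k := by
  have e1 := qconv_s_mul h
  have e2 := qconv_s_mul h'
  unfold orient at ho
  have h1 : 0 < (P k).1 - (P (k + 1)).1 := by linarith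
  have h2 : 0 < (P (k + 1)).1 - (P (k + 2)).1 := by linarith
  by_contra hcon
  push Not at hcon
  have h3 : 0 ≤ (qconv_s P (k + 1) - qconv_s P k) *
      (((P k).1 - (P (k + 1)).1) * ((P (k + 1)).1 - (P (k + 2)).1)) :=
    mul_nonneg (by linarith) (mul_pos h1 h2).le
  have e3 : (P k).2 = (P (k + 1)).2 + qconv_s P k * ((P k).1 - (P (k + 1)).1) := by linarith
  have e4 : (P (k + 2)).2 =
      (P (k + 1)).2 - qconv_s P (k + 1) * ((P (k + 1)).1 - (P (k + 2)).1) := by
    have : P (k + 1 + 1) = P (k + 2) := rfl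
    rw [this] at e2
    linarith
  rw [e3, e4] at ho
  nlinarith

/-- from left turns of consecutive vertices to all left turns -/
theorem qconv_chain (P : ℕ → Pt) (a b : ℕ)
    (hx : ∀ k, a ≤ k → k + 1 ≤ b → (P (k + 1)).1 < (P k).1)
    (ho : ∀ k, a ≤ k → k + 2 ≤ b → 0 < orient (P (k + 2)) (P (k + 1)) (P k))
    {i j l : ℕ} (hi : a ≤ i) (hij : i < j) (hjl : j < l) (hl : l ≤ b) :
    0 < orient (P l) (P j) (P i) := by
  have hs : ∀ k, a ≤ k → k + 2 ≤ b → qconv_s P (k + 1) < qconv_s P k := fun k h1 h2 =>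
    qconv_s_lt (hx k h1 (by omega)) (hx (k + 1) (by omega) (by omega)) (ho k h1 h2)
  have hxx : ∀ m k, a ≤ k → k + m ≤ b → (P (k + m)).1 ≤ (P k).1 := by
    intro m
    induction m with
    | zero => intro k _ _; exact le_refl _
    | succ m ih =>
      intro k h1 h2
      have := ih k h1 (by omega)
      have h3 := hx (k + m) (by omega) (by omega)
      exact (h3.le.trans this)
  -- the slopes decrease
  have hss : ∀ m k, a ≤ k → k + m + 1 ≤ b → qconv_s P (k + m) ≤ qconv_s P k := by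
    intro m
    induction m with
    | zero => intro k _ _; exact le_refl _
    | succ m ih =>
      intro k h1 h2
      have := ih k h1 (by omega)
      have h3 := hs (k + m) (by omega) (by omega)
      exact (h3.le.trans this)
  -- the first estimate
  have h1 : ∀ m k, a ≤ k → k + m + 1 ≤ b →
      qconv_s P (k + m) * ((P k).1 - (P (k + m + 1)).1) ≤ (P k).2 - (P (k + m + 1)).2 := by
    intro m
    induction m with
    | zero =>
      intro k ha hb
      exact (qconv_s_mul (hx k ha (by omega))).le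
    | succ m ih =>
      intro k ha hb
      have i1 := ih k ha (by omega)
      have e := qconv_s_mul (hx (k + m + 1) (by omega) (by omega))
      have s1 := hs (k + m) (by omega) (by omega)
      have x1 := hxx (m + 1) k ha (by omega)
      have q1 : k + (m + 1) = k + m + 1 := by omega
      rw [q1] at x1 ⊢
      have : 0 ≤ (qconv_s P (k + m) - qconv_s P (k + m + 1)) * ((P k).1 - (P (k + m + 1)).1) :=
        mul_nonneg (by linarith) (by linarith)
      linarith
  -- the second estimate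
  have h2 : ∀ m k, a ≤ k → k + m + 1 ≤ b →
      (P k).2 - (P (k + m + 1)).2 ≤ qconv_s P k * ((P k).1 - (P (k + m + 1)).1) := by
    intro m
    induction m with
    | zero =>
      intro k ha hb
      exact (qconv_s_mul (hx k ha (by omega))).ge
    | succ m ih =>
      intro k ha hb
      have i1 := ih k ha (by omega)
      have e := qconv_s_mul (hx (k + m + 1) (by omega) (by omega))
      have s1 := hss (m + 1) k ha (by omega)
      have x1 := hx (k + m + 1) (by omega) (by omega)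
      have q1 : k + (m + 1) = k + m + 1 := by omega
      rw [q1] at s1 ⊢
      have : 0 ≤ (qconv_s P k - qconv_s P (k + m + 1)) *
          ((P (k + m + 1)).1 - (P (k + m + 1 + 1)).1) :=
        mul_nonneg (by linarith) (by linarith)
      linarith
  obtain ⟨m, rfl⟩ : ∃ m, j = i + m + 1 := ⟨j - i - 1, by omega⟩
  obtain ⟨m', rfl⟩ : ∃ m', l = (i + m + 1) + m' + 1 := ⟨l - (i + m + 1) - 1, by omega⟩
  have a1 := h1 m i hi (by omega)
  have a2 := h2 m' (i + m + 1) (by omega) (by omega)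
  have a3 := hs (i + m) (by omega) (by omega)
  have x1 : (P (i + m + 1)).1 < (P i).1 :=
    lt_of_lt_of_le (hx (i + m) (by omega) (by omega)) (hxx m i hi (by omega))
  have x2 : (P (i + m + 1 + m' + 1)).1 < (P (i + m + 1)).1 :=
    lt_of_lt_of_le (hx (i + m + 1 + m') (by omega) (by omega))
      (hxx m' (i + m + 1) (by omega) (by omega))
  unfold orient
  set xi := (P i).1
  set yi := (P i).2
  set xj := (P (i + m + 1)).1
  set yj := (P (i + m + 1)).2
  set xl := (P (i + m + 1 + m' + 1)).1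
  set yl := (P (i + m + 1 + m' + 1)).2
  set s := qconv_s P (i + m)
  set t := qconv_s P (i + m + 1)
  have p1 : 0 < xi - xj := by linarith
  have p2 : 0 < xj - xl := by linarith
  have q1 : 0 ≤ (xj - xl) * ((yi - yj) - s * (xi - xj)) := mul_nonneg p2.le (by linarith)
  have q2 : 0 ≤ (xi - xj) * (t * (xj - xl) - (yj - yl)) := mul_nonneg p1.le (by linarith)
  have q3 : 0 < (s - t) * ((xi - xj) * (xj - xl)) := mul_pos (by linarith) (mul_pos p1 p2)
  nlinarith

theorem qconv_fst (D : ℝ) (i : ℕ) (U V : ℝ) : (fQ D i U V).1 = 16 * (U + i + 6) := rfl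

/-- the vertices of the chain -/
theorem qconv_cases (i : Fin (nV N)) (h : N + 1 ≤ i.val) :
    i = vp N N ∨
    i = vE N ∨ (∃ j ≤ N, i = vH N j) ∨ (∃ j < N, i = vG N j) ∨ (∃ j < N, i = vF N j) ∨
    (∃ j < N, i = vT N j) ∨ (∃ j < N, i = vC N j) ∨ (∃ j < N, i = vA N j) := by
  rcases v_cases i with hi | ⟨j, hj, hi⟩ | hi | hi | hi | hi | hi | hi | hi
  · rw [hi, vB_val] at h; omega
  · rw [hi, vp_val hj] at h
    have : j = N := by omega
    subst this
    exact Or.inl hi
  · exact Or.inr (Or.inl hi)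
  · exact Or.inr (Or.inr (Or.inl hi))
  · exact Or.inr (Or.inr (Or.inr (Or.inl hi)))
  · exact Or.inr (Or.inr (Or.inr (Or.inr (Or.inl hi))))
  · exact Or.inr (Or.inr (Or.inr (Or.inr (Or.inr (Or.inl hi)))))
  · exact Or.inr (Or.inr (Or.inr (Or.inr (Or.inr (Or.inr (Or.inl hi))))))
  · exact Or.inr (Or.inr (Or.inr (Or.inr (Or.inr (Or.inr (Or.inr hi))))))

/-- consecutive vertices of the chain have decreasing first coordinates -/
theorem qconv_x (h : GQ N D b ψ γ) (u : Fin (nV N)) (h1 : N + 1 ≤ u.val)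
    (h2 : u.val < 7 * N + 3) : (QQ N D b ψ γ (nx u)).1 < (QQ N D b ψ γ u).1 := by
  rcases qconv_cases u h1 with rfl | rfl | ⟨j, hj, rfl⟩ | ⟨j, hj, rfl⟩ | ⟨j, hj, rfl⟩ |
      ⟨j, hj, rfl⟩ | ⟨j, hj, rfl⟩ | ⟨j, hj, rfl⟩
  · rw [nx_pN, QQ_p le_rfl, QQ_E]; simp only [qconv_fst]; linarith
  · rw [nx_E, QQ_H le_rfl, QQ_E]; simp only [qconv_fst]; linarith
  · rcases Nat.eq_zero_or_pos j with h0 | hpos
    · subst h0; rw [vH_val (by omega)] at h2; omega
    · obtain ⟨k, rfl⟩ : ∃ k, j = k + 1 := ⟨j - 1, by omega⟩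
      rw [nx_H (by omega), QQ_G (by omega), QQ_H (by omega)]
      simp only [qconv_fst]; linarith
  · rw [nx_G hj, QQ_G hj, QQ_F hj]; simp only [qconv_fst]; linarith
  · rw [nx_F hj, QQ_F hj, QQ_T hj]; simp only [qconv_fst]; push_cast; linarith
  · rw [nx_T hj, QQ_T hj, QQ_C hj]; simp only [qconv_fst]; linarith
  · rw [nx_C hj, QQ_C hj, QQ_A hj]; simp only [qconv_fst]; linarith
  · rw [nx_A hj, QQ_A hj, QQ_H (by omega)]; simp only [qconv_fst]; linarith

/-- consecutive left turns -/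
theorem qconv_turn (h : GQ N D b ψ γ) (u : Fin (nV N)) (h1 : N + 1 ≤ u.val)
    (h2 : u.val + 1 < 7 * N + 3) :
    0 < orient (QQ N D b ψ γ (nx (nx u))) (QQ N D b ψ γ (nx u)) (QQ N D b ψ γ u) := by
  have hD := h.hD
  have hb := mul_pos h.hD h.b0
  have hb1 : 0 ≤ D * (1 / 1000 - b) := mul_nonneg h.hD.le (by linarith [h.b1])
  have hp := mul_nonneg h.hD.le h.p0
  have hp1 : 0 ≤ D * (1 / 1000 - ψ) := mul_nonneg h.hD.le (by linarith [h.p1])
  have hg : ∀ i, 0 ≤ D * γ i := fun i => mul_nonneg h.hD.le (h.g0 i)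
  have hg1 : ∀ i, 0 ≤ D * (1 / 1000 - γ i) := fun i =>
    mul_nonneg h.hD.le (by linarith [h.g1 i])
  have hN := h.hN
  rcases qconv_cases u h1 with rfl | rfl | ⟨j, hj, rfl⟩ | ⟨j, hj, rfl⟩ | ⟨j, hj, rfl⟩ |
      ⟨j, hj, rfl⟩ | ⟨j, hj, rfl⟩ | ⟨j, hj, rfl⟩
  · rw [nx_pN, nx_E, QQ_p le_rfl, QQ_E, QQ_H le_rfl, orient_fQ]
    nlinarith
  · obtain ⟨k, hk⟩ : ∃ k, N = k + 1 := ⟨N - 1, by omega⟩
    rw [nx_E]
    have e : nx (vH N N) = vG N k := by
      have := nx_H (N := N) (i := k) (by omega)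
      rwa [← hk] at this
    have e2 : (QQ N D b ψ γ (vG N k)) = fQ D N (-15 / 4) (105 / 4 + b) := by
      rw [QQ_G (by omega), ← hk]
    rw [e, e2, QQ_E, QQ_H le_rfl, orient_fQ]
    nlinarith
  · rcases Nat.eq_zero_or_pos j with h0 | hpos
    · subst h0; rw [vH_val (by omega)] at h2; omega
    · obtain ⟨k, rfl⟩ : ∃ k, j = k + 1 := ⟨j - 1, by omega⟩
      rw [nx_H (by omega), nx_G (by omega), QQ_G (by omega), QQ_H (by omega), QQ_F (by omega),
        orient_fQ]
      have := hg k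
      have := hg1 k
      nlinarith
  · rw [nx_G hj, nx_F hj, QQ_G hj, QQ_F hj, QQ_T hj, fQ_frame D (j + 1) j, orient_fQ]
    push_cast
    have := hg j
    have := hg1 j
    nlinarith
  · rw [nx_F hj, nx_T hj, QQ_C hj, QQ_F hj, QQ_T hj, fQ_frame D (j + 1) j,
      fQ_frame D (j + 1) j (-49 / 16), orient_fQ]
    push_cast
    have := hg j
    have := hg1 j
    nlinarith
  · rw [nx_T hj, nx_C hj, QQ_C hj, QQ_A hj, QQ_T hj, orient_fQ]
    nlinarith
  · rw [nx_C hj, nx_A hj, QQ_C hj, QQ_A hj, QQ_H (by omega), orient_fQ]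
    nlinarith
  · rcases Nat.eq_zero_or_pos j with h0 | hpos
    · subst h0; rw [vA_val (by omega)] at h2; omega
    · obtain ⟨k, rfl⟩ : ∃ k, j = k + 1 := ⟨j - 1, by omega⟩
      rw [nx_A hj, nx_H (by omega), QQ_A hj, QQ_G (by omega), QQ_H (by omega), orient_fQ]
      nlinarith

/-- The vertices with numbers `N + 1` (the vertex `vp N N`), `N + 2` (`vE`), ..., `7 N + 3`
(`vH 0`) form, from right to left, a strictly convex chain. -/
theorem QQ_conv (h : GQ N D b ψ γ) {u v w : Fin (nV N)} (h1 : N + 1 ≤ u.val) (h2 : u < v)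
    (h3 : v < w) : 0 < orient (QQ N D b ψ γ w) (QQ N D b ψ γ v) (QQ N D b ψ γ u) := by
  have key := qconv_chain (fun k => QQ N D b ψ γ (lb N k)) (N + 1) (7 * N + 3)
    (fun k ha hb => by
      have hv : (lb N k).val = k := lb_val (by omega)
      have e : lb N (k + 1) = nx (lb N k) := by
        apply Fin.ext
        rw [nxV_val _ (by rw [hv]; omega), hv, lb_val (by omega)]
      show (QQ N D b ψ γ (lb N (k + 1))).1 < (QQ N D b ψ γ (lb N k)).1
      rw [e]
      exact qconv_x h _ (by rw [hv]; exact ha) (by rw [hv]; omega))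
    (fun k ha hb => by
      have hv : (lb N k).val = k := lb_val (by omega)
      have hv' : (lb N (k + 1)).val = k + 1 := lb_val (by omega)
      have e : lb N (k + 1) = nx (lb N k) := by
        apply Fin.ext
        rw [nxV_val _ (by rw [hv]; omega), hv, lb_val (by omega)]
      have e' : lb N (k + 2) = nx (lb N (k + 1)) := by
        apply Fin.ext
        rw [nxV_val _ (by rw [hv']; omega), hv', lb_val (by omega)]
      show 0 < orient (QQ N D b ψ γ (lb N (k + 2))) (QQ N D b ψ γ (lb N (k + 1)))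
        (QQ N D b ψ γ (lb N k))
      rw [e', e]
      exact qconv_turn h _ (by rw [hv]; exact ha) (by rw [hv]; omega))
    h1 (Fin.lt_def.mp h2) (Fin.lt_def.mp h3) (by have := w.isLt; unfold nV at this; omega)
  have hu : lb N u.val = u := Fin.ext (lb_val u.isLt)
  have hv : lb N v.val = v := Fin.ext (lb_val v.isLt)
  have hw : lb N w.val = w := Fin.ext (lb_val w.isLt)
  simpa only [hu, hv, hw] using key

theorem qconv_tan_aux {j l : ℕ} {U0 V0 : ℝ} (hU1 : -31 / 8 ≤ U0) (hU2 : U0 ≤ -49 / 16)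
    (hV : -7 * U0 ≤ V0) (hx : (fQ D l U0 V0).1 ≤ (fQ D j (-7 / 2) (49 / 2)).1) :
    ∃ U V, fQ D l U0 V0 = fQ D j U V ∧ U ≤ -7 / 2 ∧ -7 * U ≤ V := by
  simp only [qconv_fst] at hx
  refine ⟨_, _, fQ_frame D j l U0 V0, by linarith, ?_⟩
  rcases lt_trichotomy l j with hlt | he | hlt
  · have hd : (l : ℝ) + 1 ≤ j := by exact_mod_cast hlt
    have h1 : 0 ≤ ((j : ℝ) - l - 1) * ((j : ℝ) - l) := mul_nonneg (by linarith) (by linarith)
    have h2 : 0 ≤ ((j : ℝ) - l) * (-6 - 2 * U0) := mul_nonneg (by linarith) (by linarith)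
    nlinarith
  · subst he
    simp only [sub_self, mul_zero, zero_mul, add_zero]
    have : (0 : ℝ) ^ 2 = 0 := by norm_num
    rw [this]; linarith
  · exfalso
    have hd : (j : ℝ) + 1 ≤ l := by exact_mod_cast hlt
    linarith

/-- Every ceiling vertex (kinds `H G F T C A`) which is not to the right of `vH j` is weakly above
the line `V = -7 U` of the `j`-th frame. -/
theorem QQ_tan (h : GQ N D b ψ γ) {j : ℕ} (hj : j ≤ N) {v : Fin (nV N)} (hv : N + 3 ≤ v.val)
    (hx : (QQ N D b ψ γ v).1 ≤ (QQ N D b ψ γ (vH N j)).1) :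
    ∃ U V, QQ N D b ψ γ v = fQ D j U V ∧ U ≤ -7 / 2 ∧ -7 * U ≤ V := by
  rw [QQ_H hj] at hx
  rcases qconv_cases v (by omega) with rfl | rfl | ⟨l, hl, rfl⟩ | ⟨l, hl, rfl⟩ | ⟨l, hl, rfl⟩ |
      ⟨l, hl, rfl⟩ | ⟨l, hl, rfl⟩ | ⟨l, hl, rfl⟩
  · rw [vp_val le_rfl] at hv; omega
  · rw [vE_val] at hv; omega
  · rw [QQ_H hl] at hx ⊢
    exact qconv_tan_aux (by norm_num) (by norm_num) (by norm_num) hx
  · rw [QQ_G hl] at hx ⊢
    exact qconv_tan_aux (by norm_num) (by norm_num) (by linarith [h.b0]) hx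
  · rw [QQ_F hl] at hx ⊢
    exact qconv_tan_aux (by norm_num) (by norm_num) (by linarith [h.b0, h.g0 l]) hx
  · rw [QQ_T hl] at hx ⊢
    exact qconv_tan_aux (by norm_num) (by norm_num) (by norm_num) hx
  · rw [QQ_C hl] at hx ⊢
    exact qconv_tan_aux (by norm_num) (by norm_num) (by norm_num) hx
  · rw [QQ_A hl] at hx ⊢
    exact qconv_tan_aux (by norm_num) (by norm_num) (by norm_num) hx

end Pool.Agent.Lib57.CT
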