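import Mathlib
import Pool.Agent.Lib_helper57.CT.Geo
import Pool.Agent.Lib_helper57.CT.MonoDef

/-! BLOCK QMONO: the second polygon is `x`-monotone. -/

namespace Pool.Agent.Lib57.CT

variable {N : ℕ} {D b ψ : ℝ} {γ : ℕ → ℝ}

/-- the point at height `f` above the parabola -/
noncomputable def qmono_pt (D ξ f : ℝ) : Pt := fQ D 0 ξ (f + ξ ^ 2)

lemma qmono_fQ (D : ℝ) (l : ℕ) (U V : ℝ) : fQ D l U V = qmono_pt D (U + l) (V - U ^ 2) := by
  unfold qmono_pt fQ
  ext <;> push_cast <;> ring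

lemma qmono_lt {ξ f ξ' f' : ℝ} : (qmono_pt D ξ f).1 < (qmono_pt D ξ' f').1 ↔ ξ < ξ' := by
  unfold qmono_pt; exact fQ_lt

lemma qmono_le {ξ f ξ' f' : ℝ} : (qmono_pt D ξ f).1 ≤ (qmono_pt D ξ' f').1 ↔ ξ ≤ ξ' := by
  unfold qmono_pt; exact fQ_le

lemma qmono_orient (D x1 f1 x2 f2 x3 f3 : ℝ) :
    orient (qmono_pt D x1 f1) (qmono_pt D x2 f2) (qmono_pt D x3 f3) =
      16 * D * ((x2 - x1) * (f3 - f1) - (f2 - f1) * (x3 - x1) +
        (x2 - x1) * (x3 - x1) * (x3 - x2)) := by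
  unfold qmono_pt
  rw [orient_fQ]
  ring

/-- lower edges -/
lemma qmono_lowv {v : Fin (nV N)} (h : v.val < N + 1) : v = vB N ∨ ∃ j < N, v = vp N j := by
  rcases v_cases v with h1 | ⟨j, hj, h1⟩ | h1 | ⟨j, hj, h1⟩ | ⟨j, hj, h1⟩ | ⟨j, hj, h1⟩ |
    ⟨j, hj, h1⟩ | ⟨j, hj, h1⟩ | ⟨j, hj, h1⟩
  · exact Or.inl h1
  · right
    refine ⟨j, ?_, h1⟩
    rw [h1, vp_val hj] at h
    omega
  · rw [h1, vE_val] at h; omega
  · rw [h1, vH_val hj] at h; omega
  · rw [h1, vG_val hj] at h; omega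
  · rw [h1, vF_val hj] at h; omega
  · rw [h1, vT_val hj] at h; omega
  · rw [h1, vC_val hj] at h; omega
  · rw [h1, vA_val hj] at h; omega

/-- coordinates of the vertices -/
lemma qmono_B : QQ N D b ψ γ (vB N) = qmono_pt D (-5) (-20) := by
  rw [QQ_B, qmono_fQ]; congr 1 <;> norm_num
lemma qmono_p {j : ℕ} (h : j ≤ N) : QQ N D b ψ γ (vp N j) = qmono_pt D (3 + j) (-12) := by
  rw [QQ_p h, qmono_fQ]; congr 1; norm_num
lemma qmono_E : QQ N D b ψ γ (vE N) = qmono_pt D (1 / 4 + N) (-5 / 16 + 11 / 4 * ψ) := by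
  rw [QQ_E, qmono_fQ]; congr 1; ring
lemma qmono_H {j : ℕ} (h : j ≤ N) : QQ N D b ψ γ (vH N j) = qmono_pt D (-7 / 2 + j) (49 / 4) := by
  rw [QQ_H h, qmono_fQ]; congr 1; norm_num
lemma qmono_G {i : ℕ} (h : i < N) :
    QQ N D b ψ γ (vG N i) = qmono_pt D (-11 / 4 + i) (195 / 16 + b) := by
  rw [QQ_G h, qmono_fQ]; congr 1 <;> push_cast <;> ring
lemma qmono_F {i : ℕ} (h : i < N) :
    QQ N D b ψ γ (vF N i) = qmono_pt D (-23 / 8 + i) (775 / 64 + 2 * b + γ i) := by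
  rw [QQ_F h, qmono_fQ]; congr 1 <;> push_cast <;> ring
lemma qmono_T {i : ℕ} (h : i < N) :
    QQ N D b ψ γ (vT N i) = qmono_pt D (-49 / 16 + i) (3095 / 256) := by
  rw [QQ_T h, qmono_fQ]; congr 1; norm_num
lemma qmono_C {i : ℕ} (h : i < N) :
    QQ N D b ψ γ (vC N i) = qmono_pt D (-25 / 8 + i) (1551 / 128) := by
  rw [QQ_C h, qmono_fQ]; congr 1; norm_num
lemma qmono_A {i : ℕ} (h : i < N) :
    QQ N D b ψ γ (vA N i) = qmono_pt D (-13 / 4 + i) (195 / 16) := by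
  rw [QQ_A h, qmono_fQ]; congr 1; norm_num

/-- the upper edges: coordinates of both ends; `f1, f2` are large unless the edge is the first
or the last one -/
lemma qmono_upE (h : GQ N D b ψ γ) {v : Fin (nV N)} (hv : N + 1 ≤ v.val) :
    ∃ x1 f1 x2 f2, QQ N D b ψ γ v = qmono_pt D x1 f1 ∧ QQ N D b ψ γ (nx v) = qmono_pt D x2 f2 ∧
      x2 < x1 ∧ ((x1 = 3 + N ∧ f1 = -12 ∧ -1 ≤ f2) ∨ x1 ≤ -7 / 2 ∨ (-1 ≤ f1 ∧ -1 ≤ f2)) := by
  have hb := h.b0
  have hp := h.p0
  have hg := h.g0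
  rcases v_cases v with h1 | ⟨j, hj, h1⟩ | h1 | ⟨j, hj, h1⟩ | ⟨j, hj, h1⟩ | ⟨j, hj, h1⟩ |
    ⟨j, hj, h1⟩ | ⟨j, hj, h1⟩ | ⟨j, hj, h1⟩
  · rw [h1, vB_val] at hv; omega
  · rw [h1, vp_val hj] at hv
    have : j = N := by omega
    subst this
    subst h1
    refine ⟨_, _, _, _, qmono_p le_rfl, by rw [nx_pN]; exact qmono_E, by linarith,
      Or.inl ⟨rfl, rfl, by linarith⟩⟩
  · subst h1
    exact ⟨_, _, _, _, qmono_E, by rw [nx_E]; exact qmono_H le_rfl, by linarith,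
      Or.inr (Or.inr ⟨by linarith, by norm_num⟩)⟩
  · subst h1
    rcases j with _ | j
    · exact ⟨_, _, _, _, qmono_H hj, by rw [nx_H0]; exact qmono_B, by norm_num,
        Or.inr (Or.inl (by norm_num))⟩
    · exact ⟨_, _, _, _, qmono_H hj, by rw [nx_H (by omega)]; exact qmono_G (by omega),
        by push_cast; linarith, Or.inr (Or.inr ⟨by norm_num, by linarith⟩)⟩
  · subst h1
    have := hg j
    exact ⟨_, _, _, _, qmono_G hj, by rw [nx_G hj]; exact qmono_F hj, by linarith,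
      Or.inr (Or.inr ⟨by linarith, by linarith⟩)⟩
  · subst h1
    have := hg j
    exact ⟨_, _, _, _, qmono_F hj, by rw [nx_F hj]; exact qmono_T hj, by linarith,
      Or.inr (Or.inr ⟨by linarith, by norm_num⟩)⟩
  · subst h1
    exact ⟨_, _, _, _, qmono_T hj, by rw [nx_T hj]; exact qmono_C hj, by linarith,
      Or.inr (Or.inr ⟨by norm_num, by norm_num⟩)⟩
  · subst h1
    exact ⟨_, _, _, _, qmono_C hj, by rw [nx_C hj]; exact qmono_A hj, by linarith,
      Or.inr (Or.inr ⟨by norm_num, by norm_num⟩)⟩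
  · subst h1
    exact ⟨_, _, _, _, qmono_A hj, by rw [nx_A hj]; exact qmono_H (by omega), by linarith,
      Or.inr (Or.inr ⟨by norm_num, by norm_num⟩)⟩

/-- the upper vertices -/
lemma qmono_upv (h : GQ N D b ψ γ) {v : Fin (nV N)} (hv : N + 1 < v.val) :
    ∃ x f, QQ N D b ψ γ v = qmono_pt D x f ∧ -1 / 2 ≤ f ∧ (1 ≤ x ∨ 1 ≤ f) := by
  have hb := h.b0
  have hp := h.p0
  have hg := h.g0
  have hN : (1 : ℝ) ≤ N := by exact_mod_cast h.hN
  rcases v_cases v with h1 | ⟨j, hj, h1⟩ | h1 | ⟨j, hj, h1⟩ | ⟨j, hj, h1⟩ | ⟨j, hj, h1⟩ |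
    ⟨j, hj, h1⟩ | ⟨j, hj, h1⟩ | ⟨j, hj, h1⟩
  · rw [h1, vB_val] at hv; omega
  · rw [h1, vp_val hj] at hv; omega
  · subst h1
    exact ⟨_, _, qmono_E, by linarith, Or.inl (by linarith)⟩
  · subst h1
    exact ⟨_, _, qmono_H hj, by norm_num, Or.inr (by norm_num)⟩
  · subst h1
    exact ⟨_, _, qmono_G hj, by linarith, Or.inr (by linarith)⟩
  · subst h1
    have := hg j
    exact ⟨_, _, qmono_F hj, by linarith, Or.inr (by linarith)⟩
  · subst h1
    exact ⟨_, _, qmono_T hj, by norm_num, Or.inr (by norm_num)⟩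
  · subst h1
    exact ⟨_, _, qmono_C hj, by norm_num, Or.inr (by norm_num)⟩
  · subst h1
    exact ⟨_, _, qmono_A hj, by norm_num, Or.inr (by norm_num)⟩

theorem QQ_mono (h : GQ N D b ψ γ) : Mono (QQ N D b ψ γ) (N + 1) := by
  have hN := h.hN
  have hD := h.hD
  refine ⟨by show 3 ≤ 7 * N + 4; omega, by omega, by show N + 1 < 7 * N + 4; omega, ?_, ?_, ?_, ?_⟩
  · intro i hi
    rcases qmono_lowv hi with h1 | ⟨j, hj, h1⟩
    · subst h1
      rw [nx_B, qmono_B, qmono_p (by omega), qmono_lt]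
      norm_num
    · subst h1
      rw [nx_p hj, qmono_p (by omega), qmono_p (by omega), qmono_lt]
      push_cast
      linarith
  · intro i hi
    obtain ⟨x1, f1, x2, f2, e1, e2, e3, _⟩ := qmono_upE h hi
    rw [e1, e2, qmono_lt]
    exact e3
  · intro i j hi hj h1 h2
    obtain ⟨x, f, e1, e2, e3⟩ := qmono_upv h hj
    rcases qmono_lowv hi with h3 | ⟨k, hk, h3⟩
    · subst h3
      rw [e1, nx_B, qmono_B, qmono_p (by omega)] at *
      rw [qmono_orient]
      rw [qmono_le] at h1 h2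
      apply mul_pos (by positivity)
      have e4 : (3 + ((0 : ℕ) : ℝ) - -5) * (f - -20) - (-12 - -20) * (x - -5) +
          (3 + ((0 : ℕ) : ℝ) - -5) * (x - -5) * (x - (3 + ((0 : ℕ) : ℝ))) =
          8 * (f + x ^ 2 + x) := by push_cast; ring
      rw [e4]
      rcases e3 with e3 | e3
      · nlinarith
      · nlinarith [sq_nonneg (x + 1 / 2)]
    · subst h3
      rw [e1, nx_p hk, qmono_p (by omega), qmono_p (by omega)] at *
      rw [qmono_orient]
      rw [qmono_le] at h1 h2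
      apply mul_pos (by positivity)
      push_cast at h1 h2 ⊢
      nlinarith [sq_nonneg (x - 3 - k - 1 / 2)]
  · intro i j hi hj0 hj h1 h2
    obtain ⟨x1, f1, x2, f2, e1, e2, e3, e4⟩ := qmono_upE h hi
    rcases qmono_lowv hj with h3 | ⟨k, hk, h3⟩
    · rw [h3, vB_val] at hj0; omega
    · subst h3
      rw [e1, e2, qmono_p (by omega)] at *
      rw [qmono_orient]
      rw [qmono_le] at h1 h2
      apply mul_pos (by positivity)
      have hkN : (k : ℝ) + 1 ≤ N := by exact_mod_cast hk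
      have hk0 : (0 : ℝ) ≤ k := Nat.cast_nonneg k
      set x3 : ℝ := 3 + k with hx3
      have e5 : (x2 - x1) * (-12 - f1) - (f2 - f1) * (x3 - x1) + (x2 - x1) * (x3 - x1) * (x3 - x2)
          = (x3 - x2) * (f1 + 12) + (x1 - x3) * (f2 + 12) +
            (x1 - x2) * ((x1 - x3) * (x3 - x2)) := by ring
      rw [e5]
      have e6 : 0 ≤ (x1 - x2) * ((x1 - x3) * (x3 - x2)) :=
        mul_nonneg (by linarith) (mul_nonneg (by linarith) (by linarith))
      rcases e4 with ⟨a1, a2, a3⟩ | a1 | ⟨a1, a2⟩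
      · have : 0 < (x1 - x3) * (f2 + 12) := mul_pos (by linarith) (by linarith)
        rw [a2]
        linarith
      · linarith
      · rcases eq_or_lt_of_le h2 with h4 | h4
        · have : 0 < (x3 - x2) * (f1 + 12) := mul_pos (by linarith) (by linarith)
          rw [h4] at *
          nlinarith
        · have : 0 < (x1 - x3) * (f2 + 12) := mul_pos (by linarith) (by linarith)
          have : 0 ≤ (x3 - x2) * (f1 + 12) := mul_nonneg (by linarith) (by linarith)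
          linarith

end Pool.Agent.Lib57.CT
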