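import Mathlib
import Pool.Agent.Lib_helper57.CT.PMono
import Pool.Agent.Lib_helper57.CT.QMono
import Pool.Agent.Lib_helper57.CT.QConv
import Pool.Agent.Lib_helper57.CT.MonoCross

/-! BLOCK CHORD: no two non-adjacent vertices see each other in both polygons. -/

namespace Pool.Agent.Lib57.CT

variable {N : ℕ} {D w : ℝ} {δ : ℕ → ℝ} {D' b ψ : ℝ} {γ : ℕ → ℝ}

/-- `B` sees no vertex of `P` to the right of `F_0` -/
theorem chord_B1 (hP : GP N D w δ) {v : Fin (nV N)} {X Y : ℝ} (hv : PP N D w δ v = fP D 0 X Y)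
    (hX : 1 / 64 ≤ X) (h1 : segment ℝ (PP N D w δ (vB N)) (PP N D w δ v) ⊆ region (PP N D w δ)) :
    False := by
  have hN := hP.hN
  have hD := hP.hD
  have hM := PP_mono hP
  rw [hv, PP_B] at h1
  have hab : (fP D 0 (-2) (-1)).1 < (fP D 0 X Y).1 := fP_lt.2 (by linarith)
  have e1 := hM.seg_low h1 hab (j := vp N 0) (by rw [vp_val (by omega)]; omega)
    (by rw [PP_p (by omega)]; exact fP_le.2 (by norm_num))
    (by rw [PP_p (by omega)]; exact fP_le.2 (by linarith))
  have e2 := hM.seg_up h1 hab (j := vF N 0) (Or.inl (by rw [vF_val (by omega)]; omega))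
    (by rw [PP_F (by omega)]; exact fP_le.2 (by norm_num))
    (by rw [PP_F (by omega)]; exact fP_le.2 hX)
  rw [PP_p (by omega), orient_fP] at e1
  rw [PP_F (by omega), orient_fP] at e2
  have hd := hP.d0 0
  have e1' : (X - -2) * (0 - -1) - (Y - -1) * (-1 - -2) ≤ 0 := by
    by_contra hcon
    push Not at hcon
    have := mul_pos (by positivity : (0 : ℝ) < 64 * D) hcon
    linarith
  have e2' : 0 ≤ (X - -2) * (1 - δ 0 - -1) - (Y - -1) * (1 / 64 - -2) := by
    by_contra hcon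
    push Not at hcon
    have := mul_neg_of_pos_of_neg (by positivity : (0 : ℝ) < 64 * D) hcon
    linarith
  nlinarith [mul_nonneg (by linarith : (0 : ℝ) ≤ X + 2) hd]

/-- `B` sees no vertex of `P` strictly above the line through `B` and `H_0` -/
theorem chord_B2 (hP : GP N D w δ) {v : Fin (nV N)} {X Y : ℝ} (hv : PP N D w δ v = fP D 0 X Y)
    (hX : -7 / 8 ≤ X) (hY : 37 / 36 * (X + 2) < Y + 1)
    (h1 : segment ℝ (PP N D w δ (vB N)) (PP N D w δ v) ⊆ region (PP N D w δ)) :
    False := by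
  have hN := hP.hN
  have hD := hP.hD
  have hM := PP_mono hP
  rw [hv, PP_B] at h1
  have hab : (fP D 0 (-2) (-1)).1 < (fP D 0 X Y).1 := fP_lt.2 (by linarith)
  have e2 := hM.seg_up h1 hab (j := vH N 0) (Or.inl (by rw [vH_val (by omega)]; omega))
    (by rw [PP_H (by omega)]; exact fP_le.2 (by norm_num))
    (by rw [PP_H (by omega)]; exact fP_le.2 hX)
  rw [PP_H (by omega), orient_fP] at e2
  have e2' : 0 ≤ (X - -2) * (5 / 32 - -1) - (Y - -1) * (-7 / 8 - -2) := by
    by_contra hcon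
    push Not at hcon
    have := mul_neg_of_pos_of_neg (by positivity : (0 : ℝ) < 64 * D) hcon
    linarith
  linarith

/-- `p_j` sees no vertex of `P` to the right of `H_{j+1}` -/
theorem chord_pR (hP : GP N D w δ) {j : ℕ} (hj : j < N) {v : Fin (nV N)} {X Y : ℝ}
    (hv : PP N D w δ v = fP D j X Y) (hX : 9 / 8 ≤ X)
    (h1 : segment ℝ (PP N D w δ (vp N j)) (PP N D w δ v) ⊆ region (PP N D w δ)) :
    False := by
  have hD := hP.hD
  have hM := PP_mono hP
  rw [hv, PP_p (by omega)] at h1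
  have hp : PP N D w δ (vp N (j + 1)) = fP D j 1 0 := by
    rw [PP_p (by omega), fP_frame D j (j + 1)]
    congr 1 <;> push_cast <;> ring
  have hH : PP N D w δ (vH N (j + 1)) = fP D j (9 / 8) (-3 / 32) := by
    rw [PP_H (by omega), fP_frame D j (j + 1)]
    congr 1 <;> push_cast <;> ring
  have hab : (fP D j (-1) 0).1 < (fP D j X Y).1 := fP_lt.2 (by linarith)
  have e1 := hM.seg_low h1 hab (j := vp N (j + 1)) (by rw [vp_val (by omega)]; omega)
    (by rw [hp]; exact fP_le.2 (by norm_num))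
    (by rw [hp]; exact fP_le.2 (by linarith))
  have e2 := hM.seg_up h1 hab (j := vH N (j + 1)) (Or.inl (by rw [vH_val (by omega)]; omega))
    (by rw [hH]; exact fP_le.2 (by norm_num))
    (by rw [hH]; exact fP_le.2 hX)
  rw [hp, orient_fP] at e1
  rw [hH, orient_fP] at e2
  have e1' : (X - -1) * (0 - 0) - (Y - 0) * (1 - -1) ≤ 0 := by
    by_contra hcon
    push Not at hcon
    have := mul_pos (by positivity : (0 : ℝ) < 64 * D) hcon
    linarith
  have e2' : 0 ≤ (X - -1) * (-3 / 32 - 0) - (Y - 0) * (9 / 8 - -1) := by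
    by_contra hcon
    push Not at hcon
    have := mul_neg_of_pos_of_neg (by positivity : (0 : ℝ) < 64 * D) hcon
    linarith
  linarith

/-- `p_j` sees no ceiling vertex of `Q` weakly to the left of `G_j` -/
theorem chord_pL (hQ : GQ N D' b ψ γ) {j : ℕ} (hj : j < N) {o : Fin (nV N)} (ho : N + 3 ≤ o.val)
    {U₀ V₀ : ℝ} (hv : QQ N D' b ψ γ o = fQ D' (j + 1) U₀ V₀) (hU : U₀ ≤ -15 / 4)
    (h2 : segment ℝ (QQ N D' b ψ γ o) (QQ N D' b ψ γ (vp N j)) ⊆ region (QQ N D' b ψ γ)) :
    False := by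
  have hD := hQ.hD
  have hM := QQ_mono hQ
  obtain ⟨U, V, hUV, hU', hV⟩ := QQ_tan hQ (j := j + 1) (by omega) ho (by
    rw [hv, QQ_H (by omega)]; exact fQ_le.2 (by linarith))
  have hUe : U ≤ -15 / 4 := by
    have : (fQ D' (j + 1) U V).1 ≤ (fQ D' (j + 1) (-15 / 4) 0).1 := by
      rw [← hUV, hv]; exact fQ_le.2 hU
    exact fQ_le.1 this
  have hp : QQ N D' b ψ γ (vp N j) = fQ D' (j + 1) 2 (-8) := by
    rw [QQ_p (by omega), fQ_frame D' (j + 1) j]
    congr 1 <;> push_cast <;> ring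
  rw [hUV, hp] at h2
  have hab : (fQ D' (j + 1) U V).1 < (fQ D' (j + 1) 2 (-8)).1 := fQ_lt.2 (by linarith)
  rcases Nat.lt_or_ge (j + 1) N with hjN | hjN
  · -- blocked by `A_{j+1}`
    have e2 := hM.seg_up h2 hab (j := vA N (j + 1)) (Or.inl (by rw [vA_val (by omega)]; omega))
      (by rw [QQ_A (by omega)]; exact fQ_le.2 (by linarith))
      (by rw [QQ_A (by omega)]; exact fQ_le.2 (by norm_num))
    rw [QQ_A (by omega), orient_fQ] at e2
    have e2' : 0 ≤ (2 - U) * (91 / 4 - V) - (-8 - V) * (-13 / 4 - U) := by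
      by_contra hcon
      push Not at hcon
      have := mul_neg_of_pos_of_neg (by positivity : (0 : ℝ) < 16 * D') hcon
      linarith
    nlinarith
  · -- blocked by `E`
    have hjN' : N = j + 1 := by omega
    have hE : QQ N D' b ψ γ (vE N) = fQ D' (j + 1) (1 / 4) (-1 / 4 + 11 / 4 * ψ) := by
      rw [QQ_E]; congr 1
    have e2 := hM.seg_up h2 hab (j := vE N) (Or.inl (by rw [vE_val]; omega))
      (by rw [hE]; exact fQ_le.2 (by linarith))
      (by rw [hE]; exact fQ_le.2 (by norm_num))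
    rw [hE, orient_fQ] at e2
    have e2' : 0 ≤ (2 - U) * (-1 / 4 + 11 / 4 * ψ - V) - (-8 - V) * (1 / 4 - U) := by
      by_contra hcon
      push Not at hcon
      have := mul_neg_of_pos_of_neg (by positivity : (0 : ℝ) < 16 * D') hcon
      linarith
    have h3 := hQ.p1
    nlinarith [mul_nonneg (by linarith : (0 : ℝ) ≤ 2 - U) (by linarith : (0 : ℝ) ≤ 1 / 1000 - ψ)]

/-- the room of a ceiling vertex -/
theorem chord_ceil {o : Fin (nV N)} (ho : N + 3 ≤ o.val) : ∃ l ≤ N,
    (∃ X Y, PP N D w δ o = fP D l X Y ∧ -7 / 8 ≤ X) ∧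
    ∃ U V, QQ N D' b ψ γ o = fQ D' (l + 1) U V ∧ U ≤ -15 / 4 := by
  rcases v_cases o with h | ⟨j, hj, h⟩ | h | ⟨j, hj, h⟩ | ⟨j, hj, h⟩ | ⟨j, hj, h⟩ | ⟨j, hj, h⟩ |
    ⟨j, hj, h⟩ | ⟨j, hj, h⟩ <;> subst h
  · rw [vB_val] at ho; omega
  · rw [vp_val hj] at ho; omega
  · rw [vE_val] at ho; omega
  · refine ⟨j, hj, ⟨_, _, PP_H hj, by norm_num⟩, ?_⟩
    rw [QQ_H hj, fQ_frame D' (j + 1) j]
    exact ⟨_, _, rfl, by push_cast; linarith⟩
  · refine ⟨j, hj.le, ⟨_, _, PP_G hj, by norm_num⟩, ?_⟩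
    exact ⟨_, _, QQ_G hj, by norm_num⟩
  · refine ⟨j, hj.le, ⟨_, _, PP_F hj, by norm_num⟩, ?_⟩
    exact ⟨_, _, QQ_F hj, by norm_num⟩
  · refine ⟨j, hj.le, ⟨_, _, PP_T hj, by norm_num⟩, ?_⟩
    rw [QQ_T hj, fQ_frame D' (j + 1) j]
    exact ⟨_, _, rfl, by push_cast; linarith⟩
  · refine ⟨j, hj.le, ⟨_, _, PP_C hj, by norm_num⟩, ?_⟩
    rw [QQ_C hj, fQ_frame D' (j + 1) j]
    exact ⟨_, _, rfl, by push_cast; linarith⟩
  · refine ⟨j, hj.le, ⟨_, _, PP_A hj, by norm_num⟩, ?_⟩
    rw [QQ_A hj, fQ_frame D' (j + 1) j]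
    exact ⟨_, _, rfl, by push_cast; linarith⟩

/-- `B` and another vertex -/
theorem chord_Bv (hP : GP N D w δ) (v : Fin (nV N))
    (h1 : segment ℝ (PP N D w δ (vB N)) (PP N D w δ v) ⊆ region (PP N D w δ)) :
    v = vB N ∨ v = nx (vB N) ∨ vB N = nx v := by
  have hN := hP.hN
  rcases v_cases v with h | ⟨j, hj, h⟩ | h | ⟨j, hj, h⟩ | ⟨j, hj, h⟩ | ⟨j, hj, h⟩ | ⟨j, hj, h⟩ |
    ⟨j, hj, h⟩ | ⟨j, hj, h⟩
  · exact Or.inl h
  · rcases Nat.eq_zero_or_pos j with h0 | h0
    · subst h0; right; left; rw [h, nx_B]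
    · exfalso
      subst h
      have hj1 : (1 : ℝ) ≤ j := by exact_mod_cast h0
      refine chord_B1 hP (X := _) (Y := _) (by rw [PP_p hj]; exact fP_frame D 0 j _ _) ?_ h1
      push_cast; linarith
  · exfalso
    subst h
    have hN1 : (1 : ℝ) ≤ N := by exact_mod_cast hN
    refine chord_B1 hP (X := _) (Y := _) (by rw [PP_E]; exact fP_frame D 0 N _ _) ?_ h1
    push_cast; linarith
  · rcases Nat.eq_zero_or_pos j with h0 | h0
    · subst h0; right; right; rw [h, nx_H0]
    · exfalso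
      subst h
      have hj1 : (1 : ℝ) ≤ j := by exact_mod_cast h0
      refine chord_B1 hP (X := _) (Y := _) (by rw [PP_H hj]; exact fP_frame D 0 j _ _) ?_ h1
      push_cast; linarith
  · exfalso
    subst h
    have hj1 : (0 : ℝ) ≤ j := Nat.cast_nonneg j
    refine chord_B1 hP (X := _) (Y := _) (by rw [PP_G hj]; exact fP_frame D 0 j _ _) ?_ h1
    push_cast; linarith
  · exfalso
    subst h
    have hj1 : (0 : ℝ) ≤ j := Nat.cast_nonneg j
    refine chord_B1 hP (X := _) (Y := _) (by rw [PP_F hj]; exact fP_frame D 0 j _ _) ?_ h1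
    push_cast; linarith
  · exfalso
    subst h
    rcases Nat.eq_zero_or_pos j with h0 | h0
    · subst h0
      exact chord_B2 hP (PP_T hj) (by norm_num) (by norm_num) h1
    · have hj1 : (1 : ℝ) ≤ j := by exact_mod_cast h0
      refine chord_B1 hP (X := _) (Y := _) (by rw [PP_T hj]; exact fP_frame D 0 j _ _) ?_ h1
      push_cast; linarith
  · exfalso
    subst h
    rcases Nat.eq_zero_or_pos j with h0 | h0
    · subst h0
      exact chord_B2 hP (PP_C hj) (by norm_num) (by norm_num) h1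
    · have hj1 : (1 : ℝ) ≤ j := by exact_mod_cast h0
      refine chord_B1 hP (X := _) (Y := _) (by rw [PP_C hj]; exact fP_frame D 0 j _ _) ?_ h1
      push_cast; linarith
  · exfalso
    subst h
    rcases Nat.eq_zero_or_pos j with h0 | h0
    · subst h0
      exact chord_B2 hP (PP_A hj) (by norm_num) (by norm_num) h1
    · have hj1 : (1 : ℝ) ≤ j := by exact_mod_cast h0
      refine chord_B1 hP (X := _) (Y := _) (by rw [PP_A hj]; exact fP_frame D 0 j _ _) ?_ h1
      push_cast; linarith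

theorem chord_orient (a b c : Pt) : orient a b c = - orient a c b := by
  unfold orient; ring

/-- two vertices of the convex chain of `Q` -/
theorem chord_conv (hQ : GQ N D' b ψ γ) {u v : Fin (nV N)} (hu : N + 1 ≤ u.val)
    (huv : u.val + 1 < v.val)
    (h2 : segment ℝ (QQ N D' b ψ γ v) (QQ N D' b ψ γ u) ⊆ region (QQ N D' b ψ γ)) : False := by
  have hM := QQ_mono hQ
  have hv := v.isLt
  set m : Fin (nV N) := nx u with hm
  have hmv : m.val = u.val + 1 := nx_val u (by omega)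
  have hum : u < m := Fin.lt_def.2 (by omega)
  have hmv' : m < v := Fin.lt_def.2 (by omega)
  have h3 := QQ_conv hQ hu hum hmv'
  have d1 : (QQ N D' b ψ γ m).1 < (QQ N D' b ψ γ u).1 := hM.dec u hu
  have d2 : ∀ k : ℕ, ∀ hk : m.val + k < nV N, 0 < k →
      (QQ N D' b ψ γ ⟨m.val + k, hk⟩).1 < (QQ N D' b ψ γ m).1 := by
    intro k
    induction k with
    | zero => intro _ h; omega
    | succ k ih =>
      intro hk _
      have hk' : m.val + k < nV N := by omega
      have e : nx (⟨m.val + k, hk'⟩ : Fin (nV N)) = ⟨m.val + (k + 1), hk⟩ := by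
        apply Fin.ext
        rw [nx_val _ (by simpa using (by omega : m.val + k + 1 < nV N))]
        simp only
        omega
      have e1 := hM.dec ⟨m.val + k, hk'⟩ (by simp only; omega)
      rw [e] at e1
      rcases Nat.eq_zero_or_pos k with h0 | h0
      · subst h0
        have : (⟨m.val + 0, hk'⟩ : Fin (nV N)) = m := Fin.ext (by simp)
        rwa [this] at e1
      · exact e1.trans (ih hk' h0)
  have d3 : (QQ N D' b ψ γ v).1 < (QQ N D' b ψ γ m).1 := by
    have := d2 (v.val - m.val) (by omega) (by omega)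
    have e : (⟨m.val + (v.val - m.val), by omega⟩ : Fin (nV N)) = v := Fin.ext (by simp; omega)
    rwa [e] at this
  have e2 := hM.seg_up h2 (d3.trans d1) (j := m) (Or.inl (by omega)) d3.le d1.le
  rw [chord_orient] at e2
  linarith

theorem chord_lt (hP : GP N D w δ) (hQ : GQ N D' b ψ γ) (u v : Fin (nV N)) (huv : u.val < v.val)
    (h1 : segment ℝ (PP N D w δ u) (PP N D w δ v) ⊆ region (PP N D w δ))
    (h2 : segment ℝ (QQ N D' b ψ γ u) (QQ N D' b ψ γ v) ⊆ region (QQ N D' b ψ γ)) :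
    u = v ∨ v = nx u ∨ u = nx v := by
  have hv := v.isLt
  have hnv : nV N = 7 * N + 4 := rfl
  rcases Nat.eq_zero_or_pos u.val with hu0 | hu0
  · have hu : u = vB N := Fin.ext (by rw [vB_val]; exact hu0)
    subst hu
    rcases chord_Bv hP v h1 with h | h | h
    · exact Or.inl h.symm
    · exact Or.inr (Or.inl h)
    · exact Or.inr (Or.inr h)
  rcases Nat.lt_or_ge u.val (N + 1) with hu1 | hu1
  · -- `u = p_j`, `j < N`
    obtain ⟨j, hj, hju⟩ : ∃ j, j < N ∧ u = vp N j :=
      ⟨u.val - 1, by omega, Fin.ext (by rw [vp_val (by omega)]; omega)⟩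
    subst hju
    rw [vp_val hj.le] at huv
    rcases Nat.lt_or_ge v.val (N + 2) with hv1 | hv1
    · -- `v = p_k`
      obtain ⟨k, hk, hkv⟩ : ∃ k, k ≤ N ∧ v = vp N k :=
        ⟨v.val - 1, by omega, Fin.ext (by rw [vp_val (by omega)]; omega)⟩
      subst hkv
      rw [vp_val hk] at huv
      rcases Nat.lt_or_ge k (j + 2) with hk1 | hk1
      · right; left
        have : k = j + 1 := by omega
        rw [this, nx_p hj]
      · exfalso
        have hk2 : (j : ℝ) + 2 ≤ k := by exact_mod_cast hk1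
        refine chord_pR hP hj (X := _) (Y := _) (by rw [PP_p hk]; exact fP_frame D j k _ _) ?_ h1
        linarith
    rcases Nat.lt_or_ge v.val (N + 3) with hv2 | hv2
    · -- `v = E`
      have hvE : v = vE N := Fin.ext (by rw [vE_val]; omega)
      subst hvE
      exfalso
      have hk2 : (j : ℝ) + 1 ≤ N := by exact_mod_cast hj
      refine chord_pR hP hj (X := _) (Y := _) (by rw [PP_E]; exact fP_frame D j N _ _) ?_ h1
      linarith
    · exfalso
      obtain ⟨l, hl, ⟨X, Y, hXY, hX⟩, U, V, hUV, hU⟩ :=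
        chord_ceil (D := D) (w := w) (δ := δ) (D' := D') (b := b) (ψ := ψ) (γ := γ) hv2
      rcases Nat.lt_or_ge j l with hjl | hjl
      · have hk2 : (j : ℝ) + 1 ≤ l := by exact_mod_cast hjl
        refine chord_pR hP hj (X := _) (Y := _) (by rw [hXY]; exact fP_frame D j l _ _) ?_ h1
        linarith
      · have hk2 : (l : ℝ) ≤ j := by exact_mod_cast hjl
        rw [segment_symm] at h2
        refine chord_pL hQ hj hv2 (U₀ := _) (V₀ := _)
          (by rw [hUV]; exact fQ_frame D' (j + 1) (l + 1) _ _) ?_ h2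
        push_cast
        linarith
  · rcases Nat.lt_or_ge (u.val + 1) v.val with h | h
    · exfalso
      rw [segment_symm] at h2
      exact chord_conv hQ hu1 h h2
    · right; left
      apply Fin.ext
      rw [nx_val u (by omega)]
      omega

theorem chordless (hP : GP N D w δ) (hQ : GQ N D' b ψ γ) (u v : Fin (nV N))
    (h1 : segment ℝ (PP N D w δ u) (PP N D w δ v) ⊆ region (PP N D w δ))
    (h2 : segment ℝ (QQ N D' b ψ γ u) (QQ N D' b ψ γ v) ⊆ region (QQ N D' b ψ γ)) :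
    u = v ∨ v = nx u ∨ u = nx v := by
  rcases Nat.lt_trichotomy u.val v.val with h | h | h
  · exact chord_lt hP hQ u v h h1 h2
  · exact Or.inl (Fin.ext h)
  · rw [segment_symm] at h1 h2
    rcases chord_lt hP hQ v u h h1 h2 with h3 | h3 | h3
    · exact Or.inl h3.symm
    · exact Or.inr (Or.inr h3)
    · exact Or.inr (Or.inl h3)

end Pool.Agent.Lib57.CT
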