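import Mathlib
import Pool.Agent.Lib_helper57.CT.Geo
import Pool.Agent.Lib_helper57.CT.MonoDef

/-! BLOCK COMB: the combinatorial structure of a compatible triangulation (pure combinatorics). -/

namespace Pool.Agent.Lib57.CT

open Sum

variable {N m : ℕ}

/-- `a` and `b` are joined by an edge of the triangulation -/
def Ed (T : Fin (nV N) ⊕ Fin m → Fin (nV N) ⊕ Fin m → Fin (nV N) ⊕ Fin m → Prop)
    (a b : Fin (nV N) ⊕ Fin m) : Prop := ∃ c, T a b c ∨ T b a c

/-- the conclusion: `s i` is the Steiner point of room `i` -/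
structure Rooms (T : Fin (nV N) ⊕ Fin m → Fin (nV N) ⊕ Fin m → Fin (nV N) ⊕ Fin m → Prop)
    (s : ℕ → Fin m) : Prop where
  spike : ∀ i < N, T (inl (vF N i)) (inl (vT N i)) (inr (s i))
  cap : ∀ i < N, T (inl (vC N i)) (inl (vA N i)) (inr (s i))
  wall : ∀ i < N, T (inl (vA N i)) (inl (vH N i)) (inr (s i))
  base : ∀ i < N, T (inl (vp N i)) (inl (vp N (i + 1))) (inr (s i))
  sill : ∀ i < N, T (inl (vG N i)) (inl (vF N i)) (inr (s i)) ∨
    (i + 1 < N ∧ T (inl (vG N i)) (inl (vF N i)) (inr (s (i + 1))))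
  link : ∀ i, i + 1 < N → T (inl (vp N (i + 1))) (inr (s (i + 1))) (inr (s i))
  start : T (inl (vB N)) (inl (vp N 0)) (inr (s 0))
  fin : T (inl (vp N N)) (inl (vE N)) (inr (s (N - 1)))

theorem comb_nx_inj {n : ℕ} {u v : Fin n} (h : nx u = nx v) : u = v := by
  have h1 : (u.val + 1) % n = (v.val + 1) % n := congrArg Fin.val h
  have hu := u.isLt
  have hv := v.isLt
  apply Fin.ext
  rcases Nat.lt_or_ge (u.val + 1) n with h2 | h2 <;> rcases Nat.lt_or_ge (v.val + 1) n with h3 | h3
  · rw [Nat.mod_eq_of_lt h2, Nat.mod_eq_of_lt h3] at h1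
    omega
  · have h4 : v.val + 1 = n := by omega
    rw [h4, Nat.mod_self, Nat.mod_eq_of_lt h2] at h1
    omega
  · have h4 : u.val + 1 = n := by omega
    rw [h4, Nat.mod_self, Nat.mod_eq_of_lt h3] at h1
    omega
  · omega

theorem comb_nx3 {n : ℕ} (hn : 4 ≤ n) (v : Fin n) : nx (nx (nx v)) ≠ v := by
  intro h
  have h1 : (((v.val + 1) % n + 1) % n + 1) % n = v.val := congrArg Fin.val h
  have hv := v.isLt
  have h2 : (v.val + 3) % n = v.val := by
    have e : (((v.val + 1) % n + 1) % n + 1) % n = (v.val + 3) % n := by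
      rw [Nat.mod_add_mod, Nat.add_assoc, Nat.mod_add_mod, Nat.add_assoc]
    rw [← e, h1]
  rcases Nat.lt_or_ge (v.val + 3) n with h3 | h3
  · rw [Nat.mod_eq_of_lt h3] at h2
    omega
  · rw [Nat.mod_eq_sub_mod h3, Nat.mod_eq_of_lt (by omega)] at h2
    omega

theorem rooms_exist (hN : 1 ≤ N) (hm : m ≤ N)
    {T : Fin (nV N) ⊕ Fin m → Fin (nV N) ⊕ Fin m → Fin (nV N) ⊕ Fin m → Prop} (hT : Comb T)
    (hne : ∀ a b c, T a b c → a ≠ b)
    (hch : ∀ u v : Fin (nV N), Ed T (inl u) (inl v) → v = nx u ∨ u = nx v)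
    (cone : ℕ → Fin m → Prop)
    (hcone : ∀ i < N, ∀ t, T (inl (vF N i)) (inl (vT N i)) (inr t) → cone i t)
    (huni : ∀ i < N, ∀ j < N, ∀ t, cone i t → cone j t → i = j)
    (hp : ∀ l < N, ∀ j ≤ N, ∀ t, cone l t → Ed T (inr t) (inl (vp N j)) → j = l ∨ j = l + 1)
    (hA : ∀ l < N, ∀ i < N, ∀ t, cone l t → Ed T (inr t) (inl (vA N i)) → l = i)
    (hG : ∀ l < N, ∀ i < N, ∀ t, cone l t → T (inl (vC N l)) (inl (vA N l)) (inr t) →
      Ed T (inr t) (inl (vG N i)) → l = i ∨ l = i + 1) :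
    ∃ s : ℕ → Fin m, Rooms T s := by
  have hn4 : 4 ≤ nV N := by unfold nV; omega
  -- every polygon edge has a Steiner apex
  have hap : ∀ v : Fin (nV N), ∃ t : Fin m, T (inl v) (inl (nx v)) (inr t) := by
    intro v
    obtain ⟨c, hc⟩ := hT.bd v
    rcases c with u | t
    · exfalso
      have h1 := hT.rot _ _ _ hc
      have h2 := hT.rot _ _ _ h1
      have e1 : nx v ≠ u := fun h => hne _ _ _ h1 (by rw [h])
      have e2 : u ≠ v := fun h => hne _ _ _ h2 (by rw [h])
      have e3 := hch (nx v) u ⟨_, Or.inl h1⟩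
      have e4 := hch u v ⟨_, Or.inl h2⟩
      rcases e3 with e3 | e3
      · rcases e4 with e4 | e4
        · rw [e3] at e4
          exact comb_nx3 hn4 v e4.symm
        · exact e1 e4.symm
      · exact e2 (comb_nx_inj e3).symm
    · exact ⟨t, hc⟩
  choose f hf using hap
  have hsp : ∀ i < N, T (inl (vF N i)) (inl (vT N i)) (inr (f (vF N i))) := by
    intro i hi
    have h := hf (vF N i)
    rwa [nx_F hi] at h
  have hco : ∀ i < N, cone i (f (vF N i)) := fun i hi => hcone i hi _ (hsp i hi)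
  have hinj : ∀ i < N, ∀ j < N, f (vF N i) = f (vF N j) → i = j := by
    intro i hi j hj h
    exact huni i hi j hj _ (hco i hi) (by rw [h]; exact hco j hj)
  have hsurj : ∀ t : Fin m, ∃ l < N, t = f (vF N l) := by
    have hi : Function.Injective (fun i : Fin N => f (vF N i.val)) := by
      intro i j h
      exact Fin.ext (hinj i.val i.isLt j.val j.isLt h)
    have hc : N ≤ m := by
      have := Fintype.card_le_of_injective _ hi
      simpa using this
    have hb := (Fintype.bijective_iff_injective_and_card (fun i : Fin N => f (vF N i.val))).2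
      ⟨hi, by simp; omega⟩
    intro t
    obtain ⟨l, hl⟩ := hb.2 t
    exact ⟨l.val, l.isLt, hl.symm⟩
  have ed1 : ∀ {a b : Fin (nV N)} {t : Fin m}, T (inl a) (inl b) (inr t) →
      Ed T (inr t) (inl a) := fun h => ⟨_, Or.inl (hT.rot _ _ _ (hT.rot _ _ _ h))⟩
  have ed2 : ∀ {a b : Fin (nV N)} {t : Fin m}, T (inl a) (inl b) (inr t) →
      Ed T (inr t) (inl b) := fun h => ⟨_, Or.inr (hT.rot _ _ _ h)⟩
  have hcap : ∀ i < N, T (inl (vC N i)) (inl (vA N i)) (inr (f (vF N i))) := by
    intro i hi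
    have h := hf (vC N i)
    rw [nx_C hi] at h
    obtain ⟨l, hl, e⟩ := hsurj (f (vC N i))
    rw [e] at h
    have := hA l hl i hi _ (hco l hl) (ed2 h)
    subst this
    exact h
  have hbase : ∀ i < N, T (inl (vp N i)) (inl (vp N (i + 1))) (inr (f (vF N i))) := by
    intro i hi
    have h := hf (vp N i)
    rw [nx_p hi] at h
    obtain ⟨l, hl, e⟩ := hsurj (f (vp N i))
    rw [e] at h
    have h1 := hp l hl i (by omega) _ (hco l hl) (ed1 h)
    have h2 := hp l hl (i + 1) (by omega) _ (hco l hl) (ed2 h)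
    have h3 : l = i := by omega
    subst h3
    exact h
  refine ⟨fun i => f (vF N i), hsp, hcap, ?_, hbase, ?_, ?_, ?_, ?_⟩
  · intro i hi
    have h := hf (vA N i)
    rw [nx_A hi] at h
    obtain ⟨l, hl, e⟩ := hsurj (f (vA N i))
    rw [e] at h
    have := hA l hl i hi _ (hco l hl) (ed1 h)
    subst this
    exact h
  · intro i hi
    have h := hf (vG N i)
    rw [nx_G hi] at h
    obtain ⟨l, hl, e⟩ := hsurj (f (vG N i))
    rw [e] at h
    rcases hG l hl i hi _ (hco l hl) (hcap l hl) (ed1 h) with h1 | h1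
    · subst h1
      exact Or.inl h
    · subst h1
      exact Or.inr ⟨hl, h⟩
  · intro i hi
    have h1 := hbase (i + 1) hi
    have h2 := hT.rot _ _ _ (hT.rot _ _ _ h1)
    rcases hT.edge _ _ _ h2 with ⟨v, hv, -⟩ | ⟨d, hd⟩
    · exact absurd hv (by simp)
    rcases d with u | t
    · exfalso
      have h3 := hT.rot _ _ _ (hT.rot _ _ _ hd)
      rcases hch u (vp N (i + 1)) ⟨_, Or.inl h3⟩ with h4 | h4
      · have h5 : u = vp N i := by
          apply comb_nx_inj
          rw [← h4, nx_p (by omega)]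
        subst h5
        have h6 := hT.uniq _ _ _ _ h3 (hbase i (by omega))
        have h7 := hinj (i + 1) hi i (by omega) (Sum.inr_injective h6)
        omega
      · subst h4
        exact hT.nobd _ _ h3
    · obtain ⟨l, hl, e⟩ := hsurj t
      subst e
      have h3 := hT.rot _ _ _ hd
      have h4 : Ed T (inr (f (vF N l))) (inl (vp N (i + 1))) := ⟨_, Or.inl (hT.rot _ _ _ h3)⟩
      have h5 := hp l hl (i + 1) (by omega) _ (hco l hl) h4
      have h6 : l ≠ i + 1 := by
        rintro rfl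
        exact hne _ _ _ h3 rfl
      have h7 : l = i := by omega
      subst h7
      exact hd
  · have h := hf (vB N)
    rw [nx_B] at h
    obtain ⟨l, hl, e⟩ := hsurj (f (vB N))
    rw [e] at h
    have h1 := hp l hl 0 (by omega) _ (hco l hl) (ed2 h)
    have h2 : l = 0 := by omega
    subst h2
    exact h
  · have h := hf (vp N N)
    rw [nx_pN] at h
    obtain ⟨l, hl, e⟩ := hsurj (f (vp N N))
    rw [e] at h
    have h1 := hp l hl N le_rfl _ (hco l hl) (ed1 h)
    have h2 : l = N - 1 := by omega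
    subst h2
    exact h

end Pool.Agent.Lib57.CT
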