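import Mathlib
import Pool.Agent.Lib_helper57.CT.PMono
import Pool.Agent.Lib_helper57.CT.MonoCross

/-! BLOCK DOOR: geometry of the first polygon seen from a Steiner point under the `i`-th spike. -/

namespace Pool.Agent.Lib57.CT

variable {N : ℕ} {D w : ℝ} {δ : ℕ → ℝ}

/-- the cone under the `i`-th spike `vT i` -/
def Cone (D : ℝ) (δ : ℕ → ℝ) (i : ℕ) (z : Pt) : Prop :=
  ∃ X Y, z = fP D i X Y ∧ 0 ≤ Y ∧ -(2 - Y) / 8 ≤ X + 1 / 8 ∧
    (1 + δ i) * (X - 1 / 64) < -(9 / 64) * (Y - 1 + δ i)

theorem door_succ (D : ℝ) (i : ℕ) (X Y : ℝ) :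
    fP D (i + 1) X Y = fP D i (X + 2) (Y - 2 * (X + 1)) := by
  unfold fP
  ext
  · push_cast
    ring
  · push_cast
    ring

theorem door_pred (D : ℝ) (i : ℕ) (X Y : ℝ) :
    fP D i X Y = fP D (i + 1) (X - 2) (Y + 2 * (X - 1)) := by
  unfold fP
  ext
  · push_cast
    ring
  · push_cast
    ring

theorem door_fst (D : ℝ) (i : ℕ) (X Y : ℝ) : (fP D i X Y).1 = 64 * (X + 2 * i + 3) := rfl

theorem door_inj (hD : 0 < D) {i : ℕ} {X Y X' Y' : ℝ} (h : fP D i X Y = fP D i X' Y') :
    X = X' ∧ Y = Y' := by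
  have h1 := congrArg Prod.fst h
  have h2 := congrArg Prod.snd h
  unfold fP at h1 h2
  simp only at h1 h2
  have hX : X = X' := by linarith
  subst hX
  refine ⟨rfl, ?_⟩
  have h3 := mul_left_cancel₀ hD.ne' h2
  linarith

theorem door_pos (hD : 0 < D) {t : ℝ} : 0 < 64 * D * t ↔ 0 < t := by
  constructor
  · intro h
    by_contra hc
    push Not at hc
    nlinarith
  · intro h
    positivity

theorem door_nonneg (hD : 0 < D) {t : ℝ} : 0 ≤ 64 * D * t ↔ 0 ≤ t := by
  constructor
  · intro h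
    by_contra hc
    push Not at hc
    nlinarith
  · intro h
    positivity

theorem door_nonpos (hD : 0 < D) {t : ℝ} : 64 * D * t ≤ 0 ↔ t ≤ 0 := by
  constructor
  · intro h
    by_contra hc
    push Not at hc
    nlinarith
  · intro h
    nlinarith

/-- lower vertices: the floor vertices -/
theorem door_low (h : GP N D w δ) {a b : Pt} (hs : segment ℝ a b ⊆ region (PP N D w δ))
    (hab : a.1 < b.1) {j : ℕ} (hj : j ≤ N) (h1 : a.1 ≤ (PP N D w δ (vp N j)).1)
    (h2 : (PP N D w δ (vp N j)).1 ≤ b.1) : orient a b (PP N D w δ (vp N j)) ≤ 0 :=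
  (PP_mono h).seg_low hs hab (by rw [vp_val hj]; omega) h1 h2

theorem door_upH (h : GP N D w δ) {a b : Pt} (hs : segment ℝ a b ⊆ region (PP N D w δ))
    (hab : a.1 < b.1) {j : ℕ} (hj : j ≤ N) (h1 : a.1 ≤ (PP N D w δ (vH N j)).1)
    (h2 : (PP N D w δ (vH N j)).1 ≤ b.1) : 0 ≤ orient a b (PP N D w δ (vH N j)) :=
  (PP_mono h).seg_up hs hab (by rw [vH_val hj]; omega) h1 h2

theorem door_upC (h : GP N D w δ) {a b : Pt} (hs : segment ℝ a b ⊆ region (PP N D w δ))
    (hab : a.1 < b.1) {j : ℕ} (hj : j < N) (h1 : a.1 ≤ (PP N D w δ (vC N j)).1)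
    (h2 : (PP N D w δ (vC N j)).1 ≤ b.1) : 0 ≤ orient a b (PP N D w δ (vC N j)) :=
  (PP_mono h).seg_up hs hab (by rw [vC_val hj]; omega) h1 h2

/-- the apex of a triangle on the edge from `vF i` to `vT i` is in the cone -/
theorem cone_of_apex (h : GP N D w δ) {i : ℕ} (hi : i < N) {z : Pt}
    (h1 : 0 < orient (PP N D w δ (vF N i)) (PP N D w δ (vT N i)) z)
    (h2 : segment ℝ (PP N D w δ (vT N i)) z ⊆ region (PP N D w δ))
    (h3 : segment ℝ z (PP N D w δ (vF N i)) ⊆ region (PP N D w δ)) : Cone D δ i z := by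
  obtain ⟨X, Y, rfl⟩ := fP_surj h.hD.ne' i z
  have hz : fP D i X Y ∈ region (PP N D w δ) := h2 (right_mem_segment ℝ _ _)
  have hd0 := h.d0 i
  have hd1 := h.d1 i
  have hp1 : PP N D w δ (vp N (i + 1)) = fP D i 1 0 := by
    rw [PP_p (by omega), door_succ]
    norm_num
  have hp0 : PP N D w δ (vp N i) = fP D i (-1) 0 := PP_p (by omega)
  rw [PP_F hi, PP_T hi, orient_fP, door_pos h.hD] at h1
  have hC3 : (1 + δ i) * (X - 1 / 64) < -(9 / 64) * (Y - 1 + δ i) := by linarith
  -- `X < 1`
  have hX1 : X < 1 := by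
    by_contra hc
    push Not at hc
    have h4 : segment ℝ (PP N D w δ (vF N i)) (fP D i X Y) ⊆ region (PP N D w δ) := by
      rw [segment_symm]
      exact h3
    have h5 := door_low h h4 (by rw [PP_F hi, fP_lt]; linarith) (j := i + 1) (by omega)
      (by rw [PP_F hi, hp1, fP_le]; norm_num) (by rw [hp1, fP_le]; exact hc)
    rw [PP_F hi, hp1, orient_fP, door_nonpos h.hD] at h5
    nlinarith
  -- `-1 < X`
  have hX0 : -1 < X := by
    by_contra hc
    push Not at hc
    have h4 : segment ℝ (fP D i X Y) (PP N D w δ (vT N i)) ⊆ region (PP N D w δ) := by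
      rw [segment_symm]
      exact h2
    have h5 := door_low h h4 (by rw [PP_T hi, fP_lt]; linarith) (j := i) (by omega)
      (by rw [hp0, fP_le]; exact hc) (by rw [hp0, PP_T hi, fP_le]; norm_num)
    have h6 := door_upC h h4 (by rw [PP_T hi, fP_lt]; linarith) (j := i) hi
      (by rw [PP_C hi, fP_le]; linarith) (by rw [PP_C hi, PP_T hi, fP_le]; norm_num)
    rw [PP_T hi, hp0, orient_fP, door_nonpos h.hD] at h5
    rw [PP_T hi, PP_C hi, orient_fP, door_nonneg h.hD] at h6
    nlinarith
  -- `0 ≤ Y`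
  have hY0 : 0 ≤ Y := by
    have h4 := (PP_mono h).reg_edge hz (vp N i) (by
      left
      rw [nx_p hi, hp1, hp0, fP_le, fP_le]
      exact ⟨hX0.le, hX1.le⟩)
    rw [nx_p hi, hp1, hp0, orient_fP, door_nonneg h.hD] at h4
    linarith
  refine ⟨X, Y, rfl, hY0, ?_, hC3⟩
  rcases lt_or_ge X (-1 / 4) with h4 | h4
  · have h5 : segment ℝ (fP D i X Y) (PP N D w δ (vT N i)) ⊆ region (PP N D w δ) := by
      rw [segment_symm]
      exact h2
    have h6 := door_upC h h5 (by rw [PP_T hi, fP_lt]; linarith) (j := i) hi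
      (by rw [PP_C hi, fP_le]; linarith) (by rw [PP_C hi, PP_T hi, fP_le]; norm_num)
    rw [PP_T hi, PP_C hi, orient_fP, door_nonneg h.hD] at h6
    linarith
  · rcases le_or_gt X (-1 / 8) with h5 | h5
    · have h6 := (PP_mono h).reg_edge hz (vT N i) (by
        right
        rw [nx_T hi, PP_C hi, PP_T hi, fP_le, fP_le]
        exact ⟨by linarith, by linarith⟩)
      rw [nx_T hi, PP_C hi, PP_T hi, orient_fP, door_nonneg h.hD] at h6
      linarith
    · have h6 : Y < 2 := by nlinarith
      linarith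

/-- bounds for the coordinates of a point in a cone -/
theorem Cone.bounds (h : GP N D w δ) {i : ℕ} {X Y : ℝ} (hz : Cone D δ i (fP D i X Y)) :
    0 ≤ Y ∧ Y < 2 ∧ -3 / 8 ≤ X ∧ X ≤ 5 / 32 ∧
      (1 + δ i) * (X - 1 / 64) < -(9 / 64) * (Y - 1 + δ i) := by
  obtain ⟨X', Y', he, h1, h2, h3⟩ := hz
  obtain ⟨rfl, rfl⟩ := door_inj h.hD he
  have hd0 := h.d0 i
  have hd1 := h.d1 i
  refine ⟨h1, ?_, by linarith, ?_, h3⟩
  · by_contra hc
    push Not at hc
    nlinarith
  · by_contra hc
    push Not at hc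
    nlinarith

theorem Cone.unique (h : GP N D w δ) {i j : ℕ} {z : Pt} (h1 : Cone D δ i z)
    (h2 : Cone D δ j z) : i = j := by
  obtain ⟨X, Y, rfl⟩ := fP_surj h.hD.ne' i z
  obtain ⟨X', Y', he⟩ := fP_surj h.hD.ne' j (fP D i X Y)
  obtain ⟨-, -, h3, h4, -⟩ := h1.bounds h
  rw [he] at h2
  obtain ⟨-, -, h5, h6, -⟩ := h2.bounds h
  have h7 := congrArg Prod.fst he
  rw [door_fst, door_fst] at h7
  have h8 : X + 2 * (i : ℝ) = X' + 2 * j := by linarith
  rcases lt_trichotomy i j with hij | hij | hij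
  · have : (i : ℝ) + 1 ≤ j := by exact_mod_cast hij
    linarith
  · exact hij
  · have : (j : ℝ) + 1 ≤ i := by exact_mod_cast hij
    linarith

/-- no segment in the region passes through both doors of a room -/
theorem noTwo (h : GP N D w δ) {i : ℕ} (hi : i < N) {a b : Pt}
    (hs : segment ℝ a b ⊆ region (PP N D w δ)) (ha : a.1 ≤ (PP N D w δ (vp N i)).1)
    (hb : (PP N D w δ (vH N (i + 1))).1 ≤ b.1) : False := by
  obtain ⟨Xa, Ya, rfl⟩ := fP_surj h.hD.ne' i a
  obtain ⟨Xb, Yb, rfl⟩ := fP_surj h.hD.ne' i b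
  have hp1 : PP N D w δ (vp N (i + 1)) = fP D i 1 0 := by
    rw [PP_p (by omega), door_succ]
    norm_num
  have hp0 : PP N D w δ (vp N i) = fP D i (-1) 0 := PP_p (by omega)
  have hH0 : PP N D w δ (vH N i) = fP D i (-7 / 8) (5 / 32) := PP_H (by omega)
  have hH1 : PP N D w δ (vH N (i + 1)) = fP D i (9 / 8) (-3 / 32) := by
    rw [PP_H (by omega), door_succ]
    norm_num
  rw [hp0, fP_le] at ha
  rw [hH1, fP_le] at hb
  have hab : (fP D i Xa Ya).1 < (fP D i Xb Yb).1 := by
    rw [fP_lt]
    linarith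
  have h1 := door_low h hs hab (j := i + 1) (by omega) (by rw [hp1, fP_le]; linarith)
    (by rw [hp1, fP_le]; linarith)
  have h2 := door_upH h hs hab (j := i) (by omega) (by rw [hH0, fP_le]; linarith)
    (by rw [hH0, fP_le]; linarith)
  have h3 := door_upH h hs hab (j := i + 1) (by omega) (by rw [hH1, fP_le]; linarith)
    (by rw [hH1, fP_le]; linarith)
  rw [hp1, orient_fP, door_nonpos h.hD] at h1
  rw [hH0, orient_fP, door_nonneg h.hD] at h2
  rw [hH1, orient_fP, door_nonneg h.hD] at h3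
  nlinarith

theorem door_p (h : GP N D w δ) {l j : ℕ} (hl : l < N) (hj : j ≤ N) {z : Pt}
    (hz : Cone D δ l z) (hs : segment ℝ z (PP N D w δ (vp N j)) ⊆ region (PP N D w δ)) :
    j = l ∨ j = l + 1 := by
  obtain ⟨X, Y, rfl⟩ := fP_surj h.hD.ne' l z
  obtain ⟨hY0, hY2, hX0, hX1, hC⟩ := hz.bounds h
  have hd0 := h.d0 l
  have hd1 := h.d1 l
  rcases lt_or_ge j l with hjl | hjl
  · exfalso
    obtain ⟨m, rfl⟩ : ∃ m, l = m + 1 := ⟨l - 1, by omega⟩
    have hm : (j : ℝ) ≤ m := by exact_mod_cast (by omega : j ≤ m)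
    rw [segment_symm] at hs
    refine noTwo h (i := m) (by omega) hs ?_ ?_
    · rw [PP_p hj, PP_p (by omega), door_fst, door_fst]
      linarith
    · rw [PP_H (by omega), fP_le]
      linarith
  · rcases Nat.lt_or_ge j (l + 2) with hj2 | hj2
    · omega
    · exfalso
      rcases Nat.lt_or_ge j (l + 3) with hj3 | hj3
      · obtain rfl : j = l + 2 := by omega
        have hp1 : PP N D w δ (vp N (l + 1)) = fP D l 1 0 := by
          rw [PP_p (by omega), door_succ]
          norm_num
        have hp2 : PP N D w δ (vp N (l + 2)) = fP D l 3 (-4) := by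
          rw [PP_p (by omega), door_succ, door_succ]
          norm_num
        have h1 := door_low h hs (by rw [hp2, fP_lt]; linarith) (j := l + 1) (by omega)
          (by rw [hp1, fP_le]; linarith) (by rw [hp1, hp2, fP_le]; norm_num)
        rw [hp1, hp2, orient_fP, door_nonpos h.hD] at h1
        have h2 : 2 * (1 - X) ≤ Y := by linarith
        rcases le_or_gt X 0 with hX | hX
        · linarith
        · nlinarith
      · have hm : (l : ℝ) + 3 ≤ j := by exact_mod_cast hj3
        refine noTwo h (i := l + 1) (by omega) hs ?_ ?_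
        · rw [PP_p (by omega), door_succ, fP_le]
          linarith
        · rw [PP_p hj, PP_H (by omega), door_fst, door_fst]
          push_cast
          linarith

theorem door_A (h : GP N D w δ) {l i : ℕ} (hl : l < N) (hi : i < N) {z : Pt}
    (hz : Cone D δ l z) (hs : segment ℝ z (PP N D w δ (vA N i)) ⊆ region (PP N D w δ)) :
    l = i := by
  obtain ⟨X, Y, rfl⟩ := fP_surj h.hD.ne' l z
  obtain ⟨hY0, hY2, hX0, hX1, hC⟩ := hz.bounds h
  rcases Nat.lt_or_ge l i with hli | hli
  · exfalso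
    rcases Nat.lt_or_ge i (l + 2) with hi2 | hi2
    · obtain rfl : i = l + 1 := by omega
      have hA : PP N D w δ (vA N (l + 1)) = fP D l (3 / 2) 0 := by
        rw [PP_A hi, door_succ]
        norm_num
      have hH : PP N D w δ (vH N (l + 1)) = fP D l (9 / 8) (-3 / 32) := by
        rw [PP_H (by omega), door_succ]
        norm_num
      have h1 := door_upH h hs (by rw [hA, fP_lt]; linarith) (j := l + 1) (by omega)
        (by rw [hH, fP_le]; linarith) (by rw [hH, hA, fP_le]; norm_num)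
      rw [hA, hH, orient_fP, door_nonneg h.hD] at h1
      linarith
    · have hm : (l : ℝ) + 2 ≤ i := by exact_mod_cast hi2
      refine noTwo h (i := l + 1) (by omega) hs ?_ ?_
      · rw [PP_p (by omega), door_succ, fP_le]
        linarith
      · rw [PP_A hi, PP_H (by omega), door_fst, door_fst]
        push_cast
        linarith
  · rcases Nat.lt_or_ge i l with hil | hil
    · exfalso
      obtain ⟨m, rfl⟩ : ∃ m, l = m + 1 := ⟨l - 1, by omega⟩
      rw [segment_symm] at hs
      rcases Nat.lt_or_ge i m with him | him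
      · have hm : (i : ℝ) + 1 ≤ m := by exact_mod_cast him
        refine noTwo h (i := m) (by omega) hs ?_ ?_
        · rw [PP_A hi, PP_p (by omega), door_fst, door_fst]
          linarith
        · rw [PP_H (by omega), fP_le]
          linarith
      · obtain rfl : i = m := by omega
        have hA : PP N D w δ (vA N i) = fP D (i + 1) (-5 / 2) (-2) := by
          rw [PP_A hi, door_pred]
          norm_num
        have hp : PP N D w δ (vp N (i + 1)) = fP D (i + 1) (-1) 0 := PP_p (by omega)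
        have hH : PP N D w δ (vH N (i + 1)) = fP D (i + 1) (-7 / 8) (5 / 32) := PP_H (by omega)
        have h1 := door_low h hs (by rw [hA, fP_lt]; linarith) (j := i + 1) (by omega)
          (by rw [hp, hA, fP_le]; norm_num) (by rw [hp, fP_le]; linarith)
        have h2 := door_upH h hs (by rw [hA, fP_lt]; linarith) (j := i + 1) (by omega)
          (by rw [hH, hA, fP_le]; norm_num) (by rw [hH, fP_le]; linarith)
        rw [hA, hp, orient_fP, door_nonpos h.hD] at h1
        rw [hA, hH, orient_fP, door_nonneg h.hD] at h2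
        linarith
    · omega

theorem door_G (h : GP N D w δ) {l i : ℕ} (hl : l < N) (hi : i < N) {z : Pt}
    (hz : Cone D δ l z) (hY : 0 < orient (PP N D w δ (vC N l)) (PP N D w δ (vA N l)) z)
    (hs : segment ℝ z (PP N D w δ (vG N i)) ⊆ region (PP N D w δ)) : l = i ∨ l = i + 1 := by
  obtain ⟨X, Y, rfl⟩ := fP_surj h.hD.ne' l z
  obtain ⟨hY0, hY2, hX0, hX1, hC⟩ := hz.bounds h
  rw [PP_C hl, PP_A hl, orient_fP, door_pos h.hD] at hY
  have hY1 : Y < 1 := by linarith
  rcases Nat.lt_or_ge l i with hli | hli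
  · exfalso
    rcases Nat.lt_or_ge i (l + 2) with hi2 | hi2
    · obtain rfl : i = l + 1 := by omega
      have hd0 := h.d0 l
      have hd0' := h.d0 (l + 1)
      have hG : PP N D w δ (vG N (l + 1)) = fP D l (65 / 32) (-17 / 16 - δ (l + 1)) := by
        rw [PP_G hi, door_succ]
        congr 1
        · norm_num
        · ring
      have hp1 : PP N D w δ (vp N (l + 1)) = fP D l 1 0 := by
        rw [PP_p (by omega), door_succ]
        norm_num
      have h1 := door_low h hs (by rw [hG, fP_lt]; linarith) (j := l + 1) (by omega)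
        (by rw [hp1, fP_le]; linarith) (by rw [hp1, hG, fP_le]; norm_num)
      rw [hG, hp1, orient_fP, door_nonpos h.hD] at h1
      have h2 : (34 / 33) * (1 - X) ≤ Y := by nlinarith
      have h3 : 1 / 34 < X := by linarith
      nlinarith
    · have hm : (l : ℝ) + 2 ≤ i := by exact_mod_cast hi2
      refine noTwo h (i := l + 1) (by omega) hs ?_ ?_
      · rw [PP_p (by omega), door_succ, fP_le]
        linarith
      · rw [PP_G hi, PP_H (by omega), door_fst, door_fst]
        push_cast
        linarith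
  · rcases Nat.lt_or_ge (i + 1) l with hil | hil
    · exfalso
      obtain ⟨m, rfl⟩ : ∃ m, l = m + 1 := ⟨l - 1, by omega⟩
      have hm : (i : ℝ) + 1 ≤ m := by exact_mod_cast (by omega : i + 1 ≤ m)
      rw [segment_symm] at hs
      refine noTwo h (i := m) (by omega) hs ?_ ?_
      · rw [PP_G hi, PP_p (by omega), door_fst, door_fst]
        linarith
      · rw [PP_H (by omega), fP_le]
        linarith
    · omega

end Pool.Agent.Lib57.CT
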