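import Mathlib
import Pool.Agent.Lib_helper57.Blocks

/-! More printing tools: subtraction, case distinction, binary numbers, nested encodings. -/

namespace Pool.Agent.Lib57

open Function

/-- truncated subtraction -/
theorem IsTerm.sub {k : ℕ} {f g : List Bool → (ℕ → ℕ) → ℕ} (hf : IsTerm k f) (hg : IsTerm k g) :
    IsTerm k (fun x e => f x e - g x e) where
  indep x e e' h := by rw [hf.indep x e e' h, hg.indep x e e' h]
  comp tgt ρ hs := by
    obtain ⟨p, A, hA, hp⟩ := hf.comp tgt ρ hs
    obtain ⟨q, B, hB, hq⟩ := hg.comp (tgt + 1) ρ hs.succ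
    refine ⟨.seq p (.seq q (.loop (tgt + 1) (.seq (.pop (tgt + 1)) (.pop tgt)))),
      fun s => A s + B s * 5 + 3, (hA.add (hB.mul (PB.const 5))).add (PB.const 3),
      fun x e σ s ha hx he => ⟨?_, ?_⟩⟩
    · have h1 := (hp x e σ s ha hx he).1
      dsimp only; omega
    · have h1 := (hp x e σ s ha hx he).2
      obtain ⟨h0, h2⟩ := hq x e _ s (ha.updateFree hs (un (f x e))) hx he
      have f0 := ha.free tgt le_rfl
      have f1 := ha.free (tgt + 1) (by omega)
      have h3 : ExecLe (.loop (tgt + 1) (.seq (.pop (tgt + 1)) (.pop tgt)))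
          (update (update σ tgt (un (f x e))) (tgt + 1) (un (g x e)))
          (update σ tgt (un (f x e - g x e))) (g x e * (3 + 1) + 1) := by
        refine ExecLe.loop' (fun v => update (update σ tgt (un (f x e - (g x e - v)))) (tgt + 1)
          (un v)) 3 _ ?_ ?_ ?_ ?_ ?_
        · funext j
          simp only [Function.update_apply]
          split_ifs <;> first | omega | simp_all
        · simp [f1]
        · simp [f1]
        · intro v hv
          simp [List.replicate_succ]
        · intro v hv
          refine ((ExecLe.pop (tgt + 1) _).seq (ExecLe.pop tgt _)).congr ?_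
          have : f x e - (g x e - v) = f x e - (g x e - (v + 1)) - 1 := by omega
          funext j
          simp only [Function.update_apply]
          split_ifs <;> first | omega | simp_all [List.replicate_succ]
      exact ((h1.seq (h2.seq h3)).mono (by dsimp only; omega))

open Classical in
/-- case distinction for terms -/
theorem IsTerm.ite {k : ℕ} {φ : List Bool → (ℕ → ℕ) → Prop}
    {f g : List Bool → (ℕ → ℕ) → ℕ} (hφ : IsForm k φ) (hf : IsTerm k f)
    (hg : IsTerm k g) : IsTerm k (fun x e => if φ x e then f x e else g x e) where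
  indep x e e' he := by
    have h1 : φ x e = φ x e' := propext (hφ.indep x e e' he)
    rw [hf.indep x e e' he, hg.indep x e e' he]
    simp only [h1]
  comp tgt ρ hs := by
    obtain ⟨r, C, hC, hr⟩ := hφ.comp tgt ρ hs
    obtain ⟨p, A, hA, hp⟩ := hf.comp tgt ρ hs
    obtain ⟨q, B, hB, hq⟩ := hg.comp tgt ρ hs
    refine ⟨.seq r (.case 2 .skip (.seq (.pop 2) q) (.seq (.pop 2) p)),
      fun s => A s + B s + C s + 4, ((hA.add hB).add hC).add (PB.const 4),
      fun x e σ s ha hx he => ?_⟩
    have h1 := hr x e σ s ha hx he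
    obtain ⟨hfA, h2⟩ := hp x e σ s ha hx he
    obtain ⟨hgB, h3⟩ := hq x e σ s ha hx he
    by_cases h : φ x e
    · have hpop : ExecLe (.pop 2) (update σ 2 (dec (φ x e) :: σ 2)) σ 1 :=
        (ExecLe.pop 2 _).congr (by simp)
      refine ⟨by simp only [h, if_true]; omega, ?_⟩
      refine ((h1.seq (ExecLe.case_true ?_ (hpop.seq h2))).mono (by dsimp only; omega)).congr ?_
      · simp [dec_pos h]
      · simp [h]
    · have hpop : ExecLe (.pop 2) (update σ 2 (dec (φ x e) :: σ 2)) σ 1 :=
        (ExecLe.pop 2 _).congr (by simp)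
      refine ⟨by simp only [h, if_false]; omega, ?_⟩
      refine ((h1.seq (ExecLe.case_false ?_ (hpop.seq h3))).mono (by dsimp only; omega)).congr ?_
      · simp [dec_neg h]
      · simp [h]

theorem IsForm.renameV {m k : ℕ} {φ : List Bool → (ℕ → ℕ) → Prop} (h : IsForm m φ) (τ : ℕ → ℕ)
    (hτ : ∀ i < m, τ i < k) : IsForm k (fun x e => φ x (fun i => e (τ i))) where
  indep x e e' he := h.indep x _ _ fun i hi => he _ (hτ i hi)
  comp tgt ρ hs := by
    obtain ⟨p, B, hB, hp⟩ := h.comp tgt (fun i => ρ (τ i)) ⟨hs.1, fun i hi => hs.2 _ (hτ i hi)⟩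
    exact ⟨p, B, hB, fun x e σ s ha hx he => hp x _ σ s
      ⟨ha.inp, fun i hi => ha.vars _ (hτ i hi), ha.free⟩ hx fun i hi => he _ (hτ i hi)⟩

theorem IsTerm.congr {k : ℕ} {f g : List Bool → (ℕ → ℕ) → ℕ} (h : IsTerm k f)
    (hf : ∀ x e, f x e = g x e) : IsTerm k g := by
  have : f = g := by
    funext x e
    exact hf x e
  exact this ▸ h

theorem IsTerm.sum_list {k : ℕ} {ι : Type*} (l : List ι) {f : ι → List Bool → (ℕ → ℕ) → ℕ}
    (h : ∀ i ∈ l, IsTerm k (f i)) : IsTerm k (fun x e => (l.map fun i => f i x e).sum) := by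
  induction l with
  | nil => simpa using IsTerm.const k 0
  | cons a l ih =>
    exact ((h a (by simp)).add (ih fun i hi => h i (by simp [hi]))).congr fun x e => by simp

/-! ### printing up to a homomorphism -/

/-- list-valued functions which can be printed, also after replacing each bit by a fixed word -/
def IsE (k : ℕ) (F : List Bool → (ℕ → ℕ) → List Bool) : Prop :=
  ∀ h : Bool → List Bool, IsEmit k (fun x e => (F x e).flatMap h)

theorem IsEmit.wordE {k : ℕ} (l : List Bool) : IsEmit k (fun _ _ => l) := by
  induction l with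
  | nil => exact IsEmit.nil k
  | cons a l ih => exact (IsEmit.bit k a).append ih

theorem IsE.isEmit {k : ℕ} {F : List Bool → (ℕ → ℕ) → List Bool} (h : IsE k F) : IsEmit k F :=
  (h fun b => [b]).congr fun x e => by simp

theorem IsE.congr {k : ℕ} {F G : List Bool → (ℕ → ℕ) → List Bool} (h : IsE k F)
    (hF : ∀ x e, F x e = G x e) : IsE k G := by
  have : F = G := by
    funext x e
    exact hF x e
  exact this ▸ h

theorem IsE.word (k : ℕ) (l : List Bool) : IsE k (fun _ _ => l) := fun _ => IsEmit.wordE _

theorem IsE.append {k : ℕ} {F G : List Bool → (ℕ → ℕ) → List Bool} (hF : IsE k F)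
    (hG : IsE k G) : IsE k (fun x e => F x e ++ G x e) := fun h =>
  ((hF h).append (hG h)).congr fun x e => by simp

open Classical in
theorem IsE.ite {k : ℕ} {φ : List Bool → (ℕ → ℕ) → Prop}
    {F G : List Bool → (ℕ → ℕ) → List Bool} (hφ : IsForm k φ) (hF : IsE k F)
    (hG : IsE k G) : IsE k (fun x e => if φ x e then F x e else G x e) := fun h =>
  (IsEmit.ite hφ (hF h) (hG h)).congr fun x e => by
    by_cases h1 : φ x e
    · simp only [h1, if_true]
    · simp only [h1, if_false]

theorem IsE.dec {k : ℕ} {φ : List Bool → (ℕ → ℕ) → Prop} (hφ : IsForm k φ) :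
    IsE k (fun x e => [dec (φ x e)]) := by
  classical
  refine (IsE.ite hφ (IsE.word k [true]) (IsE.word k [false])).congr fun x e => ?_
  by_cases h : φ x e
  · simp [h, dec_pos]
  · simp [h, dec_neg]

theorem IsE.for {k : ℕ} {b : List Bool → (ℕ → ℕ) → ℕ} {F : List Bool → (ℕ → ℕ) → List Bool}
    (hb : IsTerm k b) (hF : IsE (k + 1) F) :
    IsE k (fun x e => (List.range (b x e)).flatMap fun v => F x (update e k v)) := fun h =>
  (IsEmit.for hb (hF h)).congr fun x e => by rw [List.flatMap_assoc]

theorem IsE.list {k : ℕ} {ι : Type*} (l : List ι) {F : ι → List Bool → (ℕ → ℕ) → List Bool}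
    (h : ∀ i ∈ l, IsE k (F i)) : IsE k (fun x e => l.flatMap fun i => F i x e) := by
  induction l with
  | nil => simpa using IsE.word k []
  | cons a l ih =>
    exact ((h a (by simp)).append (ih fun i hi => h i (by simp [hi]))).congr fun x e => by simp

theorem IsE.hom {k : ℕ} {F : List Bool → (ℕ → ℕ) → List Bool} (hF : IsE k F)
    (g : Bool → List Bool) : IsE k (fun x e => (F x e).flatMap g) := fun h =>
  (hF fun b => (g b).flatMap h).congr fun x e => by rw [List.flatMap_assoc]

theorem delimit_eq (l : List Bool) : N487b59b3.delimit l =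
    (l.flatMap fun b => [true, b]) ++ [false] := by
  induction l with
  | nil => rfl
  | cons a l ih => simp [N487b59b3.delimit, ih]

theorem IsE.delimit {k : ℕ} {F : List Bool → (ℕ → ℕ) → List Bool} (hF : IsE k F) :
    IsE k (fun x e => N487b59b3.delimit (F x e)) :=
  ((hF.hom fun b => [true, b]).append (IsE.word k [false])).congr fun x e =>
    (delimit_eq _).symm

/-! ### binary numbers -/

open Computability

theorem encodeNat_zero : encodeNat 0 = [] := rfl

theorem encodeNat_one : encodeNat 1 = [true] := rfl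

theorem encodeNat_two_mul {n : ℕ} (h : n ≠ 0) : encodeNat (2 * n) = false :: encodeNat n := by
  unfold encodeNat
  have e1 : ((2 * n : ℕ) : Num) = Num.bit0 (n : Num) := by
    rw [← Num.bit0_of_bit0]; push_cast; ring
  rw [e1]
  cases hn : (n : Num) with
  | zero =>
    exfalso
    have := congrArg (fun z : Num => (z : ℕ)) hn
    simp at this
    exact h this
  | pos p => rfl

theorem encodeNat_two_mul_add_one (n : ℕ) : encodeNat (2 * n + 1) = true :: encodeNat n := by
  unfold encodeNat
  have e1 : ((2 * n + 1 : ℕ) : Num) = Num.bit1 (n : Num) := by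
    rw [← Num.bit1_of_bit1]; push_cast; ring
  rw [e1]
  cases hn : (n : Num) with
  | zero => rfl
  | pos p => rfl

/-- the `m` lowest bits of a number, least significant bit first -/
def bitsN : ℕ → ℕ → List Bool
  | 0, _ => []
  | m + 1, v => (v % 2 == 1) :: bitsN m (v / 2)

theorem encodeNat_bits {m v u : ℕ} (hv : v < 2 ^ m) (hu : u ≠ 0) :
    encodeNat (v + 2 ^ m * u) = bitsN m v ++ encodeNat u := by
  induction m generalizing v with
  | zero => 
    have : v = 0 := by simpa using hv
    subst this; simp [bitsN]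
  | succ m ih =>
    have h1 : v / 2 < 2 ^ m := by
      rw [pow_succ] at hv; omega
    have h2 : v / 2 + 2 ^ m * u ≠ 0 := by
      have : 0 < 2 ^ m * u := Nat.mul_pos (by positivity) (Nat.pos_of_ne_zero hu)
      omega
    have e : v + 2 ^ (m + 1) * u = 2 * (v / 2 + 2 ^ m * u) + v % 2 := by
      rw [pow_succ]
      have := Nat.div_add_mod v 2
      nlinarith
    rw [bitsN, List.cons_append, ← ih h1, e]
    rcases Nat.mod_two_eq_zero_or_one v with h0 | h0
    · rw [h0, add_zero, encodeNat_two_mul h2]; rfl
    · rw [h0, encodeNat_two_mul_add_one]; rfl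

theorem bitsN_add {m m' v u : ℕ} (hv : v < 2 ^ m) :
    bitsN (m + m') (v + 2 ^ m * u) = bitsN m v ++ bitsN m' u := by
  induction m generalizing v with
  | zero =>
    have : v = 0 := by simpa using hv
    subst this; simp [bitsN]
  | succ m ih =>
    have h1 : v / 2 < 2 ^ m := by
      rw [pow_succ] at hv; omega
    have e1 : (v + 2 ^ (m + 1) * u) % 2 = v % 2 := by
      rw [pow_succ, mul_assoc, mul_comm 2 u, ← mul_assoc]
      omega
    have e2 : (v + 2 ^ (m + 1) * u) / 2 = v / 2 + 2 ^ m * u := by
      rw [pow_succ, mul_assoc, mul_comm 2 u, ← mul_assoc]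
      omega
    rw [show m + 1 + m' = (m + m') + 1 by ring, bitsN, bitsN, List.cons_append, ← ih h1, e1, e2]

theorem bitsN_zero (m : ℕ) : bitsN m 0 = List.replicate m false := by
  induction m with
  | zero => rfl
  | succ m ih => rw [bitsN, List.replicate_succ]; simp [ih]

theorem bitsN_digits {C : ℕ} (w : ℕ) (d : ℕ → ℕ) (hd : ∀ c < C, d c < 2 ^ w) :
    bitsN (w * C) (∑ c ∈ Finset.range C, d c * (2 ^ w) ^ c) =
      (List.range C).flatMap fun c => bitsN w (d c) := by
  induction C with
  | zero => simp [bitsN]
  | succ C ih =>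
    have ih := ih fun c hc => hd c (by omega)
    have hlt : ∑ c ∈ Finset.range C, d c * (2 ^ w) ^ c < 2 ^ (w * C) := by
      clear ih
      have : ∀ C', C' ≤ C → ∑ c ∈ Finset.range C', d c * (2 ^ w) ^ c < 2 ^ (w * C') := by
        intro C'
        induction C' with
        | zero => intro _; simp
        | succ n ihn =>
          intro hn
          rw [Finset.sum_range_succ]
          have h1 := ihn (by omega)
          have h2 := hd n (by omega)
          have h3 : 2 ^ (w * (n + 1)) = 2 ^ w * 2 ^ (w * n) := by rw [← pow_add]; congr 1; ring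
          rw [h3, ← pow_mul]
          nlinarith [Nat.mul_le_mul_right (2 ^ (w * n)) h2]
      exact this C le_rfl
    rw [Finset.sum_range_succ, List.range_succ, List.flatMap_append, ← ih,
      show w * (C + 1) = w * C + w by ring, ← pow_mul,
      show d C * 2 ^ (w * C) = 2 ^ (w * C) * d C by ring, bitsN_add hlt]
    simp

end Pool.Agent.Lib57
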