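import Mathlib
import Pool.Agent.Lib_helper57.CT.EmitLib

/-! Printing numbers, points and polygons. -/

namespace Pool.Agent.Lib57

open Function Computability

/-! ### numbers in unary -/

/-- `p` is a power of two -/
def Pow2 (p : ℕ) : Prop := 0 < p ∧ ∀ d < p + 1, ∀ c < p + 1, d * c = p → d = 1 ∨ ∃ h < d, d = 2 * h

/-- the bit of `f` with weight `p` is set -/
def Bit (p f : ℕ) : Prop := ∃ q < f + 1, ∃ r < p, f = (2 * q + 1) * p + r

theorem pow2_one : Pow2 1 := ⟨Nat.one_pos, fun d _ c _ h => Or.inl (Nat.eq_one_of_mul_eq_one_right h)⟩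

theorem pow2_zero : ¬ Pow2 0 := fun h => absurd h.1 (lt_irrefl 0)

theorem pow2_double {p : ℕ} (hp : 0 < p) : Pow2 (2 * p) ↔ Pow2 p := by
  constructor
  · rintro ⟨-, h⟩
    refine ⟨hp, fun d hd c hc hdc => ?_⟩
    have h1 : d * (2 * c) = 2 * p := by rw [← hdc]; ring
    exact h d (by omega) (2 * c) (by omega) h1
  · rintro ⟨-, h⟩
    refine ⟨by omega, fun d hd c hc hdc => ?_⟩
    by_cases hde : d % 2 = 0
    · have hd0 : d ≠ 0 := by rintro rfl; omega
      exact Or.inr ⟨d / 2, by omega, by omega⟩
    · have hce : c % 2 = 0 := by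
        by_contra hce
        have h1 : (d * c) % 2 = 1 := by
          rw [Nat.mul_mod]
          have h2 : d % 2 = 1 := by omega
          have h3 : c % 2 = 1 := by omega
          rw [h2, h3]
        omega
      obtain ⟨c', rfl⟩ : ∃ c', c = 2 * c' := ⟨c / 2, by omega⟩
      have h1 : d * c' = p := by
        have : 2 * (d * c') = 2 * p := by rw [← hdc]; ring
        omega
      have hd1 : d ≤ p := by
        have hc0 : 0 < c' := by
          rcases Nat.eq_zero_or_pos c' with rfl | h0
          · simp at h1; omega
          · exact h0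
        nlinarith
      have hc1 : c' ≤ p := by
        have hd0 : 0 < d := by
          rcases Nat.eq_zero_or_pos d with rfl | h0
          · simp at h1; omega
          · exact h0
        nlinarith
      exact h d (by omega) c' (by omega) h1

theorem pow2_odd {p : ℕ} (hp : 0 < p) : ¬ Pow2 (2 * p + 1) := by
  rintro ⟨-, h⟩
  rcases h (2 * p + 1) (by omega) 1 (by omega) (by ring) with h1 | ⟨h', -, h1⟩
  · omega
  · omega

theorem bit_one (f : ℕ) : Bit 1 f ↔ f % 2 = 1 := by
  constructor
  · rintro ⟨q, -, r, hr, h⟩
    omega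
  · intro h
    exact ⟨f / 2, by omega, 0, by omega, by omega⟩

theorem bit_double {p f b : ℕ} (hb : b < 2) (hp : 0 < p) : Bit (2 * p) (2 * f + b) ↔ Bit p f := by
  constructor
  · rintro ⟨q, hq, r, hr, h⟩
    refine ⟨q, ?_, r / 2, by omega, ?_⟩
    · have h1 : q ≤ (2 * q + 1) * (2 * p) := by nlinarith
      have h2 : 2 * q ≤ (2 * q + 1) * (2 * p) := by nlinarith
      omega
    · have h3 : (2 * q + 1) * (2 * p) = 2 * ((2 * q + 1) * p) := by ring
      rw [h3] at h
      omega
  · rintro ⟨q, hq, r, hr, h⟩
    refine ⟨q, by omega, 2 * r + b, by omega, ?_⟩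
    have h3 : (2 * q + 1) * (2 * p) = 2 * ((2 * q + 1) * p) := by ring
    rw [h3]
    omega

theorem range_two_mul_flatMap {β : Type*} (n : ℕ) (F : ℕ → List β) :
    (List.range (2 * n)).flatMap F =
      (List.range n).flatMap fun p => F (2 * p) ++ F (2 * p + 1) := by
  induction n with
  | zero => simp
  | succ n ih =>
    rw [show 2 * (n + 1) = 2 * n + 1 + 1 by ring, List.range_succ, List.range_succ,
      List.range_succ, List.flatMap_append, List.flatMap_append, List.flatMap_append, ih]
    simp

open Classical in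
theorem encodeNat_eq (f : ℕ) : encodeNat f = (List.range (f + 1)).flatMap fun p =>
    if Pow2 p then [dec (Bit p f)] else [] := by
  induction f using Nat.strong_induction_on with
  | _ f ih =>
    rcases Nat.eq_zero_or_pos f with rfl | hf
    · simp [encodeNat_zero, pow2_zero]
    obtain ⟨h, b, hb, rfl⟩ : ∃ h b, b < 2 ∧ f = 2 * h + b :=
      ⟨f / 2, f % 2, Nat.mod_lt _ (by norm_num), by omega⟩
    set G : ℕ → List Bool := fun p => if Pow2 p then [dec (Bit p (2 * h + b))] else [] with hG
    have hodd : ∀ p, 0 < p → G (2 * p + 1) = [] := fun p hp => by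
      simp [hG, pow2_odd hp]
    have h1 : (List.range (2 * h + b + 1)).flatMap G =
        (List.range (2 * (h + 1))).flatMap G := by
      rcases (by omega : b = 0 ∨ b = 1) with rfl | rfl
      · rw [show 2 * (h + 1) = (2 * h + 0 + 1) + 1 by ring, List.range_succ (n := 2 * h + 0 + 1),
          List.flatMap_append]
        have := hodd h (by omega)
        simp [this]
      · rfl
    rw [h1, range_two_mul_flatMap, List.range_succ_eq_map, List.flatMap_cons, List.flatMap_map]
    have h0 : G (2 * 0) ++ G (2 * 0 + 1) = [dec ((2 * h + b) % 2 = 1)] := by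
      have e1 : Bit 1 (2 * h + b) ↔ (2 * h + b) % 2 = 1 := bit_one _
      simp [hG, pow2_zero, pow2_one, dec_congr e1]
    rw [h0]
    have h2 : ∀ p, G (2 * (p + 1)) ++ G (2 * (p + 1) + 1) =
        if Pow2 (p + 1) then [dec (Bit (p + 1) h)] else [] := by
      intro p
      rw [hodd (p + 1) (by omega), List.append_nil]
      simp only [hG, pow2_double (Nat.succ_pos p), dec_congr (bit_double hb (Nat.succ_pos p))]
    have h3 : (List.range h).flatMap (fun p => G (2 * (p + 1)) ++ G (2 * (p + 1) + 1)) =
        (List.range (h + 1)).flatMap fun p => if Pow2 p then [dec (Bit p h)] else [] := by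
      rw [List.range_succ_eq_map, List.flatMap_cons, List.flatMap_map]
      simp only [pow2_zero, if_false, List.nil_append]
      congr 1
      funext p
      exact h2 p
    have h4 : (List.range h).flatMap (fun a => G (2 * Nat.succ a) ++ G (2 * Nat.succ a + 1)) =
        (List.range h).flatMap (fun p => G (2 * (p + 1)) ++ G (2 * (p + 1) + 1)) := rfl
    rw [h4, h3]
    rcases (by omega : b = 0 ∨ b = 1) with rfl | rfl
    · rw [add_zero, encodeNat_two_mul (by omega), ih h (by omega), dec_neg (by omega)]
      rfl
    · rw [encodeNat_two_mul_add_one, ih h (by omega), dec_pos (by omega)]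
      rfl

theorem form_pow2 {k : ℕ} {f : List Bool → (ℕ → ℕ) → ℕ} (hf : IsTerm k f) :
    IsForm k (fun x e => Pow2 (f x e)) := by
  have hbig : IsForm (k + 2) (fun x e => e k * e (k + 1) = f x e → e k = 1 ∨
      ∃ h < e k, e k = 2 * h) := by
    have h1 : IsForm (k + 3) (fun x e => e k = 2 * e (k + 2)) :=
      IsForm.eq (IsTerm.var (by omega)) ((IsTerm.const _ 2).mul (IsTerm.var (by omega)))
    have h2 := IsForm.ex (k := k + 2) (b := fun _ e => e k) (IsTerm.var (by omega)) h1
    refine (IsForm.imp (IsForm.eq ((IsTerm.var (i := k) (by omega)).mul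
      (IsTerm.var (i := k + 1) (by omega)))
      (hf.weaken (by omega))) ((IsForm.eq (IsTerm.var (i := k) (by omega))
        (IsTerm.const _ 1)).or h2)).congr fun x e => ?_
    simp
  have h3 := IsForm.all (k := k + 1) (b := fun x e => f x e + 1)
    ((hf.weaken (by omega)).add (IsTerm.const _ 1)) hbig
  have h4 := IsForm.all (k := k) (b := fun x e => f x e + 1) (hf.add (IsTerm.const _ 1)) h3
  refine ((IsForm.lt (IsTerm.const k 0) hf).and h4).congr fun x e => ?_
  have hind : ∀ a b, f x (update (update e k a) (k + 1) b) = f x e := fun a b =>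
    hf.indep _ _ _ fun i hi => by
      rw [Function.update_of_ne (by omega), Function.update_of_ne (by omega)]
  have hind' : ∀ a, f x (update e k a) = f x e := fun a =>
    hf.indep _ _ _ fun i hi => by rw [Function.update_of_ne (by omega)]
  simp [Pow2, hind, hind']

theorem form_bit {k : ℕ} {p f : List Bool → (ℕ → ℕ) → ℕ} (hp : IsTerm k p) (hf : IsTerm k f) :
    IsForm k (fun x e => Bit (p x e) (f x e)) := by
  have h1 : IsForm (k + 2) (fun x e => f x e = (2 * e k + 1) * p x e + e (k + 1)) :=
    IsForm.eq (hf.weaken (by omega)) (((((IsTerm.const _ 2).mul (IsTerm.var (by omega))).add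
      (IsTerm.const _ 1)).mul (hp.weaken (by omega))).add (IsTerm.var (by omega)))
  have h2 := IsForm.ex (k := k + 1) (b := fun x e => p x e) (hp.weaken (by omega)) h1
  have h3 := IsForm.ex (k := k) (b := fun x e => f x e + 1) (hf.add (IsTerm.const _ 1)) h2
  refine h3.congr fun x e => ?_
  have hind : ∀ a b, f x (update (update e k a) (k + 1) b) = f x e := fun a b =>
    hf.indep _ _ _ fun i hi => by
      rw [Function.update_of_ne (by omega), Function.update_of_ne (by omega)]
  have hind2 : ∀ a b, p x (update (update e k a) (k + 1) b) = p x e := fun a b =>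
    hp.indep _ _ _ fun i hi => by
      rw [Function.update_of_ne (by omega), Function.update_of_ne (by omega)]
  have hind' : ∀ a, p x (update e k a) = p x e := fun a =>
    hp.indep _ _ _ fun i hi => by rw [Function.update_of_ne (by omega)]
  simp [Bit, hind, hind2, hind']

/-- a number given by a term can be printed in binary -/
theorem IsE.nat {k : ℕ} {f : List Bool → (ℕ → ℕ) → ℕ} (hf : IsTerm k f) :
    IsE k (fun x e => encodeNat (f x e)) := by
  classical
  have h1 : IsE (k + 1) (fun x e => if Pow2 (e k) then [Pool.Agent.Lib57.dec (Bit (e k) (f x e))] else []) :=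
    IsE.ite (form_pow2 (IsTerm.var (i := k) (by omega)))
      (IsE.dec (form_bit (IsTerm.var (i := k) (by omega)) (hf.weaken (by omega)))) (IsE.word _ [])
  refine (IsE.for (hf.add (IsTerm.const k 1)) h1).congr fun x e => ?_
  rw [encodeNat_eq]
  have hind' : ∀ a, f x (update e k a) = f x e := fun a =>
    hf.indep _ _ _ fun i hi => by rw [Function.update_of_ne (by omega)]
  simp only [hind', Function.update_self]

/-! ### fixed width -/

/-- the lowest `w` bits of a term -/
theorem IsE.bits {k : ℕ} {f : List Bool → (ℕ → ℕ) → ℕ} (w : ℕ) (hf : IsTerm k f) :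
    IsE k (fun x e => bitsN w (f x e)) := by
  have key : ∀ v, bitsN w v = (List.range w).flatMap fun j => [Pool.Agent.Lib57.dec (Bit (2 ^ j) v)] := by
    induction w with
    | zero => intro v; rfl
    | succ w ih =>
      intro v
      rw [List.range_succ_eq_map, List.flatMap_cons, List.flatMap_map, bitsN, ih]
      have e0 : Pool.Agent.Lib57.dec (Bit (2 ^ 0) v) = (v % 2 == 1) := by
        rw [pow_zero]
        rcases Nat.mod_two_eq_zero_or_one v with h | h
        · rw [dec_neg (by rw [bit_one]; omega), h]; rfl
        · rw [dec_pos ((bit_one v).2 h), h]; rfl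
      rw [e0, List.singleton_append]
      congr 2
      funext j
      obtain ⟨u, b, hb, rfl⟩ : ∃ h b, b < 2 ∧ v = 2 * h + b :=
        ⟨v / 2, v % 2, Nat.mod_lt _ (by norm_num), by omega⟩
      have e1 : (2 * u + b) / 2 = u := by omega
      have e2 : 2 ^ (Nat.succ j) = 2 * 2 ^ j := by rw [Nat.succ_eq_add_one, pow_succ]; ring
      rw [e1, e2, dec_congr (bit_double hb (by positivity))]
  refine (IsE.list (List.range w) (F := fun j x e => [Pool.Agent.Lib57.dec (Bit (2 ^ j) (f x e))])
    fun j _ => IsE.dec (form_bit (IsTerm.const k (2 ^ j)) hf)).congr fun x e => ?_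
  exact (key _).symm

/-- a block of equal bits whose length is a term -/
theorem IsE.replicate {k : ℕ} {m : List Bool → (ℕ → ℕ) → ℕ} (hm : IsTerm k m) (b : Bool) :
    IsE k (fun x e => List.replicate (m x e) b) := by
  refine (IsE.for hm (IsE.word (k + 1) [b])).congr fun x e => ?_
  generalize m x e = n
  induction n with
  | zero => rfl
  | succ n ih => rw [List.range_succ, List.flatMap_append, ih, List.replicate_succ']; rfl

/-- bits of a number, then a positive number given by a term -/
theorem IsE.natBits {k : ℕ} {m : List Bool → (ℕ → ℕ) → ℕ} {v u : List Bool → (ℕ → ℕ) → ℕ}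
    (hv : ∀ x e, v x e < 2 ^ m x e) (hE : IsE k fun x e => bitsN (m x e) (v x e))
    (hu : IsTerm k u) (hu0 : ∀ x e, u x e ≠ 0) :
    IsE k (fun x e => encodeNat (v x e + 2 ^ m x e * u x e)) :=
  (hE.append (IsE.nat hu)).congr fun x e => (encodeNat_bits (hv x e) (hu0 x e)).symm

end Pool.Agent.Lib57
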