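import Mathlib
import Pool.Agent.Lib_helper57.CT.Geo
import Pool.Agent.Lib_helper57.CT.EmitNum

/-! The integer instance. -/

namespace Pool.Agent.Lib57.CT

open Computability

/-! ### the coordinates -/

/-- first coordinates of the vertices of `P` -/
def xP (N : ℕ) : Kd → ℕ
  | .B => 64
  | .p j => 128 * j + 128
  | .E => 128 * N + 192
  | .H j => 128 * j + 136
  | .G i => 128 * i + 194
  | .F i => 128 * i + 193
  | .T i => 128 * i + 184
  | .C i => 128 * i + 176
  | .A i => 128 * i + 160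

/-- high parts of the negatives of the second coordinates of the vertices of `P` -/
def hP (N : ℕ) : Kd → ℕ
  | .B => 64
  | .p j => 96 + 64 * (j + 1) * j
  | .E => 63 + 64 * (N + 1) * (N + 1)
  | .H j => 91 + (j + 1) * (64 * j + 8)
  | .G i => 64 + (i + 1) * (64 * i + 66)
  | .F i => 64 + (i + 1) * (64 * i + 65)
  | .T i => 32 + (i + 1) * (64 * i + 56)
  | .C i => 64 + (i + 1) * (64 * i + 48)
  | .A i => 64 + (i + 1) * (64 * i + 32)

/-- low parts -/
def lP (m S : ℕ) (a : ℕ → ℕ) : Kd → ℕ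
  | .E => 2 ^ m - 1 - 2 * S
  | .G i => a i
  | .F i => a i
  | _ => 0

/-- the first polygon, rational coordinates -/
def gP (N m S : ℕ) (a : ℕ → ℕ) (κ : Kd) : ℚ × ℚ :=
  ((xP N κ : ℚ), -((lP m S a κ + 2 ^ m * hP N κ : ℕ) : ℚ))

/-- first coordinates of the vertices of `Q` -/
def xQ (N : ℕ) : Kd → ℕ
  | .B => 16
  | .p j => 16 * j + 144
  | .E => 16 * N + 100
  | .H j => 16 * j + 40
  | .G i => 16 * i + 52
  | .F i => 16 * i + 50
  | .T i => 16 * i + 47
  | .C i => 16 * i + 46
  | .A i => 16 * i + 44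

/-- high parts of the second coordinates of the vertices of `Q` -/
def hQ (N : ℕ) : Kd → ℕ
  | .B => 1408
  | .p j => 128 * (j * j + 22 * j + 109)
  | .E => 128 * (N * N) + 2112 * N + 8672
  | .H j => 128 * (j * j) + 1152 * j + 4160
  | .G i => 128 * ((i + 1) * (i + 1)) + 1088 * (i + 1) + 3872
  | .F i => 128 * ((i + 1) * (i + 1)) + 1056 * (i + 1) + 3728
  | .T i => 128 * (i * i) + 1264 * i + 4668
  | .C i => 128 * (i * i) + 1248 * i + 4593
  | .A i => 128 * (i * i) + 1216 * i + 4448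

/-- low parts -/
def lQ (s S1 : ℕ) (a : ℕ → ℕ) : Kd → ℕ
  | .E => 2 ^ s + 2 ^ (s + 1) * (55 * S1)
  | .G _ => 1
  | .F i => 2 + 2 ^ (s + 4) * a i
  | _ => 0

/-- the second polygon, rational coordinates -/
def gQ (N m s S1 : ℕ) (a : ℕ → ℕ) : Kd → ℚ × ℚ
  | .B => ((16 : ℕ), -((2 ^ m * 1408 : ℕ) : ℚ))
  | κ => ((xQ N κ : ℚ), ((lQ s S1 a κ + 2 ^ m * hQ N κ : ℕ) : ℚ))

/-- the first polygon of the instance -/
def instP (N m S : ℕ) (a : ℕ → ℕ) : Fin (nV N) → ℚ × ℚ := fun v => gP N m S a (kd N v)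

/-- the second polygon of the instance -/
def instQ (N m s S1 : ℕ) (a : ℕ → ℕ) : Fin (nV N) → ℚ × ℚ := fun v => gQ N m s S1 a (kd N v)

/-- parameters -/
noncomputable def DP (m : ℕ) : ℝ := 32 * 2 ^ m
noncomputable def DQ (m : ℕ) : ℝ := 128 * 2 ^ m
noncomputable def wP (m S : ℕ) : ℝ := (2 * S + 1) / DP m
noncomputable def dP (m : ℕ) (a : ℕ → ℕ) : ℕ → ℝ := fun i => a i / DP m
noncomputable def bQ (m : ℕ) : ℝ := 1 / DQ m
noncomputable def ψQ (m s S1 : ℕ) : ℝ := 4 / 11 * (2 ^ s * (1 + 110 * S1)) / DQ m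
noncomputable def gQ' (m s : ℕ) (a : ℕ → ℕ) : ℕ → ℝ := fun i => 2 ^ (s + 4) * a i / DQ m

theorem DP_pos (m : ℕ) : 0 < DP m := by unfold DP; positivity
theorem DQ_pos (m : ℕ) : 0 < DQ m := by unfold DQ; positivity

theorem toPts_instP {N m S : ℕ} {a : ℕ → ℕ} (hS : 2 * S + 1 ≤ 2 ^ m) :
    toPts (instP N m S a) = PP N (DP m) (wP m S) (dP m a) := by
  funext v
  unfold toPts instP PP
  have hD := DP_pos m
  have hD' : DP m = 32 * 2 ^ m := rfl
  have e1 : DP m * (1 / DP m) = 1 := by field_simp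
  cases hk : kd N v.val with
  | B => ext <;> simp [gP, xP, hP, lP, posP, fP, hD'] <;> ring
  | p j => ext <;> simp [gP, xP, hP, lP, posP, fP, hD'] <;> ring
  | E =>
    ext
    · simp [gP, xP, hP, lP, posP, fP, hD']; ring
    · have h1 : ((2 ^ m - 1 - 2 * S : ℕ) : ℝ) = 2 ^ m - 1 - 2 * S := by
        rw [Nat.cast_sub (by omega), Nat.cast_sub (by omega)]; push_cast; ring
      have h2 : DP m * wP m S = 2 * S + 1 := by unfold wP; field_simp
      simp only [gP, hP, lP, posP, fP]
      push_cast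
      rw [h1]
      have h3 : DP m * (1 + wP m S - 3 - 2 * ((N : ℝ) + 1) * 0 - 2 * ((N : ℝ) + 1) ^ 2) =
          DP m * (1 - 3 - 2 * ((N : ℝ) + 1) ^ 2) + DP m * wP m S := by ring
      rw [h3, h2, hD']
      ring
  | H j => ext <;> simp [gP, xP, hP, lP, posP, fP, hD'] <;> ring
  | G i =>
    ext
    · simp [gP, xP, hP, lP, posP, fP, hD']; ring
    · have h2 : DP m * dP m a i = a i := by unfold dP; field_simp
      simp only [gP, hP, lP, posP, fP]
      push_cast
      have h3 : DP m * (1 - dP m a i - 3 - 2 * ((i : ℝ) + 1) * (1 / 32) - 2 * ((i : ℝ) + 1) ^ 2) =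
          DP m * (1 - 3 - 2 * ((i : ℝ) + 1) * (1 / 32) - 2 * ((i : ℝ) + 1) ^ 2)
            - DP m * dP m a i := by ring
      rw [h3, h2, hD']
      ring
  | F i =>
    ext
    · simp [gP, xP, hP, lP, posP, fP, hD']; ring
    · have h2 : DP m * dP m a i = a i := by unfold dP; field_simp
      simp only [gP, hP, lP, posP, fP]
      push_cast
      have h3 : DP m * (1 - dP m a i - 3 - 2 * ((i : ℝ) + 1) * (1 / 64) - 2 * ((i : ℝ) + 1) ^ 2) =
          DP m * (1 - 3 - 2 * ((i : ℝ) + 1) * (1 / 64) - 2 * ((i : ℝ) + 1) ^ 2)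
            - DP m * dP m a i := by ring
      rw [h3, h2, hD']
      ring
  | T i => ext <;> simp [gP, xP, hP, lP, posP, fP, hD'] <;> ring
  | C i => ext <;> simp [gP, xP, hP, lP, posP, fP, hD'] <;> ring
  | A i => ext <;> simp [gP, xP, hP, lP, posP, fP, hD'] <;> ring

theorem toPts_instQ {N m s S1 : ℕ} {a : ℕ → ℕ} :
    toPts (instQ N m s S1 a) = QQ N (DQ m) (bQ m) (ψQ m s S1) (gQ' m s a) := by
  funext v
  unfold toPts instQ QQ
  have hD := DQ_pos m
  have hD' : DQ m = 128 * 2 ^ m := rfl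
  have hb : DQ m * bQ m = 1 := by unfold bQ; field_simp
  cases hk : kd N v.val with
  | B => ext <;> simp [gQ, posQ, fQ, hD'] <;> ring
  | p j => ext <;> simp [gQ, xQ, hQ, lQ, posQ, fQ, hD'] <;> ring
  | E =>
    ext
    · simp [gQ, xQ, hQ, lQ, posQ, fQ, hD']; ring
    · have h2 : DQ m * ψQ m s S1 = 4 / 11 * (2 ^ s * (1 + 110 * S1)) := by
        unfold ψQ; field_simp
      simp only [gQ, hQ, lQ, posQ, fQ]
      push_cast
      have h3 : DQ m * (-1 / 4 + 11 / 4 * ψQ m s S1 + 2 * ((N : ℝ) + 8) * (1 / 4)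
          + ((N : ℝ) + 8) ^ 2) = DQ m * (-1 / 4 + 2 * ((N : ℝ) + 8) * (1 / 4)
          + ((N : ℝ) + 8) ^ 2) + 11 / 4 * (DQ m * ψQ m s S1) := by ring
      rw [h3, h2, hD']
      ring
  | H j => ext <;> simp [gQ, xQ, hQ, lQ, posQ, fQ, hD'] <;> ring
  | G i =>
    ext
    · simp [gQ, xQ, hQ, lQ, posQ, fQ, hD']; ring
    · simp only [gQ, hQ, lQ, posQ, fQ]
      push_cast
      have h3 : DQ m * (105 / 4 + bQ m + 2 * ((i : ℝ) + 1 + 8) * (-15 / 4)
          + ((i : ℝ) + 1 + 8) ^ 2) = DQ m * (105 / 4 + 2 * ((i : ℝ) + 1 + 8) * (-15 / 4)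
          + ((i : ℝ) + 1 + 8) ^ 2) + DQ m * bQ m := by ring
      rw [h3, hb, hD']
      ring
  | F i =>
    ext
    · simp [gQ, xQ, hQ, lQ, posQ, fQ, hD']; ring
    · have h2 : DQ m * gQ' m s a i = 2 ^ (s + 4) * a i := by unfold gQ'; field_simp
      simp only [gQ, hQ, lQ, posQ, fQ]
      push_cast
      have h3 : DQ m * (217 / 8 + 2 * bQ m + gQ' m s a i + 2 * ((i : ℝ) + 1 + 8) * (-31 / 8)
          + ((i : ℝ) + 1 + 8) ^ 2) = DQ m * (217 / 8 + 2 * ((i : ℝ) + 1 + 8) * (-31 / 8)
          + ((i : ℝ) + 1 + 8) ^ 2) + 2 * (DQ m * bQ m) + DQ m * gQ' m s a i := by ring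
      rw [h3, hb, h2, hD']
      ring
  | T i => ext <;> simp [gQ, xQ, hQ, lQ, posQ, fQ, hD'] <;> ring
  | C i => ext <;> simp [gQ, xQ, hQ, lQ, posQ, fQ, hD'] <;> ring
  | A i => ext <;> simp [gQ, xQ, hQ, lQ, posQ, fQ, hD'] <;> ring

/-! ### the list of vertices -/

theorem map_range_add {α : Type*} (F : ℕ → α) (a b : ℕ) :
    (List.range (a + b)).map F = (List.range a).map F ++ (List.range b).map fun j => F (a + j) := by
  rw [List.range_add, List.map_append, List.map_map]; rfl

theorem map_range_six {α : Type*} (F : ℕ → α) (n : ℕ) :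
    (List.range (6 * n)).map F = (List.range n).flatMap fun q =>
      [F (6 * q), F (6 * q + 1), F (6 * q + 2), F (6 * q + 3), F (6 * q + 4), F (6 * q + 5)] := by
  induction n with
  | zero => simp
  | succ n ih =>
    rw [show 6 * (n + 1) = 6 * n + 6 by ring, map_range_add, ih, List.range_succ (n := n),
      List.flatMap_append]
    simp [List.range_succ]

theorem kd_room {N q r : ℕ} (hq : q < N) (hr : r < 6) :
    kd N (N + 3 + (6 * q + r)) = if r = 0 then .H (N - q) else if r = 1 then .G (N - 1 - q) else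
      if r = 2 then .F (N - 1 - q) else if r = 3 then .T (N - 1 - q) else
      if r = 4 then .C (N - 1 - q) else .A (N - 1 - q) := by
  unfold kd
  have e0 : N + 3 + (6 * q + r) - (N + 3) = 6 * q + r := by omega
  have e1 : (6 * q + r) % 6 = r := by omega
  have e2 : (6 * q + r) / 6 = q := by omega
  rw [if_neg (by omega), if_neg (by omega), if_neg (by omega), e0, e1, e2]

/-- the vertices in cyclic order -/
theorem ofFn_layout {α : Type*} (N : ℕ) (g : Kd → α) :
    List.ofFn (fun v : Fin (nV N) => g (kd N v)) =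
      [g .B] ++ ((List.range (N + 1)).map (fun j => g (.p j)) ++ ([g .E] ++
        ((List.range N).flatMap (fun q => [g (.H (N - q)), g (.G (N - 1 - q)),
          g (.F (N - 1 - q)), g (.T (N - 1 - q)), g (.C (N - 1 - q)), g (.A (N - 1 - q))]) ++
            [g (.H 0)]))) := by
  have h0 : List.ofFn (fun v : Fin (nV N) => g (kd N v)) =
      (List.range (nV N)).map fun k => g (kd N k) := by
    rw [List.ofFn_eq_map, ← List.map_coe_finRange_eq_range, List.map_map]; rfl
  rw [h0, show nV N = 1 + ((N + 1) + (1 + (6 * N + 1))) by unfold nV; ring,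
    map_range_add _ 1 _, map_range_add _ (N + 1) _, map_range_add _ 1 (6 * N + 1),
    map_range_add _ (6 * N) 1, map_range_six]
  congr 1
  congr 1
  · apply List.map_congr_left
    intro j hj
    have : j < N + 1 := List.mem_range.1 hj
    have e : kd N (1 + j) = .p j := by
      unfold kd
      rw [if_neg (by omega), if_pos (by omega)]; congr 1; omega
    rw [e]
  congr 1
  · simp only [List.range_one, List.map_cons, List.map_nil]
    have e : kd N (1 + (N + 1 + 0)) = .E := by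
      unfold kd
      rw [if_neg (by omega), if_neg (by omega), if_pos (by omega)]
    rw [e]
  congr 1
  · apply List.flatMap_congr
    intro q hq
    have hq' : q < N := List.mem_range.1 hq
    have e : ∀ r, 1 + (N + 1 + (1 + (6 * q + r))) = N + 3 + (6 * q + r) := fun r => by omega
    have e0 := e 0
    rw [add_zero] at e0
    have k0 := kd_room (r := 0) hq' (by norm_num)
    rw [add_zero] at k0
    rw [e0, e 1, e 2, e 3, e 4, e 5, k0, kd_room hq' (by norm_num), kd_room hq' (by norm_num),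
      kd_room hq' (by norm_num), kd_room hq' (by norm_num), kd_room hq' (by norm_num)]
    simp
  · simp only [List.range_one, List.map_cons, List.map_nil]
    have e : kd N (1 + (N + 1 + (1 + (6 * N + 0)))) = .H 0 := by
      unfold kd
      rw [if_neg (by omega), if_neg (by omega), if_neg (by omega), if_pos (by omega)]
      congr 1; omega
    rw [e]

end Pool.Agent.Lib57.CT
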