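import Mathlib
import Pool.Agent.Lib_helper57.CT.EmitNum
import Pool.Agent.Lib_helper57.CT.Rat

/-! Printing rational numbers, points and the two polygons. -/

namespace Pool.Agent.Lib57.CT

open Function Computability N487b59b3

theorem bitEncode_nat (n : ℕ) : bitEncode n = encodeNat n := rfl

theorem bitEncode_natQ (n : ℕ) :
    bitEncode ((n : ℕ) : ℚ) = delimit (delimit (encodeNat n)) ++ [true] := by
  have h1 : bitEncode ((n : ℕ) : ℚ) = delimit (delimit (encodeNat ((n : ℕ) : ℚ).num.toNat) ++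
    encodeNat (-((n : ℕ) : ℚ).num).toNat) ++ encodeNat ((n : ℕ) : ℚ).den := rfl
  rw [h1, Rat.num_natCast, Rat.den_natCast, Int.toNat_natCast]
  have h2 : (-(n : ℤ)).toNat = 0 := by omega
  rw [h2, encodeNat_zero, encodeNat_one, List.append_nil]

theorem bitEncode_negQ (n : ℕ) :
    bitEncode (-((n : ℕ) : ℚ)) = delimit ([false] ++ encodeNat n) ++ [true] := by
  have h1 : bitEncode (-((n : ℕ) : ℚ)) =
    delimit (delimit (encodeNat (-((n : ℕ) : ℚ)).num.toNat) ++
    encodeNat (-(-((n : ℕ) : ℚ)).num).toNat) ++ encodeNat (-((n : ℕ) : ℚ)).den := rfl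
  rw [h1, Rat.neg_num, Rat.neg_den, Rat.num_natCast, Rat.den_natCast, neg_neg,
    Int.toNat_natCast]
  have h2 : (-(n : ℤ)).toNat = 0 := by omega
  rw [h2, encodeNat_zero, encodeNat_one]
  rfl

variable {k : ℕ}

theorem IsE.natQ {f : List Bool → (ℕ → ℕ) → ℕ} (h : IsE k fun x e => encodeNat (f x e)) :
    IsE k (fun x e => bitEncode ((f x e : ℕ) : ℚ)) :=
  (h.delimit.delimit.append (IsE.word k [true])).congr fun x e => (bitEncode_natQ _).symm

theorem IsE.negQ {f : List Bool → (ℕ → ℕ) → ℕ} (h : IsE k fun x e => encodeNat (f x e)) :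
    IsE k (fun x e => bitEncode (-((f x e : ℕ) : ℚ))) :=
  ((((IsE.word k [false]).append h).delimit).append (IsE.word k [true])).congr fun x e =>
    (bitEncode_negQ _).symm

theorem IsE.pair {f g : List Bool → (ℕ → ℕ) → ℚ} (hf : IsE k fun x e => bitEncode (f x e))
    (hg : IsE k fun x e => bitEncode (g x e)) :
    IsE k (fun x e => delimit (bitEncode ((f x e, g x e) : ℚ × ℚ))) :=
  ((hf.delimit).append hg).delimit

/-- a vertex with negative second coordinate -/
theorem emit_neg {X l h m : List Bool → (ℕ → ℕ) → ℕ} (hX : IsTerm k X)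
    (hl : ∀ x e, l x e < 2 ^ m x e) (hE : IsE k fun x e => bitsN (m x e) (l x e))
    (hh : IsTerm k h) (hh0 : ∀ x e, h x e ≠ 0) :
    IsE k (fun x e => delimit (bitEncode
      (((X x e : ℚ), -((l x e + 2 ^ m x e * h x e : ℕ) : ℚ)) : ℚ × ℚ))) :=
  IsE.pair (IsE.natQ (IsE.nat hX)) (IsE.negQ (IsE.natBits hl hE hh hh0))

/-- a vertex with positive second coordinate -/
theorem emit_pos {X l h m : List Bool → (ℕ → ℕ) → ℕ} (hX : IsTerm k X)
    (hl : ∀ x e, l x e < 2 ^ m x e) (hE : IsE k fun x e => bitsN (m x e) (l x e))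
    (hh : IsTerm k h) (hh0 : ∀ x e, h x e ≠ 0) :
    IsE k (fun x e => delimit (bitEncode
      (((X x e : ℚ), ((l x e + 2 ^ m x e * h x e : ℕ) : ℚ)) : ℚ × ℚ))) :=
  IsE.pair (IsE.natQ (IsE.nat hX)) (IsE.natQ (IsE.natBits hl hE hh hh0))

/-- the text of a list of points -/
theorem bitEncode_list (l : List (ℚ × ℚ)) :
    bitEncode l = l.flatMap fun p => delimit (bitEncode p) := by
  show ((l.map bitEncode).map delimit).flatten = _
  rw [List.map_map, List.flatMap_def]; rfl

end Pool.Agent.Lib57.CT
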