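import Mathlib
import Pool.Agent.Lib_helper57.Blocks

/-! The subset sum instance of a definable CNF. -/

namespace Pool.Agent.Lib57.CT

/-- number of kinds of columns -/
def nR (D : DCNF) : ℕ := D.A + D.pats.length

/-- number of kinds of items -/
def nI (D : DCNF) : ℕ := 2 * D.A + 4 * D.pats.length

/-- number of columns; the column `(t, i, r)` has the number `(t * H + i) * nR + r` -/
def nCol (D : DCNF) (x : List Bool) : ℕ := D.T x * D.H x * nR D

/-- number of items; the item `(t, i, s)` has the number `(t * H + i) * nI + s` -/
def nItem (D : DCNF) (x : List Bool) : ℕ := D.T x * D.H x * nI D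

/-- the digits of the slack items -/
def slk (π : Pat) (k : ℕ) : ℕ := if π.lits.length = 0 then (if k = 0 then 2 else 0) else 1

open Classical in
/-- The digit of the item `(t, i, s)` in the column `(t', i', r)`. The items with `s = 2 a + 1`
and `s = 2 a` (`a < A`) are the two literals of the variable `(t, i, a)`, the other items are
slack items, four for each pattern. The columns with `r < A` belong to the variables, the others
to the clauses. -/
noncomputable def dig (D : DCNF) (x : List Bool) (t i s t' i' r : ℕ) : ℕ :=
  if r < D.A then (if t = t' ∧ i = i' ∧ s < 2 * D.A ∧ s / 2 = r then 1 else 0) else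
    match D.pats[r - D.A]? with
    | none => 0
    | some π => if π.guard x t' i' then
        (if s < 2 * D.A then (π.lits.map fun l => if t' + l.dt = t ∧ l.pos i' = i ∧
            l.code = s / 2 ∧ l.sign = (s % 2 == 1) then 1 else 0).sum
          else if t = t' ∧ i = i' ∧ (s - 2 * D.A) / 4 = r - D.A then
            slk π ((s - 2 * D.A) % 4) else 0) else 0

open Classical in
/-- digits of the target -/
noncomputable def sdg (D : DCNF) (x : List Bool) (t' i' r : ℕ) : ℕ :=
  if r < D.A then 1 else
    match D.pats[r - D.A]? with
    | none => 0
    | some π => if π.guard x t' i' then (if π.lits.length = 0 then 1 else 5) else 0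

open Classical in
/-- digits of the complementary target -/
noncomputable def s1dg (D : DCNF) (x : List Bool) (t' i' r : ℕ) : ℕ :=
  if r < D.A then 1 else
    match D.pats[r - D.A]? with
    | none => 0
    | some π => if π.guard x t' i' then
        (if π.lits.length = 0 then 1 else π.lits.length - 1) else 0

/-- digits of the `j`-th item in the `c`-th column -/
noncomputable def digN (D : DCNF) (x : List Bool) (j c : ℕ) : ℕ :=
  dig D x (j / nI D / D.H x) (j / nI D % D.H x) (j % nI D)
    (c / nR D / D.H x) (c / nR D % D.H x) (c % nR D)

/-- value of the `j`-th item -/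
noncomputable def av (D : DCNF) (x : List Bool) (j : ℕ) : ℕ :=
  ∑ c ∈ Finset.range (nCol D x), digN D x j c * 256 ^ c

/-- the target -/
noncomputable def tS (D : DCNF) (x : List Bool) : ℕ :=
  ∑ c ∈ Finset.range (nCol D x),
    sdg D x (c / nR D / D.H x) (c / nR D % D.H x) (c % nR D) * 256 ^ c

/-- the complementary target -/
noncomputable def tS1 (D : DCNF) (x : List Bool) : ℕ :=
  ∑ c ∈ Finset.range (nCol D x),
    s1dg D x (c / nR D / D.H x) (c / nR D % D.H x) (c % nR D) * 256 ^ c

end Pool.Agent.Lib57.CT
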