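import Mathlib
import Pool.Agent.Lib_helper57.CT.SubDef

/-! BLOCK SUBSET: the subset sum instance expresses satisfiability. -/

namespace Pool.Agent.Lib57.CT

open Finset

/-! ### weighted sums over the items -/

/-- Dirac function of an item -/
def subset_dl (t i s t0 i0 s0 : ℕ) : ℕ := if t = t0 ∧ i = i0 ∧ s = s0 then 1 else 0

/-- weighted sum over all items -/
def subset_W (T H n : ℕ) (w F : ℕ → ℕ → ℕ → ℕ) : ℕ :=
  ∑ t ∈ range T, ∑ i ∈ range H, ∑ s ∈ range n, w t i s * F t i s

theorem subset_W_add (T H n : ℕ) (w F G : ℕ → ℕ → ℕ → ℕ) :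
    subset_W T H n w (fun t i s => F t i s + G t i s) =
      subset_W T H n w F + subset_W T H n w G := by
  unfold subset_W
  simp only [mul_add, Finset.sum_add_distrib]

theorem subset_W_zero (T H n : ℕ) (w : ℕ → ℕ → ℕ → ℕ) :
    subset_W T H n w (fun _ _ _ => 0) = 0 := by
  unfold subset_W
  simp

theorem subset_W_smul (T H n : ℕ) (w F : ℕ → ℕ → ℕ → ℕ) (c : ℕ) :
    subset_W T H n w (fun t i s => c * F t i s) = c * subset_W T H n w F := by
  unfold subset_W
  simp only [Finset.mul_sum]
  refine Finset.sum_congr rfl fun t _ => Finset.sum_congr rfl fun i _ =>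
    Finset.sum_congr rfl fun s _ => ?_
  ring

theorem subset_W_list {α : Type*} (T H n : ℕ) (w : ℕ → ℕ → ℕ → ℕ) (L : List α)
    (F : α → ℕ → ℕ → ℕ → ℕ) :
    subset_W T H n w (fun t i s => (L.map fun l => F l t i s).sum) =
      (L.map fun l => subset_W T H n w (F l)).sum := by
  induction L with
  | nil => simp [subset_W_zero]
  | cons a L ih =>
    simp only [List.map_cons, List.sum_cons]
    rw [subset_W_add, ih]

theorem subset_W_sum (T H n : ℕ) (w : ℕ → ℕ → ℕ → ℕ) (K : ℕ)
    (F : ℕ → ℕ → ℕ → ℕ → ℕ) :
    subset_W T H n w (fun t i s => ∑ k ∈ range K, F k t i s) =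
      ∑ k ∈ range K, subset_W T H n w (F k) := by
  induction K with
  | zero => simp [subset_W_zero]
  | succ K ih =>
    simp only [Finset.sum_range_succ]
    rw [subset_W_add, ih]

theorem subset_W_dl {T H n : ℕ} (w : ℕ → ℕ → ℕ → ℕ) {t0 i0 s0 : ℕ} (ht : t0 < T)
    (hi : i0 < H) (hs : s0 < n) :
    subset_W T H n w (fun t i s => subset_dl t i s t0 i0 s0) = w t0 i0 s0 := by
  unfold subset_W subset_dl
  rw [Finset.sum_eq_single_of_mem t0 (Finset.mem_range.2 ht),
    Finset.sum_eq_single_of_mem i0 (Finset.mem_range.2 hi),
    Finset.sum_eq_single_of_mem s0 (Finset.mem_range.2 hs)]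
  · simp
  · intro s _ h; simp [h]
  · intro i _ h; simp [h]
  · intro t _ h; simp [h]

/-! ### the digits as sums of Dirac functions -/

theorem subset_dig_var {D : DCNF} {x : List Bool} {t i s t' i' r : ℕ} (hr : r < D.A) :
    dig D x t i s t' i' r = subset_dl t i s t' i' (2 * r) + subset_dl t i s t' i' (2 * r + 1) := by
  unfold dig subset_dl
  rw [if_pos hr]
  by_cases h1 : t = t' ∧ i = i'
  · obtain ⟨h1, h2⟩ := h1
    subst h1; subst h2
    simp only [true_and]
    rcases (by omega : s = 2 * r ∨ s = 2 * r + 1 ∨ (s ≠ 2 * r ∧ s ≠ 2 * r + 1)) with h | h | h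
    · rw [if_pos (by omega), if_pos h, if_neg (by omega)]
    · rw [if_pos (by omega), if_neg (by omega), if_pos h]
    · rw [if_neg (by omega), if_neg h.1, if_neg h.2]
  · rw [if_neg (by tauto), if_neg (by tauto), if_neg (by tauto)]

theorem subset_dig_cl {D : DCNF} (hD : D.Good 5) {x : List Bool} {t i s t' i' r : ℕ} {π : Pat}
    (hr : ¬ r < D.A) (hπ : D.pats[r - D.A]? = some π) (hg : π.guard x t' i')
    (ht' : t' < D.T x) (hi' : i' < D.H x) :
    dig D x t i s t' i' r =
      (π.lits.map fun l => subset_dl t i s (t' + l.dt) (l.pos i')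
        (2 * l.code + l.sign.toNat)).sum +
      ∑ k ∈ range 4, slk π k * subset_dl t i s t' i' (2 * D.A + 4 * (r - D.A) + k) := by
  have hmem : π ∈ D.pats := List.mem_of_getElem? hπ
  have hcode : ∀ l ∈ π.lits, l.code < D.A := fun l hl =>
    (hD.range π hmem x t' i' ht' hi' hg l hl).2.2
  unfold dig
  rw [if_neg hr, hπ]
  simp only []
  rw [if_pos hg]
  by_cases hs : s < 2 * D.A
  · rw [if_pos hs]
    have h0 : ∑ k ∈ range 4, slk π k * subset_dl t i s t' i' (2 * D.A + 4 * (r - D.A) + k) = 0 := by
      apply Finset.sum_eq_zero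
      intro k _
      unfold subset_dl
      rw [if_neg (by omega), mul_zero]
    rw [h0, add_zero]
    congr 1
    apply List.map_congr_left
    intro l _
    unfold subset_dl
    have key : (t' + l.dt = t ∧ l.pos i' = i ∧ l.code = s / 2 ∧ l.sign = (s % 2 == 1)) ↔
        (t = t' + l.dt ∧ i = l.pos i' ∧ s = 2 * l.code + l.sign.toNat) := by
      constructor
      · rintro ⟨h1, h2, h3, h4⟩
        refine ⟨h1.symm, h2.symm, ?_⟩
        rw [h4]
        rcases Nat.mod_two_eq_zero_or_one s with h | h
        · rw [h]; simp; omega
        · rw [h]; simp; omega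
      · rintro ⟨h1, h2, h3⟩
        refine ⟨h1.symm, h2.symm, ?_⟩
        cases hsg : l.sign with
        | false =>
          rw [hsg] at h3
          simp only [Bool.toNat_false, add_zero] at h3
          refine ⟨by omega, ?_⟩
          have : s % 2 = 0 := by omega
          rw [this]; rfl
        | true =>
          rw [hsg] at h3
          simp only [Bool.toNat_true] at h3
          refine ⟨by omega, ?_⟩
          have : s % 2 = 1 := by omega
          rw [this]; rfl
    by_cases hk : (t' + l.dt = t ∧ l.pos i' = i ∧ l.code = s / 2 ∧ l.sign = (s % 2 == 1))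
    · rw [if_pos hk, if_pos (key.1 hk)]
    · rw [if_neg hk, if_neg (fun h => hk (key.2 h))]
  · rw [if_neg hs]
    have h0 : (π.lits.map fun l => subset_dl t i s (t' + l.dt) (l.pos i')
        (2 * l.code + l.sign.toNat)).sum = 0 := by
      apply List.sum_eq_zero
      intro v hv
      obtain ⟨l, hl, rfl⟩ := List.mem_map.1 hv
      unfold subset_dl
      have h1 := hcode l hl
      have h2 : l.sign.toNat ≤ 1 := by cases l.sign <;> simp
      rw [if_neg (by omega)]
    rw [h0, zero_add]
    by_cases h1 : t = t' ∧ i = i' ∧ (s - 2 * D.A) / 4 = r - D.A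
    · rw [if_pos h1]
      obtain ⟨h1, h2, h3⟩ := h1
      have hk : (s - 2 * D.A) % 4 ∈ range 4 := Finset.mem_range.2 (Nat.mod_lt _ (by norm_num))
      rw [Finset.sum_eq_single_of_mem _ hk]
      · unfold subset_dl
        rw [if_pos ⟨h1, h2, by omega⟩, mul_one]
      · intro k hk' hne
        have hk' := Finset.mem_range.1 hk'
        unfold subset_dl
        rw [if_neg (by omega), mul_zero]
    · rw [if_neg h1]
      symm
      apply Finset.sum_eq_zero
      intro k hk
      have hk' := Finset.mem_range.1 hk
      unfold subset_dl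
      rw [if_neg, mul_zero]
      rintro ⟨h2, h3, h4⟩
      exact h1 ⟨h2, h3, by omega⟩

open Classical in
/-- the weighted column sum -/
noncomputable def subset_V (D : DCNF) (x : List Bool) (w : ℕ → ℕ → ℕ → ℕ) (t' i' r : ℕ) : ℕ :=
  if r < D.A then w t' i' (2 * r) + w t' i' (2 * r + 1) else
    match D.pats[r - D.A]? with
    | none => 0
    | some π => if π.guard x t' i' then
        (π.lits.map fun l => w (t' + l.dt) (l.pos i') (2 * l.code + l.sign.toNat)).sum +
          ∑ k ∈ range 4, slk π k * w t' i' (2 * D.A + 4 * (r - D.A) + k) else 0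

theorem subset_V_var {D : DCNF} {x : List Bool} {w : ℕ → ℕ → ℕ → ℕ} {t' i' r : ℕ}
    (hr : r < D.A) : subset_V D x w t' i' r = w t' i' (2 * r) + w t' i' (2 * r + 1) := by
  unfold subset_V
  rw [if_pos hr]

theorem subset_V_cl {D : DCNF} {x : List Bool} {w : ℕ → ℕ → ℕ → ℕ} {t' i' r : ℕ} {π : Pat}
    (hr : ¬ r < D.A) (hπ : D.pats[r - D.A]? = some π) (hg : π.guard x t' i') :
    subset_V D x w t' i' r =
      (π.lits.map fun l => w (t' + l.dt) (l.pos i') (2 * l.code + l.sign.toNat)).sum +
          ∑ k ∈ range 4, slk π k * w t' i' (2 * D.A + 4 * (r - D.A) + k) := by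
  unfold subset_V
  rw [if_neg hr, hπ]
  simp only []
  rw [if_pos hg]

theorem subset_col {D : DCNF} (hD : D.Good 5) (x : List Bool) (w : ℕ → ℕ → ℕ → ℕ) {t' i' r : ℕ}
    (ht' : t' < D.T x) (hi' : i' < D.H x) (hr : r < nR D) :
    subset_W (D.T x) (D.H x) (nI D) w (fun t i s => dig D x t i s t' i' r) =
      subset_V D x w t' i' r := by
  by_cases hrA : r < D.A
  · have h1 : (fun t i s => dig D x t i s t' i' r) =
        fun t i s => subset_dl t i s t' i' (2 * r) + subset_dl t i s t' i' (2 * r + 1) := by
      funext t i s
      exact subset_dig_var hrA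
    rw [h1, subset_W_add, subset_W_dl w ht' hi' (by unfold nI; omega),
      subset_W_dl w ht' hi' (by unfold nI; omega), subset_V_var hrA]
  · have hlt : r - D.A < D.pats.length := by
      unfold nR at hr
      omega
    obtain ⟨π, hπ⟩ : ∃ π, D.pats[r - D.A]? = some π :=
      ⟨_, List.getElem?_eq_getElem hlt⟩
    by_cases hg : π.guard x t' i'
    · have h1 : (fun t i s => dig D x t i s t' i' r) = fun t i s =>
          (π.lits.map fun l => subset_dl t i s (t' + l.dt) (l.pos i')
            (2 * l.code + l.sign.toNat)).sum +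
          ∑ k ∈ range 4, slk π k * subset_dl t i s t' i' (2 * D.A + 4 * (r - D.A) + k) := by
        funext t i s
        exact subset_dig_cl hD hrA hπ hg ht' hi'
      rw [h1, subset_W_add, subset_W_list (F := fun (l : Lit) t i s => subset_dl t i s (t' + l.dt)
        (l.pos i') (2 * l.code + l.sign.toNat)), subset_W_sum (F := fun k t i s =>
        slk π k * subset_dl t i s t' i' (2 * D.A + 4 * (r - D.A) + k)), subset_V_cl hrA hπ hg]
      congr 1
      · congr 1
        apply List.map_congr_left
        intro l hl
        obtain ⟨h2, h3, h4⟩ := hD.range π (List.mem_of_getElem? hπ) x t' i' ht' hi' hg l hl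
        have h5 : l.sign.toNat ≤ 1 := by cases l.sign <;> simp
        exact subset_W_dl w h2 h3 (by unfold nI; omega)
      · refine Finset.sum_congr rfl fun k hk => ?_
        have hk' := Finset.mem_range.1 hk
        rw [subset_W_smul, subset_W_dl w ht' hi' (by unfold nI; omega)]
    · have h1 : (fun t i s => dig D x t i s t' i' r) = fun t i s => 0 := by
        funext t i s
        unfold dig
        rw [if_neg hrA, hπ]
        simp only []
        rw [if_neg hg]
      rw [h1, subset_W_zero]
      unfold subset_V
      rw [if_neg hrA, hπ]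
      simp only []
      rw [if_neg hg]

/-! ### bounds -/

theorem subset_slk_sum (π : Pat) :
    ∑ k ∈ range 4, slk π k = if π.lits.length = 0 then 2 else 4 := by
  unfold slk
  split_ifs <;> simp [Finset.sum_range_succ]

theorem subset_slk_le (π : Pat) (k : ℕ) : slk π k ≤ 2 := by
  unfold slk
  split_ifs <;> omega

theorem subset_list_le {α : Type*} (L : List α) (f : α → ℕ) (h : ∀ a ∈ L, f a ≤ 1) :
    (L.map f).sum ≤ L.length := by
  induction L with
  | nil => simp
  | cons a L ih =>
    simp only [List.map_cons, List.sum_cons, List.length_cons]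
    have h1 := h a (by simp)
    have h2 := ih fun b hb => h b (by simp [hb])
    omega

/-- the digits are small -/
theorem dig_le {D : DCNF} (hD : D.Good 5) (x : List Bool) (t i s t' i' r : ℕ) :
    dig D x t i s t' i' r ≤ 5 := by
  unfold dig
  by_cases hr : r < D.A
  · rw [if_pos hr]
    split_ifs <;> omega
  · rw [if_neg hr]
    rcases hπ : D.pats[r - D.A]? with _ | π
    · simp
    · simp only []
      have hw := hD.width π (List.mem_of_getElem? hπ)
      by_cases hg : π.guard x t' i'
      · rw [if_pos hg]
        by_cases hs : s < 2 * D.A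
        · rw [if_pos hs]
          refine (subset_list_le _ _ fun l _ => ?_).trans hw
          split_ifs <;> omega
        · rw [if_neg hs]
          have := subset_slk_le π ((s - 2 * D.A) % 4)
          split_ifs <;> omega
      · rw [if_neg hg]
        omega

theorem sdg_le {D : DCNF} (x : List Bool) (t' i' r : ℕ) : sdg D x t' i' r ≤ 5 := by
  unfold sdg
  by_cases hr : r < D.A
  · rw [if_pos hr]
    omega
  · rw [if_neg hr]
    rcases hπ : D.pats[r - D.A]? with _ | π
    · simp
    · simp only []
      split_ifs <;> omega

theorem s1dg_le {D : DCNF} (hD : D.Good 5) (x : List Bool) (t' i' r : ℕ) :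
    s1dg D x t' i' r ≤ 4 := by
  unfold s1dg
  by_cases hr : r < D.A
  · rw [if_pos hr]
    omega
  · rw [if_neg hr]
    rcases hπ : D.pats[r - D.A]? with _ | π
    · simp
    · simp only []
      have hw := hD.width π (List.mem_of_getElem? hπ)
      split_ifs <;> omega

theorem subset_V_le {D : DCNF} (hD : D.Good 5) (x : List Bool) {w : ℕ → ℕ → ℕ → ℕ}
    (hw : ∀ t i s, w t i s ≤ 1) (t' i' r : ℕ) : subset_V D x w t' i' r ≤ 9 := by
  unfold subset_V
  by_cases hr : r < D.A
  · rw [if_pos hr]
    have h1 := hw t' i' (2 * r)
    have h2 := hw t' i' (2 * r + 1)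
    omega
  · rw [if_neg hr]
    rcases hπ : D.pats[r - D.A]? with _ | π
    · simp
    · simp only []
      have hwd := hD.width π (List.mem_of_getElem? hπ)
      by_cases hg : π.guard x t' i'
      · rw [if_pos hg]
        have h1 : (π.lits.map fun l => w (t' + l.dt) (l.pos i')
            (2 * l.code + l.sign.toNat)).sum ≤ π.lits.length :=
          subset_list_le _ _ fun l _ => hw _ _ _
        have h2 : ∑ k ∈ range 4, slk π k * w t' i' (2 * D.A + 4 * (r - D.A) + k) ≤
            ∑ k ∈ range 4, slk π k :=
          Finset.sum_le_sum fun k _ => by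
            have := hw t' i' (2 * D.A + 4 * (r - D.A) + k)
            nlinarith [Nat.zero_le (slk π k)]
        rw [subset_slk_sum] at h2
        have h3 : (if π.lits.length = 0 then 2 else 4) ≤ 4 := by split_ifs <;> omega
        omega
      · rw [if_neg hg]
        omega

theorem subset_V_one {D : DCNF} (x : List Bool) (t' i' r : ℕ) :
    subset_V D x (fun _ _ _ => 1) t' i' r = sdg D x t' i' r + s1dg D x t' i' r := by
  unfold subset_V sdg s1dg
  by_cases hr : r < D.A
  · rw [if_pos hr, if_pos hr, if_pos hr]
  · rw [if_neg hr, if_neg hr, if_neg hr]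
    rcases hπ : D.pats[r - D.A]? with _ | π
    · simp
    · simp only []
      by_cases hg : π.guard x t' i'
      · rw [if_pos hg, if_pos hg, if_pos hg]
        simp only [mul_one]
        rw [subset_slk_sum]
        have h1 : (π.lits.map fun _ => 1).sum = π.lits.length := by simp
        rw [h1]
        split_ifs with h <;> omega
      · rw [if_neg hg, if_neg hg, if_neg hg]

/-! ### base 256 -/

theorem subset_lt (n : ℕ) {f : ℕ → ℕ} (hf : ∀ c < n, f c ≤ 255) :
    ∑ c ∈ range n, f c * 256 ^ c < 256 ^ n := by
  induction n with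
  | zero => simp
  | succ n ih =>
    rw [Finset.sum_range_succ, pow_succ]
    have h1 := ih fun c hc => hf c (by omega)
    have h2 := hf n (by omega)
    have h3 : f n * 256 ^ n ≤ 255 * 256 ^ n := Nat.mul_le_mul_right _ h2
    omega

theorem subset_uniq (n : ℕ) {f g : ℕ → ℕ} (hf : ∀ c < n, f c ≤ 255) (hg : ∀ c < n, g c ≤ 255)
    (h : ∑ c ∈ range n, f c * 256 ^ c = ∑ c ∈ range n, g c * 256 ^ c) :
    ∀ c < n, f c = g c := by
  induction n with
  | zero => intro c hc; omega
  | succ n ih =>
    rw [Finset.sum_range_succ, Finset.sum_range_succ] at h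
    have h1 := subset_lt n fun c hc => hf c (by omega)
    have h2 := subset_lt n fun c hc => hg c (by omega)
    have h3 : f n = g n := by
      have e1 : (∑ c ∈ range n, f c * 256 ^ c + f n * 256 ^ n) / 256 ^ n = f n := by
        rw [Nat.add_mul_div_right _ _ (by positivity), Nat.div_eq_of_lt h1, zero_add]
      have e2 : (∑ c ∈ range n, g c * 256 ^ c + g n * 256 ^ n) / 256 ^ n = g n := by
        rw [Nat.add_mul_div_right _ _ (by positivity), Nat.div_eq_of_lt h2, zero_add]
      rw [← e1, h, e2]
    intro c hc
    rcases (by omega : c < n ∨ c = n) with hc | rfl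
    · refine ih (fun c hc => hf c (by omega)) (fun c hc => hg c (by omega)) ?_ c hc
      rw [h3] at h
      omega
    · exact h3

/-! ### from numbers to triples -/

theorem subset_range_mul (a b : ℕ) (F : ℕ → ℕ) :
    ∑ j ∈ range (a * b), F j = ∑ q ∈ range a, ∑ r ∈ range b, F (q * b + r) := by
  induction a with
  | zero => simp
  | succ a ih =>
    rw [add_mul, one_mul, Finset.sum_range_add, ih, Finset.sum_range_succ]

theorem subset_div {b q r : ℕ} (hr : r < b) : (q * b + r) / b = q := by
  rw [add_comm, Nat.add_mul_div_right _ _ (by omega), Nat.div_eq_of_lt hr, zero_add]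

theorem subset_mod {b q r : ℕ} (hr : r < b) : (q * b + r) % b = r := by
  rw [add_comm, Nat.add_mul_mod_self_right, Nat.mod_eq_of_lt hr]

theorem subset_transfer {D : DCNF} (hD : D.Good 5) (x : List Bool) (w : ℕ → ℕ) :
    ∑ j ∈ range (nItem D x), w j * av D x j =
      ∑ c ∈ range (nCol D x), subset_V D x (fun t i s => w ((t * D.H x + i) * nI D + s))
        (c / nR D / D.H x) (c / nR D % D.H x) (c % nR D) * 256 ^ c := by
  unfold av
  simp only [Finset.mul_sum]
  rw [Finset.sum_comm]
  refine Finset.sum_congr rfl fun c hc => ?_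
  have hc' := Finset.mem_range.1 hc
  have hR : 0 < nR D := by
    rcases Nat.eq_zero_or_pos (nR D) with h | h
    · unfold nCol at hc'; rw [h] at hc'; omega
    · exact h
  have hr : c % nR D < nR D := Nat.mod_lt _ hR
  have hH := hD.H_pos x
  have hi : c / nR D % D.H x < D.H x := Nat.mod_lt _ hH
  have ht : c / nR D / D.H x < D.T x := by
    rw [Nat.div_lt_iff_lt_mul hH, Nat.div_lt_iff_lt_mul hR]
    exact hc'
  rw [← subset_col hD x _ ht hi hr]
  unfold subset_W
  simp only [Finset.sum_mul]
  unfold nItem
  rw [subset_range_mul, subset_range_mul]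
  refine Finset.sum_congr rfl fun t _ => Finset.sum_congr rfl fun i hi =>
    Finset.sum_congr rfl fun s hs => ?_
  have hi' := Finset.mem_range.1 hi
  have hs' := Finset.mem_range.1 hs
  unfold digN
  rw [subset_div hs', subset_mod hs', subset_div hi', subset_mod hi']
  ring

/-- all items together -/
theorem sum_av {D : DCNF} (hD : D.Good 5) (x : List Bool) :
    ∑ j ∈ range (nItem D x), av D x j = tS D x + tS1 D x := by
  have h := subset_transfer hD x (fun _ => 1)
  simp only [one_mul] at h
  rw [h]
  unfold tS tS1
  rw [← Finset.sum_add_distrib]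
  refine Finset.sum_congr rfl fun c _ => ?_
  rw [subset_V_one, add_mul]

theorem tS_add_lt {D : DCNF} (hD : D.Good 5) (x : List Bool) :
    tS D x + tS1 D x < 256 ^ nCol D x := by
  unfold tS tS1
  rw [← Finset.sum_add_distrib]
  simp only [← add_mul]
  refine subset_lt (nCol D x) (f := fun c => sdg D x (c / nR D / D.H x) (c / nR D % D.H x)
    (c % nR D) + s1dg D x (c / nR D / D.H x) (c / nR D % D.H x) (c % nR D)) fun c _ => ?_
  have h1 := sdg_le (D := D) x (c / nR D / D.H x) (c / nR D % D.H x) (c % nR D)
  have h2 := s1dg_le hD x (c / nR D / D.H x) (c / nR D % D.H x) (c % nR D)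
  omega

/-! ### the equivalence -/

/-- number of the satisfied literals of a pattern -/
def subset_ns (y : ℕ → ℕ → ℕ → Bool) (π : Pat) (t i : ℕ) : ℕ :=
  (π.lits.map fun l => if y (t + l.dt) (l.pos i) l.code = l.sign then 1 else 0).sum

/-- the partition belonging to an assignment -/
def subset_chi (D : DCNF) (y : ℕ → ℕ → ℕ → Bool) (t i s : ℕ) : Bool :=
  if s < 2 * D.A then (if y t i (s / 2) = (s % 2 == 1) then false else true) else
    match D.pats[(s - 2 * D.A) / 4]? with
    | none => true
    | some π => if (s - 2 * D.A) % 4 < 5 - subset_ns y π t i then false else true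

/-- indicator -/
def subset_w (b c : Bool) : ℕ := if b = c then 1 else 0

theorem subset_w_le (b c : Bool) : subset_w b c ≤ 1 := by
  unfold subset_w
  split_ifs <;> omega

theorem subset_filter (n : ℕ) (χ : ℕ → Bool) (b : Bool) (f : ℕ → ℕ) :
    ∑ j ∈ (range n).filter (fun j => χ j = b), f j = ∑ j ∈ range n, subset_w (χ j) b * f j := by
  rw [Finset.sum_filter]
  refine Finset.sum_congr rfl fun j _ => ?_
  unfold subset_w
  split_ifs <;> simp

theorem subset_both (n : ℕ) (χ : ℕ → Bool) (f : ℕ → ℕ) :
    ∑ j ∈ (range n).filter (fun j => χ j = false), f j +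
      ∑ j ∈ (range n).filter (fun j => χ j = true), f j = ∑ j ∈ range n, f j := by
  rw [subset_filter, subset_filter, ← Finset.sum_add_distrib]
  refine Finset.sum_congr rfl fun j _ => ?_
  cases χ j <;> simp [subset_w]

theorem subset_chi_var {D : DCNF} {y : ℕ → ℕ → ℕ → Bool} {t i a : ℕ} {b : Bool} (ha : a < D.A) :
    subset_w (subset_chi D y t i (2 * a + b.toNat)) false = if y t i a = b then 1 else 0 := by
  unfold subset_chi
  have hb : b.toNat ≤ 1 := by cases b <;> simp
  rw [if_pos (by omega)]
  have e1 : (2 * a + b.toNat) / 2 = a := by omega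
  have e2 : ((2 * a + b.toNat) % 2 == 1) = b := by
    cases b with
    | false =>
      have : (2 * a + Bool.toNat false) % 2 = 0 := by simp
      rw [this]; rfl
    | true =>
      have : (2 * a + Bool.toNat true) % 2 = 1 := by simp [Nat.add_mod]
      rw [this]; rfl
  rw [e1, e2]
  split_ifs <;> simp [subset_w]

theorem subset_chi_slack {D : DCNF} {y : ℕ → ℕ → ℕ → Bool} {t i q k : ℕ} {π : Pat}
    (hπ : D.pats[q]? = some π) (hk : k < 4) :
    subset_w (subset_chi D y t i (2 * D.A + 4 * q + k)) false =
      if k < 5 - subset_ns y π t i then 1 else 0 := by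
  unfold subset_chi
  rw [if_neg (by omega)]
  have e1 : (2 * D.A + 4 * q + k - 2 * D.A) / 4 = q := by omega
  have e2 : (2 * D.A + 4 * q + k - 2 * D.A) % 4 = k := by omega
  rw [e1, e2, hπ]
  simp only []
  split_ifs <;> simp [subset_w]

theorem subset_forward {D : DCNF} (hD : D.Good 5) (x : List Bool) {y : ℕ → ℕ → ℕ → Bool}
    (hy : ∀ t < D.T x, ∀ i < D.H x, ∀ π ∈ D.pats, π.guard x t i →
      ∃ l ∈ π.lits, y (t + l.dt) (l.pos i) l.code = l.sign) {t i r : ℕ}
    (ht : t < D.T x) (hi : i < D.H x) (hr : r < nR D) :
    subset_V D x (fun t i s => subset_w (subset_chi D y t i s) false) t i r = sdg D x t i r := by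
  by_cases hrA : r < D.A
  · rw [subset_V_var hrA]
    have h1 := subset_chi_var (y := y) (t := t) (i := i) (b := false) hrA
    have h2 := subset_chi_var (y := y) (t := t) (i := i) (b := true) hrA
    simp only [Bool.toNat_false, Bool.toNat_true, add_zero] at h1 h2
    rw [h1, h2]
    unfold sdg
    rw [if_pos hrA]
    cases y t i r <;> simp
  · have hlt : r - D.A < D.pats.length := by
      unfold nR at hr
      omega
    obtain ⟨π, hπ⟩ : ∃ π, D.pats[r - D.A]? = some π :=
      ⟨_, List.getElem?_eq_getElem hlt⟩
    have hmem : π ∈ D.pats := List.mem_of_getElem? hπ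
    by_cases hg : π.guard x t i
    · rw [subset_V_cl hrA hπ hg]
      obtain ⟨l0, hl0, hl0'⟩ := hy t ht i hi π hmem hg
      have hne : ¬ π.lits.length = 0 := by
        intro h
        rw [List.length_eq_zero_iff] at h
        rw [h] at hl0
        simp at hl0
      have hsd : sdg D x t i r = 5 := by
        unfold sdg
        rw [if_neg hrA, hπ]
        simp only []
        rw [if_pos hg, if_neg hne]
      rw [hsd]
      have hw := hD.width π hmem
      have h1 : (π.lits.map fun l => subset_w (subset_chi D y (t + l.dt) (l.pos i)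
          (2 * l.code + l.sign.toNat)) false).sum = subset_ns y π t i := by
        unfold subset_ns
        congr 1
        apply List.map_congr_left
        intro l hl
        exact subset_chi_var (hD.range π hmem x t i ht hi hg l hl).2.2
      have h2 : subset_ns y π t i ≤ 5 :=
        (subset_list_le _ _ fun l _ => by split_ifs <;> omega).trans hw
      have h3 : 1 ≤ subset_ns y π t i := by
        unfold subset_ns
        have : (if y (t + l0.dt) (l0.pos i) l0.code = l0.sign then 1 else 0) ≤
            (π.lits.map fun l => if y (t + l.dt) (l.pos i) l.code = l.sign then 1 else 0).sum :=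
          List.single_le_sum (by simp) _ (List.mem_map.2 ⟨l0, hl0, rfl⟩)
        rw [if_pos hl0'] at this
        exact this
      have h4 : ∑ k ∈ range 4, slk π k * subset_w (subset_chi D y t i
          (2 * D.A + 4 * (r - D.A) + k)) false =
          ∑ k ∈ range 4, if k < 5 - subset_ns y π t i then 1 else 0 := by
        refine Finset.sum_congr rfl fun k hk => ?_
        rw [subset_chi_slack hπ (Finset.mem_range.1 hk)]
        unfold slk
        rw [if_neg hne, one_mul]
      rw [h1, h4]
      generalize subset_ns y π t i = n at h2 h3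
      simp only [Finset.sum_range_succ, Finset.sum_range_zero]
      split_ifs <;> omega
    · unfold subset_V sdg
      rw [if_neg hrA, if_neg hrA, hπ]
      simp only []
      rw [if_neg hg, if_neg hg]

theorem subset_iff {D : DCNF} (hD : D.Good 5) (x : List Bool) :
    D.Sat x ↔ ∃ χ : ℕ → Bool,
      ∑ j ∈ (range (nItem D x)).filter (fun j => χ j = false), av D x j ≤ tS D x ∧
      ∑ j ∈ (range (nItem D x)).filter (fun j => χ j = true), av D x j ≤ tS1 D x := by
  have hH := hD.H_pos x
  constructor
  · rintro ⟨y, hy⟩
    refine ⟨fun j => subset_chi D y (j / nI D / D.H x) (j / nI D % D.H x) (j % nI D), ?_⟩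
    have h1 : ∑ j ∈ (range (nItem D x)).filter (fun j => subset_chi D y (j / nI D / D.H x)
        (j / nI D % D.H x) (j % nI D) = false), av D x j = tS D x := by
      rw [subset_filter, subset_transfer hD x (fun j => subset_w (subset_chi D y
        (j / nI D / D.H x) (j / nI D % D.H x) (j % nI D)) false)]
      unfold tS
      refine Finset.sum_congr rfl fun c hc => ?_
      have hc' := Finset.mem_range.1 hc
      have hR : 0 < nR D := by
        rcases Nat.eq_zero_or_pos (nR D) with h | h
        · unfold nCol at hc'; rw [h] at hc'; omega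
        · exact h
      have hr : c % nR D < nR D := Nat.mod_lt _ hR
      have hi : c / nR D % D.H x < D.H x := Nat.mod_lt _ hH
      have ht : c / nR D / D.H x < D.T x := by
        rw [Nat.div_lt_iff_lt_mul hH, Nat.div_lt_iff_lt_mul hR]
        exact hc'
      rw [← subset_forward hD x hy ht hi hr, ← subset_col hD x _ ht hi hr,
        ← subset_col hD x _ ht hi hr]
      congr 1
      unfold subset_W
      refine Finset.sum_congr rfl fun t _ => Finset.sum_congr rfl fun i hi =>
        Finset.sum_congr rfl fun s hs => ?_
      have hi' := Finset.mem_range.1 hi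
      have hs' := Finset.mem_range.1 hs
      beta_reduce
      rw [subset_div hs', subset_mod hs', subset_div hi', subset_mod hi']
    refine ⟨h1.le, ?_⟩
    have h2 := subset_both (nItem D x) (fun j => subset_chi D y (j / nI D / D.H x)
      (j / nI D % D.H x) (j % nI D)) (av D x)
    rw [sum_av hD x] at h2
    beta_reduce at h1 h2 ⊢
    omega
  · rintro ⟨χ, h1, h2⟩
    have h3 := subset_both (nItem D x) χ (av D x)
    rw [sum_av hD x] at h3
    have h4 : ∑ j ∈ (range (nItem D x)).filter (fun j => χ j = false), av D x j = tS D x := by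
      omega
    rw [subset_filter, subset_transfer hD x (fun j => subset_w (χ j) false)] at h4
    unfold tS at h4
    have h5 := subset_uniq (nCol D x) (fun c _ => (subset_V_le hD x (fun t i s =>
      subset_w_le _ _) _ _ _).trans (by norm_num)) (fun c _ => (sdg_le x _ _ _).trans
        (by norm_num)) h4
    have h6 : ∀ t < D.T x, ∀ i < D.H x, ∀ r < nR D,
        subset_V D x (fun t i s => subset_w (χ ((t * D.H x + i) * nI D + s)) false) t i r =
          sdg D x t i r := by
      intro t ht i hi r hr
      have hc : (t * D.H x + i) * nR D + r < nCol D x := by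
        unfold nCol
        have e1 : t * D.H x + i + 1 ≤ D.T x * D.H x := by
          calc t * D.H x + i + 1 ≤ t * D.H x + D.H x := by omega
            _ = (t + 1) * D.H x := by ring
            _ ≤ D.T x * D.H x := Nat.mul_le_mul_right _ ht
        calc (t * D.H x + i) * nR D + r < (t * D.H x + i) * nR D + nR D := by omega
          _ = (t * D.H x + i + 1) * nR D := by ring
          _ ≤ D.T x * D.H x * nR D := Nat.mul_le_mul_right _ e1
      have h7 := h5 _ hc
      rw [subset_div hr, subset_mod hr, subset_div hi, subset_mod hi] at h7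
      exact h7
    refine ⟨fun t i a => !χ ((t * D.H x + i) * nI D + (2 * a + 1)), ?_⟩
    intro t ht i hi π hmem hg
    obtain ⟨q, hq⟩ := List.mem_iff_getElem?.1 hmem
    have hql : q < D.pats.length := by
      by_contra hcon
      rw [List.getElem?_eq_none (by omega)] at hq
      exact absurd hq (by simp)
    have hrR : D.A + q < nR D := by unfold nR; omega
    have hrA : ¬ D.A + q < D.A := by omega
    have hπ : D.pats[D.A + q - D.A]? = some π := by
      rw [Nat.add_sub_cancel_left]; exact hq
    have h8 := h6 t ht i hi _ hrR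
    rw [subset_V_cl hrA hπ hg] at h8
    by_cases hne : π.lits.length = 0
    · exfalso
      have hsd : sdg D x t i (D.A + q) = 1 := by
        unfold sdg
        rw [if_neg hrA, hπ]
        simp only []
        rw [if_pos hg, if_pos hne]
      rw [hsd] at h8
      rw [List.length_eq_zero_iff] at hne
      unfold slk at h8
      rw [hne] at h8
      simp only [List.map_nil, List.sum_nil, List.length_nil, if_true,
        Finset.sum_range_succ, Finset.sum_range_zero] at h8
      norm_num at h8
    · have hsd : sdg D x t i (D.A + q) = 5 := by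
        unfold sdg
        rw [if_neg hrA, hπ]
        simp only []
        rw [if_pos hg, if_neg hne]
      rw [hsd] at h8
      have h9 : ∑ k ∈ range 4, slk π k * subset_w (χ ((t * D.H x + i) * nI D +
          (2 * D.A + 4 * (D.A + q - D.A) + k))) false ≤ 4 := by
        have : ∑ k ∈ range 4, slk π k * subset_w (χ ((t * D.H x + i) * nI D +
            (2 * D.A + 4 * (D.A + q - D.A) + k))) false ≤ ∑ k ∈ range 4, slk π k :=
          Finset.sum_le_sum fun k _ => by
            have := subset_w_le (χ ((t * D.H x + i) * nI D +
              (2 * D.A + 4 * (D.A + q - D.A) + k))) false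
            nlinarith [Nat.zero_le (slk π k)]
        rw [subset_slk_sum, if_neg hne] at this
        exact this
      have h10 : ∃ l ∈ π.lits, subset_w (χ (((t + l.dt) * D.H x + l.pos i) * nI D +
          (2 * l.code + l.sign.toNat))) false ≠ 0 := by
        by_contra hcon
        push Not at hcon
        have : (π.lits.map fun l => subset_w (χ (((t + l.dt) * D.H x + l.pos i) * nI D +
          (2 * l.code + l.sign.toNat))) false).sum = 0 := by
          apply List.sum_eq_zero
          intro v hv
          obtain ⟨l, hl, rfl⟩ := List.mem_map.1 hv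
          exact hcon l hl
        rw [this] at h8
        omega
      obtain ⟨l, hl, hl'⟩ := h10
      refine ⟨l, hl, ?_⟩
      obtain ⟨g1, g2, g3⟩ := hD.range π hmem x t i ht hi hg l hl
      have h11 := h6 (t + l.dt) g1 (l.pos i) g2 l.code (by unfold nR; omega)
      rw [subset_V_var g3] at h11
      have hsv : sdg D x (t + l.dt) (l.pos i) l.code = 1 := by
        unfold sdg
        rw [if_pos g3]
      rw [hsv] at h11
      cases hsg : l.sign with
      | true =>
        rw [hsg] at hl'
        simp only [Bool.toNat_true] at hl'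
        show (!χ _) = true
        unfold subset_w at hl'
        by_contra hcon
        apply hl'
        rw [if_neg]
        intro h
        apply hcon
        rw [h]; rfl
      | false =>
        rw [hsg] at hl'
        simp only [Bool.toNat_false, add_zero] at hl'
        show (!χ _) = false
        have h12 : subset_w (χ (((t + l.dt) * D.H x + l.pos i) * nI D + (2 * l.code + 1)))
            false = 0 := by
          omega
        unfold subset_w at h12
        cases hv : χ (((t + l.dt) * D.H x + l.pos i) * nI D + (2 * l.code + 1)) with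
        | true => rfl
        | false =>
          rw [hv] at h12
          simp at h12

end Pool.Agent.Lib57.CT
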