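import Mathlib
import Pool.Agent.Lib_helper57.CT.EmitPoly
import Pool.Agent.Lib_helper57.CT.Subset

/-! Printing the instance of a definable CNF. -/

namespace Pool.Agent.Lib57.CT

open Function Computability N487b59b3

variable {D : DCNF}

/-! ### digits -/

theorem term_T (hD : D.Good 5) (k : ℕ) : IsTerm k (fun x _ => D.T x) :=
  hD.T_term.weaken (Nat.zero_le k)

theorem term_H (hD : D.Good 5) (k : ℕ) : IsTerm k (fun x _ => D.H x) :=
  hD.H_term.weaken (Nat.zero_le k)

theorem term_pos {k i : ℕ} (hi : i < k) (l : Lit) : IsTerm k (fun _ e => l.pos (e i)) := by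
  unfold Lit.pos
  cases l.di with
  | none => exact IsTerm.const k 0
  | some d => exact (IsTerm.var hi).add (IsTerm.const k d)

/-- the digit as a term; the variables are `t, i, t', i'` -/
theorem term_dig (hD : D.Good 5) (s r : ℕ) :
    IsTerm 4 (fun x e => dig D x (e 0) (e 1) s (e 2) (e 3) r) := by
  classical
  have htt : IsForm 4 (fun _ e => e 0 = e 2) :=
    IsForm.eq (IsTerm.var (by norm_num)) (IsTerm.var (by norm_num))
  have hii : IsForm 4 (fun _ e => e 1 = e 3) :=
    IsForm.eq (IsTerm.var (by norm_num)) (IsTerm.var (by norm_num))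
  have hconst : ∀ p : Prop, IsForm 4 (fun _ _ => p) := fun p => by
    by_cases h : p
    · exact (IsForm.true 4).congr fun _ _ => by simp [h]
    · exact (IsForm.false 4).congr fun _ _ => by simp [h]
  by_cases hr : r < D.A
  · refine (IsTerm.ite (htt.and (hii.and (hconst (s < 2 * D.A ∧ s / 2 = r))))
      (IsTerm.const 4 1) (IsTerm.const 4 0)).congr fun x e => ?_
    simp only [dig, hr, if_true]
    congr 1
  · cases hp : D.pats[r - D.A]? with
    | none =>
      refine (IsTerm.const 4 0).congr fun x e => ?_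
      simp [dig, hr, hp]
    | some π =>
      have hπ : π ∈ D.pats := List.mem_of_getElem? hp
      have hg : IsForm 4 (fun x e => π.guard x (e 2) (e 3)) :=
        (hD.guard_form π hπ).renameV (fun i => i + 2) (fun i hi => by omega)
      by_cases hs : s < 2 * D.A
      · have hsum : IsTerm 4 (fun x e => (π.lits.map fun l =>
            if (e 2 + l.dt = e 0 ∧ l.pos (e 3) = e 1 ∧ l.code = s / 2 ∧ l.sign = (s % 2 == 1))
              then 1 else 0).sum) := by
          refine IsTerm.sum_list π.lits fun l _ => ?_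
          refine (IsTerm.ite ((IsForm.eq ((IsTerm.var (i := 2) (by norm_num)).add
            (IsTerm.const 4 l.dt)) (IsTerm.var (i := 0) (by norm_num))).and
              ((IsForm.eq (term_pos (i := 3) (by norm_num) l) (IsTerm.var (i := 1)
                (by norm_num))).and (hconst (l.code = s / 2 ∧ l.sign = (s % 2 == 1)))))
                  (IsTerm.const 4 1) (IsTerm.const 4 0)).congr fun x e => ?_
          congr 1
        refine (IsTerm.ite hg hsum (IsTerm.const 4 0)).congr fun x e => ?_
        simp only [dig, hr, if_false, hp, hs, if_true]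
      · refine (IsTerm.ite hg (IsTerm.ite (htt.and (hii.and (hconst ((s - 2 * D.A) / 4 =
          r - D.A)))) (IsTerm.const 4 (slk π ((s - 2 * D.A) % 4))) (IsTerm.const 4 0))
            (IsTerm.const 4 0)).congr fun x e => ?_
        simp only [dig, hr, if_false, hp, hs]
        congr 1
        congr 1

theorem term_sdg (hD : D.Good 5) (r : ℕ) : IsTerm 2 (fun x e => sdg D x (e 0) (e 1) r) := by
  classical
  by_cases hr : r < D.A
  · exact (IsTerm.const 2 1).congr fun x e => by simp [sdg, hr]
  · cases hp : D.pats[r - D.A]? with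
    | none => exact (IsTerm.const 2 0).congr fun x e => by simp [sdg, hr, hp]
    | some π =>
      have hπ : π ∈ D.pats := List.mem_of_getElem? hp
      refine (IsTerm.ite (hD.guard_form π hπ) (IsTerm.const 2 (if π.lits.length = 0 then 1 else 5))
        (IsTerm.const 2 0)).congr fun x e => ?_
      simp only [sdg, hr, if_false, hp]

theorem term_s1dg (hD : D.Good 5) (r : ℕ) : IsTerm 2 (fun x e => s1dg D x (e 0) (e 1) r) := by
  classical
  by_cases hr : r < D.A
  · exact (IsTerm.const 2 1).congr fun x e => by simp [s1dg, hr]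
  · cases hp : D.pats[r - D.A]? with
    | none => exact (IsTerm.const 2 0).congr fun x e => by simp [s1dg, hr, hp]
    | some π =>
      have hπ : π ∈ D.pats := List.mem_of_getElem? hp
      refine (IsTerm.ite (hD.guard_form π hπ)
        (IsTerm.const 2 (if π.lits.length = 0 then 1 else π.lits.length - 1))
        (IsTerm.const 2 0)).congr fun x e => ?_
      simp only [s1dg, hr, if_false, hp]

/-! ### lists over products -/

theorem range_mul_flatMap {β : Type*} (a b : ℕ) (F : ℕ → List β) :
    (List.range (a * b)).flatMap F =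
      (List.range a).flatMap fun i => (List.range b).flatMap fun j => F (i * b + j) := by
  induction a with
  | zero => simp
  | succ a ih =>
    rw [Nat.succ_mul, List.range_add, List.flatMap_append, ih, List.range_succ (n := a),
      List.flatMap_append, List.flatMap_map]
    simp

theorem range_mul3_flatMap {β : Type*} (a b c : ℕ) (F : ℕ → List β) :
    (List.range (a * b * c)).flatMap F =
      (List.range a).flatMap fun i => (List.range b).flatMap fun j =>
        (List.range c).flatMap fun l => F ((i * b + j) * c + l) := by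
  rw [range_mul_flatMap, range_mul_flatMap]

theorem flatMap_range_congr {β : Type*} {n : ℕ} {F G : ℕ → List β} (h : ∀ i < n, F i = G i) :
    (List.range n).flatMap F = (List.range n).flatMap G :=
  List.flatMap_congr fun i hi => h i (List.mem_range.1 hi)

theorem divmod3 {a b c H R : ℕ} (hb : b < H) (hc : c < R) :
    ((a * H + b) * R + c) / R / H = a ∧ ((a * H + b) * R + c) / R % H = b ∧
      ((a * H + b) * R + c) % R = c := by
  have h1 : ((a * H + b) * R + c) / R = a * H + b := by
    rw [mul_comm, Nat.mul_add_div (by omega), Nat.div_eq_of_lt hc, add_zero]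
  have h2 : ((a * H + b) * R + c) % R = c := by
    rw [mul_comm, Nat.mul_add_mod, Nat.mod_eq_of_lt hc]
  refine ⟨?_, ?_, h2⟩
  · rw [h1, mul_comm, Nat.mul_add_div (by omega), Nat.div_eq_of_lt hb, add_zero]
  · rw [h1, mul_comm, Nat.mul_add_mod, Nat.mod_eq_of_lt hb]

/-- the digits of a number which is given by a family of small digits -/
theorem bits_col (x : List Bool) (d : ℕ → ℕ → ℕ → ℕ) (hd : ∀ t i r, d t i r < 256) :
    bitsN (8 * nCol D x) (∑ c ∈ Finset.range (nCol D x),
      d (c / nR D / D.H x) (c / nR D % D.H x) (c % nR D) * 256 ^ c) =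
    (List.range (D.T x)).flatMap fun t => (List.range (D.H x)).flatMap fun i =>
      (List.range (nR D)).flatMap fun r => bitsN 8 (d t i r) := by
  have h1 := bitsN_digits (C := nCol D x) 8
    (fun c => d (c / nR D / D.H x) (c / nR D % D.H x) (c % nR D)) (fun c _ => hd _ _ _)
  norm_num at h1
  rw [h1]
  unfold nCol
  rw [range_mul3_flatMap]
  refine flatMap_range_congr fun t _ => flatMap_range_congr fun i hi =>
    flatMap_range_congr fun r hr => ?_
  obtain ⟨e1, e2, e3⟩ := divmod3 (a := t) hi hr
  rw [e1, e2, e3]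

theorem sum_col_lt (x : List Bool) (d : ℕ → ℕ → ℕ → ℕ) (hd : ∀ t i r, d t i r < 256) :
    ∑ c ∈ Finset.range (nCol D x),
      d (c / nR D / D.H x) (c / nR D % D.H x) (c % nR D) * 256 ^ c < 2 ^ (8 * nCol D x) := by
  generalize nCol D x = n
  induction n with
  | zero => simp
  | succ n ih =>
    rw [Finset.sum_range_succ]
    have h2 := hd (n / nR D / D.H x) (n / nR D % D.H x) (n % nR D)
    have h3 : 2 ^ (8 * (n + 1)) = 256 * 2 ^ (8 * n) := by
      rw [show 8 * (n + 1) = 8 + 8 * n by ring, pow_add]; norm_num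
    have h4 : 256 ^ n = 2 ^ (8 * n) := by rw [pow_mul]; norm_num
    rw [h3, h4]
    nlinarith [Nat.mul_le_mul_right (2 ^ (8 * n)) h2]

/-- value of the item `(t, i, s)` -/
noncomputable def avT (D : DCNF) (x : List Bool) (t i s : ℕ) : ℕ :=
  ∑ c ∈ Finset.range (nCol D x),
    dig D x t i s (c / nR D / D.H x) (c / nR D % D.H x) (c % nR D) * 256 ^ c

theorem av_eq (x : List Bool) {t i s : ℕ} (hi : i < D.H x) (hs : s < nI D) :
    av D x ((t * D.H x + i) * nI D + s) = avT D x t i s := by
  unfold av avT digN
  obtain ⟨e1, e2, e3⟩ := divmod3 (a := t) hi hs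
  simp only [e1, e2, e3]

theorem avT_lt (hD : D.Good 5) (x : List Bool) (t i s : ℕ) :
    avT D x t i s < 2 ^ (8 * nCol D x) :=
  sum_col_lt x (fun t' i' r => dig D x t i s t' i' r) fun t' i' r => by
    have := dig_le hD x t i s t' i' r; omega

/-- printing the digits of an item; the variables are `t, i` -/
theorem emit_avT (hD : D.Good 5) (s : ℕ) :
    IsE 2 (fun x e => bitsN (8 * nCol D x) (avT D x (e 0) (e 1) s)) := by
  have h1 := IsE.for (k := 2) (term_T hD 2) (IsE.for (k := 3) (term_H hD 3)
    (IsE.list (List.range (nR D)) fun r _ => IsE.bits 8 (term_dig hD s r)))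
  refine h1.congr fun x e => ?_
  have h2 := bits_col (D := D) x (fun t' i' r => dig D x (e 0) (e 1) s t' i' r)
    (fun t' i' r => by have := dig_le hD x (e 0) (e 1) s t' i' r; omega)
  rw [avT, h2]
  simp

theorem emit_S (hD : D.Good 5) (f : ℕ → ℕ) (hf : ∀ n ≤ 5, f n < 256)
    (hterm : ∀ g : List Bool → (ℕ → ℕ) → ℕ, IsTerm 2 g → IsTerm 2 (fun x e => f (g x e))) :
    IsE 0 (fun x _ => bitsN (8 * nCol D x) (∑ c ∈ Finset.range (nCol D x),
      f (sdg D x (c / nR D / D.H x) (c / nR D % D.H x) (c % nR D)) * 256 ^ c)) := by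
  have h1 := IsE.for (k := 0) (term_T hD 0) (IsE.for (k := 1) (term_H hD 1)
    (IsE.list (List.range (nR D)) fun r _ => IsE.bits 8 (hterm _ (term_sdg hD r))))
  refine h1.congr fun x e => ?_
  have h2 := bits_col (D := D) x (fun t' i' r => f (sdg D x t' i' r))
    (fun t' i' r => hf _ (sdg_le x t' i' r))
  rw [h2]
  simp

theorem emit_S1 (hD : D.Good 5) :
    IsE 0 (fun x _ => bitsN (8 * nCol D x) (55 * tS1 D x)) := by
  have h1 := IsE.for (k := 0) (term_T hD 0) (IsE.for (k := 1) (term_H hD 1)
    (IsE.list (List.range (nR D)) fun r _ => IsE.bits 8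
      ((IsTerm.const 2 55).mul (term_s1dg hD r))))
  refine h1.congr fun x e => ?_
  have h2 := bits_col (D := D) x (fun t' i' r => 55 * s1dg D x t' i' r)
    (fun t' i' r => by have := s1dg_le hD x t' i' r; omega)
  have h3 : 55 * tS1 D x = ∑ c ∈ Finset.range (nCol D x),
      (55 * s1dg D x (c / nR D / D.H x) (c / nR D % D.H x) (c % nR D)) * 256 ^ c := by
    rw [tS1, Finset.mul_sum]
    exact Finset.sum_congr rfl fun c _ => by ring
  rw [h3, h2]
  simp

theorem S1_lt (hD : D.Good 5) (x : List Bool) : 55 * tS1 D x < 2 ^ (8 * nCol D x) := by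
  have h3 : 55 * tS1 D x = ∑ c ∈ Finset.range (nCol D x),
      (55 * s1dg D x (c / nR D / D.H x) (c / nR D % D.H x) (c % nR D)) * 256 ^ c := by
    rw [tS1, Finset.mul_sum]
    exact Finset.sum_congr rfl fun c _ => by ring
  rw [h3]
  exact sum_col_lt x (fun t' i' r => 55 * s1dg D x t' i' r)
    (fun t' i' r => by have := s1dg_le hD x t' i' r; omega)

/-- the complement of the digits of the target -/
theorem compl_S (x : List Bool) : ∑ c ∈ Finset.range (nCol D x),
      (255 - sdg D x (c / nR D / D.H x) (c / nR D % D.H x) (c % nR D)) * 256 ^ c + tS D x + 1 =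
    2 ^ (8 * nCol D x) := by
  unfold tS
  generalize nCol D x = n
  induction n with
  | zero => simp
  | succ n ih =>
    rw [Finset.sum_range_succ, Finset.sum_range_succ]
    have h3 : 2 ^ (8 * (n + 1)) = 256 * 2 ^ (8 * n) := by
      rw [show 8 * (n + 1) = 8 + 8 * n by ring, pow_add]; norm_num
    have h4 : 256 ^ n = 2 ^ (8 * n) := by rw [pow_mul]; norm_num
    have h5 := sdg_le (D := D) x (n / nR D / D.H x) (n / nR D % D.H x) (n % nR D)
    rw [h3, ← ih]
    generalize sdg D x (n / nR D / D.H x) (n / nR D % D.H x) (n % nR D) = s at h5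
    rw [h4] at *
    obtain ⟨u, rfl⟩ : ∃ u, s = u := ⟨s, rfl⟩
    have h6 : (255 - s) * 2 ^ (8 * n) + s * 2 ^ (8 * n) = 255 * 2 ^ (8 * n) := by
      rw [← Nat.add_mul]; congr 1; omega
    nlinarith

end Pool.Agent.Lib57.CT
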