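import Mathlib
import Pool.Agent.Lib_helper57.CT.EmitInst

/-! Printing the polygons of the instance. -/

namespace Pool.Agent.Lib57.CT

open Function Computability N487b59b3

variable {D : DCNF}

/-- number of rooms -/
def iN (D : DCNF) (x : List Bool) : ℕ := nItem D x + 1
/-- widths -/
def iS (D : DCNF) (x : List Bool) : ℕ := iN D x + 10
def iM (D : DCNF) (x : List Bool) : ℕ := 1 + (8 * nCol D x + (8 * nCol D x + iN D x + 10))
def iMQ (D : DCNF) (x : List Bool) : ℕ :=
  iS D x + 4 + (8 * nCol D x + (8 * nCol D x + iN D x + iS D x + 13))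

/-- the numbers of the rooms -/
noncomputable def iA (D : DCNF) (x : List Bool) (i : ℕ) : ℕ :=
  if i < nItem D x then av D x (nItem D x - 1 - i) else 0

/-- text of a vertex of `P` -/
def tP (N m S : ℕ) (a : ℕ → ℕ) (κ : Kd) : List Bool := delimit (bitEncode (gP N m S a κ))

/-- text of a vertex of `Q` -/
def tQ (N m s S1 : ℕ) (a : ℕ → ℕ) (κ : Kd) : List Bool := delimit (bitEncode (gQ N m s S1 a κ))

/-- text of a room of `P` whose number is `v` -/
def roomP (N m S i v : ℕ) : List Bool :=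
  tP N m S (fun _ => v) (.H (i + 1)) ++ (tP N m S (fun _ => v) (.G i) ++
    (tP N m S (fun _ => v) (.F i) ++ (tP N m S (fun _ => v) (.T i) ++
      (tP N m S (fun _ => v) (.C i) ++ tP N m S (fun _ => v) (.A i)))))

/-- text of a room of `Q` whose number is `v` -/
def roomQ (N m s S1 i v : ℕ) : List Bool :=
  tQ N m s S1 (fun _ => v) (.H (i + 1)) ++ (tQ N m s S1 (fun _ => v) (.G i) ++
    (tQ N m s S1 (fun _ => v) (.F i) ++ (tQ N m s S1 (fun _ => v) (.T i) ++
      (tQ N m s S1 (fun _ => v) (.C i) ++ tQ N m s S1 (fun _ => v) (.A i)))))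

/-! ### the texts of the polygons -/

theorem text_P (N m S : ℕ) (a : ℕ → ℕ) :
    bitEncode (List.ofFn (instP N m S a)) =
      tP N m S a .B ++ ((List.range (N + 1)).flatMap (fun j => tP N m S a (.p j)) ++
        (tP N m S a .E ++ ((List.range N).flatMap (fun q => roomP N m S (N - 1 - q)
          (a (N - 1 - q))) ++ tP N m S a (.H 0)))) := by
  have h := ofFn_layout N (gP N m S a)
  have h1 : List.ofFn (instP N m S a) = List.ofFn (fun v : Fin (nV N) => gP N m S a (kd N v)) :=
    rfl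
  rw [bitEncode_list, h1, h]
  simp only [List.flatMap_append, List.flatMap_cons, List.flatMap_nil, List.append_nil,
    List.flatMap_map, List.flatMap_assoc]
  have h2 : ∀ q < N, N - q = N - 1 - q + 1 := fun q hq => by omega
  have h3 : (List.range N).flatMap (fun q => delimit (bitEncode (gP N m S a (Kd.H (N - q)))) ++
      (delimit (bitEncode (gP N m S a (Kd.G (N - 1 - q)))) ++
        (delimit (bitEncode (gP N m S a (Kd.F (N - 1 - q)))) ++
          (delimit (bitEncode (gP N m S a (Kd.T (N - 1 - q)))) ++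
            (delimit (bitEncode (gP N m S a (Kd.C (N - 1 - q)))) ++
              delimit (bitEncode (gP N m S a (Kd.A (N - 1 - q))))))))) =
      (List.range N).flatMap (fun q => roomP N m S (N - 1 - q) (a (N - 1 - q))) := by
    refine flatMap_range_congr fun q hq => ?_
    rw [h2 q hq]
    rfl
  rw [h3]
  rfl

theorem text_Q (N m s S1 : ℕ) (a : ℕ → ℕ) :
    bitEncode (List.ofFn (instQ N m s S1 a)) =
      tQ N m s S1 a .B ++ ((List.range (N + 1)).flatMap (fun j => tQ N m s S1 a (.p j)) ++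
        (tQ N m s S1 a .E ++ ((List.range N).flatMap (fun q => roomQ N m s S1 (N - 1 - q)
          (a (N - 1 - q))) ++ tQ N m s S1 a (.H 0)))) := by
  have h := ofFn_layout N (gQ N m s S1 a)
  have h1 : List.ofFn (instQ N m s S1 a) =
    List.ofFn (fun v : Fin (nV N) => gQ N m s S1 a (kd N v)) := rfl
  rw [bitEncode_list, h1, h]
  simp only [List.flatMap_append, List.flatMap_cons, List.flatMap_nil, List.append_nil,
    List.flatMap_map, List.flatMap_assoc]
  have h2 : ∀ q < N, N - q = N - 1 - q + 1 := fun q hq => by omega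
  have h3 : (List.range N).flatMap (fun q => delimit (bitEncode (gQ N m s S1 a (Kd.H (N - q)))) ++
      (delimit (bitEncode (gQ N m s S1 a (Kd.G (N - 1 - q)))) ++
        (delimit (bitEncode (gQ N m s S1 a (Kd.F (N - 1 - q)))) ++
          (delimit (bitEncode (gQ N m s S1 a (Kd.T (N - 1 - q)))) ++
            (delimit (bitEncode (gQ N m s S1 a (Kd.C (N - 1 - q)))) ++
              delimit (bitEncode (gQ N m s S1 a (Kd.A (N - 1 - q))))))))) =
      (List.range N).flatMap (fun q => roomQ N m s S1 (N - 1 - q) (a (N - 1 - q))) := by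
    refine flatMap_range_congr fun q hq => ?_
    rw [h2 q hq]
    rfl
  rw [h3]
  rfl

/-- the rooms in terms of the items -/
theorem rooms_text {β : Type*} (x : List Bool) (R : ℕ → ℕ → List β) :
    (List.range (iN D x)).flatMap (fun q => R (iN D x - 1 - q) (iA D x (iN D x - 1 - q))) =
      R (nItem D x) 0 ++ (List.range (D.T x)).flatMap fun t => (List.range (D.H x)).flatMap
        fun i => (List.range (nI D)).flatMap fun s =>
          R (nItem D x - 1 - ((t * D.H x + i) * nI D + s)) (avT D x t i s) := by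
  have e0 : iN D x = nItem D x + 1 := rfl
  rw [e0, List.range_succ_eq_map, List.flatMap_cons, List.flatMap_map]
  have e1 : R (nItem D x + 1 - 1 - 0) (iA D x (nItem D x + 1 - 1 - 0)) = R (nItem D x) 0 := by
    have : iA D x (nItem D x + 1 - 1 - 0) = 0 := by
      unfold iA
      rw [if_neg (by omega)]
    rw [this]; congr 1
  rw [e1]
  congr 1
  have e2 : (List.range (nItem D x)).flatMap (fun a => R (nItem D x + 1 - 1 - Nat.succ a)
      (iA D x (nItem D x + 1 - 1 - Nat.succ a))) =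
      (List.range (nItem D x)).flatMap (fun j => R (nItem D x - 1 - j) (av D x j)) := by
    refine flatMap_range_congr fun j hj => ?_
    have h1 : nItem D x + 1 - 1 - Nat.succ j = nItem D x - 1 - j := by omega
    have h2 : iA D x (nItem D x - 1 - j) = av D x j := by
      unfold iA
      rw [if_pos (by omega)]
      congr 1; omega
    rw [h1, h2]
  rw [e2]
  show (List.range (D.T x * D.H x * nI D)).flatMap _ = _
  rw [range_mul3_flatMap]
  refine flatMap_range_congr fun t _ => flatMap_range_congr fun i hi =>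
    flatMap_range_congr fun s hs => ?_
  rw [av_eq x hi hs]

/-! ### terms -/

theorem term_nCol (hD : D.Good 5) (k : ℕ) : IsTerm k (fun x _ => nCol D x) :=
  ((term_T hD k).mul (term_H hD k)).mul (IsTerm.const k (nR D))

theorem term_nItem (hD : D.Good 5) (k : ℕ) : IsTerm k (fun x _ => nItem D x) :=
  ((term_T hD k).mul (term_H hD k)).mul (IsTerm.const k (nI D))

theorem term_iN (hD : D.Good 5) (k : ℕ) : IsTerm k (fun x _ => iN D x) :=
  (term_nItem hD k).add (IsTerm.const k 1)

theorem term_iS (hD : D.Good 5) (k : ℕ) : IsTerm k (fun x _ => iS D x) :=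
  (term_iN hD k).add (IsTerm.const k 10)

theorem term_8 (hD : D.Good 5) (k : ℕ) : IsTerm k (fun x _ => 8 * nCol D x) :=
  (IsTerm.const k 8).mul (term_nCol hD k)

theorem term_z (hD : D.Good 5) (k : ℕ) : IsTerm k (fun x _ => 8 * nCol D x + iN D x + 10) :=
  ((term_8 hD k).add (term_iN hD k)).add (IsTerm.const k 10)

theorem term_zQ (hD : D.Good 5) (k : ℕ) :
    IsTerm k (fun x _ => 8 * nCol D x + iN D x + iS D x + 13) :=
  (((term_8 hD k).add (term_iN hD k)).add (term_iS hD k)).add (IsTerm.const k 13)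

theorem term_iM (hD : D.Good 5) (k : ℕ) : IsTerm k (fun x _ => iM D x) :=
  (IsTerm.const k 1).add ((term_8 hD k).add (term_z hD k))

theorem term_iMQ (hD : D.Good 5) (k : ℕ) : IsTerm k (fun x _ => iMQ D x) :=
  ((term_iS hD k).add (IsTerm.const k 4)).add ((term_8 hD k).add (term_zQ hD k))

/-! ### low parts -/

theorem bitsN_full (m : ℕ) : bitsN m (2 ^ m - 1) = List.replicate m true := by
  induction m with
  | zero => rfl
  | succ m ih =>
    have h1 : (2 ^ (m + 1) - 1) / 2 = 2 ^ m - 1 := by rw [pow_succ]; omega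
    have h2 : (2 ^ (m + 1) - 1) % 2 = 1 := by
      rw [pow_succ]; have : 0 < 2 ^ m := by positivity
      omega
    rw [bitsN, h1, h2, ih, List.replicate_succ]
    rfl

theorem emit_zero {k : ℕ} {m : List Bool → (ℕ → ℕ) → ℕ} (hm : IsTerm k m) :
    IsE k (fun x e => bitsN (m x e) 0) :=
  (IsE.replicate hm false).congr fun x e => (bitsN_zero _).symm

theorem emit_pad {k : ℕ} {m z v : List Bool → (ℕ → ℕ) → ℕ} (hz : IsTerm k z)
    (hv : ∀ x e, v x e < 2 ^ m x e) (hE : IsE k fun x e => bitsN (m x e) (v x e)) :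
    IsE k (fun x e => bitsN (m x e + z x e) (v x e)) := by
  refine (hE.append (emit_zero hz)).congr fun x e => ?_
  have := bitsN_add (m := m x e) (m' := z x e) (u := 0) (hv x e)
  rw [mul_zero, add_zero] at this
  exact this.symm

theorem emit_low {k : ℕ} {v : List Bool → (ℕ → ℕ) → ℕ} (hD : D.Good 5)
    (hv : ∀ x e, v x e < 2 ^ (8 * nCol D x)) (hE : IsE k fun x e => bitsN (8 * nCol D x) (v x e)) :
    IsE k (fun x e => bitsN (iM D x) (v x e)) := by
  refine (emit_pad (m := fun x _ => 8 * nCol D x)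
    (z := fun x _ => 8 * nCol D x + iN D x + 10 + 1) ((term_z hD k).add (IsTerm.const k 1))
      hv hE).congr fun x e => ?_
  congr 1
  unfold iM; ring

theorem low_lt {x : List Bool} {v : ℕ} (hv : v < 2 ^ (8 * nCol D x)) : v < 2 ^ iM D x :=
  hv.trans_le (Nat.pow_le_pow_right (by norm_num) (by unfold iM; omega))

/-! ### rooms of `P` -/

theorem hP_ne (N : ℕ) (κ : Kd) : hP N κ ≠ 0 := by
  cases κ <;> simp only [hP] <;> positivity

theorem hQ_ne (N : ℕ) (κ : Kd) : hQ N κ ≠ 0 := by
  cases κ <;> simp only [hQ] <;> positivity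

theorem emit_P0 {k : ℕ} (hD : D.Good 5) {X h : List Bool → (ℕ → ℕ) → ℕ} (hX : IsTerm k X)
    (hh : IsTerm k h) (hh0 : ∀ x e, h x e ≠ 0) :
    IsE k (fun x e => delimit (bitEncode
      (((X x e : ℚ), -((0 + 2 ^ iM D x * h x e : ℕ) : ℚ)) : ℚ × ℚ))) :=
  emit_neg hX (fun _ _ => by positivity) (emit_zero (term_iM hD k)) hh hh0

theorem emit_roomP {k : ℕ} (hD : D.Good 5) {i v : List Bool → (ℕ → ℕ) → ℕ} (hi : IsTerm k i)
    (hv : ∀ x e, v x e < 2 ^ (8 * nCol D x)) (hE : IsE k fun x e => bitsN (8 * nCol D x) (v x e)) :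
    IsE k (fun x e => roomP (iN D x) (iM D x) (tS D x) (i x e) (v x e)) := by
  have c := IsTerm.const k
  have hv' : ∀ x e, v x e < 2 ^ iM D x := fun x e => low_lt (hv x e)
  have hi1 := hi.add (c 1)
  have hi64 := (c 64).mul hi
  have hi128 := (c 128).mul hi
  refine IsE.append ?_ (IsE.append ?_ (IsE.append ?_ (IsE.append ?_ (IsE.append ?_ ?_))))
  · exact emit_P0 hD (((c 128).mul hi1).add (c 136))
      ((c 91).add ((hi1.add (c 1)).mul (((c 64).mul hi1).add (c 8)))) fun _ _ => hP_ne _ _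
  · exact emit_neg (hi128.add (c 194)) hv' (emit_low hD hv hE)
      ((c 64).add (hi1.mul (hi64.add (c 66)))) fun _ _ => hP_ne _ _
  · exact emit_neg (hi128.add (c 193)) hv' (emit_low hD hv hE)
      ((c 64).add (hi1.mul (hi64.add (c 65)))) fun _ _ => hP_ne _ _
  · exact emit_P0 hD (hi128.add (c 184))
      ((c 32).add (hi1.mul (hi64.add (c 56)))) fun _ _ => hP_ne _ _
  · exact emit_P0 hD (hi128.add (c 176))
      ((c 64).add (hi1.mul (hi64.add (c 48)))) fun _ _ => hP_ne _ _
  · exact emit_P0 hD (hi128.add (c 160))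
      ((c 64).add (hi1.mul (hi64.add (c 32)))) fun _ _ => hP_ne _ _

/-! ### rooms of `Q` -/

theorem emit_Q0 {k : ℕ} (hD : D.Good 5) {X h : List Bool → (ℕ → ℕ) → ℕ} (hX : IsTerm k X)
    (hh : IsTerm k h) (hh0 : ∀ x e, h x e ≠ 0) :
    IsE k (fun x e => delimit (bitEncode
      (((X x e : ℚ), ((0 + 2 ^ iMQ D x * h x e : ℕ) : ℚ)) : ℚ × ℚ))) :=
  emit_pos hX (fun _ _ => by positivity) (emit_zero (term_iMQ hD k)) hh hh0

theorem iMQ_pos (x : List Bool) : 1 ≤ iMQ D x := by unfold iMQ; omega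

theorem emit_one {k : ℕ} (hD : D.Good 5) : IsE k (fun x _ => bitsN (iMQ D x) 1) := by
  have h1 : IsE k (fun _ _ => bitsN 1 1) := IsE.word k _
  refine (emit_pad (m := fun _ _ => 1) (v := fun _ _ => 1) (z := fun x _ => iMQ D x - 1)
    ((term_iMQ hD k).sub (IsTerm.const k 1)) (fun _ _ => by norm_num) h1).congr fun x e => ?_
  congr 1
  have := iMQ_pos (D := D) x
  omega

theorem lowF_lt {x : List Bool} {v : ℕ} (hv : v < 2 ^ (8 * nCol D x)) :
    2 + 2 ^ (iS D x + 4) * v < 2 ^ iMQ D x := by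
  have h1 : 2 ^ iMQ D x = 2 ^ (iS D x + 4) * (2 ^ (8 * nCol D x) *
    2 ^ (8 * nCol D x + iN D x + iS D x + 13)) := by
    unfold iMQ; rw [pow_add, pow_add 2 (8 * nCol D x)]
  have h2 : 2 < 2 ^ (iS D x + 4) := by
    calc 2 < 2 ^ 4 := by norm_num
      _ ≤ _ := Nat.pow_le_pow_right (by norm_num) (by omega)
  have h3 : 1 ≤ 2 ^ (8 * nCol D x + iN D x + iS D x + 13) := Nat.one_le_two_pow
  rw [h1]
  calc 2 + 2 ^ (iS D x + 4) * v < 2 ^ (iS D x + 4) * (v + 1) := by rw [mul_add]; omega
    _ ≤ 2 ^ (iS D x + 4) * (2 ^ (8 * nCol D x) * 2 ^ (8 * nCol D x + iN D x + iS D x + 13)) :=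
      Nat.mul_le_mul_left _ (by nlinarith)

theorem emit_lowF {k : ℕ} {v : List Bool → (ℕ → ℕ) → ℕ} (hD : D.Good 5)
    (hv : ∀ x e, v x e < 2 ^ (8 * nCol D x)) (hE : IsE k fun x e => bitsN (8 * nCol D x) (v x e)) :
    IsE k (fun x e => bitsN (iMQ D x) (2 + 2 ^ (iS D x + 4) * v x e)) := by
  have h1 : IsE k (fun _ _ => bitsN 2 2) := IsE.word k _
  have h2 := emit_pad (m := fun _ _ => 2) (v := fun _ _ => 2) (z := fun x _ => iS D x + 2)
    ((term_iS hD k).add (IsTerm.const k 2)) (fun _ _ => by norm_num) h1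
  have h3 := emit_pad (m := fun x _ => 8 * nCol D x) (term_zQ hD k) hv hE
  refine (h2.append h3).congr fun x e => ?_
  have h4 : 2 < 2 ^ (iS D x + 4) := by
    calc 2 < 2 ^ 4 := by norm_num
      _ ≤ _ := Nat.pow_le_pow_right (by norm_num) (by omega)
  have h5 := bitsN_add (m := iS D x + 4) (m' := 8 * nCol D x +
    (8 * nCol D x + iN D x + iS D x + 13)) (u := v x e) h4
  show bitsN (2 + (iS D x + 2)) 2 ++ _ = _
  rw [show 2 + (iS D x + 2) = iS D x + 4 by ring, ← h5]
  rfl

theorem emit_roomQ {k : ℕ} (hD : D.Good 5) {i v : List Bool → (ℕ → ℕ) → ℕ} (hi : IsTerm k i)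
    (hv : ∀ x e, v x e < 2 ^ (8 * nCol D x)) (hE : IsE k fun x e => bitsN (8 * nCol D x) (v x e)) :
    IsE k (fun x e => roomQ (iN D x) (iMQ D x) (iS D x) (tS1 D x) (i x e) (v x e)) := by
  have c := IsTerm.const k
  have hi1 := hi.add (c 1)
  have hi16 := (c 16).mul hi
  have hii := (c 128).mul (hi.mul hi)
  have hjj := (c 128).mul (hi1.mul hi1)
  refine IsE.append ?_ (IsE.append ?_ (IsE.append ?_ (IsE.append ?_ (IsE.append ?_ ?_))))
  · exact emit_Q0 hD (((c 16).mul hi1).add (c 40))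
      ((hjj.add ((c 1152).mul hi1)).add (c 4160)) fun _ _ => hQ_ne _ _
  · exact emit_pos (hi16.add (c 52)) (fun x _ => Nat.one_lt_two_pow
      (by have := iMQ_pos (D := D) x; omega)) (emit_one hD)
      ((hjj.add ((c 1088).mul hi1)).add (c 3872)) fun _ _ => hQ_ne _ _
  · exact emit_pos (hi16.add (c 50)) (fun x e => lowF_lt (hv x e)) (emit_lowF hD hv hE)
      ((hjj.add ((c 1056).mul hi1)).add (c 3728)) fun _ _ => hQ_ne _ _
  · exact emit_Q0 hD (hi16.add (c 47))
      ((hii.add ((c 1264).mul hi)).add (c 4668)) fun _ _ => hQ_ne _ _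
  · exact emit_Q0 hD (hi16.add (c 46))
      ((hii.add ((c 1248).mul hi)).add (c 4593)) fun _ _ => hQ_ne _ _
  · exact emit_Q0 hD (hi16.add (c 44))
      ((hii.add ((c 1216).mul hi)).add (c 4448)) fun _ _ => hQ_ne _ _

end Pool.Agent.Lib57.CT
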