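import Mathlib
import Pool.Agent.Lib_helper57.CT.EmitText

/-! Printing the whole instance. -/

namespace Pool.Agent.Lib57.CT

open Function Computability N487b59b3

variable {D : DCNF}

theorem emit_lowEP (hD : D.Good 5) :
    IsE 0 (fun x _ => bitsN (iM D x) (2 ^ iM D x - 1 - 2 * tS D x)) := by
  have h1 := emit_S hD (fun n => 255 - n) (fun n _ => by omega)
    (fun g hg => (IsTerm.const 2 255).sub hg)
  have h2 : IsE 0 (fun x _ => List.replicate (8 * nCol D x + iN D x + 10) true) :=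
    IsE.replicate (term_z hD 0) true
  refine ((IsE.word 0 (bitsN 1 1)).append (h1.append h2)).congr fun x _ => ?_
  have hc := compl_S (D := D) x
  set c := ∑ c ∈ Finset.range (nCol D x),
      (255 - sdg D x (c / nR D / D.H x) (c / nR D % D.H x) (c % nR D)) * 256 ^ c with hcdef
  have hclt : c < 2 ^ (8 * nCol D x) := by omega
  have e1 : 2 ^ iM D x - 1 - 2 * tS D x =
      1 + 2 ^ 1 * (c + 2 ^ (8 * nCol D x) * (2 ^ (8 * nCol D x + iN D x + 10) - 1)) := by
    have h3 : 2 ^ iM D x = 2 * (2 ^ (8 * nCol D x) * 2 ^ (8 * nCol D x + iN D x + 10)) := by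
      unfold iM; rw [pow_add, pow_add 2 (8 * nCol D x), pow_one]
    have h4 : 1 ≤ 2 ^ (8 * nCol D x + iN D x + 10) := Nat.one_le_two_pow
    have h5 : 2 ^ (8 * nCol D x) * (2 ^ (8 * nCol D x + iN D x + 10) - 1) + 2 ^ (8 * nCol D x) =
        2 ^ (8 * nCol D x) * 2 ^ (8 * nCol D x + iN D x + 10) := by
      rw [← Nat.mul_succ]; congr 1; omega
    rw [h3, ← h5]
    omega
  rw [e1, ← bitsN_full]
  have h6 := bitsN_add (m := 8 * nCol D x) (m' := 8 * nCol D x + iN D x + 10)
    (u := 2 ^ (8 * nCol D x + iN D x + 10) - 1) hclt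
  have h7 := bitsN_add (m := 1) (m' := 8 * nCol D x + (8 * nCol D x + iN D x + 10)) (v := 1)
    (u := c + 2 ^ (8 * nCol D x) * (2 ^ (8 * nCol D x + iN D x + 10) - 1)) (by norm_num)
  rw [← h6]
  exact h7.symm

theorem lowEP_lt (x : List Bool) : 2 ^ iM D x - 1 - 2 * tS D x < 2 ^ iM D x := by
  have : 0 < 2 ^ iM D x := by positivity
  omega

theorem emit_lowEQ (hD : D.Good 5) :
    IsE 0 (fun x _ => bitsN (iMQ D x) (2 ^ iS D x + 2 ^ (iS D x + 1) * (55 * tS1 D x))) := by
  have h1 : IsE 0 (fun x _ => bitsN (iS D x) 0) := emit_zero (term_iS hD 0)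
  have h2 := emit_pad (m := fun x _ => 8 * nCol D x)
    (z := fun x _ => 8 * nCol D x + iN D x + iS D x + 13 + 3)
    ((term_zQ hD 0).add (IsTerm.const 0 3)) (fun x _ => S1_lt hD x) (emit_S1 hD)
  refine ((h1.append (IsE.word 0 (bitsN 1 1))).append h2).congr fun x _ => ?_
  have h3 := bitsN_add (m := iS D x) (m' := 1) (v := 0) (u := 1) (by positivity)
  rw [zero_add, mul_one] at h3
  have h4 : 2 ^ iS D x < 2 ^ (iS D x + 1) := Nat.pow_lt_pow_right (by norm_num) (by omega)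
  have h5 := bitsN_add (m := iS D x + 1)
    (m' := 8 * nCol D x + (8 * nCol D x + iN D x + iS D x + 13 + 3)) (u := 55 * tS1 D x) h4
  rw [← h3, ← h5]
  congr 1
  unfold iMQ; ring

theorem lowEQ_lt (hD : D.Good 5) (x : List Bool) :
    2 ^ iS D x + 2 ^ (iS D x + 1) * (55 * tS1 D x) < 2 ^ iMQ D x := by
  have hv := S1_lt hD x
  have h1 : 2 ^ iMQ D x = 2 ^ (iS D x + 4) * (2 ^ (8 * nCol D x) *
    2 ^ (8 * nCol D x + iN D x + iS D x + 13)) := by
    unfold iMQ; rw [pow_add, pow_add 2 (8 * nCol D x)]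
  have h3 : 1 ≤ 2 ^ (8 * nCol D x + iN D x + iS D x + 13) := Nat.one_le_two_pow
  have h4 : 2 ^ (iS D x + 1) ≤ 2 ^ (iS D x + 4) := Nat.pow_le_pow_right (by norm_num) (by omega)
  have h5 : 2 ^ iS D x < 2 ^ (iS D x + 1) := Nat.pow_lt_pow_right (by norm_num) (by omega)
  rw [h1]
  calc 2 ^ iS D x + 2 ^ (iS D x + 1) * (55 * tS1 D x)
      < 2 ^ (iS D x + 1) * (55 * tS1 D x + 1) := by rw [mul_add]; omega
    _ ≤ 2 ^ (iS D x + 4) * (2 ^ (8 * nCol D x) * 2 ^ (8 * nCol D x + iN D x + iS D x + 13)) :=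
      Nat.mul_le_mul h4 (by nlinarith)

/-- the loop over the items -/
theorem emit_items (hD : D.Good 5) (R : List Bool → ℕ → ℕ → List Bool)
    (hR : ∀ (k : ℕ) (i v : List Bool → (ℕ → ℕ) → ℕ), IsTerm k i →
      (∀ x e, v x e < 2 ^ (8 * nCol D x)) → IsE k (fun x e => bitsN (8 * nCol D x) (v x e)) →
      IsE k (fun x e => R x (i x e) (v x e))) :
    IsE 0 (fun x _ => (List.range (iN D x)).flatMap
      (fun q => R x (iN D x - 1 - q) (iA D x (iN D x - 1 - q)))) := by
  have h0 : IsE 0 (fun x _ => R x (nItem D x) 0) :=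
    hR 0 _ _ (term_nItem hD 0) (fun x _ => by positivity) (emit_zero (term_8 hD 0))
  have h1 : ∀ s, IsE 2 (fun x e => R x (nItem D x - 1 - ((e 0 * D.H x + e 1) * nI D + s))
      (avT D x (e 0) (e 1) s)) := fun s =>
    hR 2 _ _ (((term_nItem hD 2).sub (IsTerm.const 2 1)).sub
      (((((IsTerm.var (by norm_num)).mul (term_H hD 2)).add (IsTerm.var (by norm_num))).mul
        (IsTerm.const 2 (nI D))).add (IsTerm.const 2 s))) (fun x e => avT_lt hD x _ _ s)
        (emit_avT hD s)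
  have h2 := IsE.for (k := 0) (term_T hD 0) (IsE.for (k := 1) (term_H hD 1)
    (IsE.list (List.range (nI D)) fun s _ => h1 s))
  refine (h0.append h2).congr fun x e => ?_
  rw [rooms_text x (R x)]
  simp

theorem emit_polyP (hD : D.Good 5) : IsE 0 (fun x _ =>
    bitEncode (List.ofFn (instP (iN D x) (iM D x) (tS D x) (iA D x)))) := by
  have c := fun k => IsTerm.const k
  have hB : IsE 0 (fun x _ => tP (iN D x) (iM D x) (tS D x) (iA D x) .B) :=
    emit_P0 hD (c 0 64) (c 0 64) fun x _ => hP_ne (iN D x) .B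
  have hp : IsE 1 (fun x e => tP (iN D x) (iM D x) (tS D x) (iA D x) (.p (e 0))) := by
    have v0 : IsTerm 1 (fun _ e => e 0) := IsTerm.var (by norm_num)
    exact emit_P0 hD (((c 1 128).mul v0).add (c 1 128))
      ((c 1 96).add (((c 1 64).mul (v0.add (c 1 1))).mul v0)) fun _ _ => hP_ne 0 (.p _)
  have hE : IsE 0 (fun x _ => tP (iN D x) (iM D x) (tS D x) (iA D x) .E) :=
    emit_neg (((c 0 128).mul (term_iN hD 0)).add (c 0 192)) (fun x _ => lowEP_lt x)
      (emit_lowEP hD) ((c 0 63).add (((c 0 64).mul ((term_iN hD 0).add (c 0 1))).mul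
        ((term_iN hD 0).add (c 0 1)))) fun x _ => hP_ne (iN D x) .E
  have hH : IsE 0 (fun x _ => tP (iN D x) (iM D x) (tS D x) (iA D x) (.H 0)) :=
    emit_P0 hD (c 0 (128 * 0 + 136)) (c 0 (91 + (0 + 1) * (64 * 0 + 8)))
      fun x _ => hP_ne (iN D x) (.H 0)
  have hR := emit_items hD (fun x i v => roomP (iN D x) (iM D x) (tS D x) i v)
    (fun k i v hi hv hE => emit_roomP hD hi hv hE)
  have hloop := IsE.for (k := 0) ((term_iN hD 0).add (c 0 1)) hp
  refine (hB.append (hloop.append (hE.append (hR.append hH)))).congr fun x e => ?_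
  rw [text_P]
  simp

theorem emit_polyQ (hD : D.Good 5) : IsE 0 (fun x _ =>
    bitEncode (List.ofFn (instQ (iN D x) (iMQ D x) (iS D x) (tS1 D x) (iA D x)))) := by
  have c := fun k => IsTerm.const k
  have hB : IsE 0 (fun x _ => tQ (iN D x) (iMQ D x) (iS D x) (tS1 D x) (iA D x) .B) := by
    refine (emit_neg (m := fun x _ => iMQ D x) (l := fun _ _ => 0) (c 0 16)
      (fun _ _ => by positivity) (emit_zero (term_iMQ hD 0)) (c 0 1408)
      fun _ _ => by norm_num).congr fun x _ => ?_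
    rw [zero_add]
    rfl
  have hp : IsE 1 (fun x e => tQ (iN D x) (iMQ D x) (iS D x) (tS1 D x) (iA D x) (.p (e 0))) := by
    have v0 : IsTerm 1 (fun _ e => e 0) := IsTerm.var (by norm_num)
    exact emit_Q0 hD (((c 1 16).mul v0).add (c 1 144))
      ((c 1 128).mul (((v0.mul v0).add ((c 1 22).mul v0)).add (c 1 109)))
      fun _ _ => hQ_ne 0 (.p _)
  have hE : IsE 0 (fun x _ => tQ (iN D x) (iMQ D x) (iS D x) (tS1 D x) (iA D x) .E) :=
    emit_pos (((c 0 16).mul (term_iN hD 0)).add (c 0 100)) (fun x _ => lowEQ_lt hD x)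
      (emit_lowEQ hD) ((((c 0 128).mul ((term_iN hD 0).mul (term_iN hD 0))).add
        ((c 0 2112).mul (term_iN hD 0))).add (c 0 8672)) fun x _ => hQ_ne (iN D x) .E
  have hH : IsE 0 (fun x _ => tQ (iN D x) (iMQ D x) (iS D x) (tS1 D x) (iA D x) (.H 0)) :=
    emit_Q0 hD (c 0 (16 * 0 + 40)) (c 0 (128 * (0 * 0) + 1152 * 0 + 4160))
      fun x _ => hQ_ne (iN D x) (.H 0)
  have hR := emit_items hD (fun x i v => roomQ (iN D x) (iMQ D x) (iS D x) (tS1 D x) i v)
    (fun k i v hi hv hE => emit_roomQ hD hi hv hE)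
  have hloop := IsE.for (k := 0) ((term_iN hD 0).add (c 0 1)) hp
  refine (hB.append (hloop.append (hE.append (hR.append hH)))).congr fun x e => ?_
  rw [text_Q]
  simp

/-- the instance can be printed -/
theorem emit_inst (hD : D.Good 5) : IsEmit 0 (fun x _ =>
    encodeInst (instP (iN D x) (iM D x) (tS D x) (iA D x))
      (instQ (iN D x) (iMQ D x) (iS D x) (tS1 D x) (iA D x)) (iN D x)) := by
  have h := ((emit_polyP hD).delimit.append ((emit_polyQ hD).delimit.append
    (IsE.nat (term_iN hD 0)))).isEmit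
  exact h

end Pool.Agent.Lib57.CT
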