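import Mathlib
import Pool.Agent.Lib_helper57.CT.MonoRegion

/-! BLOCK MLOC: local structure of the region of an `x`-monotone polygon. -/

namespace Pool.Agent.Lib57.CT

open Set Topology

variable {n r : ℕ} {P : Fin n → Pt}

theorem mloc_openSegment {a b z : Pt} (hab : a.1 < b.1) (hz : z ∈ openSegment ℝ a b) :
    a.1 < z.1 ∧ z.1 < b.1 ∧ orient a b z = 0 := by
  rw [openSegment_eq_image'] at hz
  obtain ⟨t, ⟨t0, t1⟩, rfl⟩ := hz
  have hd : 0 < b.1 - a.1 := sub_pos.2 hab
  simp only [Prod.fst_add, Prod.smul_fst, Prod.fst_sub, smul_eq_mul]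
  refine ⟨?_, ?_, ?_⟩
  · have := mul_pos t0 hd; linarith
  · have := mul_pos (sub_pos.2 t1) hd; nlinarith
  · unfold orient
    simp only [Prod.fst_add, Prod.smul_fst, Prod.fst_sub, smul_eq_mul, Prod.snd_add,
      Prod.smul_snd, Prod.snd_sub]
    ring

theorem Mono.local_edge (hM : Mono P r) (i : Fin n) :
    ∀ z ∈ openSegment ℝ (P i) (P (nx i)),
      ∀ᶠ w in 𝓝 z, (w ∈ region P ↔ 0 ≤ orient (P i) (P (nx i)) w) := by
  obtain ⟨x₀, x₁, L, U, h⟩ := mreg_exists hM
  intro z hz
  have c1 := h.cL.comp (continuous_fst (X := ℝ) (Y := ℝ))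
  have c2 := h.cU.comp (continuous_fst (X := ℝ) (Y := ℝ))
  have hri := h.range i
  have hrn := h.range (nx i)
  rcases Nat.lt_or_ge i.val r with hi | hi
  · have hd := hM.inc i hi
    obtain ⟨a, b, c⟩ := mloc_openSegment hd hz
    rw [h.lo i hi z a.le b.le] at c
    have c' : z.2 = L z.1 := by rcases mul_eq_zero.1 c with h1 | h1 <;> linarith
    have hlu := h.f_lt hM z.1 (lt_of_le_of_lt hri.1 a) (lt_of_lt_of_le b hrn.2)
    have e1 : ∀ᶠ w in 𝓝 z, (P i).1 < w.1 :=
      (isOpen_lt continuous_const continuous_fst).mem_nhds a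
    have e2 : ∀ᶠ w in 𝓝 z, w.1 < (P (nx i)).1 :=
      (isOpen_lt continuous_fst continuous_const).mem_nhds b
    have e3 : ∀ᶠ w in 𝓝 z, w.2 < U w.1 :=
      (isOpen_lt continuous_snd c2).mem_nhds (by
        show z.2 < U z.1
        rw [c']; exact hlu)
    filter_upwards [e1, e2, e3] with w w1 w2 w3
    rw [h.mem_region hM, h.lo i hi w w1.le w2.le]
    constructor
    · rintro ⟨-, -, h3, -⟩
      exact mul_nonneg (by linarith) (by linarith)
    · intro h3
      have := nonneg_of_mul_nonneg_right h3 (sub_pos.2 hd)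
      exact ⟨by linarith, by linarith, by linarith, w3.le⟩
  · have hd := hM.dec i hi
    rw [openSegment_symm] at hz
    obtain ⟨a, b, c⟩ := mloc_openSegment hd hz
    have c0 : orient (P i) (P (nx i)) z = 0 := by
      have : orient (P i) (P (nx i)) z = - orient (P (nx i)) (P i) z := by
        unfold orient; ring
      rw [this, c]; simp
    rw [h.hi i hi z a.le b.le] at c0
    have c' : z.2 = U z.1 := by rcases mul_eq_zero.1 c0 with h1 | h1 <;> linarith
    have hlu := h.f_lt hM z.1 (lt_of_le_of_lt hrn.1 a) (lt_of_lt_of_le b hri.2)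
    have e1 : ∀ᶠ w in 𝓝 z, (P (nx i)).1 < w.1 :=
      (isOpen_lt continuous_const continuous_fst).mem_nhds a
    have e2 : ∀ᶠ w in 𝓝 z, w.1 < (P i).1 :=
      (isOpen_lt continuous_fst continuous_const).mem_nhds b
    have e3 : ∀ᶠ w in 𝓝 z, L w.1 < w.2 :=
      (isOpen_lt c1 continuous_snd).mem_nhds (by
        show L z.1 < z.2
        rw [c']; exact hlu)
    filter_upwards [e1, e2, e3] with w w1 w2 w3
    rw [h.mem_region hM, h.hi i hi w w1.le w2.le]
    constructor
    · rintro ⟨-, -, -, h3⟩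
      exact mul_nonneg (by linarith) (by linarith)
    · intro h3
      have := nonneg_of_mul_nonneg_right h3 (sub_pos.2 hd)
      exact ⟨by linarith, by linarith, w3.le, by linarith⟩

theorem Mono.nhds (hM : Mono P r) : ∀ z ∈ region P, z ∉ curve P → region P ∈ 𝓝 z := by
  obtain ⟨x₀, x₁, L, U, h⟩ := mreg_exists hM
  intro z hz hc
  rw [hM.region_eq] at hz ⊢
  exact Filter.mem_of_superset (h.isOpen_int.mem_nhds (h.mem_diff hM z hz hc)) (h.int_sub hM)

theorem Mono.closure_int (hM : Mono P r) : region P ⊆ closure (interior (region P)) := by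
  obtain ⟨x₀, x₁, L, U, h⟩ := mreg_exists hM
  have hlt := h.lt
  -- the open set is in the interior
  have hsub : {z : Pt | x₀ < z.1 ∧ z.1 < x₁ ∧ L z.1 < z.2 ∧ z.2 < U z.1} ⊆
      interior (region P) := by
    rw [hM.region_eq]
    exact interior_maximal (h.int_sub hM) h.isOpen_int
  have mid : ∀ x, x₀ < x → x < x₁ → ∀ y, L x ≤ y → y ≤ U x →
      ((x, y) : Pt) ∈ closure (interior (region P)) := by
    intro x h0 h1 y h2 h3
    have hlu := h.f_lt hM x h0 h1
    have hc : Continuous fun t : ℝ => ((x, y + t * ((L x + U x) / 2 - y)) : Pt) := by fun_prop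
    have ht : Filter.Tendsto (fun t : ℝ => ((x, y + t * ((L x + U x) / 2 - y)) : Pt))
        (𝓝[>] 0) (𝓝 ((x, y) : Pt)) := by
      have := (hc.tendsto 0).mono_left (nhdsWithin_le_nhds (s := Ioi 0))
      simpa using this
    refine mem_closure_of_tendsto ht ?_
    filter_upwards [Ioo_mem_nhdsGT (show (0 : ℝ) < 1 by norm_num)] with t ht
    apply hsub
    refine ⟨h0, h1, ?_, ?_⟩
    · simp only
      nlinarith [ht.1, ht.2]
    · simp only
      nlinarith [ht.1, ht.2]
  intro z hz
  rw [h.mem_region hM] at hz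
  obtain ⟨h0, h1, h2, h3⟩ := hz
  rcases h0.eq_or_lt with e0 | e0
  · have hz2 : z.2 = L z.1 := by
      have := h.eq0 hM
      rw [← e0] at h2 h3 ⊢
      linarith
    have hc : Continuous fun t : ℝ => ((t, L t) : Pt) := by
      have := h.cL
      fun_prop
    have ht : Filter.Tendsto (fun t : ℝ => ((t, L t) : Pt)) (𝓝[>] x₀) (𝓝 z) := by
      have h5 := (hc.tendsto x₀).mono_left (nhdsWithin_le_nhds (s := Ioi x₀))
      have h6 : ((x₀, L x₀) : Pt) = z := Prod.ext e0 (by simp only; rw [hz2, e0])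
      rw [h6] at h5
      exact h5
    refine closure_closure.subset (mem_closure_of_tendsto ht ?_)
    filter_upwards [Ioo_mem_nhdsGT hlt] with t ht
    exact mid t ht.1 ht.2 (L t) le_rfl (h.f_le hM t ht.1.le ht.2.le)
  rcases h1.eq_or_lt with e1 | e1
  · have hz2 : z.2 = L z.1 := by
      have := h.eq1 hM
      rw [e1] at h2 h3 ⊢
      linarith
    have hc : Continuous fun t : ℝ => ((t, L t) : Pt) := by
      have := h.cL
      fun_prop
    have ht : Filter.Tendsto (fun t : ℝ => ((t, L t) : Pt)) (𝓝[<] x₁) (𝓝 z) := by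
      have h5 := (hc.tendsto x₁).mono_left (nhdsWithin_le_nhds (s := Iio x₁))
      have h6 : ((x₁, L x₁) : Pt) = z := Prod.ext e1.symm (by simp only; rw [hz2, e1])
      rw [h6] at h5
      exact h5
    refine closure_closure.subset (mem_closure_of_tendsto ht ?_)
    filter_upwards [Ioo_mem_nhdsLT hlt] with t ht
    exact mid t ht.1 ht.2 (L t) le_rfl (h.f_le hM t ht.1.le ht.2.le)
  exact mid z.1 e0 e1 z.2 h2 h3

theorem Mono.isCcw (hM : Mono P r) : IsCcw P := fun i z hz =>
  (hM.local_edge i z hz).mono fun _ hw h => hw.2 h.le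

end Pool.Agent.Lib57.CT
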