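import Mathlib
import Pool.Agent.Lib_helper57.CT.Geo
import Pool.Agent.Lib_helper57.CT.MonoDef

/-! The triangulation of a choice of sills. -/

namespace Pool.Agent.Lib57.CT

open Sum

/-- The `9 N + 2` triangles, each listed once; `e i = true` iff the `i`-th sill is served by the
Steiner point `i + 1`, and `e i = false` iff it is served by the Steiner point `i`. -/
inductive Tri0 (N : ℕ) (e : ℕ → Bool) :
    Fin (nV N) ⊕ Fin N → Fin (nV N) ⊕ Fin N → Fin (nV N) ⊕ Fin N → Prop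
  | base (i : ℕ) (h : i < N) : Tri0 N e (inl (vp N i)) (inl (vp N (i + 1))) (inr ⟨i, h⟩)
  | cap1 (i : ℕ) (h : i < N) : Tri0 N e (inl (vF N i)) (inl (vT N i)) (inr ⟨i, h⟩)
  | cap2 (i : ℕ) (h : i < N) : Tri0 N e (inl (vT N i)) (inl (vC N i)) (inr ⟨i, h⟩)
  | cap3 (i : ℕ) (h : i < N) : Tri0 N e (inl (vC N i)) (inl (vA N i)) (inr ⟨i, h⟩)
  | wall (i : ℕ) (h : i < N) : Tri0 N e (inl (vA N i)) (inl (vH N i)) (inr ⟨i, h⟩)
  | sill0 (i : ℕ) (h : i < N) (he : e i = false) :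
      Tri0 N e (inl (vG N i)) (inl (vF N i)) (inr ⟨i, h⟩)
  | rwall0 (i : ℕ) (h : i < N) (he : e i = false) :
      Tri0 N e (inl (vH N (i + 1))) (inl (vG N i)) (inr ⟨i, h⟩)
  | link0 (i : ℕ) (h : i + 1 < N) (he : e i = false) :
      Tri0 N e (inr ⟨i + 1, h⟩) (inl (vH N (i + 1))) (inr ⟨i, Nat.lt_of_succ_lt h⟩)
  | sill1 (i : ℕ) (h : i + 1 < N) (he : e i = true) :
      Tri0 N e (inl (vG N i)) (inl (vF N i)) (inr ⟨i + 1, h⟩)
  | rwall1 (i : ℕ) (h : i + 1 < N) (he : e i = true) :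
      Tri0 N e (inl (vH N (i + 1))) (inl (vG N i)) (inr ⟨i + 1, h⟩)
  | link1 (i : ℕ) (h : i + 1 < N) (he : e i = true) :
      Tri0 N e (inr ⟨i + 1, h⟩) (inl (vF N i)) (inr ⟨i, Nat.lt_of_succ_lt h⟩)
  | link (i : ℕ) (h : i + 1 < N) :
      Tri0 N e (inl (vp N (i + 1))) (inr ⟨i + 1, h⟩) (inr ⟨i, Nat.lt_of_succ_lt h⟩)
  | start1 (h : 0 < N) : Tri0 N e (inl (vB N)) (inl (vp N 0)) (inr ⟨0, h⟩)
  | start2 (h : 0 < N) : Tri0 N e (inl (vH N 0)) (inl (vB N)) (inr ⟨0, h⟩)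
  | fin1 (h : 0 < N) :
      Tri0 N e (inl (vp N N)) (inl (vE N)) (inr ⟨N - 1, Nat.sub_lt h Nat.one_pos⟩)
  | fin2 (h : 0 < N) :
      Tri0 N e (inl (vE N)) (inl (vH N N)) (inr ⟨N - 1, Nat.sub_lt h Nat.one_pos⟩)

/-- the rotations of the triangles -/
def TriE (N : ℕ) (e : ℕ → Bool) (a b c : Fin (nV N) ⊕ Fin N) : Prop :=
  Tri0 N e a b c ∨ Tri0 N e b c a ∨ Tri0 N e c a b

end Pool.Agent.Lib57.CT
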