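import Mathlib
import Pool.Agent.Lib_helper57.CT.TriDef

/-! BLOCK PPOS: positions of the Steiner points in the first polygon. -/

namespace Pool.Agent.Lib57.CT

open Sum Finset

/-- the relevant sill height -/
noncomputable def ppos_d (δ : ℕ → ℝ) (e : ℕ → Bool) (i : ℕ) : ℝ :=
  if e i = false then δ i else 0

/-- the partial sums -/
noncomputable def ppos_W (δ : ℕ → ℝ) (e : ℕ → Bool) (ξ : ℝ) (i : ℕ) : ℝ :=
  ∑ j ∈ range i, (2 * ppos_d δ e j + ξ)

noncomputable def ppos_X (δ : ℕ → ℝ) (e : ℕ → Bool) (ξ : ℝ) (i : ℕ) : ℝ :=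
  -(ppos_W δ e ξ i + ppos_d δ e i + ξ)

noncomputable def ppos_Y (δ : ℕ → ℝ) (e : ℕ → Bool) (ξ : ℝ) (i : ℕ) : ℝ :=
  (1 - ppos_W δ e ξ (i + 1)) * (1 - ppos_X δ e ξ i)

theorem ppos_W_succ (δ : ℕ → ℝ) (e : ℕ → Bool) (ξ : ℝ) (i : ℕ) :
    ppos_W δ e ξ (i + 1) = ppos_W δ e ξ i + (2 * ppos_d δ e i + ξ) := by
  unfold ppos_W; rw [sum_range_succ]

theorem ppos_W_zero (δ : ℕ → ℝ) (e : ℕ → Bool) (ξ : ℝ) : ppos_W δ e ξ 0 = 0 := by
  unfold ppos_W; simp

section
variable {N : ℕ} {D w ξ : ℝ} {δ : ℕ → ℝ} {e : ℕ → Bool}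

theorem ppos_d_nonneg (h : GP N D w δ) (i : ℕ) : 0 ≤ ppos_d δ e i := by
  unfold ppos_d; split_ifs
  · exact h.d0 i
  · exact le_refl _

theorem ppos_d_le (h : GP N D w δ) (i : ℕ) : ppos_d δ e i ≤ δ i := by
  unfold ppos_d; split_ifs
  · exact le_refl _
  · exact h.d0 i

theorem ppos_W_mono (h : GP N D w δ) (hξ : 0 < ξ) {i j : ℕ} (hij : i ≤ j) :
    ppos_W δ e ξ i ≤ ppos_W δ e ξ j := by
  unfold ppos_W
  apply sum_le_sum_of_subset_of_nonneg (range_subset_range.2 hij)
  intro k _ _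
  have := ppos_d_nonneg (e := e) h k
  linarith

theorem ppos_W_N (hsum : 2 * ∑ i ∈ (range N).filter (fun i => e i = false), δ i + N * ξ < w) :
    ppos_W δ e ξ N < w := by
  have : ppos_W δ e ξ N = 2 * ∑ i ∈ (range N).filter (fun i => e i = false), δ i + N * ξ := by
    unfold ppos_W ppos_d
    rw [sum_add_distrib, ← mul_sum, sum_filter]
    simp
  rw [this]; exact hsum

/-- the basic estimates -/
theorem ppos_basic (h : GP N D w δ) (hξ : 0 < ξ)
    (hsum : 2 * ∑ i ∈ (range N).filter (fun i => e i = false), δ i + N * ξ < w)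
    {i : ℕ} (hi : i < N) :
    0 ≤ ppos_W δ e ξ i ∧ ppos_W δ e ξ (i + 1) < w ∧ -1 / 1000 < ppos_X δ e ξ i ∧
      ppos_X δ e ξ i < 0 ∧ 999 / 1000 < ppos_Y δ e ξ i ∧
      ppos_Y δ e ξ i < 1 - ppos_d δ e i := by
  have h0 : 0 ≤ ppos_W δ e ξ i := by
    rw [← ppos_W_zero δ e ξ]; exact ppos_W_mono h hξ (Nat.zero_le _)
  have h1 : ppos_W δ e ξ (i + 1) < w :=
    lt_of_le_of_lt (ppos_W_mono h hξ hi) (ppos_W_N hsum)
  have hs := ppos_W_succ δ e ξ i
  have hd := ppos_d_nonneg (e := e) h i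
  have hw := h.w1
  have hX : ppos_X δ e ξ i = -(ppos_W δ e ξ i + ppos_d δ e i + ξ) := rfl
  have hY : ppos_Y δ e ξ i = (1 - ppos_W δ e ξ (i + 1)) * (1 - ppos_X δ e ξ i) := rfl
  have hX1 : -1 / 1000 < ppos_X δ e ξ i := by rw [hX]; linarith
  have hX2 : ppos_X δ e ξ i < 0 := by rw [hX]; linarith
  refine ⟨h0, h1, hX1, hX2, ?_, ?_⟩
  · rw [hY]
    have : 999 / 1000 < 1 - ppos_W δ e ξ (i + 1) := by linarith
    nlinarith
  · rw [hY, hX, hs]
    have h2 : 0 < (ppos_W δ e ξ i + 2 * ppos_d δ e i + ξ) * (ppos_W δ e ξ i + ppos_d δ e i + ξ) :=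
      mul_pos (by linarith) (by linarith)
    nlinarith

/-- the recursive step -/
theorem ppos_step (h : GP N D w δ) (hξ : 0 < ξ)
    (hsum : 2 * ∑ i ∈ (range N).filter (fun i => e i = false), δ i + N * ξ < w)
    (hsm : ∀ i < N, w * δ i ≤ ξ / 4) {i : ℕ} (hi : i < N) :
    (1 + ppos_W δ e ξ i) * (1 + ppos_X δ e ξ i) < ppos_Y δ e ξ i := by
  obtain ⟨h0, h1, -, -, -, -⟩ := ppos_basic (e := e) h hξ hsum hi
  have hs := ppos_W_succ δ e ξ i
  have hd := ppos_d_nonneg (e := e) h i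
  have hd' := ppos_d_le (e := e) h i
  have hw := h.w1
  have hw0 := h.w0
  have hX : ppos_X δ e ξ i = -(ppos_W δ e ξ i + ppos_d δ e i + ξ) := rfl
  have hY : ppos_Y δ e ξ i = (1 - ppos_W δ e ξ (i + 1)) * (1 - ppos_X δ e ξ i) := rfl
  rw [hY, hX, hs]
  rw [hs] at h1
  have h2 : w * ppos_d δ e i ≤ ξ / 4 :=
    le_trans (mul_le_mul_of_nonneg_left hd' hw0) (hsm i hi)
  generalize ppos_W δ e ξ i = W at *
  generalize ppos_d δ e i = d at *
  have h3 : d * (W + d + ξ) ≤ d * w := mul_le_mul_of_nonneg_left (by linarith) hd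
  have h4 : ξ * (W + d + ξ) ≤ ξ * (1 / 1000) := mul_le_mul_of_nonneg_left (by linarith) hξ.le
  nlinarith

end

theorem pos_P {N : ℕ} {D w : ℝ} {δ : ℕ → ℝ} (h : GP N D w δ) (e : ℕ → Bool)
    (he : e (N - 1) = false) {ξ : ℝ} (hξ : 0 < ξ)
    (hsum : 2 * ∑ i ∈ (range N).filter (fun i => e i = false), δ i + N * ξ < w)
    (hsm : ∀ i < N, w * δ i ≤ ξ / 4) :
    ∃ S : Fin N → Pt,
      (∀ a b c, Tri0 N e a b c →
        0 < orient (pos (PP N D w δ) S a) (pos (PP N D w δ) S b) (pos (PP N D w δ) S c)) ∧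
      (∀ u v, u ≠ v → (pos (PP N D w δ) S u).1 ≠ (pos (PP N D w δ) S v).1) := by
  have hD := h.hD
  have hN := h.hN
  have hw1 := h.w1
  have hw0 := h.w0
  have hDD : (0 : ℝ) < 64 * D := by positivity
  refine ⟨fun t => fP D t.1 (ppos_X δ e ξ t.1) (ppos_Y δ e ξ t.1), ?_, ?_⟩
  · intro a b c hT
    cases hT with
    | base i hi =>
      obtain ⟨h0, h1, h2, h3, h4, h5⟩ := ppos_basic (e := e) h hξ hsum hi
      simp only [pos, Sum.elim_inl, Sum.elim_inr]
      rw [PP_p (by omega), PP_p (by omega), fP_frame D i (i + 1), orient_fP]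
      apply mul_pos hDD
      push_cast
      nlinarith
    | cap1 i hi =>
      obtain ⟨h0, h1, h2, h3, h4, h5⟩ := ppos_basic (e := e) h hξ hsum hi
      have hd0 := h.d0 i
      have hd1 := h.d1 i
      have hd := ppos_d_nonneg (e := e) h i
      simp only [pos, Sum.elim_inl, Sum.elim_inr]
      rw [PP_F hi, PP_T hi, orient_fP]
      apply mul_pos hDD
      nlinarith
    | cap2 i hi =>
      obtain ⟨h0, h1, h2, h3, h4, h5⟩ := ppos_basic (e := e) h hξ hsum hi
      have hd := ppos_d_nonneg (e := e) h i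
      simp only [pos, Sum.elim_inl, Sum.elim_inr]
      rw [PP_T hi, PP_C hi, orient_fP]
      apply mul_pos hDD
      nlinarith
    | cap3 i hi =>
      obtain ⟨h0, h1, h2, h3, h4, h5⟩ := ppos_basic (e := e) h hξ hsum hi
      have hd := ppos_d_nonneg (e := e) h i
      simp only [pos, Sum.elim_inl, Sum.elim_inr]
      rw [PP_C hi, PP_A hi, orient_fP]
      apply mul_pos hDD
      nlinarith
    | wall i hi =>
      obtain ⟨h0, h1, h2, h3, h4, h5⟩ := ppos_basic (e := e) h hξ hsum hi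
      have hd := ppos_d_nonneg (e := e) h i
      simp only [pos, Sum.elim_inl, Sum.elim_inr]
      rw [PP_A hi, PP_H (by omega), orient_fP]
      apply mul_pos hDD
      nlinarith
    | sill0 i hi hei =>
      obtain ⟨h0, h1, h2, h3, h4, h5⟩ := ppos_basic (e := e) h hξ hsum hi
      have hd : ppos_d δ e i = δ i := by unfold ppos_d; rw [if_pos hei]
      rw [hd] at h5
      simp only [pos, Sum.elim_inl, Sum.elim_inr]
      rw [PP_G hi, PP_F hi, orient_fP]
      apply mul_pos hDD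
      nlinarith
    | rwall0 i hi hei =>
      obtain ⟨h0, h1, h2, h3, h4, h5⟩ := ppos_basic (e := e) h hξ hsum hi
      have hd : ppos_d δ e i = δ i := by unfold ppos_d; rw [if_pos hei]
      have hd0 := h.d0 i
      have hd1 := h.d1 i
      rw [hd] at h5
      simp only [pos, Sum.elim_inl, Sum.elim_inr]
      rw [PP_H (by omega), PP_G hi, fP_frame D i (i + 1), orient_fP]
      apply mul_pos hDD
      push_cast
      nlinarith
    | link0 i hi hei =>
      obtain ⟨h0, h1, h2, h3, h4, h5⟩ := ppos_basic (e := e) h hξ hsum (by omega : i < N)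
      obtain ⟨g0, g1, g2, g3, g4, g5⟩ := ppos_basic (e := e) h hξ hsum hi
      have hd := ppos_d_nonneg (e := e) h i
      have gd := ppos_d_nonneg (e := e) h (i + 1)
      simp only [pos, Sum.elim_inl, Sum.elim_inr]
      rw [PP_H (by omega), fP_frame D (i + 1) i, orient_fP]
      apply mul_pos hDD
      push_cast
      generalize ppos_X δ e ξ i = X at *
      generalize ppos_Y δ e ξ i = Y at *
      generalize ppos_X δ e ξ (i + 1) = X' at *
      generalize ppos_Y δ e ξ (i + 1) = Y' at *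
      nlinarith
    | sill1 i hi hei =>
      obtain ⟨g0, g1, g2, g3, g4, g5⟩ := ppos_basic (e := e) h hξ hsum hi
      have hd0 := h.d0 i
      have hd1 := h.d1 i
      have gd := ppos_d_nonneg (e := e) h (i + 1)
      simp only [pos, Sum.elim_inl, Sum.elim_inr]
      rw [PP_G (by omega), PP_F (by omega), fP_frame D (i + 1) i, fP_frame D (i + 1) i, orient_fP]
      apply mul_pos hDD
      push_cast
      nlinarith
    | rwall1 i hi hei =>
      obtain ⟨g0, g1, g2, g3, g4, g5⟩ := ppos_basic (e := e) h hξ hsum hi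
      have hd0 := h.d0 i
      have hd1 := h.d1 i
      have gd := ppos_d_nonneg (e := e) h (i + 1)
      simp only [pos, Sum.elim_inl, Sum.elim_inr]
      rw [PP_H (by omega), PP_G (by omega), fP_frame D (i + 1) i, orient_fP]
      apply mul_pos hDD
      push_cast
      nlinarith
    | link1 i hi hei =>
      obtain ⟨h0, h1, h2, h3, h4, h5⟩ := ppos_basic (e := e) h hξ hsum (by omega : i < N)
      obtain ⟨g0, g1, g2, g3, g4, g5⟩ := ppos_basic (e := e) h hξ hsum hi
      have hd0 := h.d0 i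
      have hd1 := h.d1 i
      have hd := ppos_d_nonneg (e := e) h i
      have gd := ppos_d_nonneg (e := e) h (i + 1)
      simp only [pos, Sum.elim_inl, Sum.elim_inr]
      rw [PP_F (by omega), fP_frame D i (i + 1), orient_fP]
      apply mul_pos hDD
      push_cast
      generalize ppos_X δ e ξ i = X at *
      generalize ppos_Y δ e ξ i = Y at *
      generalize ppos_X δ e ξ (i + 1) = X' at *
      generalize ppos_Y δ e ξ (i + 1) = Y' at *
      generalize δ i = d at *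
      nlinarith
    | link i hi =>
      obtain ⟨h0, h1, h2, h3, h4, h5⟩ := ppos_basic (e := e) h hξ hsum (by omega : i < N)
      obtain ⟨g0, g1, g2, g3, g4, g5⟩ := ppos_basic (e := e) h hξ hsum hi
      have hst := ppos_step (e := e) h hξ hsum hsm hi
      have hY : ppos_Y δ e ξ i = (1 - ppos_W δ e ξ (i + 1)) * (1 - ppos_X δ e ξ i) := rfl
      simp only [pos, Sum.elim_inl, Sum.elim_inr]
      rw [PP_p (by omega), fP_frame D (i + 1) i, orient_fP]
      apply mul_pos hDD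
      push_cast
      have key : (1 - ppos_X δ e ξ i) * (ppos_Y δ e ξ (i + 1) -
          (1 + ppos_W δ e ξ (i + 1)) * (1 + ppos_X δ e ξ (i + 1))) > 0 :=
        mul_pos (by linarith) (by linarith)
      rw [hY]
      nlinarith
    | start1 hi =>
      obtain ⟨h0, h1, h2, h3, h4, h5⟩ := ppos_basic (e := e) h hξ hsum hi
      have hst := ppos_step (e := e) h hξ hsum hsm hi
      rw [ppos_W_zero] at hst
      simp only [pos, Sum.elim_inl, Sum.elim_inr]
      rw [PP_B, PP_p (by omega), orient_fP]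
      apply mul_pos hDD
      nlinarith
    | start2 hi =>
      obtain ⟨h0, h1, h2, h3, h4, h5⟩ := ppos_basic (e := e) h hξ hsum hi
      have hd := ppos_d_nonneg (e := e) h 0
      simp only [pos, Sum.elim_inl, Sum.elim_inr]
      rw [PP_H (by omega), PP_B, orient_fP]
      apply mul_pos hDD
      nlinarith
    | fin1 hi =>
      obtain ⟨h0, h1, h2, h3, h4, h5⟩ := ppos_basic (e := e) h hξ hsum (by omega : N - 1 < N)
      have hY : ppos_Y δ e ξ (N - 1) =
        (1 - ppos_W δ e ξ (N - 1 + 1)) * (1 - ppos_X δ e ξ (N - 1)) := rfl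
      simp only [pos, Sum.elim_inl, Sum.elim_inr]
      rw [PP_p (by omega), PP_E, fP_frame D (N - 1) N, fP_frame D (N - 1) N, orient_fP]
      apply mul_pos hDD
      have hc : ((N : ℝ) - ((N - 1 : ℕ) : ℝ)) = 1 := by
        rw [Nat.cast_sub hN]; push_cast; ring
      rw [hc]
      have key : (w - ppos_W δ e ξ (N - 1 + 1)) * (1 - ppos_X δ e ξ (N - 1)) > 0 :=
        mul_pos (by linarith) (by linarith)
      rw [hY]
      nlinarith
    | fin2 hi =>
      obtain ⟨h0, h1, h2, h3, h4, h5⟩ := ppos_basic (e := e) h hξ hsum (by omega : N - 1 < N)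
      have hd := ppos_d_nonneg (e := e) h (N - 1)
      simp only [pos, Sum.elim_inl, Sum.elim_inr]
      rw [PP_H (by omega), PP_E, fP_frame D (N - 1) N, fP_frame D (N - 1) N, orient_fP]
      apply mul_pos hDD
      have hc : ((N : ℝ) - ((N - 1 : ℕ) : ℝ)) = 1 := by
        rw [Nat.cast_sub hN]; push_cast; ring
      rw [hc]
      nlinarith
  · set S : Fin N → Pt := fun t => fP D t.1 (ppos_X δ e ξ t.1) (ppos_Y δ e ξ t.1) with hS
    have key : ∀ u : Fin (nV N) ⊕ Fin N, ∃ m : ℤ,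
        ((m : ℝ) - 1 < (pos (PP N D w δ) S u).1 ∧ (pos (PP N D w δ) S u).1 ≤ m) ∧
        ((u = inl (vB N) ∧ m = 64) ∨ (∃ j ≤ N, u = inl (vp N j) ∧ m = 128 * j + 128) ∨
        (u = inl (vE N) ∧ m = 128 * N + 192) ∨ (∃ j ≤ N, u = inl (vH N j) ∧ m = 128 * j + 136) ∨
        (∃ i < N, u = inl (vG N i) ∧ m = 128 * i + 194) ∨
        (∃ i < N, u = inl (vF N i) ∧ m = 128 * i + 193) ∨
        (∃ i < N, u = inl (vT N i) ∧ m = 128 * i + 184) ∨
        (∃ i < N, u = inl (vC N i) ∧ m = 128 * i + 176) ∨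
        (∃ i < N, u = inl (vA N i) ∧ m = 128 * i + 160) ∨
        (∃ i, ∃ hi : i < N, u = inr ⟨i, hi⟩ ∧ m = 128 * i + 192)) := by
      rintro (v | t)
      · rcases v_cases v with rfl | ⟨j, hj, rfl⟩ | rfl | ⟨j, hj, rfl⟩ | ⟨i, hi, rfl⟩ |
          ⟨i, hi, rfl⟩ | ⟨i, hi, rfl⟩ | ⟨i, hi, rfl⟩ | ⟨i, hi, rfl⟩
        · refine ⟨64, ?_, Or.inl ⟨rfl, rfl⟩⟩
          simp only [pos, Sum.elim_inl]; rw [PP_B]; simp only [fP]
          push_cast; constructor <;> linarith
        · refine ⟨128 * j + 128, ?_, Or.inr (Or.inl ⟨j, hj, rfl, rfl⟩)⟩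
          simp only [pos, Sum.elim_inl]; rw [PP_p hj]; simp only [fP]
          push_cast; constructor <;> linarith
        · refine ⟨128 * N + 192, ?_, Or.inr (Or.inr (Or.inl ⟨rfl, rfl⟩))⟩
          simp only [pos, Sum.elim_inl]; rw [PP_E]; simp only [fP]
          push_cast; constructor <;> linarith
        · refine ⟨128 * j + 136, ?_, Or.inr (Or.inr (Or.inr (Or.inl ⟨j, hj, rfl, rfl⟩)))⟩
          simp only [pos, Sum.elim_inl]; rw [PP_H hj]; simp only [fP]
          push_cast; constructor <;> linarith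
        · refine ⟨128 * i + 194, ?_, Or.inr (Or.inr (Or.inr (Or.inr (Or.inl ⟨i, hi, rfl, rfl⟩))))⟩
          simp only [pos, Sum.elim_inl]; rw [PP_G hi]; simp only [fP]
          push_cast; constructor <;> linarith
        · refine ⟨128 * i + 193, ?_,
            Or.inr (Or.inr (Or.inr (Or.inr (Or.inr (Or.inl ⟨i, hi, rfl, rfl⟩)))))⟩
          simp only [pos, Sum.elim_inl]; rw [PP_F hi]; simp only [fP]
          push_cast; constructor <;> linarith
        · refine ⟨128 * i + 184, ?_,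
            Or.inr (Or.inr (Or.inr (Or.inr (Or.inr (Or.inr (Or.inl ⟨i, hi, rfl, rfl⟩))))))⟩
          simp only [pos, Sum.elim_inl]; rw [PP_T hi]; simp only [fP]
          push_cast; constructor <;> linarith
        · refine ⟨128 * i + 176, ?_,
            Or.inr (Or.inr (Or.inr (Or.inr (Or.inr (Or.inr (Or.inr
              (Or.inl ⟨i, hi, rfl, rfl⟩)))))))⟩
          simp only [pos, Sum.elim_inl]; rw [PP_C hi]; simp only [fP]
          push_cast; constructor <;> linarith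
        · refine ⟨128 * i + 160, ?_,
            Or.inr (Or.inr (Or.inr (Or.inr (Or.inr (Or.inr (Or.inr
              (Or.inr (Or.inl ⟨i, hi, rfl, rfl⟩))))))))⟩
          simp only [pos, Sum.elim_inl]; rw [PP_A hi]; simp only [fP]
          push_cast; constructor <;> linarith
      · obtain ⟨i, hi⟩ := t
        obtain ⟨h0, h1, h2, h3, h4, h5⟩ := ppos_basic (e := e) h hξ hsum hi
        refine ⟨128 * i + 192, ?_,
            Or.inr (Or.inr (Or.inr (Or.inr (Or.inr (Or.inr (Or.inr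
              (Or.inr (Or.inr ⟨i, hi, rfl, rfl⟩))))))))⟩
        simp only [pos, Sum.elim_inr, hS, fP]
        push_cast; constructor <;> linarith
    intro u v huv hx
    apply huv
    obtain ⟨m, ⟨hm1, hm2⟩, hm⟩ := key u
    obtain ⟨m', ⟨hm1', hm2'⟩, hm'⟩ := key v
    have hmm : m = m' := by
      rw [hx] at hm1 hm2
      have h1 : (m : ℝ) < m' + 1 := by linarith
      have h2 : (m' : ℝ) < m + 1 := by linarith
      have h1' : m < m' + 1 := by exact_mod_cast h1
      have h2' : m' < m + 1 := by exact_mod_cast h2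
      omega
    subst hmm
    clear hx hm1 hm2 hm1' hm2' key huv
    rcases hm with ⟨rfl, hm⟩ | ⟨j, hj, rfl, hm⟩ | ⟨rfl, hm⟩ | ⟨j, hj, rfl, hm⟩ |
      ⟨j, hj, rfl, hm⟩ | ⟨j, hj, rfl, hm⟩ | ⟨j, hj, rfl, hm⟩ | ⟨j, hj, rfl, hm⟩ |
      ⟨j, hj, rfl, hm⟩ | ⟨j, hj, rfl, hm⟩ <;>
    rcases hm' with ⟨rfl, hm'⟩ | ⟨j', hj', rfl, hm'⟩ | ⟨rfl, hm'⟩ | ⟨j', hj', rfl, hm'⟩ |
      ⟨j', hj', rfl, hm'⟩ | ⟨j', hj', rfl, hm'⟩ | ⟨j', hj', rfl, hm'⟩ | ⟨j', hj', rfl, hm'⟩ |
      ⟨j', hj', rfl, hm'⟩ | ⟨j', hj', rfl, hm'⟩ <;>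
    first
      | rfl
      | (exfalso; omega)
      | (obtain rfl : j = j' := by omega
         rfl)

end Pool.Agent.Lib57.CT
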