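import Mathlib
import Pool.Agent.Lib_helper57.CT.TriDef

/-! BLOCK QPOS: positions of the Steiner points in the second polygon. -/

namespace Pool.Agent.Lib57.CT

open Sum Finset

/-- the demand of the `i`-th Steiner point -/
noncomputable def qpos_c (b : ℝ) (γ : ℕ → ℝ) (e : ℕ → Bool) : ℕ → ℝ
  | 0 => 0
  | i + 1 => if e i = true then 29 * b + 30 * γ i else 0

/-- the slope parameters -/
noncomputable def qpos_s (b ξ : ℝ) (γ : ℕ → ℝ) (e : ℕ → Bool) (i : ℕ) : ℝ :=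
  ∑ j ∈ range (i + 1), (qpos_c b γ e j / 12 + ξ)

noncomputable def qpos_t (b ξ : ℝ) (γ : ℕ → ℝ) (e : ℕ → Bool) (i : ℕ) : ℝ :=
  qpos_s b ξ γ e i / 2 + qpos_c b γ e i / 8 + ξ

theorem qpos_c_nonneg {b : ℝ} {γ : ℕ → ℝ} (e : ℕ → Bool) (hb : 0 < b) (hγ : ∀ i, 0 ≤ γ i)
    (i : ℕ) : 0 ≤ qpos_c b γ e i := by
  cases i with
  | zero => exact le_refl _
  | succ i =>
    show 0 ≤ if e i = true then 29 * b + 30 * γ i else 0
    have := hγ i
    split_ifs
    · linarith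
    · exact le_refl _

theorem qpos_s_succ (b ξ : ℝ) (γ : ℕ → ℝ) (e : ℕ → Bool) (i : ℕ) :
    qpos_s b ξ γ e (i + 1) = qpos_s b ξ γ e i + (qpos_c b γ e (i + 1) / 12 + ξ) := by
  unfold qpos_s
  rw [sum_range_succ]

theorem qpos_s_zero (b ξ : ℝ) (γ : ℕ → ℝ) (e : ℕ → Bool) : qpos_s b ξ γ e 0 = ξ := by
  unfold qpos_s
  rw [sum_range_one]
  show (0 : ℝ) / 12 + ξ = ξ
  ring

theorem qpos_s_ge {b ξ : ℝ} {γ : ℕ → ℝ} (e : ℕ → Bool) (hb : 0 < b) (hγ : ∀ i, 0 ≤ γ i)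
    (hξ : 0 < ξ) (i : ℕ) : qpos_c b γ e i / 12 + ξ ≤ qpos_s b ξ γ e i := by
  induction i with
  | zero =>
    rw [qpos_s_zero]
    show (0 : ℝ) / 12 + ξ ≤ ξ
    linarith
  | succ i ih =>
    rw [qpos_s_succ]
    have := qpos_c_nonneg e hb hγ i
    linarith

theorem qpos_s_mono {b ξ : ℝ} {γ : ℕ → ℝ} (e : ℕ → Bool) (hb : 0 < b) (hγ : ∀ i, 0 ≤ γ i)
    (hξ : 0 < ξ) {i j : ℕ} (h : i ≤ j) : qpos_s b ξ γ e i ≤ qpos_s b ξ γ e j := by
  induction j, h using Nat.le_induction with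
  | base => exact le_refl _
  | succ j _ ih =>
    rw [qpos_s_succ]
    have := qpos_c_nonneg e hb hγ (j + 1)
    linarith

theorem qpos_s_last {b ξ : ℝ} {γ : ℕ → ℝ} (e : ℕ → Bool) (M : ℕ) :
    qpos_s b ξ γ e M = ∑ i ∈ (range M).filter (fun i => e i = true), (29 * b + 30 * γ i) / 12
      + (M + 1 : ℕ) * ξ := by
  induction M with
  | zero => rw [qpos_s_zero]; simp
  | succ M ih =>
    rw [qpos_s_succ, ih, sum_filter, sum_filter, sum_range_succ]
    unfold qpos_c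
    push_cast
    split_ifs <;> ring

theorem qpos_mul {x y : ℝ} (hx : -(1 / 10) ≤ x ∧ x ≤ 1 / 10) (hy : -(1 / 10) ≤ y ∧ y ≤ 1 / 10) :
    -(1 / 100) ≤ x * y ∧ x * y ≤ 1 / 100 := by
  obtain ⟨h1, h2⟩ := hx
  obtain ⟨h3, h4⟩ := hy
  constructor <;> nlinarith [mul_nonneg (sub_nonneg.2 h1) (sub_nonneg.2 h3),
    mul_nonneg (sub_nonneg.2 h1) (sub_nonneg.2 h4), mul_nonneg (sub_nonneg.2 h2) (sub_nonneg.2 h3),
    mul_nonneg (sub_nonneg.2 h2) (sub_nonneg.2 h4)]

/-- the natural number `x`-coordinates of the vertices -/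
theorem qpos_x {N : ℕ} (D b ψ : ℝ) (γ : ℕ → ℝ) (v : Fin (nV N)) :
    ∃ x : ℕ, (QQ N D b ψ γ v).1 = x ∧ ((v.val = 0 ∧ x = 16) ∨
      (∃ j ≤ N, v.val = 1 + j ∧ x = 16 * j + 144) ∨ (v.val = N + 2 ∧ x = 16 * N + 100) ∨
      (∃ j ≤ N, v.val = N + 3 + 6 * (N - j) ∧ x = 16 * j + 40) ∨
      (∃ i < N, v.val = N + 4 + 6 * (N - 1 - i) ∧ x = 16 * i + 52) ∨
      (∃ i < N, v.val = N + 5 + 6 * (N - 1 - i) ∧ x = 16 * i + 50) ∨
      (∃ i < N, v.val = N + 6 + 6 * (N - 1 - i) ∧ x = 16 * i + 47) ∨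
      (∃ i < N, v.val = N + 7 + 6 * (N - 1 - i) ∧ x = 16 * i + 46) ∨
      (∃ i < N, v.val = N + 8 + 6 * (N - 1 - i) ∧ x = 16 * i + 44)) := by
  rcases v_cases v with rfl | ⟨j, hj, rfl⟩ | rfl | ⟨j, hj, rfl⟩ | ⟨j, hj, rfl⟩ | ⟨j, hj, rfl⟩ |
    ⟨j, hj, rfl⟩ | ⟨j, hj, rfl⟩ | ⟨j, hj, rfl⟩
  · refine ⟨16, ?_, Or.inl ⟨vB_val, rfl⟩⟩
    rw [QQ_B]; simp only [fQ]; push_cast; ring
  · refine ⟨16 * j + 144, ?_, Or.inr (Or.inl ⟨j, hj, vp_val hj, rfl⟩)⟩
    rw [QQ_p hj]; simp only [fQ]; push_cast; ring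
  · refine ⟨16 * N + 100, ?_, Or.inr (Or.inr (Or.inl ⟨vE_val, rfl⟩))⟩
    rw [QQ_E]; simp only [fQ]; push_cast; ring
  · refine ⟨16 * j + 40, ?_, Or.inr (Or.inr (Or.inr (Or.inl ⟨j, hj, vH_val hj, rfl⟩)))⟩
    rw [QQ_H hj]; simp only [fQ]; push_cast; ring
  · refine ⟨16 * j + 52, ?_,
      Or.inr (Or.inr (Or.inr (Or.inr (Or.inl ⟨j, hj, vG_val hj, rfl⟩))))⟩
    rw [QQ_G hj]; simp only [fQ]; push_cast; ring
  · refine ⟨16 * j + 50, ?_,
      Or.inr (Or.inr (Or.inr (Or.inr (Or.inr (Or.inl ⟨j, hj, vF_val hj, rfl⟩)))))⟩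
    rw [QQ_F hj]; simp only [fQ]; push_cast; ring
  · refine ⟨16 * j + 47, ?_,
      Or.inr (Or.inr (Or.inr (Or.inr (Or.inr (Or.inr (Or.inl ⟨j, hj, vT_val hj, rfl⟩))))))⟩
    rw [QQ_T hj]; simp only [fQ]; push_cast; ring
  · refine ⟨16 * j + 46, ?_,
      Or.inr (Or.inr (Or.inr (Or.inr (Or.inr (Or.inr (Or.inr (Or.inl
        ⟨j, hj, vC_val hj, rfl⟩)))))))⟩
    rw [QQ_C hj]; simp only [fQ]; push_cast; ring
  · refine ⟨16 * j + 44, ?_,
      Or.inr (Or.inr (Or.inr (Or.inr (Or.inr (Or.inr (Or.inr (Or.inr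
        ⟨j, hj, vA_val hj, rfl⟩)))))))⟩
    rw [QQ_A hj]; simp only [fQ]; push_cast; ring

theorem qpos_inj {N : ℕ} (D b ψ : ℝ) (γ : ℕ → ℝ) (u v : Fin (nV N)) (huv : u ≠ v) :
    (QQ N D b ψ γ u).1 ≠ (QQ N D b ψ γ v).1 := by
  intro h
  apply huv
  obtain ⟨x, hx, h1⟩ := qpos_x D b ψ γ u
  obtain ⟨y, hy, h2⟩ := qpos_x D b ψ γ v
  have hxy : x = y := by
    have : (x : ℝ) = y := by rw [← hx, ← hy, h]
    exact_mod_cast this
  subst hxy
  apply Fin.ext
  rcases h1 with h1 | ⟨j, hj, h1⟩ | h1 | ⟨j, hj, h1⟩ | ⟨j, hj, h1⟩ | ⟨j, hj, h1⟩ | ⟨j, hj, h1⟩ |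
    ⟨j, hj, h1⟩ | ⟨j, hj, h1⟩ <;>
  rcases h2 with h2 | ⟨l, hl, h2⟩ | h2 | ⟨l, hl, h2⟩ | ⟨l, hl, h2⟩ | ⟨l, hl, h2⟩ | ⟨l, hl, h2⟩ |
    ⟨l, hl, h2⟩ | ⟨l, hl, h2⟩ <;> omega

/-- bounds for one Steiner point -/
structure QposB (ξ ψ s c t : ℝ) : Prop where
  x0 : 0 < ξ
  s0 : ξ ≤ s
  s1 : s < ψ
  c0 : 0 ≤ c
  cs : c / 12 + ξ ≤ s
  tt : t = s / 2 + c / 8 + ξ
  ss : s * s ≤ 2 * ξ

/-- everything is small -/
theorem QposB.small {ξ ψ s c t : ℝ} (h : QposB ξ ψ s c t) (hψ : ψ ≤ 1 / 1000) :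
    (0 < t ∧ t ≤ 3 / 1000) ∧ (0 < s ∧ s ≤ 1 / 1000) ∧
    (-(3 / 1000) ≤ 4 * s - t * (1 - s) ∧ 4 * s - t * (1 - s) ≤ 1 / 250) := by
  obtain ⟨x0, s0, s1, c0, cs, tt, ss⟩ := h
  have ht : 0 < t := by linarith
  have ht3 : t ≤ 3 / 1000 := by linarith
  have hs : 0 < s := by linarith
  have h1 : 0 ≤ t * s := by positivity
  have h2 : t * s ≤ t * (1 / 1000) := mul_le_mul_of_nonneg_left (by linarith) ht.le
  have h3 : s / 2 + ξ ≤ t := by linarith
  refine ⟨⟨ht, ht3⟩, ⟨hs, by linarith⟩, ?_, ?_⟩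
  · nlinarith
  · have : 4 * s - t * (1 - s) = 4 * s - t + t * s := by ring
    rw [this]
    nlinarith

theorem QposB.wall {ξ ψ s c t : ℝ} (h : QposB ξ ψ s c t) (hψ : ψ ≤ 1 / 1000) :
    4 * s - t * (1 - s) < 7 * t := by
  obtain ⟨x0, s0, s1, c0, cs, tt, ss⟩ := h
  have hs : s ≤ 1 / 1000 := by linarith
  have h1 : c * s ≤ c * (1 / 1000) := mul_le_mul_of_nonneg_left hs c0
  have h2 : ξ * s ≤ ξ * (1 / 1000) := mul_le_mul_of_nonneg_left hs x0.le
  have h3 : t * s = s * s / 2 + c * s / 8 + ξ * s := by rw [tt]; ring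
  nlinarith

/-- the sill over a served room -/
theorem QposB.sill {ξ ψ s c t β g : ℝ} (h : QposB ξ ψ s c t) (hψ : ψ ≤ 1 / 1000)
    (hc : c = 29 * β + 30 * g) (hβ : 0 ≤ β) (hg : 0 ≤ g) :
    4 * s - t * (1 - s) + (29 * β + 30 * g) < (7 + 8 * (β + g)) * t := by
  obtain ⟨x0, s0, s1, c0, cs, tt, ss⟩ := h
  have hs : s ≤ 1 / 1000 := by linarith
  have hs0 : 0 < s := by linarith
  have h2 : ξ * s ≤ ξ * (1 / 1000) := mul_le_mul_of_nonneg_left hs x0.le
  have h3 : t * s = s * s / 2 + c * s / 8 + ξ * s := by rw [tt]; ring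
  have h4 : 0 ≤ (β + g) * s := by positivity
  have h5 : (β + g) * (s / 2) ≤ (β + g) * t := mul_le_mul_of_nonneg_left (by linarith) (by linarith)
  have h6 : c * s = 29 * (β * s) + 30 * (g * s) := by rw [hc]; ring
  have h7 : 0 ≤ β * s := by positivity
  nlinarith

theorem QposB.rwall {ξ ψ s c t β g : ℝ} (h : QposB ξ ψ s c t) (hψ : ψ ≤ 1 / 1000)
    (hc : c = 29 * β + 30 * g) (hβ : 0 ≤ β) (hg : 0 ≤ g) :
    4 * s - t * (1 - s) + 14 * β < 7 * t := by
  obtain ⟨x0, s0, s1, c0, cs, tt, ss⟩ := h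
  have hs : s ≤ 1 / 1000 := by linarith
  have h1 : c * s ≤ c * (1 / 1000) := mul_le_mul_of_nonneg_left hs c0
  have h2 : ξ * s ≤ ξ * (1 / 1000) := mul_le_mul_of_nonneg_left hs x0.le
  have h3 : t * s = s * s / 2 + c * s / 8 + ξ * s := by rw [tt]; ring
  nlinarith

/-- the link inequality -/
theorem qpos_link {ξ s s' c' t t' : ℝ} (hξ : 0 < ξ) (hs : 0 ≤ s) (hc : 0 ≤ c') (ht : 0 < t)
    (hs' : s' = s + (c' / 12 + ξ)) (ht' : t' = s' / 2 + c' / 8 + ξ) :
    0 < (-t' - 3) * ((4 * s - t * (1 - s)) - 2 * (-t) + 4) +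
      ((4 * s' - t' * (1 - s')) + 3) * (4 - (-t)) := by
  have e : (-t' - 3) * ((4 * s - t * (1 - s)) - 2 * (-t) + 4) +
      ((4 * s' - t' * (1 - s')) + 3) * (4 - (-t)) =
      (4 + t) * (ξ + t' * (c' / 12 + ξ)) := by
    subst hs'
    subst ht'
    ring
  rw [e]
  have : 0 < t' := by rw [ht', hs']; positivity
  positivity

theorem pos_Q {N : ℕ} {D b ψ : ℝ} {γ : ℕ → ℝ} (h : GQ N D b ψ γ) (e : ℕ → Bool)
    (he : e (N - 1) = false) {ξ : ℝ} (hξ : 0 < ξ)
    (hsum : ∑ i ∈ (range (N - 1)).filter (fun i => e i = true), (29 * b + 30 * γ i) / 12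
      + N * ξ < ψ)
    (hsm : ψ ^ 2 ≤ 2 * ξ) :
    ∃ S : Fin N → Pt,
      (∀ a b' c, Tri0 N e a b' c →
        0 < orient (pos (QQ N D b ψ γ) S a) (pos (QQ N D b ψ γ) S b')
          (pos (QQ N D b ψ γ) S c)) ∧
      (∀ u v, u ≠ v → (pos (QQ N D b ψ γ) S u).1 ≠ (pos (QQ N D b ψ γ) S v).1) := by
  obtain ⟨hN, hD, b0, b1, p0, p1, g0, g1⟩ := h
  set s := qpos_s b ξ γ e with hs
  set c := qpos_c b γ e with hc
  set t := qpos_t b ξ γ e with ht
  have hlast : s (N - 1) < ψ := by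
    rw [hs, qpos_s_last]
    have : ((N - 1 + 1 : ℕ) : ℝ) = N := by rw [Nat.sub_add_cancel hN]
    rw [this]; exact hsum
  have hB : ∀ i < N, QposB ξ ψ (s i) (c i) (t i) := by
    intro i hi
    have h1 : s i ≤ s (N - 1) := qpos_s_mono e b0 g0 hξ (by omega)
    have h2 := qpos_s_ge e b0 g0 hξ i
    have h3 := qpos_c_nonneg e b0 g0 i
    have h4 : ξ ≤ s i := by rw [hs]; linarith
    refine ⟨hξ, h4, by linarith, h3, h2, rfl, ?_⟩
    have h5 : s i ≤ ψ := by linarith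
    have h6 : 0 ≤ s i := by linarith
    calc s i * s i ≤ ψ * ψ := mul_le_mul h5 h5 h6 p0
      _ = ψ ^ 2 := by ring
      _ ≤ 2 * ξ := hsm
  have hss : ∀ i, s (i + 1) = s i + (c (i + 1) / 12 + ξ) := fun i => qpos_s_succ b ξ γ e i
  refine ⟨fun i => fQ D i.1 (-(t i.1)) (4 * s i.1 - t i.1 * (1 - s i.1)), ?_, ?_⟩
  · intro a b' c' hT
    cases hT with
    | base i hi =>
      obtain ⟨⟨t0, t1⟩, ⟨s0, s1⟩, ⟨v0, v1⟩⟩ := (hB i hi).small p1
      simp only [pos, Sum.elim_inl, Sum.elim_inr]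
      generalize 4 * s i - t i * (1 - s i) = V at *
      rw [QQ_p hi.le, QQ_p hi, fQ_frame D i (i + 1), orient_fQ]
      refine mul_pos (by positivity) ?_
      push_cast
      ring_nf
      linarith
    | cap1 i hi =>
      obtain ⟨⟨t0, t1⟩, ⟨s0, s1⟩, ⟨v0, v1⟩⟩ := (hB i hi).small p1
      simp only [pos, Sum.elim_inl, Sum.elim_inr]
      generalize 4 * s i - t i * (1 - s i) = V at *
      rw [QQ_F hi, QQ_T hi, fQ_frame D i (i + 1), orient_fQ]
      refine mul_pos (by positivity) ?_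
      push_cast
      have h0 := g0 i
      have h1 := g1 i
      have h2 := qpos_mul (x := t i) (y := b) ⟨by linarith, by linarith⟩ ⟨by linarith, by linarith⟩
      have h3 := qpos_mul (x := t i) (y := γ i) ⟨by linarith, by linarith⟩
        ⟨by linarith, by linarith⟩
      obtain ⟨h2, h2'⟩ := h2
      obtain ⟨h3, h3'⟩ := h3
      ring_nf
      ring_nf at h2 h2' h3 h3'
      linarith
    | cap2 i hi =>
      obtain ⟨⟨t0, t1⟩, ⟨s0, s1⟩, ⟨v0, v1⟩⟩ := (hB i hi).small p1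
      simp only [pos, Sum.elim_inl, Sum.elim_inr]
      generalize 4 * s i - t i * (1 - s i) = V at *
      rw [QQ_T hi, QQ_C hi, orient_fQ]
      refine mul_pos (by positivity) ?_
      ring_nf
      linarith
    | cap3 i hi =>
      obtain ⟨⟨t0, t1⟩, ⟨s0, s1⟩, ⟨v0, v1⟩⟩ := (hB i hi).small p1
      simp only [pos, Sum.elim_inl, Sum.elim_inr]
      generalize 4 * s i - t i * (1 - s i) = V at *
      rw [QQ_C hi, QQ_A hi, orient_fQ]
      refine mul_pos (by positivity) ?_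
      ring_nf
      linarith
    | wall i hi =>
      have hw := (hB i hi).wall p1
      simp only [pos, Sum.elim_inl, Sum.elim_inr]
      generalize 4 * s i - t i * (1 - s i) = V at *
      rw [QQ_A hi, QQ_H hi.le, orient_fQ]
      refine mul_pos (by positivity) ?_
      ring_nf
      linarith
    | sill0 i hi he0 =>
      obtain ⟨⟨t0, t1⟩, ⟨s0, s1⟩, ⟨v0, v1⟩⟩ := (hB i hi).small p1
      simp only [pos, Sum.elim_inl, Sum.elim_inr]
      generalize 4 * s i - t i * (1 - s i) = V at *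
      rw [QQ_G hi, QQ_F hi, fQ_frame D i (i + 1), fQ_frame D i (i + 1), orient_fQ]
      refine mul_pos (by positivity) ?_
      push_cast
      have h0 := g0 i
      have h1 := g1 i
      have h2 := qpos_mul (x := t i) (y := b) ⟨by linarith, by linarith⟩ ⟨by linarith, by linarith⟩
      have h3 := qpos_mul (x := t i) (y := γ i) ⟨by linarith, by linarith⟩
        ⟨by linarith, by linarith⟩
      obtain ⟨h2, h2'⟩ := h2
      obtain ⟨h3, h3'⟩ := h3
      ring_nf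
      ring_nf at h2 h2' h3 h3'
      linarith
    | rwall0 i hi he0 =>
      obtain ⟨⟨t0, t1⟩, ⟨s0, s1⟩, ⟨v0, v1⟩⟩ := (hB i hi).small p1
      simp only [pos, Sum.elim_inl, Sum.elim_inr]
      generalize 4 * s i - t i * (1 - s i) = V at *
      rw [QQ_H (by omega), QQ_G hi, fQ_frame D i (i + 1), fQ_frame D i (i + 1), orient_fQ]
      refine mul_pos (by positivity) ?_
      push_cast
      have h2 := qpos_mul (x := t i) (y := b) ⟨by linarith, by linarith⟩ ⟨by linarith, by linarith⟩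
      obtain ⟨h2, h2'⟩ := h2
      ring_nf
      ring_nf at h2 h2'
      linarith
    | link0 i hi he0 =>
      obtain ⟨⟨t0, t1⟩, ⟨s0, s1⟩, ⟨v0, v1⟩⟩ := (hB i (by omega)).small p1
      obtain ⟨⟨t0', t1'⟩, ⟨s0', s1'⟩, ⟨v0', v1'⟩⟩ := (hB (i + 1) hi).small p1
      simp only [pos, Sum.elim_inl, Sum.elim_inr]
      generalize 4 * s i - t i * (1 - s i) = V at *
      generalize 4 * s (i + 1) - t (i + 1) * (1 - s (i + 1)) = V' at *
      generalize t (i + 1) = t' at *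
      generalize t i = t at *
      rw [QQ_H (by omega), fQ_frame D (i + 1) i, orient_fQ]
      refine mul_pos (by positivity) ?_
      push_cast
      have h2 := qpos_mul (x := t') (y := V) ⟨by linarith, by linarith⟩ ⟨by linarith, by linarith⟩
      have h3 := qpos_mul (x := t) (y := V') ⟨by linarith, by linarith⟩
        ⟨by linarith, by linarith⟩
      have h4 := qpos_mul (x := t') (y := t) ⟨by linarith, by linarith⟩
        ⟨by linarith, by linarith⟩
      obtain ⟨h2, h2'⟩ := h2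
      obtain ⟨h3, h3'⟩ := h3
      obtain ⟨h4, h4'⟩ := h4
      ring_nf
      ring_nf at h2 h2' h3 h3' h4 h4'
      linarith
    | sill1 i hi he1 =>
      have hcc : c (i + 1) = 29 * b + 30 * γ i := by
        show (if e i = true then 29 * b + 30 * γ i else 0) = _
        rw [if_pos he1]
      have hw := (hB (i + 1) hi).sill p1 hcc b0.le (g0 i)
      simp only [pos, Sum.elim_inl, Sum.elim_inr]
      generalize 4 * s (i + 1) - t (i + 1) * (1 - s (i + 1)) = V' at *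
      generalize t (i + 1) = t' at *
      rw [QQ_G (by omega), QQ_F (by omega), orient_fQ]
      refine mul_pos (by positivity) ?_
      nlinarith
    | rwall1 i hi he1 =>
      have hcc : c (i + 1) = 29 * b + 30 * γ i := by
        show (if e i = true then 29 * b + 30 * γ i else 0) = _
        rw [if_pos he1]
      have hw := (hB (i + 1) hi).rwall p1 hcc b0.le (g0 i)
      obtain ⟨⟨t0, t1⟩, _, _⟩ := (hB (i + 1) hi).small p1
      simp only [pos, Sum.elim_inl, Sum.elim_inr]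
      generalize 4 * s (i + 1) - t (i + 1) * (1 - s (i + 1)) = V' at *
      generalize t (i + 1) = t' at *
      rw [QQ_G (by omega), QQ_H (by omega), orient_fQ]
      refine mul_pos (by positivity) ?_
      have := mul_pos b0 t0
      nlinarith
    | link1 i hi he1 =>
      obtain ⟨⟨t0, t1⟩, ⟨s0, s1⟩, ⟨v0, v1⟩⟩ := (hB i (by omega)).small p1
      obtain ⟨⟨t0', t1'⟩, ⟨s0', s1'⟩, ⟨v0', v1'⟩⟩ := (hB (i + 1) hi).small p1
      have h0 := g0 i
      have h1 := g1 i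
      simp only [pos, Sum.elim_inl, Sum.elim_inr]
      generalize 4 * s i - t i * (1 - s i) = V at *
      generalize 4 * s (i + 1) - t (i + 1) * (1 - s (i + 1)) = V' at *
      generalize t (i + 1) = t' at *
      generalize t i = t at *
      rw [QQ_F (by omega), fQ_frame D (i + 1) i, orient_fQ]
      refine mul_pos (by positivity) ?_
      push_cast
      generalize γ i = g at *
      have h2 := qpos_mul (x := t') (y := V) ⟨by linarith, by linarith⟩ ⟨by linarith, by linarith⟩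
      have h3 := qpos_mul (x := t) (y := V') ⟨by linarith, by linarith⟩
        ⟨by linarith, by linarith⟩
      have h4 := qpos_mul (x := t') (y := t) ⟨by linarith, by linarith⟩
        ⟨by linarith, by linarith⟩
      have h5 := qpos_mul (x := t') (y := b) ⟨by linarith, by linarith⟩
        ⟨by linarith, by linarith⟩
      have h6 := qpos_mul (x := t) (y := b) ⟨by linarith, by linarith⟩
        ⟨by linarith, by linarith⟩
      have h7 := qpos_mul (x := t') (y := g) ⟨by linarith, by linarith⟩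
        ⟨by linarith, by linarith⟩
      have h8 := qpos_mul (x := t) (y := g) ⟨by linarith, by linarith⟩
        ⟨by linarith, by linarith⟩
      obtain ⟨h2, h2'⟩ := h2
      obtain ⟨h3, h3'⟩ := h3
      obtain ⟨h4, h4'⟩ := h4
      obtain ⟨h5, h5'⟩ := h5
      obtain ⟨h6, h6'⟩ := h6
      obtain ⟨h7, h7'⟩ := h7
      obtain ⟨h8, h8'⟩ := h8
      nlinarith
    | link i hi =>
      have hl := qpos_link (t := t i) (t' := t (i + 1)) hξ
        ((hB i (by omega)).small p1).2.1.1.le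
        (hB (i + 1) hi).c0 ((hB i (by omega)).small p1).1.1 (hss i) rfl
      simp only [pos, Sum.elim_inl, Sum.elim_inr]
      rw [QQ_p (by omega), fQ_frame D (i + 1) i, orient_fQ]
      refine mul_pos (by positivity) ?_
      push_cast
      ring_nf
      ring_nf at hl
      linarith
    | start1 hi =>
      have h0 := hB 0 hi
      have hc0 : c 0 = 0 := rfl
      have hs0 : s 0 = ξ := qpos_s_zero b ξ γ e
      have ht0 := h0.tt
      rw [hc0, hs0] at ht0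
      simp only [pos, Sum.elim_inl, Sum.elim_inr]
      rw [QQ_B, QQ_p (by omega), orient_fQ]
      refine mul_pos (by positivity) ?_
      rw [ht0, hs0]
      nlinarith
    | start2 hi =>
      obtain ⟨⟨t0, t1⟩, ⟨s0, s1⟩, ⟨v0, v1⟩⟩ := (hB 0 hi).small p1
      simp only [pos, Sum.elim_inl, Sum.elim_inr]
      generalize 4 * s 0 - t 0 * (1 - s 0) = V at *
      rw [QQ_B, QQ_H (by omega), orient_fQ]
      refine mul_pos (by positivity) ?_
      ring_nf
      linarith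
    | fin1 hi =>
      have hi' : N - 1 < N := by omega
      obtain ⟨⟨t0, t1⟩, _, _⟩ := (hB (N - 1) hi').small p1
      simp only [pos, Sum.elim_inl, Sum.elim_inr]
      rw [QQ_p (le_refl _), QQ_E, fQ_frame D N (N - 1), orient_fQ]
      refine mul_pos (by positivity) ?_
      have hcast : ((N - 1 : ℕ) : ℝ) - N = -1 := by
        rw [Nat.cast_sub hN]; push_cast; ring
      rw [hcast]
      have e1 : (1 / 4 - 3 : ℝ) * (4 * s (N - 1) - t (N - 1) * (1 - s (N - 1)) +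
          2 * -1 * -t (N - 1) + (-1) ^ 2 - -3) -
          (-1 / 4 + 11 / 4 * ψ - -3) * (-t (N - 1) + -1 - 3) =
          11 / 4 * ((4 + t (N - 1)) * (ψ - s (N - 1))) := by ring
      rw [e1]
      have h1 : 0 < ψ - s (N - 1) := by linarith
      positivity
    | fin2 hi =>
      have hi' : N - 1 < N := by omega
      obtain ⟨⟨t0, t1⟩, ⟨s0, s1⟩, ⟨v0, v1⟩⟩ := (hB (N - 1) hi').small p1
      simp only [pos, Sum.elim_inl, Sum.elim_inr]
      generalize 4 * s (N - 1) - t (N - 1) * (1 - s (N - 1)) = V at *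
      rw [QQ_H (le_refl _), QQ_E, fQ_frame D N (N - 1), orient_fQ]
      refine mul_pos (by positivity) ?_
      have hcast : ((N - 1 : ℕ) : ℝ) - N = -1 := by
        rw [Nat.cast_sub hN]; push_cast; ring
      rw [hcast]
      generalize t (N - 1) = t' at *
      have h2 := qpos_mul (x := t') (y := ψ) ⟨by linarith, by linarith⟩ ⟨by linarith, by linarith⟩
      obtain ⟨h2, h2'⟩ := h2
      nlinarith
  · have hS : ∀ i : Fin N, ∀ x : ℕ, (fQ D i.1 (-(t i.1)) (4 * s i.1 - t i.1 * (1 - s i.1))).1 ≠ x := by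
      intro i x hx
      obtain ⟨⟨t0, t1⟩, _, _⟩ := (hB i.1 i.2).small p1
      simp only [fQ] at hx
      have h1 : (x : ℝ) < 16 * (i.1 + 6 : ℕ) := by rw [← hx]; push_cast; linarith
      have h2 : (16 * (i.1 + 6 : ℕ) : ℝ) < x + 1 := by rw [← hx]; push_cast; linarith
      have h3 : x < 16 * (i.1 + 6) := by exact_mod_cast h1
      have h4 : 16 * (i.1 + 6) < x + 1 := by exact_mod_cast h2
      omega
    intro u v huv
    rcases u with u | i <;> rcases v with v | j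
    · simp only [pos, Sum.elim_inl]
      exact qpos_inj D b ψ γ u v (fun h => huv (by rw [h]))
    · simp only [pos, Sum.elim_inl, Sum.elim_inr]
      obtain ⟨x, hx, _⟩ := qpos_x D b ψ γ u
      intro hh
      exact hS j x (by rw [← hh, hx])
    · simp only [pos, Sum.elim_inl, Sum.elim_inr]
      obtain ⟨x, hx, _⟩ := qpos_x D b ψ γ v
      intro hh
      exact hS i x (by rw [hh, hx])
    · simp only [pos, Sum.elim_inr]
      intro hh
      obtain ⟨⟨t0, t1⟩, _, _⟩ := (hB i.1 i.2).small p1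
      obtain ⟨⟨t0', t1'⟩, _, _⟩ := (hB j.1 j.2).small p1
      simp only [fQ] at hh
      have h1 : ((i.1 : ℕ) : ℝ) < (j.1 : ℕ) + 1 := by linarith
      have h2 : ((j.1 : ℕ) : ℝ) < (i.1 : ℕ) + 1 := by linarith
      have h3 : i.1 < j.1 + 1 := by exact_mod_cast h1
      have h4 : j.1 < i.1 + 1 := by exact_mod_cast h2
      exact huv (by rw [show i = j from Fin.ext (by omega)])

end Pool.Agent.Lib57.CT
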