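import Mathlib
import Pool.Agent.Lib_helper57.CT.TriDef

/-! BLOCK TCOMB: the triangles form a combinatorial triangulation. -/

namespace Pool.Agent.Lib57.CT

open Sum

/-- kinds of labels -/
inductive tcomb_K where
  | B | p (j : ℕ) | E | H (j : ℕ) | G (i : ℕ) | F (i : ℕ) | T (i : ℕ) | C (i : ℕ) | A (i : ℕ)
  | S (i : ℕ)

/-- the label of a kind -/
def tcomb_lab (N : ℕ) : tcomb_K → Fin (nV N) ⊕ Fin N
  | .B => inl (vB N)
  | .p j => inl (vp N j)
  | .E => inl (vE N)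
  | .H j => inl (vH N j)
  | .G i => inl (vG N i)
  | .F i => inl (vF N i)
  | .T i => inl (vT N i)
  | .C i => inl (vC N i)
  | .A i => inl (vA N i)
  | .S i => if h : i < N then inr ⟨i, h⟩ else inl (vB N)

/-- the kind is in range -/
def tcomb_ok (N : ℕ) : tcomb_K → Prop
  | .B => True
  | .p j => j ≤ N
  | .E => True
  | .H j => j ≤ N
  | .G i => i < N
  | .F i => i < N
  | .T i => i < N
  | .C i => i < N
  | .A i => i < N
  | .S i => i < N

/-- number of a label -/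
def tcomb_num {N : ℕ} : Fin (nV N) ⊕ Fin N → ℕ
  | inl v => v.val
  | inr t => 7 * N + 4 + t.val

/-- number of a kind -/
def tcomb_code (N : ℕ) : tcomb_K → ℕ
  | .B => 0
  | .p j => 1 + j
  | .E => N + 2
  | .H j => N + 3 + 6 * (N - j)
  | .G i => N + 4 + 6 * (N - 1 - i)
  | .F i => N + 5 + 6 * (N - 1 - i)
  | .T i => N + 6 + 6 * (N - 1 - i)
  | .C i => N + 7 + 6 * (N - 1 - i)
  | .A i => N + 8 + 6 * (N - 1 - i)
  | .S i => 7 * N + 4 + i

theorem tcomb_num_lab {N : ℕ} {k : tcomb_K} (h : tcomb_ok N k) :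
    tcomb_num (tcomb_lab N k) = tcomb_code N k := by
  cases k with
  | B => exact vB_val
  | p j => exact vp_val h
  | E => exact vE_val
  | H j => exact vH_val h
  | G i => exact vG_val h
  | F i => exact vF_val h
  | T i => exact vT_val h
  | C i => exact vC_val h
  | A i => exact vA_val h
  | S i =>
    have h' : i < N := h
    simp only [tcomb_lab, dif_pos h', tcomb_num, tcomb_code]

theorem tcomb_code_inj {N : ℕ} {k k' : tcomb_K} (h : tcomb_ok N k) (h' : tcomb_ok N k')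
    (hh : tcomb_code N k = tcomb_code N k') : k = k' := by
  cases k <;> cases k' <;> simp only [tcomb_ok, tcomb_code] at h h' hh <;>
    first
      | rfl
      | (exfalso; omega)
      | (congr 1; omega)

theorem tcomb_lab_inj {N : ℕ} {k k' : tcomb_K} (h : tcomb_ok N k) (h' : tcomb_ok N k')
    (hh : tcomb_lab N k = tcomb_lab N k') : k = k' := by
  apply tcomb_code_inj h h'
  rw [← tcomb_num_lab h, ← tcomb_num_lab h', hh]

/-- the triangles on the level of kinds -/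
inductive tcomb_T0 (N : ℕ) (e : ℕ → Bool) : tcomb_K → tcomb_K → tcomb_K → Prop
  | base (i : ℕ) (h : i < N) : tcomb_T0 N e (.p i) (.p (i + 1)) (.S i)
  | cap1 (i : ℕ) (h : i < N) : tcomb_T0 N e (.F i) (.T i) (.S i)
  | cap2 (i : ℕ) (h : i < N) : tcomb_T0 N e (.T i) (.C i) (.S i)
  | cap3 (i : ℕ) (h : i < N) : tcomb_T0 N e (.C i) (.A i) (.S i)
  | wall (i : ℕ) (h : i < N) : tcomb_T0 N e (.A i) (.H i) (.S i)
  | sill0 (i : ℕ) (h : i < N) (he : e i = false) : tcomb_T0 N e (.G i) (.F i) (.S i)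
  | rwall0 (i : ℕ) (h : i < N) (he : e i = false) : tcomb_T0 N e (.H (i + 1)) (.G i) (.S i)
  | link0 (i : ℕ) (h : i + 1 < N) (he : e i = false) :
      tcomb_T0 N e (.S (i + 1)) (.H (i + 1)) (.S i)
  | sill1 (i : ℕ) (h : i + 1 < N) (he : e i = true) : tcomb_T0 N e (.G i) (.F i) (.S (i + 1))
  | rwall1 (i : ℕ) (h : i + 1 < N) (he : e i = true) :
      tcomb_T0 N e (.H (i + 1)) (.G i) (.S (i + 1))
  | link1 (i : ℕ) (h : i + 1 < N) (he : e i = true) : tcomb_T0 N e (.S (i + 1)) (.F i) (.S i)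
  | link (i : ℕ) (h : i + 1 < N) : tcomb_T0 N e (.p (i + 1)) (.S (i + 1)) (.S i)
  | start1 (h : 0 < N) : tcomb_T0 N e .B (.p 0) (.S 0)
  | start2 (h : 0 < N) : tcomb_T0 N e (.H 0) .B (.S 0)
  | fin1 (i : ℕ) (h : i + 1 = N) : tcomb_T0 N e (.p (i + 1)) .E (.S i)
  | fin2 (i : ℕ) (h : i + 1 = N) : tcomb_T0 N e .E (.H (i + 1)) (.S i)

theorem tcomb_T0_ok {N : ℕ} {e : ℕ → Bool} {a b c : tcomb_K} (h : tcomb_T0 N e a b c) :
    tcomb_ok N a ∧ tcomb_ok N b ∧ tcomb_ok N c := by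
  cases h <;> simp only [tcomb_ok, true_and] <;> omega

theorem tcomb_iff {N : ℕ} {e : ℕ → Bool} {a b c : Fin (nV N) ⊕ Fin N} :
    Tri0 N e a b c ↔ ∃ k1 k2 k3, tcomb_T0 N e k1 k2 k3 ∧ a = tcomb_lab N k1 ∧
      b = tcomb_lab N k2 ∧ c = tcomb_lab N k3 := by
  have hS : ∀ (i : ℕ) (h : i < N), (inr ⟨i, h⟩ : Fin (nV N) ⊕ Fin N) = tcomb_lab N (.S i) := by
    intro i h
    simp only [tcomb_lab, dif_pos h]
  constructor
  · intro h
    cases h with
    | base i h => exact ⟨_, _, _, .base i h, rfl, rfl, hS _ _⟩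
    | cap1 i h => exact ⟨_, _, _, .cap1 i h, rfl, rfl, hS _ _⟩
    | cap2 i h => exact ⟨_, _, _, .cap2 i h, rfl, rfl, hS _ _⟩
    | cap3 i h => exact ⟨_, _, _, .cap3 i h, rfl, rfl, hS _ _⟩
    | wall i h => exact ⟨_, _, _, .wall i h, rfl, rfl, hS _ _⟩
    | sill0 i h he => exact ⟨_, _, _, .sill0 i h he, rfl, rfl, hS _ _⟩
    | rwall0 i h he => exact ⟨_, _, _, .rwall0 i h he, rfl, rfl, hS _ _⟩
    | link0 i h he => exact ⟨_, _, _, .link0 i h he, hS _ _, rfl, hS _ _⟩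
    | sill1 i h he => exact ⟨_, _, _, .sill1 i h he, rfl, rfl, hS _ _⟩
    | rwall1 i h he => exact ⟨_, _, _, .rwall1 i h he, rfl, rfl, hS _ _⟩
    | link1 i h he => exact ⟨_, _, _, .link1 i h he, hS _ _, rfl, hS _ _⟩
    | link i h => exact ⟨_, _, _, .link i h, rfl, hS _ _, hS _ _⟩
    | start1 h => exact ⟨_, _, _, .start1 h, rfl, rfl, hS _ _⟩
    | start2 h => exact ⟨_, _, _, .start2 h, rfl, rfl, hS _ _⟩
    | fin1 h =>
      refine ⟨.p (N - 1 + 1), .E, .S (N - 1), .fin1 (N - 1) (by omega), ?_, rfl, hS _ _⟩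
      rw [Nat.sub_add_cancel h]; rfl
    | fin2 h =>
      refine ⟨.E, .H (N - 1 + 1), .S (N - 1), .fin2 (N - 1) (by omega), rfl, ?_, hS _ _⟩
      rw [Nat.sub_add_cancel h]; rfl
  · rintro ⟨k1, k2, k3, h, rfl, rfl, rfl⟩
    cases h with
    | base i h => rw [← hS i h]; exact .base i h
    | cap1 i h => rw [← hS i h]; exact .cap1 i h
    | cap2 i h => rw [← hS i h]; exact .cap2 i h
    | cap3 i h => rw [← hS i h]; exact .cap3 i h
    | wall i h => rw [← hS i h]; exact .wall i h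
    | sill0 i h he => rw [← hS i h]; exact .sill0 i h he
    | rwall0 i h he => rw [← hS i h]; exact .rwall0 i h he
    | link0 i h he => rw [← hS (i + 1) h, ← hS i (by omega)]; exact .link0 i h he
    | sill1 i h he => rw [← hS (i + 1) h]; exact .sill1 i h he
    | rwall1 i h he => rw [← hS (i + 1) h]; exact .rwall1 i h he
    | link1 i h he => rw [← hS (i + 1) h, ← hS i (by omega)]; exact .link1 i h he
    | link i h => rw [← hS (i + 1) h, ← hS i (by omega)]; exact .link i h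
    | start1 h => rw [← hS 0 h]; exact .start1 h
    | start2 h => rw [← hS 0 h]; exact .start2 h
    | fin1 i h => subst h; rw [← hS i (by omega)]; exact .fin1 (by omega)
    | fin2 i h => subst h; rw [← hS i (by omega)]; exact .fin2 (by omega)

/-- rotations on the level of kinds -/
def tcomb_T (N : ℕ) (e : ℕ → Bool) (a b c : tcomb_K) : Prop :=
  tcomb_T0 N e a b c ∨ tcomb_T0 N e b c a ∨ tcomb_T0 N e c a b

theorem tcomb_T_ok {N : ℕ} {e : ℕ → Bool} {a b c : tcomb_K} (h : tcomb_T N e a b c) :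
    tcomb_ok N a ∧ tcomb_ok N b ∧ tcomb_ok N c := by
  rcases h with h | h | h <;> have := tcomb_T0_ok h <;> tauto

theorem tcomb_T_iff {N : ℕ} {e : ℕ → Bool} {a b c : Fin (nV N) ⊕ Fin N} :
    TriE N e a b c ↔ ∃ k1 k2 k3, tcomb_T N e k1 k2 k3 ∧ a = tcomb_lab N k1 ∧
      b = tcomb_lab N k2 ∧ c = tcomb_lab N k3 := by
  unfold TriE tcomb_T
  constructor
  · rintro (h | h | h)
    · obtain ⟨k1, k2, k3, h, h1, h2, h3⟩ := tcomb_iff.1 h
      exact ⟨k1, k2, k3, Or.inl h, h1, h2, h3⟩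
    · obtain ⟨k1, k2, k3, h, h1, h2, h3⟩ := tcomb_iff.1 h
      exact ⟨k3, k1, k2, Or.inr (Or.inl h), h3, h1, h2⟩
    · obtain ⟨k1, k2, k3, h, h1, h2, h3⟩ := tcomb_iff.1 h
      exact ⟨k2, k3, k1, Or.inr (Or.inr h), h2, h3, h1⟩
  · rintro ⟨k1, k2, k3, h | h | h, h1, h2, h3⟩
    · exact Or.inl (tcomb_iff.2 ⟨_, _, _, h, h1, h2, h3⟩)
    · exact Or.inr (Or.inl (tcomb_iff.2 ⟨_, _, _, h, h2, h3, h1⟩))
    · exact Or.inr (Or.inr (tcomb_iff.2 ⟨_, _, _, h, h3, h1, h2⟩))

theorem tcomb_uniq {N : ℕ} {e : ℕ → Bool} {a b c c' : tcomb_K}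
    (h : tcomb_T N e a b c) (h' : tcomb_T N e a b c') : c = c' := by
  rcases h with h | h | h <;> rcases h' with h' | h' | h' <;> cases h <;> cases h' <;>
    first
      | rfl
      | (exfalso; omega)
      | simp_all

/-- polygon edges on the level of kinds -/
def tcomb_poly (N : ℕ) (a b : tcomb_K) : Prop :=
  ∃ v : Fin (nV N), tcomb_lab N a = inl v ∧ tcomb_lab N b = inl (nx v)

theorem tcomb_poly_mk {N : ℕ} {v u : Fin (nV N)} (h : nx v = u) :
    ∃ v' : Fin (nV N), (inl v : Fin (nV N) ⊕ Fin N) = inl v' ∧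
      (inl u : Fin (nV N) ⊕ Fin N) = inl (nx v') := ⟨v, rfl, by rw [h]⟩

/-- the first edge of a listed triangle -/
theorem tcomb_edge1 {N : ℕ} {e : ℕ → Bool} {a b c : tcomb_K}
    (h : tcomb_T0 N e a b c) : tcomb_poly N a b ∨ ∃ d, tcomb_T N e b a d := by
  cases h with
  | base i h => exact Or.inl (tcomb_poly_mk (nx_p h))
  | cap1 i h => exact Or.inl (tcomb_poly_mk (nx_F h))
  | cap2 i h => exact Or.inl (tcomb_poly_mk (nx_T h))
  | cap3 i h => exact Or.inl (tcomb_poly_mk (nx_C h))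
  | wall i h => exact Or.inl (tcomb_poly_mk (nx_A h))
  | sill0 i h he => exact Or.inl (tcomb_poly_mk (nx_G h))
  | rwall0 i h he => exact Or.inl (tcomb_poly_mk (nx_H h))
  | link0 i h he => exact Or.inr ⟨_, Or.inr (Or.inr (.wall (i + 1) h))⟩
  | sill1 i h he => exact Or.inl (tcomb_poly_mk (nx_G (by omega)))
  | rwall1 i h he => exact Or.inl (tcomb_poly_mk (nx_H (by omega)))
  | link1 i h he => exact Or.inr ⟨_, Or.inr (Or.inr (.sill1 i h he))⟩
  | link i h => exact Or.inr ⟨_, Or.inr (Or.inl (.base (i + 1) h))⟩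
  | start1 h => exact Or.inl (tcomb_poly_mk nx_B)
  | start2 h => exact Or.inl (tcomb_poly_mk nx_H0)
  | fin1 i h => subst h; exact Or.inl (tcomb_poly_mk nx_pN)
  | fin2 i h => subst h; exact Or.inl (tcomb_poly_mk nx_E)

/-- the second edge of a listed triangle -/
theorem tcomb_edge2 {N : ℕ} {e : ℕ → Bool} (he' : e (N - 1) = false) {a b c : tcomb_K}
    (h : tcomb_T0 N e a b c) : ∃ d, tcomb_T N e c b d := by
  cases h with
  | base i h =>
    by_cases hi : i + 1 < N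
    · exact ⟨_, Or.inr (Or.inl (.link i hi))⟩
    · exact ⟨_, Or.inr (Or.inl (.fin1 i (by omega)))⟩
  | cap1 i h => exact ⟨_, Or.inr (Or.inl (.cap2 i h))⟩
  | cap2 i h => exact ⟨_, Or.inr (Or.inl (.cap3 i h))⟩
  | cap3 i h => exact ⟨_, Or.inr (Or.inl (.wall i h))⟩
  | wall i h =>
    rcases i with _ | j
    · exact ⟨_, Or.inr (Or.inl (.start2 h))⟩
    · cases hj : e j with
      | false => exact ⟨_, Or.inl (.link0 j h hj)⟩
      | true => exact ⟨_, Or.inr (Or.inl (.rwall1 j h hj))⟩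
  | sill0 i h he => exact ⟨_, Or.inr (Or.inl (.cap1 i h))⟩
  | rwall0 i h he => exact ⟨_, Or.inr (Or.inl (.sill0 i h he))⟩
  | link0 i h he => exact ⟨_, Or.inr (Or.inl (.rwall0 i (by omega) he))⟩
  | sill1 i h he => exact ⟨_, Or.inl (.link1 i h he)⟩
  | rwall1 i h he => exact ⟨_, Or.inr (Or.inl (.sill1 i h he))⟩
  | link1 i h he => exact ⟨_, Or.inr (Or.inl (.cap1 i (by omega)))⟩
  | link i h =>
    cases hi : e i with
    | false => exact ⟨_, Or.inr (Or.inl (.link0 i h hi))⟩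
    | true => exact ⟨_, Or.inr (Or.inl (.link1 i h hi))⟩
  | start1 h => exact ⟨_, Or.inr (Or.inl (.base 0 h))⟩
  | start2 h => exact ⟨_, Or.inr (Or.inl (.start1 h))⟩
  | fin1 i h => exact ⟨_, Or.inr (Or.inl (.fin2 i h))⟩
  | fin2 i h =>
    subst h
    exact ⟨_, Or.inr (Or.inl (.rwall0 i (by omega) he'))⟩

/-- the third edge of a listed triangle -/
theorem tcomb_edge3 {N : ℕ} {e : ℕ → Bool} (he' : e (N - 1) = false) {a b c : tcomb_K}
    (h : tcomb_T0 N e a b c) : ∃ d, tcomb_T N e a c d := by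
  cases h with
  | base i h =>
    rcases i with _ | j
    · exact ⟨_, Or.inr (Or.inr (.start1 h))⟩
    · exact ⟨_, Or.inl (.link j h)⟩
  | cap1 i h =>
    cases hi : e i with
    | false => exact ⟨_, Or.inr (Or.inr (.sill0 i h hi))⟩
    | true =>
      have h1 : i + 1 < N := by
        rcases Nat.lt_or_ge (i + 1) N with h1 | h1
        · exact h1
        · have h2 : i = N - 1 := by omega
          rw [h2, he'] at hi
          exact absurd hi (by simp)
      exact ⟨_, Or.inr (Or.inr (.link1 i h1 hi))⟩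
  | cap2 i h => exact ⟨_, Or.inr (Or.inr (.cap1 i h))⟩
  | cap3 i h => exact ⟨_, Or.inr (Or.inr (.cap2 i h))⟩
  | wall i h => exact ⟨_, Or.inr (Or.inr (.cap3 i h))⟩
  | sill0 i h he => exact ⟨_, Or.inr (Or.inr (.rwall0 i h he))⟩
  | rwall0 i h he =>
    by_cases hi : i + 1 < N
    · exact ⟨_, Or.inr (Or.inr (.link0 i hi he))⟩
    · exact ⟨_, Or.inr (Or.inr (.fin2 i (by omega)))⟩
  | link0 i h he => exact ⟨_, Or.inr (Or.inr (.link i h))⟩
  | sill1 i h he => exact ⟨_, Or.inr (Or.inr (.rwall1 i h he))⟩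
  | rwall1 i h he => exact ⟨_, Or.inr (Or.inr (.wall (i + 1) h))⟩
  | link1 i h he => exact ⟨_, Or.inr (Or.inr (.link i h))⟩
  | link i h => exact ⟨_, Or.inr (Or.inr (.base i (by omega)))⟩
  | start1 h => exact ⟨_, Or.inr (Or.inr (.start2 h))⟩
  | start2 h => exact ⟨_, Or.inr (Or.inr (.wall 0 h))⟩
  | fin1 i h => exact ⟨_, Or.inr (Or.inr (.base i (by omega)))⟩
  | fin2 i h => exact ⟨_, Or.inr (Or.inr (.fin1 i h))⟩

/-- triangles without a Steiner point at the first two corners -/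
theorem tcomb_noS {N : ℕ} {e : ℕ → Bool} {a b c : tcomb_K} (h : tcomb_T N e a b c)
    (ha : ∀ i, a ≠ .S i) (hb : ∀ i, b ≠ .S i) : tcomb_poly N a b := by
  rcases h with h | h | h
  · rcases tcomb_edge1 h with h1 | _
    · exact h1
    · cases h with
      | base i h => exact (tcomb_poly_mk (nx_p h))
      | cap1 i h => exact (tcomb_poly_mk (nx_F h))
      | cap2 i h => exact (tcomb_poly_mk (nx_T h))
      | cap3 i h => exact (tcomb_poly_mk (nx_C h))
      | wall i h => exact (tcomb_poly_mk (nx_A h))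
      | sill0 i h he => exact (tcomb_poly_mk (nx_G h))
      | rwall0 i h he => exact (tcomb_poly_mk (nx_H h))
      | link0 i h he => exact absurd rfl (ha _)
      | sill1 i h he => exact (tcomb_poly_mk (nx_G (by omega)))
      | rwall1 i h he => exact (tcomb_poly_mk (nx_H (by omega)))
      | link1 i h he => exact absurd rfl (ha _)
      | link i h => exact absurd rfl (hb _)
      | start1 h => exact (tcomb_poly_mk nx_B)
      | start2 h => exact (tcomb_poly_mk nx_H0)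
      | fin1 i h => subst h; exact (tcomb_poly_mk nx_pN)
      | fin2 i h => subst h; exact (tcomb_poly_mk nx_E)
  · cases h <;> exact absurd rfl (ha _)
  · cases h <;> exact absurd rfl (hb _)

theorem tcomb_bd {N : ℕ} (hN : 1 ≤ N) {e : ℕ → Bool} (he' : e (N - 1) = false)
    (v : Fin (nV N)) : ∃ c, TriE N e (inl v) (inl (nx v)) c := by
  have key : ∀ k1 k2 k3, tcomb_T0 N e k1 k2 k3 → tcomb_lab N k1 = inl v →
      tcomb_lab N k2 = inl (nx v) → ∃ c, TriE N e (inl v) (inl (nx v)) c := by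
    intro k1 k2 k3 h h1 h2
    exact ⟨tcomb_lab N k3, tcomb_T_iff.2 ⟨k1, k2, k3, Or.inl h, h1.symm, h2.symm, rfl⟩⟩
  have hlast : ∀ i, i < N → e i = true → i + 1 < N := by
    intro i hi hi'
    rcases Nat.lt_or_ge (i + 1) N with h1 | h1
    · exact h1
    · have h2 : i = N - 1 := by omega
      rw [h2, he'] at hi'
      exact absurd hi' (by simp)
  rcases v_cases v with rfl | ⟨j, hj, rfl⟩ | rfl | ⟨j, hj, rfl⟩ | ⟨i, hi, rfl⟩ | ⟨i, hi, rfl⟩ |
    ⟨i, hi, rfl⟩ | ⟨i, hi, rfl⟩ | ⟨i, hi, rfl⟩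
  · exact key _ _ _ (.start1 hN) rfl (by rw [nx_B]; rfl)
  · by_cases hj' : j < N
    · exact key _ _ _ (.base j hj') rfl (by rw [nx_p hj']; rfl)
    · have : j = N := by omega
      subst this
      obtain ⟨i, rfl⟩ : ∃ i, j = i + 1 := ⟨j - 1, by omega⟩
      exact key _ _ _ (.fin1 i rfl) rfl (by rw [nx_pN]; rfl)
  · obtain ⟨i, rfl⟩ : ∃ i, N = i + 1 := ⟨N - 1, by omega⟩
    exact key _ _ _ (.fin2 i rfl) rfl (by rw [nx_E]; rfl)
  · rcases j with _ | i
    · exact key _ _ _ (.start2 hN) rfl (by rw [nx_H0]; rfl)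
    · cases hi : e i with
      | false => exact key _ _ _ (.rwall0 i (by omega) hi) rfl (by rw [nx_H (by omega)]; rfl)
      | true =>
        exact key _ _ _ (.rwall1 i (hlast i (by omega) hi) hi) rfl
          (by rw [nx_H (by omega)]; rfl)
  · cases hi' : e i with
    | false => exact key _ _ _ (.sill0 i hi hi') rfl (by rw [nx_G hi]; rfl)
    | true => exact key _ _ _ (.sill1 i (hlast i hi hi') hi') rfl (by rw [nx_G hi]; rfl)
  · exact key _ _ _ (.cap1 i hi) rfl (by rw [nx_F hi]; rfl)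
  · exact key _ _ _ (.cap2 i hi) rfl (by rw [nx_T hi]; rfl)
  · exact key _ _ _ (.cap3 i hi) rfl (by rw [nx_C hi]; rfl)
  · exact key _ _ _ (.wall i hi) rfl (by rw [nx_A hi]; rfl)

theorem tcomb_nxnx {N : ℕ} (v : Fin (nV N)) : v ≠ nx (nx v) := by
  intro h
  have h1 := congrArg Fin.val h
  have h2 : (nx (nx v)).val = ((v.val + 1) % (7 * N + 4) + 1) % (7 * N + 4) := rfl
  rw [h2] at h1
  have hv : v.val < 7 * N + 4 := v.2
  rcases Nat.lt_or_ge (v.val + 1) (7 * N + 4) with h3 | h3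
  · rw [Nat.mod_eq_of_lt h3] at h1
    rcases Nat.lt_or_ge (v.val + 1 + 1) (7 * N + 4) with h4 | h4
    · rw [Nat.mod_eq_of_lt h4] at h1; omega
    · have : v.val + 1 + 1 = 7 * N + 4 := by omega
      rw [this, Nat.mod_self] at h1; omega
  · have : v.val + 1 = 7 * N + 4 := by omega
    rw [this, Nat.mod_self, Nat.mod_eq_of_lt (by omega)] at h1; omega

theorem comb_TriE {N : ℕ} (hN : 1 ≤ N) (e : ℕ → Bool) (he : e (N - 1) = false) :
    Comb (TriE N e) where
  rot := by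
    intro a b c h
    rcases h with h | h | h
    · exact Or.inr (Or.inr h)
    · exact Or.inl h
    · exact Or.inr (Or.inl h)
  uniq := by
    intro a b c c' h h'
    obtain ⟨k1, k2, k3, h, h1, h2, h3⟩ := tcomb_T_iff.1 h
    obtain ⟨l1, l2, l3, h', h1', h2', h3'⟩ := tcomb_T_iff.1 h'
    have o := tcomb_T_ok h
    have o' := tcomb_T_ok h'
    have e1 : k1 = l1 := tcomb_lab_inj o.1 o'.1 (by rw [← h1, ← h1'])
    have e2 : k2 = l2 := tcomb_lab_inj o.2.1 o'.2.1 (by rw [← h2, ← h2'])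
    subst e1 e2
    rw [h3, h3', tcomb_uniq h h']
  bd := tcomb_bd hN he
  nobd := by
    intro v c h
    obtain ⟨k1, k2, k3, h, h1, h2, h3⟩ := tcomb_T_iff.1 h
    have o := tcomb_T_ok h
    have n1 : ∀ i, k1 ≠ .S i := by
      rintro i rfl
      have hi : i < N := o.1
      simp only [tcomb_lab, dif_pos hi] at h1
      exact absurd h1 (by simp)
    have n2 : ∀ i, k2 ≠ .S i := by
      rintro i rfl
      have hi : i < N := o.2.1
      simp only [tcomb_lab, dif_pos hi] at h2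
      exact absurd h2 (by simp)
    obtain ⟨u, hu1, hu2⟩ := tcomb_noS h n1 n2
    rw [← h1] at hu1
    rw [← h2] at hu2
    have e1 := Sum.inl.inj hu1
    have e2 := Sum.inl.inj hu2
    rw [← e1] at e2
    exact tcomb_nxnx v e2
  edge := by
    intro a b c h
    obtain ⟨k1, k2, k3, h0, rfl, rfl, rfl⟩ := tcomb_T_iff.1 h
    have key : (tcomb_poly N k1 k2 ∨ ∃ d, tcomb_T N e k2 k1 d) →
        (∃ i : Fin (nV N), tcomb_lab N k1 = Sum.inl i ∧ tcomb_lab N k2 = Sum.inl (nx i)) ∨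
          ∃ d, TriE N e (tcomb_lab N k2) (tcomb_lab N k1) d := by
      rintro (h | ⟨d, hd⟩)
      · exact Or.inl h
      · exact Or.inr ⟨_, tcomb_T_iff.2 ⟨k2, k1, d, hd, rfl, rfl, rfl⟩⟩
    rcases h0 with h0 | h0 | h0
    · exact key (tcomb_edge1 h0)
    · exact key (Or.inr (tcomb_edge3 he h0))
    · exact key (Or.inr (tcomb_edge2 he h0))

theorem used_TriE {N : ℕ} (e : ℕ → Bool) (j : Fin N) : ∃ a b, TriE N e (inr j) a b := by
  exact ⟨_, _, Or.inr (Or.inl (Tri0.base j.1 j.2))⟩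

end Pool.Agent.Lib57.CT
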