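import Mathlib
import Pool.Agent.Lib_helper57.CT.PMono
import Pool.Agent.Lib_helper57.CT.QMono
import Pool.Agent.Lib_helper57.CT.TriComb
import Pool.Agent.Lib_helper57.CT.PPos
import Pool.Agent.Lib_helper57.CT.QPos
import Pool.Agent.Lib_helper57.CT.Bridge2
import Pool.Agent.Lib_helper57.CT.MonoSimple
import Pool.Agent.Lib_helper57.CT.MonoLocal
import Pool.Agent.Lib_helper57.CT.MonoCross

/-! BLOCK GEOC: a good choice of sills gives compatible triangulations. -/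

namespace Pool.Agent.Lib57.CT

open Finset

theorem geoc_one {N r : ℕ} {P : Fin (nV N) → Pt} (hM : Mono P r) (hN : 1 ≤ N)
    (e : ℕ → Bool) (he : e (N - 1) = false) {S : Fin N → Pt}
    (h1 : ∀ a b c, Tri0 N e a b c → 0 < orient (pos P S a) (pos P S b) (pos P S c))
    (h2 : ∀ u v, u ≠ v → (pos P S u).1 ≠ (pos P S v).1) :
    IsTriangulation P S (TriE N e) := by
  classical
  refine bridge2 hM.isSimple ?_ hM.isClosed hM.closure_int hM.curve_notInt h2
    (comb_TriE hN e he) ?_ (used_TriE e)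
  · intro z hz hc
    have := hM.cross z hz hc
    convert this
  · rintro a b c (h | h | h)
    · exact h1 _ _ _ h
    · rw [← orient_rot]; exact h1 _ _ _ h
    · rw [← orient_rot, ← orient_rot]; exact h1 _ _ _ h

theorem geo_complete {N : ℕ} {D w : ℝ} {δ : ℕ → ℝ} {D' b ψ : ℝ} {γ : ℕ → ℝ}
    (hP : GP N D w δ) (hQ : GQ N D' b ψ γ) (e : ℕ → Bool) (he : e (N - 1) = false)
    {ξ ξ' : ℝ} (hξ : 0 < ξ) (hξ' : 0 < ξ')
    (h1 : 2 * ∑ i ∈ (range N).filter (fun i => e i = false), δ i + N * ξ < w)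
    (h2 : ∀ i < N, w * δ i ≤ ξ / 4)
    (h3 : ∑ i ∈ (range (N - 1)).filter (fun i => e i = true), (29 * b + 30 * γ i) / 12
      + N * ξ' < ψ)
    (h4 : ψ ^ 2 ≤ 2 * ξ') :
    CompatibleT N (PP N D w δ) (QQ N D' b ψ γ) := by
  obtain ⟨S, hS1, hS2⟩ := pos_P hP e he hξ h1 h2
  obtain ⟨S', hS1', hS2'⟩ := pos_Q hQ e he hξ' h3 h4
  exact ⟨N, le_refl _, S, S', TriE N e, geoc_one (PP_mono hP) hP.hN e he hS1 hS2,
    geoc_one (QQ_mono hQ) hP.hN e he hS1' hS2'⟩

end Pool.Agent.Lib57.CT
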