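import Mathlib
import Pool.Agent.Lib_helper57.CT.Chord
import Pool.Agent.Lib_helper57.CT.Door
import Pool.Agent.Lib_helper57.CT.CombSound
import Pool.Agent.Lib_helper57.CT.ChainP
import Pool.Agent.Lib_helper57.CT.ChainQ
import Pool.Agent.Lib_helper57.CT.Bridge1
import Pool.Agent.Lib_helper57.CT.MonoSimple
import Pool.Agent.Lib_helper57.CT.MonoLocal

/-! BLOCK GEOS: compatible triangulations give a choice of sills. -/

namespace Pool.Agent.Lib57.CT

open Finset Sum

section
variable {n m : ℕ} {P : Fin n → Pt} {S : Fin m → Pt}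
  {T : Fin n ⊕ Fin m → Fin n ⊕ Fin m → Fin n ⊕ Fin m → Prop}

theorem geos_seg (hT : IsTriangulation P S T) {a b c : Fin n ⊕ Fin m} (h : T a b c) :
    segment ℝ (pos P S a) (pos P S b) ⊆ region P := by
  rw [← hT.cover]
  intro z hz
  simp only [Set.mem_iUnion]
  exact ⟨a, b, c, h, segment_subset_tri _ _ _ hz⟩

theorem geos_ne (hT : IsTriangulation P S T) {a b c : Fin n ⊕ Fin m} (h : T a b c) :
    a ≠ b := by
  rintro rfl
  have := hT.ccw _ _ _ h
  unfold orient at this
  linarith

end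

theorem geos_segEd {N m : ℕ} {P : Fin (nV N) → Pt} {S : Fin m → Pt}
    {T : Fin (nV N) ⊕ Fin m → Fin (nV N) ⊕ Fin m → Fin (nV N) ⊕ Fin m → Prop}
    (hT : IsTriangulation P S T) {a b : Fin (nV N) ⊕ Fin m} (h : Ed T a b) :
    segment ℝ (pos P S a) (pos P S b) ⊆ region P := by
  obtain ⟨c, h | h⟩ := h
  · exact geos_seg hT h
  · rw [segment_symm]; exact geos_seg hT h

theorem geo_sound {N : ℕ} {D w : ℝ} {δ : ℕ → ℝ} {D' b ψ : ℝ} {γ : ℕ → ℝ}
    (hP : GP N D w δ) (hQ : GQ N D' b ψ γ)
    (h : CompatibleT N (PP N D w δ) (QQ N D' b ψ γ)) :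
    ∃ e : ℕ → Bool, e (N - 1) = false ∧
      2 * ∑ i ∈ (range N).filter (fun i => e i = false), δ i
        - 18 * N * (∑ i ∈ range N, δ i) ^ 2 < w ∧
      ∑ i ∈ (range (N - 1)).filter (fun i => e i = true),
        ((29 * b + 30 * γ i) / 12 - (29 * b + 30 * γ i) * (ψ + (29 * b + 30 * γ i)) / 40) < ψ := by
  classical
  obtain ⟨m, hm, S, S', T, hTP, hTQ⟩ := h
  have hN := hP.hN
  have hMP := PP_mono hP
  have hcomb : Comb T := bridge1 hMP.isSimple hMP.local_edge hMP.nhds hTP
  have hne : ∀ a b c, T a b c → a ≠ b := fun a b c h => geos_ne hTP h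
  have hch : ∀ u v : Fin (nV N), Ed T (inl u) (inl v) → v = nx u ∨ u = nx v := by
    intro u v huv
    rcases chordless hP hQ u v (geos_segEd hTP huv) (geos_segEd hTQ huv) with h | h
    · exfalso
      obtain ⟨c, hc | hc⟩ := huv
      · exact hne _ _ _ hc (by rw [h])
      · exact hne _ _ _ hc (by rw [h])
    · exact h
  have hcone : ∀ i < N, ∀ t, T (inl (vF N i)) (inl (vT N i)) (inr t) → Cone D δ i (S t) := by
    intro i hi t ht
    refine cone_of_apex hP hi (hTP.ccw _ _ _ ht) ?_ ?_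
    · exact geos_seg hTP (hTP.rot _ _ _ ht)
    · exact geos_seg hTP (hTP.rot _ _ _ (hTP.rot _ _ _ ht))
  obtain ⟨s, hs⟩ := rooms_exist hN hm hcomb hne hch (fun l t => Cone D δ l (S t)) hcone
    (fun i _ j _ t h1 h2 => Cone.unique hP h1 h2)
    (fun l hl j hj t hc hE => door_p hP hl hj hc (geos_segEd hTP hE))
    (fun l hl i hi t hc hE => door_A hP hl hi hc (geos_segEd hTP hE))
    (fun l hl i hi t hc hC hE => door_G hP hl hi hc (hTP.ccw _ _ _ hC) (geos_segEd hTP hE))
  have hex : ∀ i, ∃ XY : ℝ × ℝ, S (s i) = fP D i XY.1 XY.2 := by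
    intro i
    obtain ⟨X, Y, h⟩ := fP_surj (ne_of_gt hP.hD) i (S (s i))
    exact ⟨(X, Y), h⟩
  choose XY hXY using hex
  have hex' : ∀ i, ∃ UV : ℝ × ℝ, S' (s i) = fQ D' i UV.1 UV.2 := by
    intro i
    obtain ⟨U, V, h⟩ := fQ_surj (ne_of_gt hQ.hD) i (S' (s i))
    exact ⟨(U, V), h⟩
  choose UV hUV using hex'
  have hD : (0 : ℝ) < 64 * D := by have := hP.hD; positivity
  have hD' : (0 : ℝ) < 16 * D' := by have := hQ.hD; positivity
  -- cancel the positive factor
  have cP : ∀ {x : ℝ}, 0 < 64 * D * x → 0 < x := fun h => (mul_pos_iff_of_pos_left hD).1 h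
  have cQ : ∀ {x : ℝ}, 0 < 16 * D' * x → 0 < x := fun h => (mul_pos_iff_of_pos_left hD').1 h
  have hN1 : ((N : ℝ) - ((N - 1 : ℕ) : ℝ)) = 1 := by
    rw [Nat.cast_sub hN]; push_cast; ring
  refine ⟨fun i => decide (i + 1 < N ∧ T (inl (vG N i)) (inl (vF N i)) (inr (s (i + 1)))),
    ?_, ?_, ?_⟩
  · simp only [decide_eq_false_iff_not, not_and]
    intro h; omega
  · refine chainP hN (X := fun i => (XY i).1) (Y := fun i => (XY i).2) _ hP.d0 hP.d1
      ?_ ?_ ?_ ?_ ?_ ?_
    · intro i hi
      have hc := hcone i hi (s i) (hs.spike i hi)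
      rw [hXY i] at hc
      obtain ⟨-, -, h1, h2, -⟩ := Cone.bounds hP hc
      constructor <;> linarith
    · intro i hi
      have h1 := hTP.ccw _ _ _ (hs.cap i hi)
      simp only [pos, Sum.elim_inl, Sum.elim_inr] at h1
      rw [PP_C hi, PP_A hi, hXY i, orient_fP] at h1
      have h2 := cP h1
      linarith
    · intro i hi hei
      have h3 : T (inl (vG N i)) (inl (vF N i)) (inr (s i)) := by
        rcases hs.sill i hi with h | h
        · exact h
        · simp only [decide_eq_false_iff_not] at hei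
          exact absurd h hei
      have h1 := hTP.ccw _ _ _ h3
      simp only [pos, Sum.elim_inl, Sum.elim_inr] at h1
      rw [PP_G hi, PP_F hi, hXY i, orient_fP] at h1
      have h2 := cP h1
      linarith
    · have h1 := hTP.ccw _ _ _ hs.start
      simp only [pos, Sum.elim_inl, Sum.elim_inr] at h1
      rw [PP_B, PP_p (by omega), hXY 0, orient_fP] at h1
      have h2 := cP h1
      linarith
    · intro i hi
      have h1 := hTP.ccw _ _ _ (hs.link i hi)
      simp only [pos, Sum.elim_inl, Sum.elim_inr] at h1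
      rw [PP_p (by omega), hXY i, hXY (i + 1), fP_frame D (i + 1) i, orient_fP] at h1
      have h2 := cP h1
      push_cast at h2
      linarith
    · have h1 := hTP.ccw _ _ _ hs.fin
      simp only [pos, Sum.elim_inl, Sum.elim_inr] at h1
      rw [PP_p (by omega), PP_E, hXY (N - 1), fP_frame D (N - 1) N, fP_frame D (N - 1) N,
        orient_fP, hN1] at h1
      have h2 := cP h1
      linarith
  · refine chainQ hN (U := fun i => (UV i).1) (V := fun i => (UV i).2) _ hQ.b0 hQ.b1 hQ.g0 hQ.g1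
      hQ.p0 hQ.p1 ?_ ?_ ?_ ?_ ?_ ?_
    · intro i hi
      have h1 := hTQ.ccw _ _ _ (hs.base i hi)
      simp only [pos, Sum.elim_inl, Sum.elim_inr] at h1
      rw [QQ_p (by omega), QQ_p (by omega), hUV i, fQ_frame D' i (i + 1), orient_fQ] at h1
      have h2 := cQ h1
      push_cast at h2
      linarith
    · intro i hi
      have h1 := hTQ.ccw _ _ _ (hs.wall i hi)
      simp only [pos, Sum.elim_inl, Sum.elim_inr] at h1
      rw [QQ_A hi, QQ_H (by omega), hUV i, orient_fQ] at h1
      have h2 := cQ h1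
      linarith
    · intro i hi hei
      simp only [decide_eq_true_eq] at hei
      have h1 := hTQ.ccw _ _ _ hei.2
      simp only [pos, Sum.elim_inl, Sum.elim_inr] at h1
      rw [QQ_G (by omega), QQ_F (by omega), hUV (i + 1), orient_fQ] at h1
      have h2 := cQ h1
      linarith
    · have h1 := hTQ.ccw _ _ _ hs.start
      simp only [pos, Sum.elim_inl, Sum.elim_inr] at h1
      rw [QQ_B, QQ_p (by omega), hUV 0, orient_fQ] at h1
      have h2 := cQ h1
      linarith
    · intro i hi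
      have h1 := hTQ.ccw _ _ _ (hs.link i hi)
      simp only [pos, Sum.elim_inl, Sum.elim_inr] at h1
      rw [QQ_p (by omega), hUV i, hUV (i + 1), fQ_frame D' (i + 1) i, orient_fQ] at h1
      have h2 := cQ h1
      push_cast at h2
      linarith
    · have h1 := hTQ.ccw _ _ _ hs.fin
      simp only [pos, Sum.elim_inl, Sum.elim_inr] at h1
      rw [QQ_p (by omega), QQ_E, hUV (N - 1), fQ_frame D' N (N - 1), orient_fQ] at h1
      have hN2 : (((N - 1 : ℕ) : ℝ) - (N : ℝ)) = -1 := by linarith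
      rw [hN2] at h1
      have h2 := cQ h1
      linarith

end Pool.Agent.Lib57.CT
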