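import Mathlib
import Pool.Agent.Lib_helper57.CT.GeoSound
import Pool.Agent.Lib_helper57.CT.GeoComplete
import Pool.Agent.Lib_helper57.CT.Rat

/-! BLOCK INUM: the integer instance; numerical estimates. -/

namespace Pool.Agent.Lib57.CT

open Finset

/-- The numbers `a 0, ..., a (N - 1)` have the sum `S + S1 < M`; the widths `m`, `mq` of the low
parts are large. -/
structure Nums (N m mq s M S S1 : ℕ) (a : ℕ → ℕ) : Prop where
  hN : 1 ≤ N
  zero : ∀ i, N ≤ i → a i = 0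
  sum : ∑ i ∈ range N, a i = S + S1
  lt : S + S1 < M
  hs : 1000 * N ≤ 2 ^ s
  hm : 1000 * N * M * M ≤ 2 ^ m
  hmq : 100000 * N * (2 ^ s * M) * (2 ^ s * M) ≤ 2 ^ mq

/-- real versions of the hypotheses -/
structure inum_R (N S S1 M : ℕ) (K D D' : ℝ) (a : ℕ → ℕ) : Prop where
  N1 : (1 : ℝ) ≤ N
  M1 : (S : ℝ) + S1 + 1 ≤ M
  K1 : 1000 * (N : ℝ) ≤ K
  D1 : 32000 * (N : ℝ) * (M * M) ≤ D
  D2 : 12800000 * (N : ℝ) * ((K * M) * (K * M)) ≤ D'
  a1 : ∀ i, (a i : ℝ) ≤ (S : ℝ) + S1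

theorem inum_real {N m mq s M S S1 : ℕ} {a : ℕ → ℕ} (h : Nums N m mq s M S S1 a) :
    inum_R N S S1 M (2 ^ s) (DP m) (DQ mq) a := by
  refine ⟨by exact_mod_cast h.hN, by exact_mod_cast h.lt, by exact_mod_cast h.hs, ?_, ?_, ?_⟩
  · have h1 : (1000 * N * M * M : ℝ) ≤ 2 ^ m := by exact_mod_cast h.hm
    unfold DP
    linarith
  · have h1 : (100000 * N * (2 ^ s * M) * (2 ^ s * M) : ℝ) ≤ 2 ^ mq := by exact_mod_cast h.hmq
    unfold DQ
    linarith
  · intro i
    have h1 : a i ≤ S + S1 := by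
      by_cases hi : i < N
      · rw [← h.sum]
        exact Finset.single_le_sum (fun j _ => Nat.zero_le (a j)) (Finset.mem_range.2 hi)
      · rw [h.zero i (by omega)]
        omega
    exact_mod_cast h1

section

variable {N S S1 M : ℕ} {K D D' : ℝ} {a : ℕ → ℕ}

theorem inum_Mone (h : inum_R N S S1 M K D D' a) : (1 : ℝ) ≤ M := by
  have := h.M1
  have h1 : (0 : ℝ) ≤ S := Nat.cast_nonneg _
  have h2 : (0 : ℝ) ≤ S1 := Nat.cast_nonneg _
  linarith

theorem inum_K (h : inum_R N S S1 M K D D' a) : (1000 : ℝ) ≤ K := by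
  have := h.K1
  have := h.N1
  linarith

theorem inum_D (h : inum_R N S S1 M K D D' a) : 32000 * (M : ℝ) ≤ D := by
  have h1 := inum_Mone h
  have h2 := h.N1
  have h3 : (M : ℝ) ≤ M * M := by nlinarith
  have h4 : 32000 * (M * M : ℝ) ≤ 32000 * (N : ℝ) * (M * M) := by nlinarith
  have := h.D1
  linarith

/-- the product `K M` is large -/
theorem inum_KM (h : inum_R N S S1 M K D D' a) : 1000 ≤ K * M ∧ K * (S + S1) ≤ K * M := by
  have h1 := inum_Mone h
  have h2 := inum_K h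
  have h3 := h.M1
  constructor
  · nlinarith
  · nlinarith

theorem inum_D' (h : inum_R N S S1 M K D D' a) :
    12800000 * ((K * M) * (K * M)) ≤ D' ∧ 12800000000 * (K * M) ≤ D' := by
  obtain ⟨h1, h2⟩ := inum_KM h
  have h3 := h.N1
  have h4 := h.D2
  have h5 : (0 : ℝ) ≤ (K * M) * (K * M) := by positivity
  have h6 : 12800000 * ((K * M) * (K * M)) ≤ D' := by nlinarith
  refine ⟨h6, ?_⟩
  nlinarith

end

theorem inst_GP {N m mq s M S S1 : ℕ} {a : ℕ → ℕ} (h : Nums N m mq s M S S1 a) :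
    GP N (DP m) (wP m S) (dP m a) := by
  have hR := inum_real h
  have hD := DP_pos m
  have hD1 := inum_D hR
  have hM := hR.M1
  have h1 : (0 : ℝ) ≤ S := Nat.cast_nonneg _
  have h2 : (0 : ℝ) ≤ S1 := Nat.cast_nonneg _
  refine ⟨h.hN, hD, ?_, ?_, ?_, ?_⟩
  · unfold wP; positivity
  · unfold wP
    rw [div_le_iff₀ hD]
    linarith
  · intro i; unfold dP; positivity
  · intro i
    unfold dP
    rw [div_le_iff₀ hD]
    have := hR.a1 i
    linarith

theorem inst_GQ {N m mq s M S S1 : ℕ} {a : ℕ → ℕ} (h : Nums N m mq s M S S1 a) :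
    GQ N (DQ mq) (bQ mq) (ψQ mq s S1) (gQ' mq s a) := by
  have hR := inum_real h
  have hD := DQ_pos mq
  obtain ⟨hD1, hD2⟩ := inum_D' hR
  obtain ⟨hK1, hK2⟩ := inum_KM hR
  have hM := hR.M1
  have hK := inum_K hR
  have h1 : (0 : ℝ) ≤ S := Nat.cast_nonneg _
  have h2 : (0 : ℝ) ≤ S1 := Nat.cast_nonneg _
  refine ⟨h.hN, hD, ?_, ?_, ?_, ?_, ?_, ?_⟩
  · unfold bQ; positivity
  · unfold bQ
    rw [div_le_iff₀ hD]
    linarith
  · unfold ψQ; positivity
  · unfold ψQ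
    rw [div_le_iff₀ hD]
    have h3 : (2 : ℝ) ^ s * (1 + 110 * S1) ≤ 110 * (2 ^ s * M) := by nlinarith
    linarith
  · intro i; unfold gQ'; positivity
  · intro i
    unfold gQ'
    rw [div_le_iff₀ hD, pow_add]
    have h3 := hR.a1 i
    have h4 : (2 : ℝ) ^ s * a i ≤ 2 ^ s * M := by nlinarith
    linarith

theorem inum_filter {N : ℕ} (_hN : 1 ≤ N) {e : ℕ → Bool} (he : e (N - 1) = false) :
    (range N).filter (fun i => e i = true) = (range (N - 1)).filter (fun i => e i = true) := by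
  ext i
  simp only [Finset.mem_filter, Finset.mem_range]
  constructor
  · rintro ⟨h1, h2⟩
    refine ⟨?_, h2⟩
    have : i ≠ N - 1 := by
      intro h
      rw [h, he] at h2
      exact absurd h2 (by simp)
    omega
  · rintro ⟨h1, h2⟩
    exact ⟨by omega, h2⟩

theorem inum_sumd (m : ℕ) (a : ℕ → ℕ) (F : Finset ℕ) :
    ∑ i ∈ F, dP m a i = ((∑ i ∈ F, a i : ℕ) : ℝ) / DP m := by
  unfold dP
  rw [← Finset.sum_div]
  push_cast
  rfl

theorem inum_u (mq s : ℕ) (a : ℕ → ℕ) (i : ℕ) :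
    29 * bQ mq + 30 * gQ' mq s a i = (29 + 480 * (2 ^ s * a i)) / DQ mq := by
  unfold bQ gQ'
  rw [pow_add]
  ring

theorem inum_sound1 {N m mq s M S S1 : ℕ} {a : ℕ → ℕ} (h : Nums N m mq s M S S1 a)
    {F : Finset ℕ}
    (h1 : 2 * ∑ i ∈ F, dP m a i - 18 * N * (∑ i ∈ range N, dP m a i) ^ 2 < wP m S) :
    ∑ i ∈ F, a i ≤ S := by
  have hR := inum_real h
  have hD := DP_pos m
  have hM := hR.M1
  have h2 : (0 : ℝ) ≤ S := Nat.cast_nonneg _
  have h3 : (0 : ℝ) ≤ S1 := Nat.cast_nonneg _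
  have hN := hR.N1
  rw [inum_sumd, inum_sumd, h.sum] at h1
  unfold wP at h1
  set A : ℝ := ((∑ i ∈ F, a i : ℕ) : ℝ) with hA
  have h4 : 18 * (N : ℝ) * ((S : ℝ) + S1) ^ 2 ≤ DP m := by
    have h5 : ((S : ℝ) + S1) ^ 2 ≤ M * M := by nlinarith
    have h6 : (N : ℝ) * ((S : ℝ) + S1) ^ 2 ≤ N * (M * M) :=
      mul_le_mul_of_nonneg_left h5 (by linarith)
    have h7 : (0 : ℝ) ≤ N * (M * M) := by positivity
    have := hR.D1
    linarith
  have h5 : 18 * (N : ℝ) * (((S + S1 : ℕ) : ℝ) / DP m) ^ 2 ≤ 1 / DP m := by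
    push_cast
    rw [div_pow, ← mul_div_assoc, div_le_div_iff₀ (by positivity) hD]
    nlinarith
  have h6 : 2 * (A / DP m) < (2 * S + 1) / DP m + 1 / DP m := by linarith
  have h7 : 2 * A < 2 * S + 2 := by
    rw [← add_div, ← mul_div_assoc, div_lt_div_iff_of_pos_right hD] at h6
    linarith
  have h8 : A < ((S + 1 : ℕ) : ℝ) := by
    push_cast
    linarith
  have h9 : ∑ i ∈ F, a i < S + 1 := Nat.cast_lt.1 h8
  omega

theorem inum_sound2 {N m mq s M S S1 : ℕ} {a : ℕ → ℕ} (h : Nums N m mq s M S S1 a)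
    {F : Finset ℕ}
    (h1 : ∑ i ∈ F, ((29 * bQ mq + 30 * gQ' mq s a i) / 12 -
      (29 * bQ mq + 30 * gQ' mq s a i) * (ψQ mq s S1 + (29 * bQ mq + 30 * gQ' mq s a i)) / 40) <
      ψQ mq s S1) :
    ∑ i ∈ F, a i ≤ S1 := by
  have hR := inum_real h
  have hD := DQ_pos mq
  obtain ⟨hD1, hD2⟩ := inum_D' hR
  obtain ⟨hK1, hK2⟩ := inum_KM hR
  have hM := hR.M1
  have hK := inum_K hR
  have h2 : (0 : ℝ) ≤ S := Nat.cast_nonneg _
  have h3 : (0 : ℝ) ≤ S1 := Nat.cast_nonneg _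
  have h4 : ∀ i ∈ F, 40 * 2 ^ s * (a i : ℝ) / DQ mq ≤
      (29 * bQ mq + 30 * gQ' mq s a i) / 12 -
      (29 * bQ mq + 30 * gQ' mq s a i) * (ψQ mq s S1 + (29 * bQ mq + 30 * gQ' mq s a i)) / 40 := by
    intro i _
    rw [inum_u]
    have ha := hR.a1 i
    have ha0 : (0 : ℝ) ≤ a i := Nat.cast_nonneg _
    have h5 : (2 : ℝ) ^ s * a i ≤ 2 ^ s * M := by nlinarith
    have h5' : (0 : ℝ) ≤ 2 ^ s * a i := by positivity
    have h6 : (2 : ℝ) ^ s * (1 + 110 * S1) ≤ 110 * (2 ^ s * M) := by nlinarith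
    have h6' : (0 : ℝ) ≤ 2 ^ s * (1 + 110 * S1) := by positivity
    unfold ψQ
    set X : ℝ := 29 + 480 * (2 ^ s * a i) with hX
    set Ψ : ℝ := 4 / 11 * (2 ^ s * (1 + 110 * S1)) with hΨ
    have hX0 : 0 ≤ X := by linarith
    have hX1 : X ≤ 500 * (2 ^ s * M) := by linarith
    have hΨ0 : 0 ≤ Ψ := by linarith
    have hΨ1 : Ψ ≤ 40 * (2 ^ s * M) := by linarith
    have h7 : X * (Ψ + X) ≤ 270000 * ((2 ^ s * M) * (2 ^ s * M)) := by
      have h8 : X * (Ψ + X) ≤ (500 * (2 ^ s * M)) * (540 * (2 ^ s * M)) :=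
        mul_le_mul hX1 (by linarith) (by linarith) (by linarith)
      linarith
    have h8 : X * (Ψ + X) ≤ DQ mq := by
      have : (0 : ℝ) ≤ (2 ^ s * M) * (2 ^ s * M) := by positivity
      linarith
    have h9 : X / DQ mq * (Ψ / DQ mq + X / DQ mq) / 40 ≤ 1 / 40 / DQ mq := by
      have e1 : X / DQ mq * (Ψ / DQ mq + X / DQ mq) / 40 =
          (X * (Ψ + X)) / DQ mq / 40 / DQ mq := by
        field_simp
      rw [e1, div_le_div_iff_of_pos_right hD]
      have : X * (Ψ + X) / DQ mq ≤ 1 := (div_le_one hD).2 h8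
      linarith
    have h10 : X / DQ mq / 12 - 1 / 40 / DQ mq = (X / 12 - 1 / 40) / DQ mq := by
      field_simp
    have h11 : 40 * 2 ^ s * (a i : ℝ) / DQ mq ≤ (X / 12 - 1 / 40) / DQ mq := by
      rw [div_le_div_iff_of_pos_right hD, hX]
      linarith
    linarith
  have h5 := (Finset.sum_le_sum h4).trans_lt h1
  rw [← Finset.sum_div, ← Finset.mul_sum] at h5
  unfold ψQ at h5
  rw [div_lt_div_iff_of_pos_right hD] at h5
  have h6 : (2 : ℝ) ^ s * (40 * ∑ i ∈ F, (a i : ℝ)) < 2 ^ s * (40 * S1 + 4 / 11) := by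
    linarith
  have h7 := lt_of_mul_lt_mul_left h6 (by positivity)
  have h8 : ((∑ i ∈ F, a i : ℕ) : ℝ) < ((S1 + 1 : ℕ) : ℝ) := by
    push_cast
    linarith
  have h9 : ∑ i ∈ F, a i < S1 + 1 := by exact_mod_cast h8
  omega

theorem inst_iff {N m mq s M S S1 : ℕ} {a : ℕ → ℕ} (h : Nums N m mq s M S S1 a) :
    CompatibleT N (toPts (instP N m S a)) (toPts (instQ N mq s S1 a)) ↔
      ∃ e : ℕ → Bool, e (N - 1) = false ∧
        ∑ i ∈ (range N).filter (fun i => e i = false), a i ≤ S ∧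
        ∑ i ∈ (range N).filter (fun i => e i = true), a i ≤ S1 := by
  have hR := inum_real h
  have hD := DP_pos m
  have hD' := DQ_pos mq
  have hMone := inum_Mone hR
  have hDM := inum_D hR
  obtain ⟨hD1, hD2⟩ := inum_D' hR
  obtain ⟨hK1, hK2⟩ := inum_KM hR
  have hM := hR.M1
  have hK := inum_K hR
  have hN := hR.N1
  have h2 : (0 : ℝ) ≤ S := Nat.cast_nonneg _
  have h3 : (0 : ℝ) ≤ S1 := Nat.cast_nonneg _
  have hSm : 2 * S + 1 ≤ 2 ^ m := by
    have h1 : (2 * S + 1 : ℝ) ≤ 2 ^ m := by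
      unfold DP at hDM
      linarith
    exact_mod_cast h1
  rw [toPts_instP hSm, toPts_instQ]
  constructor
  · intro hc
    obtain ⟨e, he, h4, h5⟩ := geo_sound (inst_GP h) (inst_GQ h) hc
    refine ⟨e, he, inum_sound1 h h4, ?_⟩
    rw [inum_filter h.hN he]
    exact inum_sound2 h h5
  · rintro ⟨e, he, h4, h5⟩
    rw [inum_filter h.hN he] at h5
    have hN0 : (N : ℝ) ≠ 0 := by linarith
    refine geo_complete (inst_GP h) (inst_GQ h) e he (ξ := 1 / (2 * N * DP m))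
      (ξ' := 1 / DQ mq) (by positivity) (by positivity) ?_ ?_ ?_ ?_
    · rw [inum_sumd]
      unfold wP
      have h6 : ((∑ i ∈ (range N).filter (fun i => e i = false), a i : ℕ) : ℝ) ≤ S := by
        exact_mod_cast h4
      set A : ℝ := ((∑ i ∈ (range N).filter (fun i => e i = false), a i : ℕ) : ℝ) with hA
      have e1 : (N : ℝ) * (1 / (2 * N * DP m)) = 1 / 2 / DP m := by
        field_simp
      rw [e1, ← mul_div_assoc, ← add_div, div_lt_div_iff_of_pos_right hD]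
      linarith
    · intro i _
      unfold wP dP
      have ha := hR.a1 i
      have ha0 : (0 : ℝ) ≤ a i := Nat.cast_nonneg _
      have e1 : (1 : ℝ) / (2 * N * DP m) / 4 = 1 / (8 * N) / DP m := by
        field_simp
        norm_num
      have e2 : (2 * (S : ℝ) + 1) / DP m * (a i / DP m) =
          ((2 * S + 1) * a i) / DP m / DP m := by
        field_simp
      rw [e1, e2, div_le_div_iff_of_pos_right hD, div_le_div_iff₀ hD (by positivity)]
      have h6 : (2 * (S : ℝ) + 1) * a i ≤ (2 * M) * M :=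
        mul_le_mul (by linarith) (by linarith) ha0 (by linarith)
      have h7 : (2 * (S : ℝ) + 1) * a i * (8 * N) ≤ (2 * M) * M * (8 * N) :=
        mul_le_mul_of_nonneg_right h6 (by linarith)
      have h8 : (0 : ℝ) ≤ N * (M * M) := by positivity
      have := hR.D1
      linarith
    · set F := (range (N - 1)).filter (fun i => e i = true) with hF
      have hcard : (F.card : ℝ) ≤ N := by
        have h6 : F.card ≤ N := by
          rw [hF]
          refine (Finset.card_filter_le _ _).trans ?_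
          rw [Finset.card_range]
          omega
        exact_mod_cast h6
      have h6 : ∑ i ∈ F, (29 * bQ mq + 30 * gQ' mq s a i) / 12 =
          (29 / 12 * F.card + 40 * 2 ^ s * ((∑ i ∈ F, a i : ℕ) : ℝ)) / DQ mq := by
        have h7 : ∀ i ∈ F, (29 * bQ mq + 30 * gQ' mq s a i) / 12 =
            (29 / 12 + 40 * 2 ^ s * (a i : ℝ)) / DQ mq := by
          intro i _
          rw [inum_u]
          ring
        rw [Finset.sum_congr rfl h7, ← Finset.sum_div, Finset.sum_add_distrib, Finset.sum_const,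
          ← Finset.mul_sum]
        push_cast
        rw [nsmul_eq_mul]
        ring
      rw [h6]
      unfold ψQ
      have h7 : ((∑ i ∈ F, a i : ℕ) : ℝ) ≤ S1 := by exact_mod_cast h5
      set A : ℝ := ((∑ i ∈ F, a i : ℕ) : ℝ) with hA
      have e1 : (N : ℝ) * (1 / DQ mq) = N / DQ mq := by ring
      rw [e1, ← add_div, div_lt_div_iff_of_pos_right hD']
      have h8 : (2 : ℝ) ^ s * A ≤ 2 ^ s * S1 := mul_le_mul_of_nonneg_left h7 (by linarith)
      have h9 := hR.K1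
      linarith
    · unfold ψQ
      have h6 : (2 : ℝ) ^ s * (1 + 110 * S1) ≤ 110 * (2 ^ s * M) := by nlinarith
      have h6' : (0 : ℝ) ≤ 2 ^ s * (1 + 110 * S1) := by positivity
      set Ψ : ℝ := 4 / 11 * (2 ^ s * (1 + 110 * S1)) with hΨ
      have hΨ0 : 0 ≤ Ψ := by linarith
      have hΨ1 : Ψ ≤ 40 * (2 ^ s * M) := by linarith
      rw [div_pow, div_le_iff₀ (by positivity)]
      have e1 : 2 * (1 / DQ mq) * DQ mq ^ 2 = 2 * DQ mq := by
        field_simp
      rw [e1]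
      have h7 : Ψ ^ 2 ≤ (40 * (2 ^ s * M)) ^ 2 := pow_le_pow_left₀ hΨ0 hΨ1 2
      nlinarith

theorem inst_valid {N m mq s M S S1 : ℕ} {a : ℕ → ℕ} (h : Nums N m mq s M S S1 a) :
    ValidInst (instP N m S a) (instQ N mq s S1 a) := by
  have hR := inum_real h
  have hDM := inum_D hR
  have hM := hR.M1
  have hMone := inum_Mone hR
  have h2 : (0 : ℝ) ≤ S := Nat.cast_nonneg _
  have h3 : (0 : ℝ) ≤ S1 := Nat.cast_nonneg _
  have hSm : 2 * S + 1 ≤ 2 ^ m := by
    have h1 : (2 * S + 1 : ℝ) ≤ 2 ^ m := by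
      unfold DP at hDM
      linarith
    exact_mod_cast h1
  have hP := PP_mono (inst_GP h)
  have hQ := QQ_mono (inst_GQ h)
  rw [← toPts_instP hSm] at hP
  rw [← toPts_instQ] at hQ
  exact ⟨hP.isSimple, hQ.isSimple, hP.isCcw, hQ.isCcw⟩

end Pool.Agent.Lib57.CT
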