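import Mathlib
import Pool.Agent.Lib_helper57.CT.TriGeo
import Pool.Agent.Lib_helper57.CT.Bridge1
import Pool.Agent.Lib_helper57.CT.MonoSimple
import Pool.Agent.Lib_helper57.CT.MonoLocal
import Pool.Agent.Lib_helper57.CT.MonoCross

/-! BLOCK ROT: rotation systems of triangulations of `x`-monotone polygons. -/

namespace Pool.Agent.Lib57.CT

open Set Topology

/-! ### points -/

theorem rot_anti {v b c d : Pt} (h1 : CycOrder v b c d) (h2 : CycOrder v b d c) : False := by
  unfold CycOrder at h1 h2
  have e1 : orient v b d = -orient v d b := by unfold orient; ring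
  have e2 : orient v d c = -orient v c d := by unfold orient; ring
  have e3 : orient v c b = -orient v b c := by unfold orient; ring
  rw [e1, e2, e3] at h2
  rcases h1 with ⟨h1, h1'⟩ | ⟨h1, h1'⟩ | ⟨h1, h1'⟩ <;>
  rcases h2 with ⟨h2, h2'⟩ | ⟨h2, h2'⟩ | ⟨h2, h2'⟩ <;> linarith

theorem rot_lin (v b c d : Pt) : (b.1 - v.1) * orient v c d + (c.1 - v.1) * orient v d b +
    (d.1 - v.1) * orient v b c = 0 := by
  unfold orient; ring

theorem rot_lin2 (v b c d : Pt) : (b.2 - v.2) * orient v c d + (c.2 - v.2) * orient v d b +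
    (d.2 - v.2) * orient v b c = 0 := by
  unfold orient; ring

/-- two points on a ray from `V` -/
theorem rot_ray {V B D : Pt} {t : ℝ} (ht : 0 < t) (h1 : D.1 - V.1 = t * (B.1 - V.1))
    (h2 : D.2 - V.2 = t * (B.2 - V.2)) (hne : D ≠ B) :
    D ∈ openSegment ℝ V B ∨ B ∈ openSegment ℝ V D := by
  rcases lt_trichotomy t 1 with h | h | h
  · left
    refine ⟨1 - t, t, by linarith, ht, by ring, ?_⟩
    ext
    · simp only [Prod.fst_add, Prod.smul_fst, smul_eq_mul]; linarith
    · simp only [Prod.snd_add, Prod.smul_snd, smul_eq_mul]; linarith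
  · exfalso
    rw [h, one_mul] at h1 h2
    exact hne (Prod.ext (by linarith) (by linarith))
  · right
    have ht0 : t ≠ 0 := ht.ne'
    have hlt : 1 / t < 1 := by rw [div_lt_one ht]; exact h
    refine ⟨1 - 1 / t, 1 / t, by linarith, by positivity, by ring, ?_⟩
    have e1 : D.1 = V.1 + t * (B.1 - V.1) := by linarith
    have e2 : D.2 = V.2 + t * (B.2 - V.2) := by linarith
    ext
    · simp only [Prod.fst_add, Prod.smul_fst, smul_eq_mul]
      rw [e1]; field_simp; ring
    · simp only [Prod.snd_add, Prod.smul_snd, smul_eq_mul]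
      rw [e2]; field_simp; ring

/-- a point strictly inside the cone at `V` is seen through the triangle -/
theorem rot_cone {V B C D : Pt} (h : 0 < orient V B C) (h1 : 0 < orient V B D)
    (h2 : 0 < orient V D C) : ∃ q ∈ openSegment ℝ V D, q ∈ interior (tri V B C) := by
  set O := orient V B C with hO
  set X := orient B C D with hX
  have hX0 := abs_nonneg X
  have hden : 0 < 2 * O + |X| := by linarith
  set t := O / (2 * O + |X|) with ht
  have ht0 : 0 < t := div_pos h hden
  have ht1 : t < 1 := by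
    rw [ht, div_lt_one hden]; linarith
  have htd : t * (2 * O + |X|) = O := by rw [ht]; field_simp
  refine ⟨(1 - t) • V + t • D, ⟨1 - t, t, by linarith, ht0, by ring, rfl⟩, ?_⟩
  rw [interior_tri h]
  refine ⟨?_, ?_, ?_⟩
  · rw [tgeo_orient_comb _ _ _ _ _ _ (by ring : 1 - t + t = 1), tgeo_orient_self, mul_zero,
      zero_add]
    exact mul_pos ht0 h1
  · rw [tgeo_orient_comb _ _ _ _ _ _ (by ring : 1 - t + t = 1), orient_rot, ← hO, ← hX]
    have h3 : -|X| ≤ X := neg_abs_le X
    nlinarith
  · rw [tgeo_orient_comb _ _ _ _ _ _ (by ring : 1 - t + t = 1), tgeo_orient_self', mul_zero,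
      zero_add, ← orient_rot C V D]
    exact mul_pos ht0 h2

/-- a parameter `t` such that `V + t (D - V)` is in the range of the edge -/
theorem rot_par {g d : ℝ} (hg : g ≠ 0) (hgd : 0 ≤ g * d) :
    ∃ t : ℝ, 0 < t ∧ t ≤ 1 ∧ ((0 ≤ t * d ∧ t * d ≤ g) ∨ (g ≤ t * d ∧ t * d ≤ 0)) := by
  rcases lt_or_gt_of_ne hg with h | h
  · have hd : d ≤ 0 := by
      by_contra hcon
      push Not at hcon
      nlinarith
    by_cases h1 : g ≤ d
    · exact ⟨1, one_pos, le_rfl, Or.inr ⟨by linarith, by linarith⟩⟩
    · push Not at h1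
      have hd0 : d < 0 := by linarith
      refine ⟨g / d, div_pos_of_neg_of_neg h hd0, ?_, Or.inr ?_⟩
      · rw [div_le_one_of_neg hd0]; exact h1.le
      · rw [div_mul_cancel₀ _ hd0.ne]
        exact ⟨le_rfl, h.le⟩
  · have hd : 0 ≤ d := by
      by_contra hcon
      push Not at hcon
      nlinarith
    by_cases h1 : d ≤ g
    · exact ⟨1, one_pos, le_rfl, Or.inl ⟨by linarith, by linarith⟩⟩
    · push Not at h1
      have hd0 : 0 < d := by linarith
      refine ⟨g / d, div_pos h hd0, ?_, Or.inl ?_⟩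
      · rw [div_le_one hd0]; exact h1.le
      · rw [div_mul_cancel₀ _ hd0.ne']
        exact ⟨h.le, le_rfl⟩

theorem rot_pos {x y : ℝ} (h : 0 < x * y) (hx : 0 ≤ x) : 0 < y := by
  by_contra hcon
  push Not at hcon
  have := mul_nonpos_of_nonneg_of_nonpos hx hcon
  linarith

/-- the cyclic order from the signs, at a vertex of a monotone polygon -/
theorem rot_order {V B C D : Pt} (hb : B.1 - V.1 ≠ 0) (hc : C.1 - V.1 ≠ 0)
    (h1 : 0 ≤ (C.1 - V.1) * (D.1 - V.1) → 0 < orient V C D)
    (h2 : 0 ≤ (B.1 - V.1) * (D.1 - V.1) → 0 < orient V D B)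
    (h3 : 0 < (B.1 - V.1) * (C.1 - V.1) → 0 ≤ (C.1 - V.1) * (D.1 - V.1)) :
    CycOrder V B C D := by
  have hl := rot_lin V B C D
  set β := B.1 - V.1 with hβ
  set g := C.1 - V.1 with hg
  set δ := D.1 - V.1 with hδ
  have hbc : β * g ≠ 0 := mul_ne_zero hb hc
  rcases lt_or_gt_of_ne hbc with h | h
  · -- opposite sides
    rcases le_or_gt 0 (g * δ) with h4 | h4
    · have h5 := h1 h4
      rcases le_or_gt 0 (β * δ) with h6 | h6
      · exact Or.inr (Or.inl ⟨h5, h2 h6⟩)
      · rcases lt_or_ge 0 (orient V B C) with h7 | h7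
        · exact Or.inl ⟨h7, h5⟩
        · refine Or.inr (Or.inl ⟨h5, ?_⟩)
          have e : g * g * orient V D B = -(β * g) * orient V C D + (g * δ) * -orient V B C := by
            linear_combination g * hl
          have h8 : 0 < -(β * g) * orient V C D := mul_pos (by linarith) h5
          have h9 : 0 ≤ (g * δ) * -orient V B C := mul_nonneg h4 (by linarith)
          have h10 : 0 < g * g * orient V D B := by rw [e]; linarith
          exact rot_pos h10 (mul_self_nonneg g)
    · have h6 : 0 ≤ β * δ := by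
        have e : (β * g) * (g * δ) = (β * δ) * (g * g) := by ring
        have h7 : 0 < (β * g) * (g * δ) := mul_pos_of_neg_of_neg h h4
        rw [e, mul_comm] at h7
        exact (rot_pos h7 (mul_self_nonneg g)).le
      have h5 := h2 h6
      rcases lt_or_ge 0 (orient V B C) with h7 | h7
      · exact Or.inr (Or.inr ⟨h5, h7⟩)
      · refine Or.inr (Or.inl ⟨?_, h5⟩)
        have e : β * β * orient V C D = -(β * g) * orient V D B + (β * δ) * -orient V B C := by
          linear_combination β * hl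
        have h8 : 0 < -(β * g) * orient V D B := mul_pos (by linarith) h5
        have h9 : 0 ≤ (β * δ) * -orient V B C := mul_nonneg h6 (by linarith)
        have h10 : 0 < β * β * orient V C D := by rw [e]; linarith
        exact rot_pos h10 (mul_self_nonneg β)
  · -- extreme vertex
    have h4 := h3 h
    have h6 : 0 ≤ β * δ := by
      have e : (β * g) * (g * δ) = (β * δ) * (g * g) := by ring
      have h7 : 0 ≤ (β * g) * (g * δ) := mul_nonneg h.le h4
      rw [e] at h7
      exact nonneg_of_mul_nonneg_left h7 (mul_self_pos.2 hc)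
    exact Or.inr (Or.inl ⟨h1 h4, h2 h6⟩)

/-! ### triangulations -/

theorem IsEdge.symm {α : Type} {T : α → α → α → Prop} {a b : α} (h : IsEdge T a b) :
    IsEdge T b a := by
  obtain ⟨c, h⟩ := h
  exact ⟨c, h.symm⟩

section

variable {n m r : ℕ} {P : Fin n → Pt} {S : Fin m → Pt}
    {T : Fin n ⊕ Fin m → Fin n ⊕ Fin m → Fin n ⊕ Fin m → Prop}

theorem rot_comb (hM : Mono P r) (hT : IsTriangulation P S T) : Comb T :=
  bridge1 hM.isSimple hM.local_edge hM.nhds hT

theorem rot_ne (hT : IsTriangulation P S T) {v d : Fin n ⊕ Fin m} (h : IsEdge T v d) :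
    pos P S v ≠ pos P S d := by
  obtain ⟨e, h | h⟩ := h
  · exact br1_ab (hT.ccw _ _ _ h)
  · exact (br1_ab (hT.ccw _ _ _ h)).symm

theorem rot_N (hT : IsTriangulation P S T) {v d b : Fin n ⊕ Fin m} (h : IsEdge T v d)
    (hb : pos P S b ∈ openSegment ℝ (pos P S v) (pos P S d)) : False := by
  obtain ⟨e, h | h⟩ := h
  · exact br1_N hT h hb
  · exact br1_N hT h (by rwa [openSegment_symm])

theorem rot_int (hT : IsTriangulation P S T) {v d a b c : Fin n ⊕ Fin m} (h : IsEdge T v d)
    (ht : T a b c) {q : Pt} (hq : q ∈ openSegment ℝ (pos P S v) (pos P S d))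
    (hqi : q ∈ interior (tri (pos P S a) (pos P S b) (pos P S c))) : d = a ∨ d = b ∨ d = c := by
  have key : ∀ x y e, T x y e → q ∈ openSegment ℝ (pos P S x) (pos P S y) →
      ({a, b, c} : Set (Fin n ⊕ Fin m)) = {x, y, e} := by
    intro x y e h hq
    have hc := hT.ccw _ _ _ h
    obtain ⟨w, hw, hw1, hw2⟩ := ((br1_left (br1_ab hc) (br1_on hq)).and_eventually
      ((br1_near hc hq).and (isOpen_interior.mem_nhds hqi))).exists
    exact hT.disj _ _ _ _ _ _ ht h ⟨w, hw2, hw1 hw⟩
  obtain ⟨e, h | h⟩ := h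
  · have h1 := key _ _ _ h hq
    have h2 : d ∈ ({a, b, c} : Set (Fin n ⊕ Fin m)) := by rw [h1]; simp
    simpa using h2
  · have h1 := key _ _ _ h (by rwa [openSegment_symm])
    have h2 : d ∈ ({a, b, c} : Set (Fin n ⊕ Fin m)) := by rw [h1]; simp
    simpa using h2

/-- no neighbour inside a triangle at `v` -/
theorem rot_A (hT : IsTriangulation P S T) {v b c d : Fin n ⊕ Fin m} (h : T v b c)
    (hd : IsEdge T v d) (hdb : d ≠ b) (hdc : d ≠ c) :
    CycOrder (pos P S v) (pos P S b) (pos P S c) (pos P S d) := by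
  have hc := hT.ccw _ _ _ h
  have hne := rot_ne hT hd
  by_contra hcon
  have h1 : orient (pos P S v) (pos P S c) (pos P S d) ≤ 0 := by
    by_contra h1
    push Not at h1
    exact hcon (Or.inl ⟨hc, h1⟩)
  have h2 : orient (pos P S v) (pos P S d) (pos P S b) ≤ 0 := by
    by_contra h2
    push Not at h2
    exact hcon (Or.inr (Or.inr ⟨h2, hc⟩))
  have e1 : orient (pos P S v) (pos P S d) (pos P S c) =
      -orient (pos P S v) (pos P S c) (pos P S d) := by unfold orient; ring
  have e2 : orient (pos P S v) (pos P S b) (pos P S d) =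
      -orient (pos P S v) (pos P S d) (pos P S b) := by unfold orient; ring
  have hl1 := rot_lin (pos P S v) (pos P S b) (pos P S c) (pos P S d)
  have hl2 := rot_lin2 (pos P S v) (pos P S b) (pos P S c) (pos P S d)
  rcases h2.lt_or_eq with h2' | h2'
  · rcases h1.lt_or_eq with h1' | h1'
    · obtain ⟨q, hq, hqi⟩ := rot_cone hc (by rw [e2]; linarith) (by rw [e1]; linarith)
      rcases rot_int hT hd h hq hqi with h3 | h3 | h3
      · rw [h3] at hne; exact hne rfl
      · exact hdb h3
      · exact hdc h3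
    · -- on the ray towards `c`
      rw [h1'] at hl1 hl2
      have ht : 0 < -orient (pos P S v) (pos P S d) (pos P S b) /
          orient (pos P S v) (pos P S b) (pos P S c) := div_pos (by linarith) hc
      have hcne := hc.ne'
      rcases rot_ray (V := pos P S v) (B := pos P S c) (D := pos P S d) ht
        (by field_simp; linarith) (by field_simp; linarith)
        (fun h => hdc (hT.inj h)) with h3 | h3
      · exact rot_N hT (v := v) (d := c) ⟨b, Or.inr (hT.rot _ _ _ (hT.rot _ _ _ h))⟩ h3
      · exact rot_N hT hd h3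
  · -- on the ray towards `b`, or `d = v`
    rw [h2'] at hl1 hl2
    rcases h1.lt_or_eq with h1' | h1'
    · have ht : 0 < -orient (pos P S v) (pos P S c) (pos P S d) /
          orient (pos P S v) (pos P S b) (pos P S c) := div_pos (by linarith) hc
      have hcne := hc.ne'
      rcases rot_ray (V := pos P S v) (B := pos P S b) (D := pos P S d) ht
        (by field_simp; linarith) (by field_simp; linarith)
        (fun h => hdb (hT.inj h)) with h3 | h3
      · exact rot_N hT (v := v) (d := b) ⟨c, Or.inl h⟩ h3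
      · exact rot_N hT hd h3
    · rw [h1'] at hl1 hl2
      apply hne
      have hcne := hc.ne'
      have f1 : (pos P S d).1 - (pos P S v).1 = 0 := by
        rcases mul_eq_zero.1 (by linarith : ((pos P S d).1 - (pos P S v).1) *
          orient (pos P S v) (pos P S b) (pos P S c) = 0) with h | h
        · exact h
        · exact absurd h hcne
      have f2 : (pos P S d).2 - (pos P S v).2 = 0 := by
        rcases mul_eq_zero.1 (by linarith : ((pos P S d).2 - (pos P S v).2) *
          orient (pos P S v) (pos P S b) (pos P S c) = 0) with h | h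
        · exact h
        · exact absurd h hcne
      exact Prod.ext (by linarith) (by linarith)

theorem rot_seg (hT : IsTriangulation P S T) {v d : Fin n ⊕ Fin m} (h : IsEdge T v d) :
    segment ℝ (pos P S v) (pos P S d) ⊆ region P := by
  obtain ⟨e, h | h⟩ := h
  · exact (segment_subset_tri _ _ _).trans (br1_tri_sub hT h)
  · rw [segment_symm]
    exact (segment_subset_tri _ _ _).trans (br1_tri_sub hT h)

/-- an edge to the right of a polygon edge stays on its left -/
theorem rot_side (hM : Mono P r) {j : Fin n} {V W D : Pt} (hs : segment ℝ V D ⊆ region P)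
    (hV : (V = P j ∧ W = P (nx j)) ∨ (V = P (nx j) ∧ W = P j)) (hW : W.1 - V.1 ≠ 0)
    (h : 0 ≤ (W.1 - V.1) * (D.1 - V.1)) : 0 ≤ orient (P j) (P (nx j)) D := by
  obtain ⟨t, ht0, ht1, ht⟩ := rot_par hW h
  have hz : (1 - t) • V + t • D ∈ region P :=
    hs ⟨1 - t, t, by linarith, ht0.le, by ring, rfl⟩
  have hz1 : ((1 - t) • V + t • D).1 = V.1 + t * (D.1 - V.1) := by
    simp only [Prod.fst_add, Prod.smul_fst, smul_eq_mul]; ring
  have hsp : span P j ((1 - t) • V + t • D).1 := by
    rw [hz1]
    unfold span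
    rcases hV with ⟨h1, h2⟩ | ⟨h1, h2⟩
    · rw [← h1, ← h2]
      rcases ht with ⟨h3, h4⟩ | ⟨h3, h4⟩
      · left; constructor <;> linarith
      · right; constructor <;> linarith
    · rw [← h1, ← h2]
      rcases ht with ⟨h3, h4⟩ | ⟨h3, h4⟩
      · right; constructor <;> linarith
      · left; constructor <;> linarith
  have h5 := hM.reg_edge hz j hsp
  rw [tgeo_orient_comb _ _ _ _ _ _ (by ring : 1 - t + t = 1)] at h5
  have h6 : orient (P j) (P (nx j)) V = 0 := by
    rcases hV with ⟨h1, h2⟩ | ⟨h1, h2⟩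
    · rw [h1]; exact tgeo_orient_self _ _
    · rw [h1]; exact tgeo_orient_self' _ _
  rw [h6, mul_zero, zero_add] at h5
  exact nonneg_of_mul_nonneg_right h5 ht0

/-- a neighbour of a vertex of the polygon is not on the line of a polygon edge, on the side of
the edge -/
theorem rot_strict (hM : Mono P r) (hT : IsTriangulation P S T) {v w d : Fin n ⊕ Fin m}
    {j : Fin n} (hvw : (v = Sum.inl j ∧ w = Sum.inl (nx j)) ∨ (v = Sum.inl (nx j) ∧ w = Sum.inl j))
    (hd : IsEdge T v d) (hdw : d ≠ w) (hW : (pos P S w).1 - (pos P S v).1 ≠ 0)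
    (h : 0 ≤ ((pos P S w).1 - (pos P S v).1) * ((pos P S d).1 - (pos P S v).1)) :
    orient (pos P S v) (pos P S w) (pos P S d) ≠ 0 := by
  intro h0
  have hne := rot_ne hT hd
  have hM' : pos P S d ∈ openSegment ℝ (pos P S v) (pos P S w) → False := by
    intro h1
    rcases hvw with ⟨h2, h3⟩ | ⟨h2, h3⟩
    · rw [h2, h3] at h1
      exact br1_M hM.isSimple hT h1
    · rw [h2, h3, openSegment_symm] at h1
      exact br1_M hM.isSimple hT h1
  set V := pos P S v with hV
  set W := pos P S w with hWd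
  set D := pos P S d with hD
  have h1 : (W.1 - V.1) * (D.2 - V.2) = (W.2 - V.2) * (D.1 - V.1) := by
    unfold orient at h0; linarith
  have h2 : 0 < (D.1 - V.1) / (W.1 - V.1) := by
    rcases h.lt_or_eq with h3 | h3
    · have : (D.1 - V.1) / (W.1 - V.1) = ((W.1 - V.1) * (D.1 - V.1)) / ((W.1 - V.1) ^ 2) := by
        field_simp
      rw [this]
      positivity
    · exfalso
      rcases mul_eq_zero.1 h3.symm with h4 | h4
      · exact hW h4
      · rw [h4, mul_zero] at h1
        rcases mul_eq_zero.1 h1 with h5 | h5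
        · exact hW h5
        · exact hne (Prod.ext (by linarith) (by linarith))
  rcases rot_ray (V := V) (B := W) (D := D) h2 (by field_simp)
    (by field_simp; linarith) (fun h => hdw (hT.inj h)) with h3 | h3
  · exact hM' h3
  · exact rot_N hT hd h3

/-- the outer angle -/
theorem rot_B (hM : Mono P r) (hT : IsTriangulation P S T) (i : Fin n) {d : Fin n ⊕ Fin m}
    (hd : IsEdge T (Sum.inl (nx i)) d) (h1 : d ≠ Sum.inl i) (h2 : d ≠ Sum.inl (nx (nx i))) :
    CycOrder (pos P S (Sum.inl (nx i))) (pos P S (Sum.inl i)) (pos P S (Sum.inl (nx (nx i))))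
      (pos P S d) := by
  have hrn := hM.rn
  have hr0 := hM.r0
  have hs := rot_seg hT hd
  have hb : (P i).1 - (P (nx i)).1 ≠ 0 := by
    rcases Nat.lt_or_ge i.val r with h | h
    · have := hM.inc i h; intro h3; linarith
    · have := hM.dec i h; intro h3; linarith
  have hc : (P (nx (nx i))).1 - (P (nx i)).1 ≠ 0 := by
    rcases Nat.lt_or_ge (nx i).val r with h | h
    · have := hM.inc (nx i) h; intro h3; linarith
    · have := hM.dec (nx i) h; intro h3; linarith
  refine rot_order (V := pos P S (Sum.inl (nx i))) (B := pos P S (Sum.inl i))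
    (C := pos P S (Sum.inl (nx (nx i)))) (D := pos P S d) hb hc ?_ ?_ ?_
  · intro h
    have h3 := rot_side hM (j := nx i) (V := pos P S (Sum.inl (nx i)))
      (W := pos P S (Sum.inl (nx (nx i)))) (D := pos P S d) hs (Or.inl ⟨rfl, rfl⟩) hc h
    have h4 := rot_strict hM hT (j := nx i) (Or.inl ⟨rfl, rfl⟩) hd h2 hc h
    exact lt_of_le_of_ne h3 (Ne.symm h4)
  · intro h
    have h3 := rot_side hM (j := i) (V := pos P S (Sum.inl (nx i)))
      (W := pos P S (Sum.inl i)) (D := pos P S d) hs (Or.inr ⟨rfl, rfl⟩) hb h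
    have h4 := rot_strict hM hT (j := i) (Or.inr ⟨rfl, rfl⟩) hd h1 hb h
    have e : orient (pos P S (Sum.inl (nx i))) (pos P S d) (pos P S (Sum.inl i)) =
        orient (P i) (P (nx i)) (pos P S d) :=
      orient_rot (P i) (P (nx i)) (pos P S d)
    have e' : orient (pos P S (Sum.inl (nx i))) (pos P S d) (pos P S (Sum.inl i)) =
        -orient (pos P S (Sum.inl (nx i))) (pos P S (Sum.inl i)) (pos P S d) := by
      unfold orient; ring
    rw [e]
    refine lt_of_le_of_ne h3 fun h5 => h4 ?_
    rw [e, ← h5] at e'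
    linarith
  · intro h
    have hD : pos P S d ∈ region P := hs (right_mem_segment ℝ _ _)
    obtain ⟨x₀, x₁, L, U, hLU⟩ := mreg_exists hM
    have hD' := (hLU.mem_region hM _).1 hD
    show 0 ≤ ((P (nx (nx i))).1 - (P (nx i)).1) * ((pos P S d).1 - (P (nx i)).1)
    have h' : 0 < ((P i).1 - (P (nx i)).1) * ((P (nx (nx i))).1 - (P (nx i)).1) := h
    rcases Nat.lt_or_ge i.val r with h3 | h3
    · have h3' := hM.inc i h3
      have h4 : (nx i).val = i.val + 1 := mreg_nx_lt (by omega)
      rcases Nat.lt_or_ge (nx i).val r with h5 | h5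
      · have h5' := hM.inc (nx i) h5
        nlinarith
      · have h5' := hM.dec (nx i) h5
        have h6 : (P (nx i)).1 = x₁ := hLU.v1 _ (by omega)
        rw [h6] at h5' ⊢
        nlinarith [hD'.2.1]
    · have h3' := hM.dec i h3
      rcases Nat.lt_or_ge (nx i).val r with h5 | h5
      · have h5' := hM.inc (nx i) h5
        have h7 : (nx i).val = 0 := by
          by_cases h8 : i.val + 1 < n
          · rw [mreg_nx_lt h8] at h5
            omega
          · exact mreg_nx_last (by have := i.isLt; omega)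
        have h6 : (P (nx i)).1 = x₀ := hLU.v0 _ h7
        rw [h6] at h5' ⊢
        nlinarith [hD'.1]
      · have h5' := hM.dec (nx i) h5
        nlinarith

theorem rot_nx2 (hn : 3 ≤ n) (i : Fin n) : i ≠ nx (nx i) := by
  intro h
  have h1 : i.val = (nx (nx i)).val := congrArg Fin.val h
  have hi := i.isLt
  by_cases h2 : i.val + 1 < n
  · have h3 := mreg_nx_lt h2
    by_cases h4 : (nx i).val + 1 < n
    · have h5 := mreg_nx_lt h4
      omega
    · have h5 := mreg_nx_last (i := nx i) (by omega)
      omega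
  · have h3 := mreg_nx_last (i := i) (by omega)
    have h5 := mreg_nx_lt (i := nx i) (by omega)
    omega

theorem rot_out_next (hM : Mono P r) (hT : IsTriangulation P S T) (i : Fin n) :
    Next (pos P S) T (Sum.inl (nx i)) (Sum.inl i) (Sum.inl (nx (nx i))) := by
  have hC := rot_comb hM hT
  obtain ⟨c, hc⟩ := hC.bd i
  obtain ⟨c', hc'⟩ := hC.bd (nx i)
  refine ⟨⟨c, Or.inr hc⟩, ⟨c', Or.inl hc'⟩, ?_, ?_⟩
  · intro h
    exact rot_nx2 hM.n3 i (Sum.inl.inj h)
  · intro d hd h1 h2
    exact rot_B hM hT i hd h1 h2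

theorem rot_in_next (hT : IsTriangulation P S T) {v b c : Fin n ⊕ Fin m} (h : T v b c) :
    Next (pos P S) T v b c := by
  refine ⟨⟨c, Or.inl h⟩, ⟨b, Or.inr (hT.rot _ _ _ (hT.rot _ _ _ h))⟩, ?_, ?_⟩
  · rintro rfl
    exact br1_ab (hT.ccw _ _ _ (hT.rot _ _ _ h)) rfl
  · intro d hd h1 h2
    exact rot_A hT h hd h1 h2

theorem rot_next_uniq {p : Fin n ⊕ Fin m → Pt} {v b c c' : Fin n ⊕ Fin m}
    (h : Next p T v b c) (h' : Next p T v b c') : c = c' := by
  by_contra hne
  exact rot_anti (h.2.2.2 c' h'.2.1 h'.2.2.1.symm (Ne.symm hne))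
    (h'.2.2.2 c h.2.1 h.2.2.1.symm hne)

end

/-- The successor of `b` in the rotation at `v`: the third corner of the triangle to the left of
the edge from `v` to `b`; at a vertex `v = nx i` of the polygon, the successor of `i` is
`nx (nx i)`. -/
theorem next_iff {n m r : ℕ} {P : Fin n → Pt} {S : Fin m → Pt}
    {T : Fin n ⊕ Fin m → Fin n ⊕ Fin m → Fin n ⊕ Fin m → Prop} (hM : Mono P r)
    (hT : IsTriangulation P S T) (v b c : Fin n ⊕ Fin m) :
    Next (pos P S) T v b c ↔ T v b c ∨
      ∃ i : Fin n, v = Sum.inl (nx i) ∧ b = Sum.inl i ∧ c = Sum.inl (nx (nx i)) := by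
  constructor
  · intro h
    by_cases hex : ∃ c', T v b c'
    · obtain ⟨c', hc'⟩ := hex
      left
      rw [rot_next_uniq h (rot_in_next hT hc')]
      exact hc'
    · right
      obtain ⟨e, he | he⟩ := h.1
      · exact absurd ⟨e, he⟩ hex
      · rcases (rot_comb hM hT).edge _ _ _ he with ⟨i, h1, h2⟩ | h1
        · subst h1; subst h2
          exact ⟨i, rfl, rfl, rot_next_uniq h (rot_out_next hM hT i)⟩
        · exact absurd h1 hex
  · rintro (h | ⟨i, rfl, rfl, rfl⟩)
    · exact rot_in_next hT h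
    · exact rot_out_next hM hT i

theorem rot_sub {n m r r' : ℕ} {P Q : Fin n → Pt} {S S' : Fin m → Pt}
    {T T' : Fin n ⊕ Fin m → Fin n ⊕ Fin m → Fin n ⊕ Fin m → Prop} (hP : Mono P r)
    (hQ : Mono Q r') (hT : IsTriangulation P S T) (hT' : IsTriangulation Q S' T')
    (h : ∀ v b c, Next (pos P S) T v b c ↔ Next (pos Q S') T' v b c) (v b c : Fin n ⊕ Fin m)
    (hv : T v b c) : T' v b c := by
  have h1 := (h v b c).1 ((next_iff hP hT v b c).2 (Or.inl hv))
  rcases (next_iff hQ hT' v b c).1 h1 with h2 | ⟨i, rfl, rfl, rfl⟩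
  · exact h2
  · exact ((rot_comb hP hT).nobd _ _ hv).elim

/-- compatible triangulations of monotone polygons -/
theorem compatible_iff {n r r' k : ℕ} {P Q : Fin n → Pt} (hP : Mono P r) (hQ : Mono Q r') :
    Compatible k P Q ↔ CompatibleT k P Q := by
  constructor
  · rintro ⟨m, hm, S, S', T, T', hT, hT', -, hN⟩
    have hTT : T = T' := by
      funext v b c
      exact propext ⟨rot_sub hP hQ hT hT' hN v b c,
        rot_sub hQ hP hT' hT (fun v b c => (hN v b c).symm) v b c⟩
    subst hTT
    exact ⟨m, hm, S, S', T, hT, hT'⟩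
  · rintro ⟨m, hm, S, S', T, hT, hT'⟩
    refine ⟨m, hm, S, S', T, T, hT, hT', fun _ _ => Iff.rfl, fun v b c => ?_⟩
    rw [next_iff hP hT, next_iff hQ hT']

end Pool.Agent.Lib57.CT
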