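import Mathlib
import Pool.Agent.Lib_helper57.CookLevin
import Pool.Agent.Lib_helper57.CT.EmitFinal
import Pool.Agent.Lib_helper57.CT.InstNum
import Pool.Agent.Lib_helper57.CT.Subset
import Pool.Agent.Lib_helper57.CT.Rot

/-! NP-hardness of the compatible triangulation problem for simple polygons. -/

namespace Pool.Agent.Lib57.CT

open Finset

variable {D : DCNF}

theorem sum_iA (hD : D.Good 5) (x : List Bool) :
    ∑ i ∈ range (iN D x), iA D x i = tS D x + tS1 D x := by
  rw [← sum_av hD x, ← sum_range_reflect (fun j => av D x j) (nItem D x)]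
  have e : iN D x = nItem D x + 1 := rfl
  rw [e, sum_range_succ]
  have h1 : iA D x (nItem D x) = 0 := by unfold iA; rw [if_neg (by omega)]
  rw [h1, add_zero]
  refine sum_congr rfl fun i hi => ?_
  have hi' := mem_range.1 hi
  unfold iA
  rw [if_pos hi']

theorem nums (hD : D.Good 5) (x : List Bool) :
    Nums (iN D x) (iM D x) (iMQ D x) (iS D x) (2 ^ (8 * nCol D x)) (tS D x) (tS1 D x)
      (iA D x) := by
  have hlt : iN D x < 2 ^ iN D x := Nat.lt_two_pow_self
  constructor
  · unfold iN; omega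
  · intro i hi
    have : iN D x = nItem D x + 1 := rfl
    unfold iA
    rw [if_neg (by omega)]
  · exact sum_iA hD x
  · have := tS_add_lt hD x
    rw [pow_mul]
    norm_num
    exact this
  · have e : 2 ^ iS D x = 2 ^ iN D x * 1024 := by unfold iS; rw [pow_add]; norm_num
    rw [e]; nlinarith
  · have e : 2 ^ iM D x = 2 * (2 ^ (8 * nCol D x) * (2 ^ (8 * nCol D x) * 2 ^ iN D x * 1024)) := by
      unfold iM; rw [pow_add, pow_add, pow_add, pow_add]; norm_num
    rw [e]
    have h1 : 1000 * iN D x ≤ 2 * (2 ^ iN D x * 1024) := by omega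
    calc 1000 * iN D x * 2 ^ (8 * nCol D x) * 2 ^ (8 * nCol D x)
        = (1000 * iN D x) * (2 ^ (8 * nCol D x) * 2 ^ (8 * nCol D x)) := by ring
      _ ≤ (2 * (2 ^ iN D x * 1024)) * (2 ^ (8 * nCol D x) * 2 ^ (8 * nCol D x)) :=
        Nat.mul_le_mul_right _ h1
      _ = _ := by ring
  · have e : 2 ^ iMQ D x = 2 ^ iS D x * 16 * (2 ^ (8 * nCol D x) *
        (2 ^ (8 * nCol D x) * 2 ^ iN D x * 2 ^ iS D x * 8192)) := by
      unfold iMQ; rw [pow_add, pow_add, pow_add, pow_add, pow_add, pow_add]; norm_num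
    rw [e]
    have h1 : 100000 * iN D x ≤ 16 * 8192 * 2 ^ iN D x := by omega
    calc 100000 * iN D x * (2 ^ iS D x * 2 ^ (8 * nCol D x)) *
          (2 ^ iS D x * 2 ^ (8 * nCol D x))
        = (100000 * iN D x) * ((2 ^ iS D x * 2 ^ (8 * nCol D x)) *
          (2 ^ iS D x * 2 ^ (8 * nCol D x))) := by ring
      _ ≤ (16 * 8192 * 2 ^ iN D x) * ((2 ^ iS D x * 2 ^ (8 * nCol D x)) *
          (2 ^ iS D x * 2 ^ (8 * nCol D x))) := Nat.mul_le_mul_right _ h1
      _ = _ := by ring

theorem inst_S_le {N m mq s M S S1 : ℕ} {a : ℕ → ℕ} (h : Nums N m mq s M S S1 a) :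
    2 * S + 1 ≤ 2 ^ m := by
  have h1 := h.hm
  have h2 := h.lt
  have h3 := h.hN
  have h4 : 2 * S + 1 ≤ 2 * M := by omega
  have h5 : 2 * M ≤ 1000 * N * M * M := by
    have hM : 1 ≤ M := by omega
    calc 2 * M ≤ 1000 * M := by omega
      _ ≤ 1000 * N * M := by nlinarith
      _ = 1000 * N * M * 1 := by ring
      _ ≤ 1000 * N * M * M := Nat.mul_le_mul_left _ hM
  omega

/-- sums over the rooms are sums over the items -/
theorem sum_rooms (x : List Bool) (e χ : ℕ → Bool) (v : Bool)
    (h : ∀ i < nItem D x, e i = χ (nItem D x - 1 - i)) :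
    ∑ i ∈ (range (iN D x)).filter (fun i => e i = v), iA D x i =
      ∑ j ∈ (range (nItem D x)).filter (fun j => χ j = v), av D x j := by
  rw [sum_filter, sum_filter, ← sum_range_reflect (fun j => if χ j = v then av D x j else 0)]
  have e' : iN D x = nItem D x + 1 := rfl
  rw [e', sum_range_succ]
  have h1 : iA D x (nItem D x) = 0 := by unfold iA; rw [if_neg (by omega)]
  have h2 : (if e (nItem D x) = v then iA D x (nItem D x) else 0) = 0 := by
    rw [h1]; split_ifs <;> rfl
  rw [h2, add_zero]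
  refine sum_congr rfl fun i hi => ?_
  have hi' := mem_range.1 hi
  rw [h i hi']
  have h3 : iA D x i = av D x (nItem D x - 1 - i) := by unfold iA; rw [if_pos hi']
  rw [h3]

theorem inst_sat (hD : D.Good 5) (x : List Bool) :
    Compatible (iN D x) (toPts (instP (iN D x) (iM D x) (tS D x) (iA D x)))
      (toPts (instQ (iN D x) (iMQ D x) (iS D x) (tS1 D x) (iA D x))) ↔ D.Sat x := by
  have hn := nums hD x
  have hMP : Mono (toPts (instP (iN D x) (iM D x) (tS D x) (iA D x))) (iN D x + 2) := by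
    rw [toPts_instP (inst_S_le hn)]
    exact PP_mono (inst_GP hn)
  have hMQ : Mono (toPts (instQ (iN D x) (iMQ D x) (iS D x) (tS1 D x) (iA D x)))
      (iN D x + 1) := by
    rw [toPts_instQ]
    exact QQ_mono (inst_GQ hn)
  rw [compatible_iff hMP hMQ, inst_iff hn, subset_iff hD x]
  constructor
  · rintro ⟨e, -, h1, h2⟩
    refine ⟨fun j => e (nItem D x - 1 - j), ?_, ?_⟩
    · rw [← sum_rooms x e _ false (fun i hi => by congr 1; omega)]; exact h1
    · rw [← sum_rooms x e _ true (fun i hi => by congr 1; omega)]; exact h2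
  · rintro ⟨χ, h1, h2⟩
    refine ⟨fun i => if i < nItem D x then χ (nItem D x - 1 - i) else false, ?_, ?_, ?_⟩
    · have : iN D x = nItem D x + 1 := rfl
      simp [this]
    · rw [sum_rooms x _ χ false (fun i hi => by simp [hi])]; exact h1
    · rw [sum_rooms x _ χ true (fun i hi => by simp [hi])]; exact h2

/-- The compatible triangulation problem for simple polygons is NP-hard: every problem in NP has
a polynomial time reduction to it, all of whose outputs are valid instances. -/
theorem compatTri_hard (L : N68a2faeb.DecisionProblem) (hL : L ∈ N68a2faeb.NP) :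
    ∃ f : List Bool → List Bool, N68a2faeb.IsPolyTime f ∧ ∀ x,
      ∃ (n : ℕ) (P Q : Fin n → ℚ × ℚ) (k : ℕ), f x = encodeInst P Q k ∧ ValidInst P Q ∧
        (L x = true ↔ Compatible k (toPts P) (toPts Q)) := by
  obtain ⟨D, hD, hDS⟩ := cook_levin L hL
  refine ⟨_, isPolyTime_of_isEmit (emit_inst hD), fun x => ?_⟩
  exact ⟨_, _, _, _, rfl, inst_valid (nums hD x), by rw [inst_sat hD x, hDS x]⟩

/-- different instances have different codes -/
theorem encodeInst_inj {n n' : ℕ} {P Q : Fin n → ℚ × ℚ} {P' Q' : Fin n' → ℚ × ℚ} {k k' : ℕ}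
    (h : encodeInst P Q k = encodeInst P' Q' k') :
    ∃ e : n = n', P = P' ∘ Fin.cast e ∧ Q = Q' ∘ Fin.cast e ∧ k = k' := by
  have h1 := N487b59b3.bitEncode_injective h
  simp only [Prod.mk.injEq] at h1
  obtain ⟨hP, hQ, hk⟩ := h1
  have hn : n = n' := by
    have := congrArg List.length hP
    simpa using this
  subst hn
  refine ⟨rfl, ?_, ?_, hk⟩
  · simpa using List.ofFn_injective hP
  · simpa using List.ofFn_injective hQ

open Classical in
theorem CompatTri_encode {n : ℕ} {P Q : Fin n → ℚ × ℚ} {k : ℕ} (hv : ValidInst P Q) :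
    CompatTri (encodeInst P Q k) = true ↔ Compatible k (toPts P) (toPts Q) := by
  unfold CompatTri
  rw [decide_eq_true_iff]
  constructor
  · rintro ⟨n', P', Q', k', he, -, h⟩
    obtain ⟨e, hP, hQ, hk⟩ := encodeInst_inj he
    subst e
    subst hk
    have e1 : P = P' := hP
    have e2 : Q = Q' := hQ
    rw [e1, e2]; exact h
  · intro h
    exact ⟨n, P, Q, k, rfl, hv, h⟩

/-- `CompatTri` is NP-hard under polynomial time many-one reductions. -/
theorem npHard_CompatTri (L : N68a2faeb.DecisionProblem) (hL : L ∈ N68a2faeb.NP) :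
    N793a5b8e.ManyOneReducible L CompatTri := by
  obtain ⟨f, hf, h⟩ := compatTri_hard L hL
  refine ⟨f, hf, fun x => ?_⟩
  obtain ⟨n, P, Q, k, hfx, hv, hL⟩ := h x
  rw [Bool.eq_iff_iff, hL, hfx, CompatTri_encode hv]

end Pool.Agent.Lib57.CT
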